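import Pool.Agent.Helper67.SY.Cv

/-!
# Project SY (MP_872606_gt): linear algebra of the almost complex structures

`dA` is the area form of `ℂ`; `al ν = dx + ν dx̄`, `be μ = dy - μ dx̄` are the (1,0)-forms of the almost complex
structure `Jn ν μ` (`‖ν‖ < 1`), `wedge (al ν) (be μ)` is a (2,0)-form.
-/

open Complex Filter Topology
open scoped ContDiff

namespace Pool.Agent.Helper67.SY

/-- The area form of `ℂ`. -/
noncomputable def dA : ℂ →L[ℝ] ℂ →L[ℝ] ℝ :=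
  (innerSL ℝ : ℂ →L[ℝ] ℂ →L[ℝ] ℝ).comp (I • ContinuousLinearMap.id ℝ ℂ)

theorem dA_apply (a b : ℂ) : dA a b = a.re * b.im - a.im * b.re := by
  unfold dA
  simp [innerSL_apply_apply, Complex.inner]
  ring

theorem dA_self (a : ℂ) : dA a a = 0 := by rw [dA_apply]; ring

theorem dA_I (a : ℂ) : dA a (I * a) = ‖a‖ ^ 2 := by
  rw [dA_apply, ← Complex.normSq_eq_norm_sq, Complex.normSq_apply]
  simp

theorem dA_mul (c a b : ℂ) : dA (c * a) (c * b) = ‖c‖ ^ 2 * dA a b := by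
  rw [dA_apply, dA_apply, ← Complex.normSq_eq_norm_sq, Complex.normSq_apply]
  simp only [Complex.mul_re, Complex.mul_im]
  ring

/-- The first coordinate `dx` and its conjugate `dx̄`, the second coordinate `dy`. -/
noncomputable def dx : E →L[ℝ] ℂ := ContinuousLinearMap.fst ℝ ℂ ℂ
noncomputable def dxb : E →L[ℝ] ℂ := (Complex.conjCLE : ℂ →L[ℝ] ℂ).comp (ContinuousLinearMap.fst ℝ ℂ ℂ)
noncomputable def dy : E →L[ℝ] ℂ := ContinuousLinearMap.snd ℝ ℂ ℂ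

theorem dx_apply (u : E) : dx u = u.1 := rfl
theorem dxb_apply (u : E) : dxb u = (starRingEnd ℂ) u.1 := rfl
theorem dy_apply (u : E) : dy u = u.2 := rfl

/-- `dx + ν dx̄` -/
noncomputable def al (ν : ℂ) : E →L[ℝ] ℂ := dx + ν • dxb
/-- `dy - μ dx̄` -/
noncomputable def be (μ : ℂ) : E →L[ℝ] ℂ := dy - μ • dxb

theorem al_apply (ν : ℂ) (u : E) : al ν u = u.1 + ν * (starRingEnd ℂ) u.1 := rfl
theorem be_apply (μ : ℂ) (u : E) : be μ u = u.2 - μ * (starRingEnd ℂ) u.1 := rfl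

/-- `(u, v) ↦ α u * β v - β u * α v` -/
noncomputable def wedge (α β : E →L[ℝ] ℂ) : E →L[ℝ] E →L[ℝ] ℂ :=
  (ContinuousLinearMap.mul ℝ ℂ).bilinearComp α β - (ContinuousLinearMap.mul ℝ ℂ).bilinearComp β α

theorem wedge_apply (α β : E →L[ℝ] ℂ) (u v : E) : wedge α β u v = α u * β v - β u * α v := rfl

/-- The almost complex structure of the first factor with the (1,0)-form `dx + ν dx̄`. -/
noncomputable def jn (ν : ℂ) : ℂ →L[ℝ] ℂ :=
  (I * (1 + ‖ν‖ ^ 2) / (1 - ‖ν‖ ^ 2)) • ContinuousLinearMap.id ℝ ℂ +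
    (2 * I * ν / (1 - ‖ν‖ ^ 2)) • (Complex.conjCLE : ℂ →L[ℝ] ℂ)

theorem jn_apply (ν ξ : ℂ) : jn ν ξ = (I * (1 + ‖ν‖ ^ 2) / (1 - ‖ν‖ ^ 2)) * ξ +
    (2 * I * ν / (1 - ‖ν‖ ^ 2)) * (starRingEnd ℂ) ξ := rfl

theorem jn_zero (ξ : ℂ) : jn 0 ξ = I * ξ := by rw [jn_apply]; simp

/-- The almost complex structure with the (1,0)-forms `dx + ν dx̄` and `dy - μ dx̄`. -/
noncomputable def Jn (ν μ : ℂ) : E →L[ℝ] E :=
  ((jn ν).comp dx).prod (I • dy - (I * μ) • dxb + μ • (Complex.conjCLE : ℂ →L[ℝ] ℂ).comp ((jn ν).comp dx))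

theorem Jn_fst (ν μ : ℂ) (u : E) : (Jn ν μ u).1 = jn ν u.1 := rfl
theorem Jn_snd (ν μ : ℂ) (u : E) : (Jn ν μ u).2 =
    I * u.2 - I * μ * (starRingEnd ℂ) u.1 + μ * (starRingEnd ℂ) (jn ν u.1) := rfl

theorem Jn_zero (u : E) : Jn 0 0 u = (I * u.1, I * u.2) := by
  refine Prod.ext ?_ ?_
  · rw [Jn_fst, jn_zero]
  · rw [Jn_snd]; simp

theorem be_Jn (ν μ : ℂ) (u : E) : be μ (Jn ν μ u) = I * be μ u := by
  rw [be_apply, be_apply, Jn_snd, Jn_fst]; ring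

/-- `dx + ν dx̄` is complex linear. -/
theorem al_jn {ν : ℂ} (hν : ‖ν‖ < 1) (ξ : ℂ) :
    jn ν ξ + ν * (starRingEnd ℂ) (jn ν ξ) = I * (ξ + ν * (starRingEnd ℂ) ξ) := by
  have h1 : (1 - (‖ν‖ : ℂ) ^ 2) ≠ 0 := by
    have : (1 - ‖ν‖ ^ 2 : ℝ) ≠ 0 := by nlinarith [norm_nonneg ν]
    exact_mod_cast this
  have h2 : (starRingEnd ℂ) ν * ν = (‖ν‖ : ℂ) ^ 2 := by
    rw [mul_comm, Complex.mul_conj, Complex.normSq_eq_norm_sq]; push_cast; ring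
  rw [jn_apply]
  simp only [map_add, map_mul, map_div₀, map_sub, map_one, map_pow, Complex.conj_ofReal, Complex.conj_I,
    Complex.conj_conj, map_ofNat]
  field_simp
  linear_combination (-(2 * ξ)) * h2

theorem al_Jn {ν : ℂ} (hν : ‖ν‖ < 1) (μ : ℂ) (u : E) : al ν (Jn ν μ u) = I * al ν u := by
  rw [al_apply, al_apply, Jn_fst]
  exact al_jn hν u.1

theorem al_inj {ν : ℂ} (hν : ‖ν‖ < 1) {ξ : ℂ} (h : ξ + ν * (starRingEnd ℂ) ξ = 0) : ξ = 0 := by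
  by_contra hne
  have h1 : ‖ξ‖ = ‖ν‖ * ‖ξ‖ := by
    have : ξ = -(ν * (starRingEnd ℂ) ξ) := eq_neg_of_add_eq_zero_left h
    calc ‖ξ‖ = ‖-(ν * (starRingEnd ℂ) ξ)‖ := by rw [← this]
      _ = ‖ν‖ * ‖ξ‖ := by rw [norm_neg, norm_mul, RCLike.norm_conj]
  have h2 : 0 < ‖ξ‖ := norm_pos_iff.mpr hne
  nlinarith

/-- The two (1,0)-forms are independent. -/
theorem albe_inj {ν : ℂ} (hν : ‖ν‖ < 1) {μ : ℂ} {u : E} (h1 : al ν u = 0) (h2 : be μ u = 0) : u = 0 := by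
  rw [al_apply] at h1
  have h3 := al_inj hν h1
  rw [be_apply, h3] at h2
  simp at h2
  exact Prod.ext h3 h2

theorem Jn_sq {ν : ℂ} (hν : ‖ν‖ < 1) (μ : ℂ) (u : E) : Jn ν μ (Jn ν μ u) = -u := by
  have h : Jn ν μ (Jn ν μ u) + u = 0 := by
    apply albe_inj hν (μ := μ)
    · rw [map_add, al_Jn hν, al_Jn hν]
      linear_combination (al ν u) * Complex.I_sq
    · rw [map_add, be_Jn, be_Jn]
      linear_combination (be μ u) * Complex.I_sq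
  exact eq_neg_of_add_eq_zero_left h

theorem wedge_type {ν : ℂ} (hν : ‖ν‖ < 1) (μ : ℂ) : IsTwoZero (Jn ν μ) (wedge (al ν) (be μ)) := by
  refine ⟨fun u => ?_, fun u v => ?_⟩
  · rw [wedge_apply]; ring
  · rw [wedge_apply, wedge_apply, al_Jn hν, be_Jn]; ring

theorem al_type {ν : ℂ} (hν : ‖ν‖ < 1) (μ : ℂ) : IsOneZero (Jn ν μ) (al ν) := fun u => al_Jn hν μ u

end Pool.Agent.Helper67.SY
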