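import Pool.Agent.Helper67.SY.Df

/-!
# Project SY: curves in the 4-torus

`Curve` collects what is used of a `Multisection` (helper42) with two branch points and two 6-fold points; `C` is a
periodic subset of `ℂ × ℂ`. `IsEqn D W σ`: the function `σ` is, on the open set `W`, an equation of the curve.
-/

open Complex Filter Topology
open scoped ContDiff

namespace Pool.Agent.Helper67.SY

/-- The vectors of the lattice `p ℤ × q ℤ × M ℤ × M ℤ`. -/
noncomputable def vec (p q M : ℕ) (n : Fin 4 → ℤ) : E :=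
  (⟨(n 0 : ℝ) * p, (n 1 : ℝ) * q⟩, ⟨(n 2 : ℝ) * M, (n 3 : ℝ) * M⟩)

/-- Equation of a surface with one simple branch point at `b`. -/
noncomputable def brEqn (b : E) (A : ℂ →L[ℝ] ℂ) : E → ℂ := fun z => (z.2 - b.2) ^ 2 - A (z.1 - b.1)

/-- Equation of six complex lines through `c`. -/
noncomputable def clEqn (c : E) (a : Fin 6 → ℂ) : E → ℂ := fun z => ∏ i, (z.2 - c.2 - a i * (z.1 - c.1))

/-- A periodic curve in `ℂ × ℂ`, smooth and a graph over the first coordinate except at two points `b j` (simple branch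
points) and two points `c j` (ordinary 6-fold points with complex tangents), up to the lattice. -/
structure Curve where
  p : ℕ
  q : ℕ
  M : ℕ
  hp : 0 < p
  hq : 0 < q
  hM : 0 < M
  C : Set E
  c : Fin 2 → E
  b : Fin 2 → E
  a : Fin 2 → Fin 6 → ℂ
  A : Fin 2 → ℂ →L[ℝ] ℂ
  r : ℝ
  hr : 0 < r
  hr8 : 8 * r < 1
  a_inj : ∀ j, Function.Injective (a j)
  A_det : ∀ j, 0 < (A j).det
  closed : IsClosed C
  periodic : ∀ n z, z + vec p q M n ∈ C ↔ z ∈ C
  sep_c : ∀ j j' n, ‖(c j - (c j' + vec p q M n)).1‖ < 4 * r → j = j' ∧ n 0 = 0 ∧ n 1 = 0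
  sep_b : ∀ j j' n, ‖(b j - (b j' + vec p q M n)).1‖ < 4 * r → j = j' ∧ n 0 = 0 ∧ n 1 = 0
  sep_cb : ∀ j j' n, 4 * r ≤ ‖(c j - (b j' + vec p q M n)).1‖
  cl : ∀ j z, ‖z - c j‖ < 2 * r → (z ∈ C ↔ clEqn (c j) (a j) z = 0)
  br : ∀ j z, ‖z - b j‖ < 2 * r → (z ∈ C ↔ brEqn (b j) (A j) z = 0)
  reg : ∀ z ∈ C, (∀ j n, z ≠ c j + vec p q M n) → (∀ j n, z ≠ b j + vec p q M n) →
    ∃ f : ℂ → ℂ, ContDiffAt ℝ ∞ f z.1 ∧ f z.1 = z.2 ∧ ∀ᶠ w in 𝓝 z, (w ∈ C ↔ w.2 = f w.1)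

namespace Curve

variable (D : Curve)

/-- The lattice of the curve. -/
noncomputable def v (n : Fin 4 → ℤ) : E := vec D.p D.q D.M n

/-- `z` is a regular point of the curve, and the graph of `f` is the curve near `z`. -/
structure Gr (z : E) (f : ℂ → ℂ) : Prop where
  mem : z ∈ D.C
  ne_b : ∀ j n, z ≠ D.b j + D.v n
  ne_c : ∀ j n, z ≠ D.c j + D.v n
  smooth : ContDiffAt ℝ ∞ f z.1
  val : f z.1 = z.2
  graph : ∀ᶠ w in 𝓝 z, (w ∈ D.C ↔ w.2 = f w.1)

/-- `e` is the standard local equation of the curve at `z`. -/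
def LocEqn (z : E) (e : E → ℂ) : Prop :=
  (z ∉ D.C ∧ e = fun _ => 1) ∨ (∃ f, D.Gr z f ∧ e = fun w => w.2 - f w.1) ∨
    (∃ j n, z = D.b j + D.v n ∧ e = brEqn z (D.A j)) ∨ (∃ j n, z = D.c j + D.v n ∧ e = clEqn z (D.a j))

/-- `σ` is a smooth function on the open set `W`, which is an equation of the curve: near every point it is the
standard local equation times a unit. -/
def IsEqn (W : Set E) (σ : E → ℂ) : Prop :=
  ContDiffOn ℝ ∞ σ W ∧ ∀ z ∈ W, ∀ e, D.LocEqn z e →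
    ∃ u : E → ℂ, ContDiffAt ℝ ∞ u z ∧ u z ≠ 0 ∧ ∀ᶠ w in 𝓝 z, σ w = e w * u w

end Curve

/-! ### elementary lemmas on the lattice (proved) -/

theorem vec_zero (p q M : ℕ) : vec p q M 0 = 0 := by
  unfold vec
  simp only [Pi.zero_apply, Int.cast_zero, zero_mul]
  rfl

theorem vec_add (p q M : ℕ) (n m : Fin 4 → ℤ) : vec p q M (n + m) = vec p q M n + vec p q M m := by
  unfold vec
  refine Prod.ext (Complex.ext ?_ ?_) (Complex.ext ?_ ?_) <;> simp [add_mul]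

theorem vec_neg (p q M : ℕ) (n : Fin 4 → ℤ) : vec p q M (-n) = -vec p q M n := by
  unfold vec
  refine Prod.ext (Complex.ext ?_ ?_) (Complex.ext ?_ ?_) <;> simp

theorem vec_smul (p q M : ℕ) (k : ℤ) (n : Fin 4 → ℤ) : vec p q M (k • n) = (k : ℝ) • vec p q M n := by
  unfold vec
  refine Prod.ext (Complex.ext ?_ ?_) (Complex.ext ?_ ?_) <;> simp [mul_assoc]

/-- A lattice vector of norm `< 1` is zero. -/
theorem vec_small {p q M : ℕ} (hp : 0 < p) (hq : 0 < q) (hM : 0 < M) {n : Fin 4 → ℤ}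
    (h : ‖vec p q M n‖ < 1) : n = 0 := by
  have key : ∀ (k : ℤ) (P : ℕ), 0 < P → |(k : ℝ) * P| < 1 → k = 0 := by
    intro k P hP hk
    by_contra hne
    have h1 : (1 : ℝ) ≤ |(k : ℝ)| := by exact_mod_cast Int.one_le_abs hne
    have h2 : (1 : ℝ) ≤ P := by exact_mod_cast hP
    rw [abs_mul, abs_of_nonneg (by positivity : (0 : ℝ) ≤ (P : ℝ))] at hk
    nlinarith
  have h1 : ‖(vec p q M n).1‖ < 1 := lt_of_le_of_lt (norm_fst_le _) h
  have h2 : ‖(vec p q M n).2‖ < 1 := lt_of_le_of_lt (norm_snd_le _) h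
  have a0 : |(n 0 : ℝ) * p| < 1 := lt_of_le_of_lt (Complex.abs_re_le_norm (vec p q M n).1) h1
  have a1 : |(n 1 : ℝ) * q| < 1 := lt_of_le_of_lt (Complex.abs_im_le_norm (vec p q M n).1) h1
  have a2 : |(n 2 : ℝ) * M| < 1 := lt_of_le_of_lt (Complex.abs_re_le_norm (vec p q M n).2) h2
  have a3 : |(n 3 : ℝ) * M| < 1 := lt_of_le_of_lt (Complex.abs_im_le_norm (vec p q M n).2) h2
  funext i
  fin_cases i
  · exact key _ _ hp a0
  · exact key _ _ hq a1
  · exact key _ _ hM a2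
  · exact key _ _ hM a3

end Pool.Agent.Helper67.SY
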