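import Pool.Agent.Helper67.SY.EqB6

/-!
# Project SY (MP_872606_gt): the data of the cyclic covering

`Cov D`: a global equation `σ` of the curve, sixth roots `ε n` of its multipliers for the lattice `6 Λ` which form a
cocycle, and sixth roots of the units near the special points.
-/

open Complex Filter Topology
open scoped ContDiff

namespace Pool.Agent.Helper67.SY

structure Cov (D : Curve) where
  σ : E → ℂ
  ε : (Fin 4 → ℤ) → E → ℂ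
  Vb : Fin 2 → (Fin 4 → ℤ) → E → ℂ
  Vc : Fin 2 → (Fin 4 → ℤ) → E → ℂ
  eqn : D.IsEqn Set.univ σ
  smooth : ∀ n, ContDiff ℝ ∞ (ε n)
  ne : ∀ n z, ε n z ≠ 0
  add : ∀ n m z, ε (n + m) z = ε n (z + D.v ((6 : ℤ) • m)) * ε m z
  pow : ∀ n z, σ (z + D.v ((6 : ℤ) • n)) = ε n z ^ 6 * σ z
  Vb_smooth : ∀ j n, ContDiffOn ℝ ∞ (Vb j n) (Metric.ball (D.b j + D.v n) (2 * D.r))
  Vb_ne : ∀ j n, ∀ z ∈ Metric.ball (D.b j + D.v n) (2 * D.r), Vb j n z ≠ 0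
  Vb_eq : ∀ j n, ∀ z ∈ Metric.ball (D.b j + D.v n) (2 * D.r),
    σ z = brEqn (D.b j + D.v n) (D.A j) z * Vb j n z ^ 6
  Vc_smooth : ∀ j n, ContDiffOn ℝ ∞ (Vc j n) (Metric.ball (D.c j + D.v n) (2 * D.r))
  Vc_ne : ∀ j n, ∀ z ∈ Metric.ball (D.c j + D.v n) (2 * D.r), Vc j n z ≠ 0
  Vc_eq : ∀ j n, ∀ z ∈ Metric.ball (D.c j + D.v n) (2 * D.r),
    σ z = clEqn (D.c j + D.v n) (D.a j) z * Vc j n z ^ 6

/-- The `i`-th basis vector of `ℤ ^ 4`. -/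
def bv (i : Fin 4) : Fin 4 → ℤ := Pi.single i 1

end Pool.Agent.Helper67.SY
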