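import Mathlib

/-!
# Closed symplectic 4-manifolds and their Chern numbers: definitions for the final statement

A smooth 4-manifold is a topological space with an atlas of parametrisations by open subsets of `ℂ × ℂ = ℝ⁴`.
A tensor field is given by its coordinate expressions in all the parametrisations of the atlas, which transform in the
usual way.  The Chern numbers of an almost complex structure are given by counting zeros:

* `c₂ = χ(Y)` is the number of zeros, counted with multiplicity, of a smooth (1,0)-form;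
* `m m' c₁²` is the number of common zeros, counted with multiplicity, of a smooth section of `K^m` and a smooth
  section of `K^m'`, where `K` is the canonical bundle (the complex line bundle of the (2,0)-forms).
-/

open Complex Filter Topology
open scoped ContDiff

namespace Pool.Agent.Helper67.SY

/-- The model space `ℂ × ℂ`, a real vector space of dimension 4. -/
abbrev E : Type := ℂ × ℂ

/-- A smooth atlas on a topological space: the parametrisations `φ i`, defined on the open sets `U i` of `ℂ × ℂ`, are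
homeomorphisms onto open sets, which cover the space, and the changes of coordinates are smooth. -/
structure Atlas (Y : Type) [TopologicalSpace Y] where
  ι : Type
  U : ι → Set E
  φ : ι → E → Y
  isOpen : ∀ i, IsOpen (U i)
  inj : ∀ i, Set.InjOn (φ i) (U i)
  cont : ∀ i, ContinuousOn (φ i) (U i)
  openMap : ∀ i, ∀ V ⊆ U i, IsOpen V → IsOpen (φ i '' V)
  cover : ∀ y, ∃ i, ∃ x ∈ U i, φ i x = y
  smooth : ∀ i j, ∀ x ∈ U i, ∀ x' ∈ U j, φ i x = φ j x' →
    ∃ τ : E → E, ContDiffAt ℝ ∞ τ x ∧ τ x = x' ∧ ∀ᶠ z in 𝓝 x, τ z ∈ U j ∧ φ j (τ z) = φ i z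

variable {Y : Type} [TopologicalSpace Y]

/-- The points `x`, `x'` of the coordinate domains `i`, `j` are the same point of `Y`, and `D` is the derivative at `x`
of the change of coordinates. -/
def Atlas.Change (𝒜 : Atlas Y) (i j : 𝒜.ι) (x x' : E) (D : E →L[ℝ] E) : Prop :=
  x ∈ 𝒜.U i ∧ x' ∈ 𝒜.U j ∧ ∃ τ : E → E, HasFDerivAt τ D x ∧ τ x = x' ∧
    ∀ᶠ z in 𝓝 x, τ z ∈ 𝒜.U j ∧ 𝒜.φ j (τ z) = 𝒜.φ i z

/-- A smooth 2-form. -/
structure TwoForm (𝒜 : Atlas Y) where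
  η : 𝒜.ι → E → E →L[ℝ] E →L[ℝ] ℝ
  smooth : ∀ i, ContDiffOn ℝ ∞ (η i) (𝒜.U i)
  alt : ∀ i, ∀ x ∈ 𝒜.U i, ∀ u, η i x u u = 0
  change : ∀ i j x x' D, 𝒜.Change i j x x' D → ∀ u v, η i x u v = η j x' (D u) (D v)

/-- The 2-form is closed: its exterior derivative is zero. -/
def TwoForm.Closed {𝒜 : Atlas Y} (W : TwoForm 𝒜) : Prop :=
  ∀ i, ∀ x ∈ 𝒜.U i, ∀ u v w,
    fderiv ℝ (W.η i) x u v w + fderiv ℝ (W.η i) x v w u + fderiv ℝ (W.η i) x w u v = 0

/-- A smooth almost complex structure. -/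
structure ACS (𝒜 : Atlas Y) where
  J : 𝒜.ι → E → E →L[ℝ] E
  smooth : ∀ i, ContDiffOn ℝ ∞ (J i) (𝒜.U i)
  sq : ∀ i, ∀ x ∈ 𝒜.U i, ∀ u, J i x (J i x u) = -u
  change : ∀ i j x x' D, 𝒜.Change i j x x' D → ∀ u, D (J i x u) = J j x' (D u)

/-- The 2-form tames the almost complex structure. (Then the 2-form is nondegenerate: a closed 2-form which tames some
almost complex structure is the same as a symplectic form, and the Chern classes of the symplectic manifold are those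
of any almost complex structure which is tamed by it.) -/
def Tames {𝒜 : Atlas Y} (W : TwoForm 𝒜) (J : ACS 𝒜) : Prop :=
  ∀ i, ∀ x ∈ 𝒜.U i, ∀ u, u ≠ 0 → 0 < W.η i x u (J.J i x u)

/-! ### (1,0)-forms and (2,0)-forms -/

/-- `ψ` is a (1,0)-form on the complex vector space `(ℂ × ℂ, J)`: complex linear. -/
def IsOneZero (J : E →L[ℝ] E) (ψ : E →L[ℝ] ℂ) : Prop := ∀ u, ψ (J u) = I * ψ u

/-- `Ω` is a (2,0)-form on the complex vector space `(ℂ × ℂ, J)`: alternating and complex bilinear. -/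
def IsTwoZero (J : E →L[ℝ] E) (Ω : E →L[ℝ] E →L[ℝ] ℂ) : Prop :=
  (∀ u, Ω u u = 0) ∧ ∀ u v, Ω (J u) v = I * Ω u v

/-- A smooth (1,0)-form: a smooth section of the complex cotangent bundle, the dual of `(TY, J)`. -/
structure CotSec {𝒜 : Atlas Y} (J : ACS 𝒜) where
  ψ : 𝒜.ι → E → E →L[ℝ] ℂ
  smooth : ∀ i, ContDiffOn ℝ ∞ (ψ i) (𝒜.U i)
  type : ∀ i, ∀ x ∈ 𝒜.U i, IsOneZero (J.J i x) (ψ i x)
  change : ∀ i j x x' D, 𝒜.Change i j x x' D → ∀ u, ψ i x u = ψ j x' (D u)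

/-- A smooth section of the `m`-th power of the canonical bundle; an element of the `m`-th power of the line of the
(2,0)-forms is written as a function of two tangent vectors, `Ω ^ m` is the function `(Ω u v) ^ m`. -/
structure CanSec {𝒜 : Atlas Y} (J : ACS 𝒜) (m : ℕ) where
  s : 𝒜.ι → E → E → E → ℂ
  smooth : ∀ i u v, ContDiffOn ℝ ∞ (fun x => s i x u v) (𝒜.U i)
  pow : ∀ i, ∀ x ∈ 𝒜.U i, ∃ (Ω : E →L[ℝ] E →L[ℝ] ℂ) (c : ℂ), IsTwoZero (J.J i x) Ω ∧
    ∀ u v, s i x u v = c * (Ω u v) ^ m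
  change : ∀ i j x x' D, 𝒜.Change i j x x' D → ∀ u v, s i x u v = s j x' (D u) (D v)

/-- The section is zero at the point `x` of the coordinate domain `i`. -/
def CanSec.ZeroAt {𝒜 : Atlas Y} {J : ACS 𝒜} {m : ℕ} (s : CanSec J m) (i : 𝒜.ι) (x : E) : Prop :=
  ∀ u v, s.s i x u v = 0

/-- `a`, `b` are complex coordinates at the point `x` of `(ℂ × ℂ, J)`: smooth functions, zero at `x`, whose
differentials at `x` are complex linear and independent (so `(a, b)` is an orientation preserving local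
diffeomorphism). -/
structure Coord (J : E → E →L[ℝ] E) (x : E) (a b : E → ℂ) : Prop where
  smooth_a : ContDiffAt ℝ ∞ a x
  smooth_b : ContDiffAt ℝ ∞ b x
  zero_a : a x = 0
  zero_b : b x = 0
  type_a : IsOneZero (J x) (fderiv ℝ a x)
  type_b : IsOneZero (J x) (fderiv ℝ b x)
  indep : ∀ u, fderiv ℝ a x u = 0 → fderiv ℝ b x u = 0 → u = 0

/-- The point `x` of the coordinate domain `i` is a zero of multiplicity `k * l` of the (1,0)-form `ψ`: with complex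
coordinates `a`, `b` at `x` and a continuous local frame `ψ₁`, `ψ₂` of the bundle of the (1,0)-forms, the components of
`ψ` are `a ^ k` times a unit and `b ^ l` times a unit. -/
def Mult₁ {𝒜 : Atlas Y} {J : ACS 𝒜} (ψ : CotSec J) (i : 𝒜.ι) (x : E) (k l : ℕ) : Prop :=
  ∃ (a b : E → ℂ) (ψ₁ ψ₂ : E → E →L[ℝ] ℂ) (f g : E → ℂ), Coord (J.J i) x a b ∧
    ContinuousAt ψ₁ x ∧ ContinuousAt ψ₂ x ∧ (∀ u, ψ₁ x u = 0 → ψ₂ x u = 0 → u = 0) ∧
    (∀ᶠ z in 𝓝 x, IsOneZero (J.J i z) (ψ₁ z) ∧ IsOneZero (J.J i z) (ψ₂ z)) ∧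
    ContinuousAt f x ∧ f x ≠ 0 ∧ ContinuousAt g x ∧ g x ≠ 0 ∧
    ∀ᶠ z in 𝓝 x, ∀ u, ψ.ψ i z u = (a z) ^ k * f z * ψ₁ z u + (b z) ^ l * g z * ψ₂ z u

/-- The point `x` of the coordinate domain `i` is a common zero of multiplicity `k * l` of the sections `s` and `t` of
`K ^ m` and `K ^ m'`: with complex coordinates `a`, `b` at `x` and a continuous local basis `Ω` of the canonical bundle,
`s` is `a ^ k` times a unit, and `t` is `b ^ l` times a unit on the curve `a = 0`. -/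
def Mult₂ {𝒜 : Atlas Y} {J : ACS 𝒜} {m m' : ℕ} (s : CanSec J m) (t : CanSec J m') (i : 𝒜.ι) (x : E) (k l : ℕ) :
    Prop :=
  ∃ (a b : E → ℂ) (Ω : E → E →L[ℝ] E →L[ℝ] ℂ) (f g : E → ℂ), Coord (J.J i) x a b ∧
    ContinuousAt Ω x ∧ Ω x ≠ 0 ∧ (∀ᶠ z in 𝓝 x, IsTwoZero (J.J i z) (Ω z)) ∧
    ContinuousAt f x ∧ f x ≠ 0 ∧ ContinuousAt g x ∧ g x ≠ 0 ∧
    (∀ᶠ z in 𝓝 x, ∀ u v, s.s i z u v = (a z) ^ k * f z * (Ω z u v) ^ m) ∧
    (∀ᶠ z in 𝓝 x, a z = 0 → ∀ u v, t.s i z u v = (b z) ^ l * g z * (Ω z u v) ^ m')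

/-- `N` is the number of zeros, counted with multiplicity, of a smooth (1,0)-form: the Chern number `c₂` of `(TY, J)` is
`N` (and so is the Euler number of `Y`). -/
def HasC2 {𝒜 : Atlas Y} (J : ACS 𝒜) (N : ℕ) : Prop :=
  ∃ (ψ : CotSec J) (P : Finset Y) (k l : Y → ℕ),
    (∀ i, ∀ x ∈ 𝒜.U i, ψ.ψ i x = 0 ↔ 𝒜.φ i x ∈ P) ∧
    (∀ p ∈ P, 0 < k p ∧ 0 < l p ∧ ∃ i, ∃ x ∈ 𝒜.U i, 𝒜.φ i x = p ∧ Mult₁ ψ i x (k p) (l p)) ∧
    ∑ p ∈ P, k p * l p = N

/-- `m * m' * N` is the number of common zeros, counted with multiplicity, of a smooth section of `K ^ m` and a smooth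
section of `K ^ m'`: the Chern number `c₁²` of `(TY, J)` is `N`. -/
def HasC1Sq {𝒜 : Atlas Y} (J : ACS 𝒜) (N : ℕ) : Prop :=
  ∃ (m m' : ℕ) (s : CanSec J m) (t : CanSec J m') (P : Finset Y) (k l : Y → ℕ), 0 < m ∧ 0 < m' ∧
    (∀ i, ∀ x ∈ 𝒜.U i, s.ZeroAt i x ∧ t.ZeroAt i x ↔ 𝒜.φ i x ∈ P) ∧
    (∀ p ∈ P, 0 < k p ∧ 0 < l p ∧ ∃ i, ∃ x ∈ 𝒜.U i, 𝒜.φ i x = p ∧ Mult₂ s t i x (k p) (l p)) ∧
    ∑ p ∈ P, k p * l p = m * m' * N

/-- There is a closed connected smooth 4-manifold with a symplectic form and Chern numbers `c₁² = A` and `c₂ = B`. -/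
def ExistsSymplectic (A B : ℕ) : Prop :=
  ∃ (Y : Type) (_ : TopologicalSpace Y) (_ : CompactSpace Y) (_ : T2Space Y) (_ : ConnectedSpace Y)
    (𝒜 : Atlas Y) (J : ACS 𝒜) (W : TwoForm 𝒜), W.Closed ∧ Tames W J ∧ HasC1Sq J A ∧ HasC2 J B

end Pool.Agent.Helper67.SY
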