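import Pool.Agent.Helper67.SY.Al
import Pool.Agent.Helper67.SY.Cvr

/-!
# Project SY (MP_872606_gt): the data on the base `ℂ × ℂ`

* `JDat D`: the periodic almost complex structure with the (1,0)-forms `dx + ν dx̄`, `dy - μ dx̄`, for which the curve is
  complex, which is standard near the 6-fold points.
* `HDat D J`: a periodic closed 2-form on the complement of the 6-fold points, which tames it, and which is the form of
  the blow-up near the 6-fold points.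
* `SDat D H`: the function `R = S σ ^ 5`, where `S` is a periodic section with poles of order five along the curve.
-/

open Complex Filter Topology
open scoped ContDiff

namespace Pool.Agent.Helper67.SY

/-- `∂ f / ∂ x` -/
noncomputable def del (f : ℂ → ℂ) (x : ℂ) : ℂ := (fderiv ℝ f x 1 - I * fderiv ℝ f x I) / 2
/-- `∂ f / ∂ x̄` -/
noncomputable def dbar (f : ℂ → ℂ) (x : ℂ) : ℂ := (fderiv ℝ f x 1 + I * fderiv ℝ f x I) / 2

theorem fderiv_del_dbar (f : ℂ → ℂ) (x ξ : ℂ) :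
    fderiv ℝ f x ξ = del f x * ξ + dbar f x * (starRingEnd ℂ) ξ := by
  have h : fderiv ℝ f x ξ = ξ.re * fderiv ℝ f x 1 + ξ.im * fderiv ℝ f x I := by
    have h1 : ξ = (ξ.re : ℝ) • (1 : ℂ) + (ξ.im : ℝ) • I := by
      apply Complex.ext <;> simp
    conv_lhs => rw [h1]
    rw [map_add, map_smul, map_smul]
    simp
  have h2 : ξ = ξ.re + ξ.im * I := (Complex.re_add_im ξ).symm
  have h3 : (starRingEnd ℂ) ξ = ξ.re - ξ.im * I := by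
    apply Complex.ext <;> simp
  rw [h, h3]
  conv_rhs => rw [h2]
  unfold del dbar
  simp only [Complex.add_re, Complex.add_im, Complex.ofReal_re, Complex.ofReal_im, Complex.mul_re, Complex.mul_im,
    Complex.I_re, Complex.I_im]
  push_cast
  linear_combination ((fderiv ℝ f x I) * (ξ.im : ℂ)) * Complex.I_sq

structure JDat (D : Curve) where
  ν : ℂ → ℂ
  μ : E → ℂ
  k : ℝ
  B : ℝ
  hk : k < 1
  ν_le : ∀ x, ‖ν x‖ ≤ k
  μ_le : ∀ z, ‖μ z‖ ≤ B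
  smooth_ν : ContDiff ℝ ∞ ν
  smooth_μ : ContDiff ℝ ∞ μ
  per_ν : ∀ n x, ν (x + (D.v n).1) = ν x
  per_μ : ∀ n z, μ (z + D.v n) = μ z
  reg : ∀ z f, D.Gr z f → ∀ᶠ w in 𝓝 z, μ w = dbar f w.1 - ν w.1 * del f w.1
  νb : Fin 2 → ℂ
  αb : Fin 2 → ℂ
  αb_ne : ∀ j, αb j ≠ 0
  A_eq : ∀ j ξ, D.A j ξ = αb j * (ξ + νb j * (starRingEnd ℂ) ξ)
  near_b_ν : ∀ j n x, ‖x - (D.b j + D.v n).1‖ < D.r → ν x = νb j
  near_c_ν : ∀ j n x, ‖x - (D.c j + D.v n).1‖ < D.r → ν x = 0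
  near_b_μ : ∀ j n z, ‖z - (D.b j + D.v n)‖ < D.r → μ z = 0
  near_c_μ : ∀ j n z, ‖z - (D.c j + D.v n)‖ < D.r → μ z = 0

theorem JDat.ν_lt {D : Curve} (J : JDat D) (x : ℂ) : ‖J.ν x‖ < 1 := lt_of_le_of_lt (J.ν_le x) J.hk

/-- The almost complex structure of the base. -/
noncomputable def JDat.Jb {D : Curve} (J : JDat D) (z : E) : E →L[ℝ] E := Jn (J.ν z.1) (J.μ z)

/-- The (2,0)-form of the base. -/
noncomputable def JDat.Om {D : Curve} (J : JDat D) (z : E) : E →L[ℝ] E →L[ℝ] ℂ := wedge (al (J.ν z.1)) (be (J.μ z))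

/-- The complement of the 6-fold points. -/
def Curve.dm (D : Curve) : Set E := {z | ∀ j n, z ≠ D.c j + D.v n}

/-- Near `c j + v n` the form is, at the point `c j + v n + p`, `K dA(x) + dA(y) + k` times the Fubini-Study form. -/
structure HDat (D : Curve) (J : JDat D) where
  K : ℝ
  k : ℝ
  hK : 0 < K
  hk : 0 < k
  η : E → E →L[ℝ] E →L[ℝ] ℝ
  smooth : ContDiffOn ℝ ∞ η D.dm
  alt : ∀ z ∈ D.dm, ∀ u, η z u u = 0
  closed : ∀ z ∈ D.dm, ∀ u v w, fderiv ℝ η z u v w + fderiv ℝ η z v w u + fderiv ℝ η z w u v = 0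
  per : ∀ n z, η (z + D.v n) = η z
  tame : ∀ z ∈ D.dm, ∀ u, u ≠ 0 → 0 < η z u (J.Jb z u)
  near : ∀ j n (p : E), p ≠ 0 → ‖p.1‖ < D.r / 2 → ‖p.2‖ < D.r / 2 → ∀ u v : E,
    η (D.c j + D.v n + p) u v = K * dA u.1 v.1 + dA u.2 v.2 +
      k * dA (p.1 * u.2 - p.2 * u.1) (p.1 * v.2 - p.2 * v.1) / (‖p.1‖ ^ 2 + ‖p.2‖ ^ 2) ^ 2

/-- `∑ i, ∏ k ≠ i, (y - a k x) ^ 5 + κ (y - t x) ^ 24` -/
noncomputable def clNum (a : Fin 6 → ℂ) (κ : ℝ) (t : ℂ) (p : E) : ℂ :=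
  (∑ i, ∏ k ∈ Finset.univ.erase i, (p.2 - a k * p.1) ^ 5) + κ * (p.2 - t * p.1) ^ 24

/-- The first coordinates of the zeros on the `i`-th line. -/
noncomputable def zs (a : Fin 6 → ℂ) (κ : ℝ) (t : ℂ) (i : Fin 6) : ℂ :=
  -(κ * (a i - t) ^ 24 / ∏ k ∈ Finset.univ.erase i, (a i - a k) ^ 5)

structure SDat (D : Curve) (H : Cov D) where
  R : E → ℂ
  κ : ℝ
  t : Fin 2 → ℂ
  hκ : 0 < κ
  ht : ∀ j, ‖t j‖ < 1 + ∑ i, ‖D.a j i‖
  ht' : ∀ j i, D.a j i ≠ t j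
  smooth : ContDiffOn ℝ ∞ R D.dm
  per : ∀ n, ∀ z ∈ D.dm, R (z + D.v ((6 : ℤ) • n)) = H.ε n z ^ 30 * R z
  near_c : ∀ j n (p : E), p ≠ 0 → ‖p.1‖ < D.r / 2 → ‖p.2‖ < D.r / 2 →
    R (D.c j + D.v n + p) = clNum (D.a j) κ (t j) p * H.Vc j n (D.c j + D.v n + p) ^ 30
  near_b : ∀ j n, ∀ᶠ w in 𝓝 (D.b j + D.v n), w ∈ D.C →
    R w = 32 * (w.2 - (D.b j + D.v n).2) ^ 5 * H.Vb j n w ^ 30
  zs_lt : ∀ j i, ‖zs (D.a j) κ (t j) i‖ < D.r / 2 ∧ ‖D.a j i * zs (D.a j) κ (t j) i‖ < D.r / 2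
  reg : ∀ z f, D.Gr z f → (∀ j n, D.r / 2 ≤ ‖z - (D.c j + D.v n)‖) → R z ≠ 0

end Pool.Agent.Helper67.SY
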