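import Pool.Agent.Helper67.SY.Cv

/-!
# Project SY (MP_872606_gt), block B (equations)
-/

open Complex Filter Topology
open scoped ContDiff

namespace Pool.Agent.Helper67.SY

namespace Curve

variable (D : Curve)

/-- Every point has a standard local equation (cases; `reg`). -/
theorem exists_locEqn (z : E) : ∃ e, D.LocEqn z e := by
  by_cases hz : z ∈ D.C
  · by_cases hb : ∃ j n, z = D.b j + D.v n
    · obtain ⟨j, n, h⟩ := hb
      exact ⟨_, Or.inr (Or.inr (Or.inl ⟨j, n, h, rfl⟩))⟩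
    · by_cases hc : ∃ j n, z = D.c j + D.v n
      · obtain ⟨j, n, h⟩ := hc
        exact ⟨_, Or.inr (Or.inr (Or.inr ⟨j, n, h, rfl⟩))⟩
      · obtain ⟨f, h1, h2, h3⟩ := D.reg z hz (fun j n h => hc ⟨j, n, h⟩) (fun j n h => hb ⟨j, n, h⟩)
        exact ⟨_, Or.inr (Or.inl ⟨f, ⟨hz, fun j n h => hb ⟨j, n, h⟩, fun j n h => hc ⟨j, n, h⟩, h1, h2, h3⟩, rfl⟩)⟩
  · exact ⟨_, Or.inl ⟨hz, rfl⟩⟩

private theorem EqA1_v_add (n m : Fin 4 → ℤ) : D.v (n + m) = D.v n + D.v m := vec_add _ _ _ _ _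

private theorem EqA1_mem_sub (n : Fin 4 → ℤ) (w : E) : w ∈ D.C ↔ w - D.v n ∈ D.C := by
  have h := D.periodic n (w - D.v n)
  have h2 : w - D.v n + vec D.p D.q D.M n = w := sub_add_cancel w (D.v n)
  rw [h2] at h
  exact h

private theorem EqA1_br (b : E) (A : ℂ →L[ℝ] ℂ) (v w : E) : brEqn (b + v) A w = brEqn b A (w - v) := by
  unfold brEqn
  have h1 : w.2 - (b + v).2 = (w - v).2 - b.2 := by
    rw [Prod.snd_add, Prod.snd_sub]; ring
  have h2 : w.1 - (b + v).1 = (w - v).1 - b.1 := by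
    rw [Prod.fst_add, Prod.fst_sub]; ring
  rw [h1, h2]

private theorem EqA1_cl (b : E) (a : Fin 6 → ℂ) (v w : E) : clEqn (b + v) a w = clEqn b a (w - v) := by
  unfold clEqn
  refine Finset.prod_congr rfl fun i _ => ?_
  rw [Prod.snd_add, Prod.snd_sub, Prod.fst_add, Prod.fst_sub]
  ring

/-- Translation by a lattice vector. Cases of `LocEqn`; use `periodic`, `vec_add`, `vec_neg`. -/
theorem locEqn_add (n : Fin 4 → ℤ) {z : E} {e : E → ℂ} (h : D.LocEqn z e) :
    D.LocEqn (z + D.v n) (fun w => e (w - D.v n)) := by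
  rcases h with ⟨hz, rfl⟩ | ⟨f, hf, rfl⟩ | ⟨j, m, hz, rfl⟩ | ⟨j, m, hz, rfl⟩
  · exact Or.inl ⟨fun h => hz ((D.periodic n z).1 h), rfl⟩
  · refine Or.inr (Or.inl ⟨fun x => f (x - (D.v n).1) + (D.v n).2, ?_, ?_⟩)
    · have key : ∀ (p : E) (m : Fin 4 → ℤ), z + D.v n = p + D.v m → z = p + D.v (m - n) := by
        intro p m hp
        have h1 : D.v m = D.v (m - n) + D.v n := by rw [← EqA1_v_add, sub_add_cancel]
        rw [h1, ← add_assoc] at hp
        exact add_right_cancel hp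
      refine ⟨(D.periodic n z).2 hf.mem, fun j m hp => hf.ne_b j _ (key _ _ hp),
        fun j m hp => hf.ne_c j _ (key _ _ hp), ?_, ?_, ?_⟩
      · have h1 : (z + D.v n).1 - (D.v n).1 = z.1 := by rw [Prod.fst_add, add_sub_cancel_right]
        have h2 : ContDiffAt ℝ ∞ f ((fun x : ℂ => x - (D.v n).1) (z + D.v n).1) := by
          show ContDiffAt ℝ ∞ f ((z + D.v n).1 - (D.v n).1)
          rw [h1]
          exact hf.smooth
        have h3 : ContDiffAt ℝ ∞ (fun x : ℂ => x - (D.v n).1) (z + D.v n).1 := contDiffAt_id.sub contDiffAt_const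
        exact (ContDiffAt.comp (g := f) (f := fun x : ℂ => x - (D.v n).1) (z + D.v n).1 h2 h3).add contDiffAt_const
      · show f ((z + D.v n).1 - (D.v n).1) + (D.v n).2 = (z + D.v n).2
        rw [Prod.fst_add, add_sub_cancel_right, hf.val, Prod.snd_add]
      · have ht : Tendsto (fun w : E => w - D.v n) (𝓝 (z + D.v n)) (𝓝 z) := by
          have : Tendsto (fun w : E => w - D.v n) (𝓝 (z + D.v n)) (𝓝 (z + D.v n - D.v n)) :=
            (continuous_id.sub continuous_const).tendsto _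
          rwa [add_sub_cancel_right] at this
        filter_upwards [ht.eventually hf.graph] with w hw
        rw [EqA1_mem_sub D n w, hw, Prod.snd_sub, Prod.fst_sub, sub_eq_iff_eq_add]
    · funext w
      show (w - D.v n).2 - f (w - D.v n).1 = w.2 - (f (w.1 - (D.v n).1) + (D.v n).2)
      rw [Prod.snd_sub, Prod.fst_sub]
      ring
  · refine Or.inr (Or.inr (Or.inl ⟨j, m + n, ?_, ?_⟩))
    · rw [EqA1_v_add, hz, add_assoc]
    · funext w
      exact (EqA1_br z (D.A j) (D.v n) w).symm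
  · refine Or.inr (Or.inr (Or.inr ⟨j, m + n, ?_, ?_⟩))
    · rw [EqA1_v_add, hz, add_assoc]
    · funext w
      exact (EqA1_cl z (D.a j) (D.v n) w).symm

theorem locEqn_smooth {z : E} {e : E → ℂ} (h : D.LocEqn z e) : ContDiffAt ℝ ∞ e z := by
  rcases h with ⟨hz, rfl⟩ | ⟨f, hf, rfl⟩ | ⟨j, m, hz, rfl⟩ | ⟨j, m, hz, rfl⟩
  · exact contDiffAt_const
  · have h2 : ContDiffAt ℝ ∞ (fun w : E => f w.1) z := hf.smooth.comp z contDiffAt_fst
    exact contDiffAt_snd.sub h2
  · unfold brEqn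
    have h1 : ContDiffAt ℝ ∞ (fun w : E => D.A j (w.1 - z.1)) z :=
      (D.A j).contDiff.contDiffAt.comp z (contDiffAt_fst.sub contDiffAt_const)
    exact ((contDiffAt_snd.sub contDiffAt_const).pow 2).sub h1
  · unfold clEqn
    refine contDiffAt_prod fun i _ => ?_
    exact (contDiffAt_snd.sub contDiffAt_const).sub
      (contDiffAt_const.mul (contDiffAt_fst.sub contDiffAt_const))

/-- Near `z` the zeros of the local equation are the points of the curve. For `b j + v n`, `c j + v n` use `br`, `cl`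
and `periodic`. -/
theorem locEqn_zero {z : E} {e : E → ℂ} (h : D.LocEqn z e) : ∀ᶠ w in 𝓝 z, (e w = 0 ↔ w ∈ D.C) := by
  have hball : ∀ᶠ w in 𝓝 z, ‖w - z‖ < 2 * D.r := by
    have h1 : Metric.ball z (2 * D.r) ∈ 𝓝 z := Metric.ball_mem_nhds z (by linarith [D.hr])
    filter_upwards [h1] with w hw
    rwa [Metric.mem_ball, dist_eq_norm] at hw
  rcases h with ⟨hz, rfl⟩ | ⟨f, hf, rfl⟩ | ⟨j, m, hz, rfl⟩ | ⟨j, m, hz, rfl⟩
  · filter_upwards [D.closed.isOpen_compl.mem_nhds hz] with w hw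
    exact ⟨fun h => absurd h one_ne_zero, fun h => absurd h hw⟩
  · filter_upwards [hf.graph] with w hw
    rw [hw]
    exact sub_eq_zero
  · filter_upwards [hball] with w hw
    have h1 : ‖w - D.v m - D.b j‖ < 2 * D.r := by
      have : w - D.v m - D.b j = w - z := by rw [hz]; abel
      rwa [this]
    rw [EqA1_mem_sub D m w, D.br j _ h1, hz, EqA1_br]
  · filter_upwards [hball] with w hw
    have h1 : ‖w - D.v m - D.c j‖ < 2 * D.r := by
      have : w - D.v m - D.c j = w - z := by rw [hz]; abel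
      rwa [this]
    rw [EqA1_mem_sub D m w, D.cl j _ h1, hz, EqA1_cl]

end Curve

end Pool.Agent.Helper67.SY
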