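import Pool.Agent.Helper67.SY.EqA1

/-!
# Project SY (MP_872606_gt), block B (equations)
-/

open Complex Filter Topology
open scoped ContDiff

namespace Pool.Agent.Helper67.SY

namespace Curve

variable (D : Curve)

private theorem EqA2_eqn_ne {z : E} (hz : z ∈ D.C) {e : E → ℂ} (he : D.LocEqn z e) {t : ℝ} (ht : t ≠ 0) :
    e (z.1, z.2 + t) ≠ 0 := by
  have ht' : (t : ℂ) ≠ 0 := by exact_mod_cast ht
  rcases he with h | h | h | h
  · exact absurd hz h.1
  · obtain ⟨f, hf, rfl⟩ := h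
    simp only [hf.val, add_sub_cancel_left]
    exact ht'
  · obtain ⟨j, n, -, rfl⟩ := h
    simp only [brEqn, sub_self, map_zero, add_sub_cancel_left, sub_zero]
    exact pow_ne_zero 2 ht'
  · obtain ⟨j, n, -, rfl⟩ := h
    simp only [clEqn, sub_self, mul_zero, add_sub_cancel_left, sub_zero]
    exact Finset.prod_ne_zero_iff.mpr fun _ _ => ht'

/-- The curve has empty interior: near every point of the curve there are points off the curve: at a regular point with
graph `f` the points `(z.1, z.2 + t)`, `t` small, `t ≠ 0`; at `b j + v n` and `c j + v n` the points `(z.1, z.2 + t)`,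
too (`br`, `cl`: the equations are `t ^ 2`, `t ^ 6`). -/
theorem dense_compl : Dense (D.C)ᶜ := by
  intro z
  by_cases hz : z ∈ D.C
  · obtain ⟨e, he⟩ := D.exists_locEqn z
    have hev := D.locEqn_zero he
    rw [mem_closure_iff_frequently]
    have hc : Continuous (fun t : ℝ => ((z.1, z.2 + (t : ℂ)) : E)) := by fun_prop
    have ht : Tendsto (fun t : ℝ => ((z.1, z.2 + (t : ℂ)) : E)) (𝓝[≠] (0 : ℝ)) (𝓝 z) := by
      have h0 : Tendsto (fun t : ℝ => ((z.1, z.2 + (t : ℂ)) : E)) (𝓝 (0 : ℝ)) (𝓝 z) := by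
        have h1 := hc.tendsto (0 : ℝ)
        have h2 : ((z.1, z.2 + ((0 : ℝ) : ℂ)) : E) = z := by simp
        rwa [h2] at h1
      exact h0.mono_left nhdsWithin_le_nhds
    have hev' := ht.eventually hev
    have hne : ∀ᶠ t : ℝ in 𝓝[≠] (0 : ℝ), ((z.1, z.2 + (t : ℂ)) : E) ∈ (D.C)ᶜ := by
      filter_upwards [hev', self_mem_nhdsWithin] with t h1 h2
      intro h3
      exact EqA2_eqn_ne D hz he h2 (h1.mpr h3)
    exact ht.frequently hne.frequently
  · exact subset_closure hz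

private theorem EqA2_sub {b b' : E} {n n' : Fin 4 → ℤ} {z : E} (h : ‖z - (b + D.v n)‖ < 2 * D.r)
    (h' : ‖z - (b' + D.v n')‖ < 2 * D.r) : ‖b - (b' + vec D.p D.q D.M (n' - n))‖ < 4 * D.r := by
  have h1 : b - (b' + vec D.p D.q D.M (n' - n)) = (z - (b' + D.v n')) - (z - (b + D.v n)) := by
    rw [sub_eq_add_neg n' n, vec_add, vec_neg]
    unfold v
    abel
  rw [h1]
  have h2 := norm_sub_le (z - (b' + D.v n')) (z - (b + D.v n))
  linarith

private theorem EqA2_eq {b : E} {n n' : Fin 4 → ℤ} {z : E} (h : ‖z - (b + D.v n)‖ < 2 * D.r)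
    (h' : ‖z - (b + D.v n')‖ < 2 * D.r) : n = n' := by
  have h1 := EqA2_sub D h h'
  have h2 : b - (b + vec D.p D.q D.M (n' - n)) = - vec D.p D.q D.M (n' - n) := by abel
  rw [h2, norm_neg] at h1
  have h3 : ‖vec D.p D.q D.M (n' - n)‖ < 1 := by
    have := D.hr8
    have := D.hr
    linarith
  have h4 := vec_small D.hp D.hq D.hM h3
  exact (sub_eq_zero.mp h4).symm

/-- A point of `E` is at distance less than `r` from at most one of the special points. -/
theorem special_unique_b {j j' : Fin 2} {n n' : Fin 4 → ℤ} {z : E} (h : ‖z - (D.b j + D.v n)‖ < 2 * D.r)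
    (h' : ‖z - (D.b j' + D.v n')‖ < 2 * D.r) : j = j' ∧ n = n' := by
  have h1 := EqA2_sub D h h'
  have h2 := D.sep_b j j' (n' - n) (lt_of_le_of_lt (norm_fst_le _) h1)
  obtain ⟨h3, -, -⟩ := h2
  subst h3
  exact ⟨rfl, EqA2_eq D h h'⟩

theorem special_unique_c {j j' : Fin 2} {n n' : Fin 4 → ℤ} {z : E} (h : ‖z - (D.c j + D.v n)‖ < 2 * D.r)
    (h' : ‖z - (D.c j' + D.v n')‖ < 2 * D.r) : j = j' ∧ n = n' := by
  have h1 := EqA2_sub D h h'
  have h2 := D.sep_c j j' (n' - n) (lt_of_le_of_lt (norm_fst_le _) h1)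
  obtain ⟨h3, -, -⟩ := h2
  subst h3
  exact ⟨rfl, EqA2_eq D h h'⟩

theorem special_disj {j j' : Fin 2} {n n' : Fin 4 → ℤ} {z : E} (h : ‖z - (D.c j + D.v n)‖ < 2 * D.r) :
    ¬ ‖z - (D.b j' + D.v n')‖ < 2 * D.r := by
  intro h'
  have h1 := EqA2_sub D h h'
  have h2 := D.sep_cb j j' (n' - n)
  have h3 := lt_of_le_of_lt (norm_fst_le _) h1
  linarith

end Curve

end Pool.Agent.Helper67.SY
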