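import Pool.Agent.Helper67.SY.EqA2

/-!
# Project SY (MP_872606_gt), block B (equations)
-/

open Complex Filter Topology
open scoped ContDiff

namespace Pool.Agent.Helper67.SY

namespace Curve

variable (D : Curve)

private theorem EqA3_smooth (P : E) (A : ℂ →L[ℝ] ℂ) : ContDiff ℝ ∞ (brEqn P A) := by
  unfold brEqn
  exact ((contDiff_snd.sub contDiff_const).pow 2).sub (A.contDiff.comp (contDiff_fst.sub contDiff_const))

private theorem EqA3_mem (j : Fin 2) (n : Fin 4 → ℤ) {w : E} (hw : ‖w - (D.b j + D.v n)‖ < 2 * D.r) :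
    w ∈ D.C ↔ brEqn (D.b j + D.v n) (D.A j) w = 0 := by
  have h1 : w ∈ D.C ↔ w - D.v n ∈ D.C := by
    have := D.periodic n (w - D.v n)
    have h2 : w - D.v n + vec D.p D.q D.M n = w := by
      show w - D.v n + D.v n = w
      abel
    rw [h2] at this
    exact this
  have h3 : w - D.v n - D.b j = w - (D.b j + D.v n) := by abel
  rw [h1, D.br j (w - D.v n) (by rw [h3]; exact hw)]
  have h4 : brEqn (D.b j) (D.A j) (w - D.v n) = brEqn (D.b j + D.v n) (D.A j) w := by
    unfold brEqn
    have e1 : (w - D.v n).1 - (D.b j).1 = w.1 - (D.b j + D.v n).1 := by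
      simp only [Prod.fst_sub, Prod.fst_add]
      ring
    have e2 : (w - D.v n).2 - (D.b j).2 = w.2 - (D.b j + D.v n).2 := by
      simp only [Prod.snd_sub, Prod.snd_add]
      ring
    rw [e1, e2]
  rw [h4]

private theorem EqA3_inj {A : ℂ →L[ℝ] ℂ} (hA : 0 < A.det) {x : ℂ} (hx : A x = 0) : x = 0 := by
  have h := (A.toContinuousLinearEquivOfDetNeZero hA.ne').injective
  apply h
  rw [map_zero]
  exact hx

/-- The standard equation at a branch point is an equation on the ball of radius `2 r`.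

Proof. Let `z` be in the ball, and let `e'` be a local equation at `z`. If `z ∉ C` then `e' = 1` and the equation is
`≠ 0` at `z` (`br`, `periodic`), take `u = brEqn ..`. If `z = b j' + v n'` then `j' = j`, `n' = n` by `special_unique_b`,
take `u = 1`. `z = c j' + v n'` is impossible by `special_disj`. Otherwise `z` is a regular point, `Gr z f`, and
`e' w = w.2 - f w.1`. With `g w = f w.1 - (b j + v n).2` one has `g ^ 2 = A (w.1 - (b j + v n).1)` near `z` (the points
`(w.1, f w.1)` are in `C` for `w` near `z`, use `br`), so `brEqn = (w.2 - (b j + v n).2 - g) (w.2 - (b j + v n).2 + g)`,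
and `u = w.2 - (b j + v n).2 + g` is not zero at `z`: otherwise `z.2 = (b j + v n).2` and `A (z.1 - ..) = 0`, so
`z = b j + v n` as `A` is injective (`0 < det`). -/
theorem isEqn_br (j : Fin 2) (n : Fin 4 → ℤ) :
    D.IsEqn (Metric.ball (D.b j + D.v n) (2 * D.r)) (brEqn (D.b j + D.v n) (D.A j)) := by
  have hsm : ContDiff ℝ ∞ (brEqn (D.b j + D.v n) (D.A j)) := EqA3_smooth (D.b j + D.v n) (D.A j)
  refine ⟨hsm.contDiffOn, ?_⟩
  intro z hz e he
  have hz' : ‖z - (D.b j + D.v n)‖ < 2 * D.r := by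
    rw [← dist_eq_norm]
    exact hz
  rcases he with ⟨h1, h2⟩ | ⟨f, hf, h2⟩ | ⟨j', n', h1, h2⟩ | ⟨j', n', h1, h2⟩
  · refine ⟨brEqn (D.b j + D.v n) (D.A j), hsm.contDiffAt, ?_, ?_⟩
    · intro h0
      exact h1 ((D.EqA3_mem j n hz').2 h0)
    · rw [h2]
      exact Filter.Eventually.of_forall fun w => by simp
  · have h0 : brEqn (D.b j + D.v n) (D.A j) z = 0 := (D.EqA3_mem j n hz').1 hf.mem
    set P : E := D.b j + D.v n with hP
    have hf1 : ContDiffAt ℝ ∞ (fun w : E => f w.1) z := by
      have h3 : ContDiffAt ℝ ∞ f ((fun w : E => w.1) z) := hf.smooth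
      exact h3.comp z contDiffAt_fst
    refine ⟨fun w => w.2 - P.2 + (f w.1 - P.2),
      (contDiffAt_snd.sub contDiffAt_const).add (hf1.sub contDiffAt_const), ?_, ?_⟩
    · intro hu
      have hu' : z.2 - P.2 + (f z.1 - P.2) = 0 := hu
      rw [hf.val] at hu'
      have h4 : z.2 - P.2 = 0 := by linear_combination (1 / 2) * hu'
      have h5 : (z.2 - P.2) ^ 2 - D.A j (z.1 - P.1) = 0 := h0
      rw [h4] at h5
      have h6 : D.A j (z.1 - P.1) = 0 := by linear_combination -h5
      have h7 : z.1 - P.1 = 0 := EqA3_inj (D.A_det j) h6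
      exact hf.ne_b j n (Prod.ext (sub_eq_zero.1 h7) (sub_eq_zero.1 h4))
    · have hg : Filter.Tendsto (fun w : E => ((w.1, f w.1) : E)) (𝓝 z) (𝓝 z) := by
        have hc : ContinuousAt (fun w : E => ((w.1, f w.1) : E)) z :=
          continuousAt_fst.prodMk hf1.continuousAt
        have h5 : Filter.Tendsto (fun w : E => ((w.1, f w.1) : E)) (𝓝 z) (𝓝 ((z.1, f z.1) : E)) := hc
        have h6 : ((z.1, f z.1) : E) = z := Prod.ext rfl hf.val
        rw [h6] at h5
        exact h5
      have hball : ∀ᶠ w in 𝓝 z, w ∈ Metric.ball P (2 * D.r) := Metric.isOpen_ball.mem_nhds hz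
      filter_upwards [hg.eventually hball, hg.eventually hf.graph] with w hw1 hw2
      have hw3 : ‖((w.1, f w.1) : E) - (D.b j + D.v n)‖ < 2 * D.r := by
        rw [← dist_eq_norm]
        exact hw1
      have hw4 : ((w.1, f w.1) : E) ∈ D.C := hw2.2 rfl
      have hw5 : (f w.1 - P.2) ^ 2 - D.A j (w.1 - P.1) = 0 := (D.EqA3_mem j n hw3).1 hw4
      rw [h2]
      show (w.2 - P.2) ^ 2 - D.A j (w.1 - P.1) = (w.2 - f w.1) * (w.2 - P.2 + (f w.1 - P.2))
      linear_combination hw5
  · have h3 : ‖z - (D.b j' + D.v n')‖ < 2 * D.r := by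
      rw [h1, sub_self, norm_zero]
      have := D.hr
      positivity
    obtain ⟨rfl, rfl⟩ := D.special_unique_b hz' h3
    refine ⟨fun _ => 1, contDiffAt_const, one_ne_zero, ?_⟩
    rw [h2, h1]
    exact Filter.Eventually.of_forall fun w => by simp
  · exfalso
    have h3 : ‖z - (D.c j' + D.v n')‖ < 2 * D.r := by
      rw [h1, sub_self, norm_zero]
      have := D.hr
      positivity
    exact D.special_disj h3 hz'

end Curve

end Pool.Agent.Helper67.SY
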