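import Pool.Agent.Helper67.SY.EqA2

/-!
# Project SY (MP_872606_gt), block B (equations)
-/

open Complex Filter Topology
open scoped ContDiff

namespace Pool.Agent.Helper67.SY

namespace Curve

variable (D : Curve)

private theorem EqA4_smooth (P : E) (a : Fin 6 → ℂ) (s : Finset (Fin 6)) :
    ContDiff ℝ ∞ (fun w : E => ∏ k ∈ s, (w.2 - P.2 - a k * (w.1 - P.1))) := by
  refine contDiff_prod fun k _ => ?_
  exact (contDiff_snd.sub contDiff_const).sub (contDiff_const.mul (contDiff_fst.sub contDiff_const))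

private theorem EqA4_mem (j : Fin 2) (n : Fin 4 → ℤ) {w : E} (hw : ‖w - (D.c j + D.v n)‖ < 2 * D.r) :
    w ∈ D.C ↔ clEqn (D.c j + D.v n) (D.a j) w = 0 := by
  have h1 : w ∈ D.C ↔ w - D.v n ∈ D.C := by
    have := D.periodic n (w - D.v n)
    have h2 : w - D.v n + vec D.p D.q D.M n = w := by
      show w - D.v n + D.v n = w
      abel
    rw [h2] at this
    exact this
  have h3 : w - D.v n - D.c j = w - (D.c j + D.v n) := by abel
  rw [h1, D.cl j (w - D.v n) (by rw [h3]; exact hw)]
  have h4 : clEqn (D.c j) (D.a j) (w - D.v n) = clEqn (D.c j + D.v n) (D.a j) w := by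
    unfold clEqn
    refine Finset.prod_congr rfl fun k _ => ?_
    simp only [Prod.fst_sub, Prod.snd_sub, Prod.fst_add, Prod.snd_add]
    ring
  rw [h4]

/-- The standard equation at a 6-fold point is an equation on the ball of radius `2 r`.

Proof. Let `z` be in the ball, and let `e'` be a local equation at `z`. If `z ∉ C` then `e' = 1` and the equation is
`≠ 0` at `z` (`cl`, `periodic`), take `u = clEqn ..`. If `z = c j' + v n'` then `j' = j`, `n' = n` by `special_unique_c`,
take `u = 1`. `z = b j' + v n'` is impossible by `special_disj`. Otherwise `z` is a regular point, `Gr z f`, and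
`e' w = w.2 - f w.1`. Put `(x', y') = z - (c j + v n)`. Then `y' = a i x'` for some `i`, and `x' ≠ 0` (otherwise `z` is the
6-fold point); `y' ≠ a k x'` for `k ≠ i` (`a_inj`). The points of the line `i` near `z` are in `C` (`cl`), hence
`f w.1 = (c j + v n).2 + a i (w.1 - (c j + v n).1)` for `w` near `z`, and `u` is the product over the other lines. -/
theorem isEqn_cl (j : Fin 2) (n : Fin 4 → ℤ) :
    D.IsEqn (Metric.ball (D.c j + D.v n) (2 * D.r)) (clEqn (D.c j + D.v n) (D.a j)) := by
  have hsm : ContDiff ℝ ∞ (clEqn (D.c j + D.v n) (D.a j)) :=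
    EqA4_smooth (D.c j + D.v n) (D.a j) Finset.univ
  refine ⟨hsm.contDiffOn, ?_⟩
  intro z hz e he
  have hz' : ‖z - (D.c j + D.v n)‖ < 2 * D.r := by
    rw [← dist_eq_norm]
    exact hz
  rcases he with ⟨h1, h2⟩ | ⟨f, hf, h2⟩ | ⟨j', n', h1, h2⟩ | ⟨j', n', h1, h2⟩
  · refine ⟨clEqn (D.c j + D.v n) (D.a j), hsm.contDiffAt, ?_, ?_⟩
    · intro h0
      exact h1 ((D.EqA4_mem j n hz').2 h0)
    · rw [h2]
      exact Filter.Eventually.of_forall fun w => by simp
  · have h0 : clEqn (D.c j + D.v n) (D.a j) z = 0 := (D.EqA4_mem j n hz').1 hf.mem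
    set P : E := D.c j + D.v n with hP
    unfold clEqn at h0
    obtain ⟨i, -, hi⟩ := Finset.prod_eq_zero_iff.1 h0
    have hx : z.1 - P.1 ≠ 0 := by
      intro hx
      rw [hx, mul_zero, sub_zero] at hi
      exact hf.ne_c j n (Prod.ext (sub_eq_zero.1 hx) (sub_eq_zero.1 hi))
    refine ⟨fun w => ∏ k ∈ Finset.univ.erase i, (w.2 - P.2 - D.a j k * (w.1 - P.1)),
      (EqA4_smooth P (D.a j) _).contDiffAt, ?_, ?_⟩
    · refine Finset.prod_ne_zero_iff.2 fun k hk hk0 => ?_
      have hki : k ≠ i := Finset.ne_of_mem_erase hk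
      have h3 : (D.a j i - D.a j k) * (z.1 - P.1) = 0 := by linear_combination hk0 - hi
      rcases mul_eq_zero.1 h3 with h4 | h4
      · exact hki (D.a_inj j (sub_eq_zero.1 h4)).symm
      · exact hx h4
    · have hg : Filter.Tendsto (fun w : E => ((w.1, P.2 + D.a j i * (w.1 - P.1)) : E)) (𝓝 z) (𝓝 z) := by
        have hc : Continuous (fun w : E => ((w.1, P.2 + D.a j i * (w.1 - P.1)) : E)) := by fun_prop
        have h5 := hc.tendsto z
        have h6 : ((z.1, P.2 + D.a j i * (z.1 - P.1)) : E) = z := by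
          refine Prod.ext rfl ?_
          show P.2 + D.a j i * (z.1 - P.1) = z.2
          linear_combination -hi
        rw [h6] at h5
        exact h5
      have hball : ∀ᶠ w in 𝓝 z, w ∈ Metric.ball P (2 * D.r) := Metric.isOpen_ball.mem_nhds hz
      filter_upwards [hg.eventually hball, hg.eventually hf.graph] with w hw1 hw2
      have hw3 : ‖((w.1, P.2 + D.a j i * (w.1 - P.1)) : E) - (D.c j + D.v n)‖ < 2 * D.r := by
        rw [← dist_eq_norm]
        exact hw1
      have hw4 : ((w.1, P.2 + D.a j i * (w.1 - P.1)) : E) ∈ D.C := by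
        rw [D.EqA4_mem j n hw3]
        unfold clEqn
        refine Finset.prod_eq_zero (Finset.mem_univ i) ?_
        show P.2 + D.a j i * (w.1 - P.1) - P.2 - D.a j i * (w.1 - P.1) = 0
        ring
      have hw5 : P.2 + D.a j i * (w.1 - P.1) = f w.1 := hw2.1 hw4
      rw [h2]
      show ∏ k, (w.2 - P.2 - D.a j k * (w.1 - P.1)) =
        (w.2 - f w.1) * ∏ k ∈ Finset.univ.erase i, (w.2 - P.2 - D.a j k * (w.1 - P.1))
      rw [← Finset.mul_prod_erase Finset.univ _ (Finset.mem_univ i), ← hw5]
      ring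
  · exfalso
    refine D.special_disj hz' (j' := j') (n' := n') ?_
    rw [h1, sub_self, norm_zero]
    have := D.hr
    positivity
  · have h3 : ‖z - (D.c j' + D.v n')‖ < 2 * D.r := by
      rw [h1, sub_self, norm_zero]
      have := D.hr
      positivity
    obtain ⟨rfl, rfl⟩ := D.special_unique_c hz' h3
    refine ⟨fun _ => 1, contDiffAt_const, one_ne_zero, ?_⟩
    rw [h2, h1]
    exact Filter.Eventually.of_forall fun w => by simp

end Curve

end Pool.Agent.Helper67.SY
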