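import Pool.Agent.Helper67.SY.EqA3
import Pool.Agent.Helper67.SY.EqA4

/-!
# Project SY (MP_872606_gt), block B (equations)
-/

open Complex Filter Topology
open scoped ContDiff

namespace Pool.Agent.Helper67.SY

namespace Curve

variable (D : Curve)

private theorem EqA5_b (j : Fin 2) (n : Fin 4 → ℤ) : D.b j + D.v n ∈ D.C := by
  refine (D.periodic n (D.b j)).2 ((D.br j (D.b j) ?_).2 ?_)
  · rw [sub_self, norm_zero]
    have := D.hr
    positivity
  · simp [brEqn]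

private theorem EqA5_c (j : Fin 2) (n : Fin 4 → ℤ) : D.c j + D.v n ∈ D.C := by
  refine (D.periodic n (D.c j)).2 ((D.cl j (D.c j) ?_).2 ?_)
  · rw [sub_self, norm_zero]
    have := D.hr
    positivity
  · simp [clEqn]

private theorem EqA5_eq {w : E} {f f' : ℂ → ℂ} (hc : ContinuousAt f' w.1) (hv : f' w.1 = w.2)
    (h' : ∀ᶠ x in 𝓝 w, (x ∈ D.C ↔ x.2 = f' x.1)) (h : ∀ᶠ x in 𝓝 w, (x ∈ D.C ↔ x.2 = f x.1)) :
    f =ᶠ[𝓝 w.1] f' := by
  have ht : Tendsto (fun x : ℂ => (x, f' x)) (𝓝 w.1) (𝓝 w) := by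
    have h1 : ContinuousAt (fun x : ℂ => (x, f' x)) w.1 := continuousAt_id.prodMk hc
    have h2 : ((w.1, f' w.1) : E) = w := by rw [hv]
    have h3 := h1.tendsto
    simp only [h2] at h3
    exact h3
  filter_upwards [ht.eventually h', ht.eventually h] with x h1 h2
  exact (h2.1 (h1.2 rfl)).symm

private theorem EqA5_sep_b {z : E} (hz : ∀ j n, z ≠ D.b j + D.v n) :
    ∃ ρ > 0, ∀ j n, ρ ≤ ‖z - (D.b j + D.v n)‖ := by
  by_cases h : ∃ j n, ‖z - (D.b j + D.v n)‖ < 2 * D.r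
  · obtain ⟨j, n, hjn⟩ := h
    refine ⟨‖z - (D.b j + D.v n)‖, norm_pos_iff.2 (sub_ne_zero.2 (hz j n)), fun j' n' => ?_⟩
    by_contra hlt
    rw [not_le] at hlt
    obtain ⟨h1, h2⟩ := D.special_unique_b (hlt.trans hjn) hjn
    rw [h1, h2] at hlt
    exact lt_irrefl _ hlt
  · refine ⟨2 * D.r, by have := D.hr; positivity, fun j n => ?_⟩
    by_contra hlt
    exact h ⟨j, n, not_le.1 hlt⟩

private theorem EqA5_sep_c {z : E} (hz : ∀ j n, z ≠ D.c j + D.v n) :
    ∃ ρ > 0, ∀ j n, ρ ≤ ‖z - (D.c j + D.v n)‖ := by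
  by_cases h : ∃ j n, ‖z - (D.c j + D.v n)‖ < 2 * D.r
  · obtain ⟨j, n, hjn⟩ := h
    refine ⟨‖z - (D.c j + D.v n)‖, norm_pos_iff.2 (sub_ne_zero.2 (hz j n)), fun j' n' => ?_⟩
    by_contra hlt
    rw [not_le] at hlt
    obtain ⟨h1, h2⟩ := D.special_unique_c (hlt.trans hjn) hjn
    rw [h1, h2] at hlt
    exact lt_irrefl _ hlt
  · refine ⟨2 * D.r, by have := D.hr; positivity, fun j n => ?_⟩
    by_contra hlt
    exact h ⟨j, n, not_le.1 hlt⟩

/-- Around every point there is a ball with an equation.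

Proof. `z ∉ C`: the constant `1` on a ball off `C` (`closed`); the local equations at points off `C` are `1`. Regular
point (`Gr z f`): `f` is smooth near `z.1` and `C` is the graph near `z`; take a ball where both hold, and
`σ w = w.2 - f w.1`. At a point `w₀` of the ball, not on `C`, one has `σ w₀ ≠ 0` and the local equation is `1`. At a
point `w₀` of the ball on `C`: if a local equation is `w.2 - f' w.1` with `Gr w₀ f'` then `f' = f` near `w₀.1` (both
graphs are `C` near `w₀`), `u = 1`; the other cases do not occur if the ball contains no special point `b j + v n` or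
`c j + v n` (the centre is not one of them, and there is at most one `b j + v n` and at most one `c j + v n` in a ball of
radius `r`, by `special_unique_b`, `special_unique_c`). Special points: `isEqn_br`, `isEqn_cl`. -/
theorem exists_isEqn_ball (z : E) : ∃ ρ > 0, ∃ σ, D.IsEqn (Metric.ball z ρ) σ := by
  have hr := D.hr
  by_cases hb : ∃ j n, z = D.b j + D.v n
  · obtain ⟨j, n, rfl⟩ := hb
    exact ⟨2 * D.r, by positivity, _, D.isEqn_br j n⟩
  by_cases hc : ∃ j n, z = D.c j + D.v n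
  · obtain ⟨j, n, rfl⟩ := hc
    exact ⟨2 * D.r, by positivity, _, D.isEqn_cl j n⟩
  have hb' : ∀ j n, z ≠ D.b j + D.v n := fun j n h => hb ⟨j, n, h⟩
  have hc' : ∀ j n, z ≠ D.c j + D.v n := fun j n h => hc ⟨j, n, h⟩
  by_cases hz : z ∈ D.C
  swap
  · obtain ⟨ρ, hρ, hball⟩ := Metric.isOpen_iff.1 D.closed.isOpen_compl z hz
    refine ⟨ρ, hρ, fun _ => 1, contDiffOn_const, fun w hw e he => ?_⟩
    have hwC : w ∉ D.C := hball hw
    rcases he with ⟨_, rfl⟩ | ⟨f, hf, _⟩ | ⟨j, n, h, _⟩ | ⟨j, n, h, _⟩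
    · exact ⟨fun _ => 1, contDiffAt_const, one_ne_zero, Eventually.of_forall fun _ => by simp⟩
    · exact absurd hf.mem hwC
    · exact absurd (h ▸ EqA5_b D j n) hwC
    · exact absurd (h ▸ EqA5_c D j n) hwC
  obtain ⟨f, hfs, hfv, hfg⟩ := D.reg z hz hc' hb'
  obtain ⟨ρ₁, hρ₁, hg⟩ := Metric.eventually_nhds_iff_ball.1 hfg
  obtain ⟨ρ₂, hρ₂, hsb⟩ := EqA5_sep_b D hb'
  obtain ⟨ρ₃, hρ₃, hsc⟩ := EqA5_sep_c D hc'
  set ρ := min ρ₁ (min ρ₂ ρ₃) with hρd
  have hρ : 0 < ρ := lt_min hρ₁ (lt_min hρ₂ hρ₃)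
  have hgr : ∀ w ∈ Metric.ball z ρ, ∀ᶠ x in 𝓝 w, (x ∈ D.C ↔ x.2 = f x.1) := by
    intro w hw
    filter_upwards [Metric.isOpen_ball.mem_nhds hw] with x hx
    exact hg x (Metric.ball_subset_ball (min_le_left _ _) hx)
  have hnb : ∀ w ∈ Metric.ball z ρ, ∀ j n, w ≠ D.b j + D.v n := by
    rintro w hw j n rfl
    have h1 := hsb j n
    rw [Metric.mem_ball', dist_eq_norm] at hw
    have h2 : ρ ≤ ρ₂ := (min_le_right _ _).trans (min_le_left _ _)
    linarith
  have hnc : ∀ w ∈ Metric.ball z ρ, ∀ j n, w ≠ D.c j + D.v n := by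
    rintro w hw j n rfl
    have h1 := hsc j n
    rw [Metric.mem_ball', dist_eq_norm] at hw
    have h2 : ρ ≤ ρ₃ := (min_le_right _ _).trans (min_le_right _ _)
    linarith
  -- the graph stays in the ball
  obtain ⟨δ₀, hδ₀, hδ⟩ : ∃ δ > 0, ∀ x ∈ Metric.ball z.1 δ, ((x, f x) : E) ∈ Metric.ball z ρ := by
    have h1 : ContinuousAt (fun x : ℂ => ((x, f x) : E)) z.1 :=
      continuousAt_id.prodMk hfs.continuousAt
    have h2 : ((z.1, f z.1) : E) = z := by rw [hfv]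
    have h3 : ∀ᶠ x in 𝓝 z.1, ((x, f x) : E) ∈ Metric.ball z ρ := by
      refine h1.eventually (Metric.isOpen_ball.mem_nhds ?_)
      simp only [h2]
      exact Metric.mem_ball_self hρ
    exact Metric.eventually_nhds_iff_ball.1 h3
  have hsm : ∀ x ∈ Metric.ball z.1 δ₀, ContDiffAt ℝ ∞ f x := by
    intro x hx
    have hw := hδ x hx
    have hwC : ((x, f x) : E) ∈ D.C :=
      (hg _ (Metric.ball_subset_ball (min_le_left _ _) hw)).2 rfl
    obtain ⟨f', h1, h2, h3⟩ := D.reg _ hwC (hnc _ hw) (hnb _ hw)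
    exact h1.congr_of_eventuallyEq (EqA5_eq D h1.continuousAt h2 h3 (hgr _ hw))
  have hfst : ∀ w ∈ Metric.ball z (min δ₀ ρ), w.1 ∈ Metric.ball z.1 δ₀ := by
    intro w hw
    have h1 : dist w.1 z.1 ≤ dist w z := le_max_left _ _
    exact (h1.trans_lt hw).trans_le (min_le_left _ _)
  have hσ : ∀ w ∈ Metric.ball z (min δ₀ ρ), ContDiffAt ℝ ∞ (fun w : E => w.2 - f w.1) w :=
    fun w hw => contDiffAt_snd.sub ((hsm _ (hfst w hw)).comp w contDiffAt_fst)
  refine ⟨min δ₀ ρ, lt_min hδ₀ hρ, fun w => w.2 - f w.1,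
    fun w hw => (hσ w hw).contDiffWithinAt, fun w hw e he => ?_⟩
  have hwρ : w ∈ Metric.ball z ρ := Metric.ball_subset_ball (min_le_right _ _) hw
  have hwg := hg w (Metric.ball_subset_ball (min_le_left _ _) hwρ)
  rcases he with ⟨hwC, rfl⟩ | ⟨f', hf', rfl⟩ | ⟨j, n, h, _⟩ | ⟨j, n, h, _⟩
  · exact ⟨fun w => w.2 - f w.1, hσ w hw, fun h => hwC (hwg.2 (sub_eq_zero.1 h)),
      Eventually.of_forall fun _ => (one_mul _).symm⟩
  · have h1 : f =ᶠ[𝓝 w.1] f' := EqA5_eq D hf'.smooth.continuousAt hf'.val hf'.graph (hgr w hwρ)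
    have h2 : Tendsto (fun x : E => x.1) (𝓝 w) (𝓝 w.1) := continuousAt_fst
    refine ⟨fun _ => 1, contDiffAt_const, one_ne_zero, ?_⟩
    filter_upwards [h2.eventually h1] with x hx
    rw [mul_one, hx]
  · exact absurd h (hnb w hwρ j n)
  · exact absurd h (hnc w hwρ j n)

end Curve

end Pool.Agent.Helper67.SY
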