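import Pool.Agent.Helper67.SY.Cv

/-!
# Project SY (MP_872606_gt), block B (equations)
-/

open Complex Filter Topology
open scoped ContDiff

namespace Pool.Agent.Helper67.SY

/-- Smooth logarithms on convex open sets.

Proof. If `W` is empty take `0`. Otherwise take a continuous logarithm, `Complex.exp` is a covering map onto `ℂ \ {0}`
and `W` is simply connected and locally path connected; it is smooth as it is near `z₁` equal to
`Complex.log (g z / g z₁) + ℓ z₁`. -/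
theorem exists_log {W : Set E} (hW : IsOpen W) (hc : Convex ℝ W) {g : E → ℂ} (hg : ContDiffOn ℝ ∞ g W)
    (h0 : ∀ z ∈ W, g z ≠ 0) : ∃ ℓ : E → ℂ, ContDiffOn ℝ ∞ ℓ W ∧ ∀ z ∈ W, exp (ℓ z) = g z := by
  rcases W.eq_empty_or_nonempty with hE | hne
  · subst hE
    exact ⟨fun _ => 0, contDiffOn_const, fun z hz => absurd hz (Set.notMem_empty z)⟩
  have hsc : IsSimplyConnected W := by
    have := hc.contractibleSpace hne
    exact SimplyConnectedSpace.ofContractible W
  obtain ⟨f, hfc, hf⟩ := exists_continuousOn_eqOn_exp_comp hsc hW hg.continuousOn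
    (by rintro ⟨z, hz, hz0⟩; exact h0 z hz hz0)
  refine ⟨f, fun z₁ hz₁ => ?_, fun z hz => hf hz⟩
  have hW1 : W ∈ 𝓝 z₁ := hW.mem_nhds hz₁
  have hca : ContinuousAt f z₁ := hfc.continuousAt hW1
  have hga : ContDiffAt ℝ ∞ g z₁ := hg.contDiffAt hW1
  have h1 : ∀ᶠ z in 𝓝 z₁, ‖f z - f z₁‖ < 1 := by
    have h3 : Tendsto (fun z => ‖f z - f z₁‖) (𝓝 z₁) (𝓝 0) := by
      have h4 : ContinuousAt (fun z => ‖f z - f z₁‖) z₁ := (hca.sub continuousAt_const).norm
      have h5 := h4.tendsto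
      simpa using h5
    exact h3.eventually (gt_mem_nhds one_pos)
  have h2 : ∀ᶠ z in 𝓝 z₁, f z = Complex.log (g z / g z₁) + f z₁ := by
    filter_upwards [h1, hW1] with z hz hzW
    have h3 : exp (f z) = g z := hf hzW
    have h4 : exp (f z₁) = g z₁ := hf hz₁
    rw [← h3, ← h4, ← exp_sub]
    have h5 : |(f z - f z₁).im| < 1 := lt_of_le_of_lt (abs_im_le_norm _) hz
    rw [abs_lt] at h5
    rw [log_exp (by linarith [Real.pi_gt_three]) (by linarith [Real.pi_gt_three])]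
    ring
  have h3 : ContDiffAt ℝ ∞ (fun z => Complex.log (g z / g z₁) + f z₁) z₁ := by
    have h4 : ContDiffAt ℝ ∞ (fun z => g z / g z₁) z₁ := hga.div_const _
    have h5 : ContDiffAt ℝ ∞ Complex.log (g z₁ / g z₁) := by
      rw [div_self (h0 z₁ hz₁)]
      exact (contDiffAt_log one_mem_slitPlane).restrict_scalars ℝ
    exact (h5.comp z₁ h4).add contDiffAt_const
  exact (h3.congr_of_eventuallyEq h2).contDiffWithinAt

/-- Smooth sixth roots on convex open sets: `exp (ℓ / 6)`. -/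
theorem exists_root {W : Set E} (hW : IsOpen W) (hc : Convex ℝ W) {g : E → ℂ} (hg : ContDiffOn ℝ ∞ g W)
    (h0 : ∀ z ∈ W, g z ≠ 0) :
    ∃ V : E → ℂ, ContDiffOn ℝ ∞ V W ∧ (∀ z ∈ W, V z ≠ 0) ∧ ∀ z ∈ W, V z ^ 6 = g z := by
  obtain ⟨ℓ, h1, h2⟩ := exists_log hW hc hg h0
  refine ⟨fun z => exp (ℓ z / 6), ?_, fun z _ => exp_ne_zero _, fun z hz => ?_⟩
  · exact (h1.div_const 6).cexp
  · rw [← exp_nat_mul, ← h2 z hz]
    congr 1
    push_cast
    ring

end Pool.Agent.Helper67.SY
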