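import Pool.Agent.Helper67.SY.EqA2

/-!
# Project SY (MP_872606_gt), block B (equations)
-/

open Complex Filter Topology
open scoped ContDiff

namespace Pool.Agent.Helper67.SY

/-- Smooth cutoff: `1` for `t ≤ 1/3`, `0` for `2/3 ≤ t` (`Real.smoothTransition`). -/
theorem exists_cut : ∃ ρ : ℝ → ℝ, ContDiff ℝ ∞ ρ ∧ (∀ t ≤ 1 / 3, ρ t = 1) ∧ ∀ t, 2 / 3 ≤ t → ρ t = 0 := by
  refine ⟨fun t => Real.smoothTransition (2 - 3 * t), ?_, fun t ht => ?_, fun t ht => ?_⟩
  · exact Real.smoothTransition.contDiff.comp (by fun_prop)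
  · exact Real.smoothTransition.one_of_one_le (by linarith)
  · exact Real.smoothTransition.zero_of_nonpos (by linarith)

namespace Curve

variable (D : Curve)

theorem IsEqn.mono {D : Curve} {W W' : Set E} {σ : E → ℂ} (h : D.IsEqn W σ) (hW : W' ⊆ W) : D.IsEqn W' σ :=
  ⟨h.1.mono hW, fun z hz => h.2 z (hW hz)⟩

/-- Times a unit. -/
theorem IsEqn.mul {D : Curve} {W : Set E} (hW : IsOpen W) {σ g : E → ℂ} (h : D.IsEqn W σ) (hg : ContDiffOn ℝ ∞ g W)
    (h0 : ∀ z ∈ W, g z ≠ 0) : D.IsEqn W (fun z => g z * σ z) := by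
  refine ⟨hg.mul h.1, fun z hz e he => ?_⟩
  obtain ⟨u, hu, hu0, hue⟩ := h.2 z hz e he
  refine ⟨fun w => g w * u w, (hg.contDiffAt (hW.mem_nhds hz)).mul hu,
    mul_ne_zero (h0 z hz) hu0, ?_⟩
  filter_upwards [hue] with w hw
  rw [hw]
  ring

/-- A function which is near every point of `W` equal to an equation is an equation. -/
theorem isEqn_of_local {W : Set E} {σ : E → ℂ}
    (h : ∀ z ∈ W, ∃ W' σ', IsOpen W' ∧ z ∈ W' ∧ D.IsEqn W' σ' ∧ ∀ w ∈ W', σ w = σ' w) : D.IsEqn W σ := by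
  refine ⟨fun z hz => ?_, fun z hz e he => ?_⟩
  · obtain ⟨W', σ', hW', hz', hσ', heq⟩ := h z hz
    have h1 : ContDiffAt ℝ ∞ σ' z := hσ'.1.contDiffAt (hW'.mem_nhds hz')
    refine (h1.congr_of_eventuallyEq ?_).contDiffWithinAt
    filter_upwards [hW'.mem_nhds hz'] with w hw
    exact heq w hw
  · obtain ⟨W', σ', hW', hz', hσ', heq⟩ := h z hz
    obtain ⟨u, hu, hu0, hue⟩ := hσ'.2 z hz' e he
    refine ⟨u, hu, hu0, ?_⟩
    filter_upwards [hW'.mem_nhds hz', hue] with w hw hw'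
    rw [heq w hw, hw']

/-- Translation by a lattice vector; `locEqn_add`. -/
theorem IsEqn.add {D : Curve} {W : Set E} {σ : E → ℂ} (h : D.IsEqn W σ) (n : Fin 4 → ℤ) :
    D.IsEqn {z | z + D.v n ∈ W} (fun z => σ (z + D.v n)) := by
  refine ⟨?_, fun z hz e he => ?_⟩
  · exact h.1.comp (f := fun z : E => z + D.v n)
      ((contDiff_id.add contDiff_const).contDiffOn) (fun z hz => hz)
  · obtain ⟨u, hu, hu0, hue⟩ := h.2 (z + D.v n) hz _ (D.locEqn_add n he)
    refine ⟨fun w => u (w + D.v n), ?_, hu0, ?_⟩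
    · exact ContDiffAt.comp (g := u) z hu (contDiff_id.add contDiff_const).contDiffAt
    · have hc : Filter.Tendsto (fun w : E => w + D.v n) (𝓝 z) (𝓝 (z + D.v n)) :=
        (continuous_id.add continuous_const).tendsto z
      filter_upwards [hc.eventually hue] with w hw
      rw [hw, add_sub_cancel_right]

theorem IsEqn.zero_iff {D : Curve} {W : Set E} {σ : E → ℂ} (h : D.IsEqn W σ) {z : E} (hz : z ∈ W) :
    σ z = 0 ↔ z ∈ D.C := by
  obtain ⟨e, he⟩ := D.exists_locEqn z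
  obtain ⟨u, _, hu0, hue⟩ := h.2 z hz e he
  rw [hue.self_of_nhds, ← (D.locEqn_zero he).self_of_nhds, mul_eq_zero]
  exact ⟨fun h1 => h1.resolve_right hu0, Or.inl⟩

end Curve

end Pool.Agent.Helper67.SY
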