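import Pool.Agent.Helper67.SY.EqB2

/-!
# Project SY (MP_872606_gt), block B (equations)
-/

open Complex Filter Topology
open scoped ContDiff

namespace Pool.Agent.Helper67.SY

namespace Curve

variable (D : Curve)

/-- Two equations on the same open set differ by a unit.

Proof. Let `z ∈ W`, with local equation `e` (`exists_locEqn`). Near `z`: `σ = e u`, `σ' = e u'`, with `u`, `u'` smooth
and not zero at `z`; so `σ = (u / u') σ'` near `z`. Put `g z = u z / u' z` (for chosen `e`, `u`, `u'`). For `w` near `z`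
and off `C` one has `σ' w ≠ 0` and `g w = σ w / σ' w = (u / u') w`. For `w` near `z` on `C` also: the function `(u / u')`
chosen for the point `w` and the one for the point `z` are both continuous at `w` and agree off `C` near `w`, and the
complement of `C` is dense (`dense_compl`). So `g = u / u'` near `z`. -/
theorem exists_unit {W : Set E} (hW : IsOpen W) {σ σ' : E → ℂ} (h : D.IsEqn W σ) (h' : D.IsEqn W σ') :
    ∃ g : E → ℂ, ContDiffOn ℝ ∞ g W ∧ (∀ z ∈ W, g z ≠ 0) ∧ ∀ z ∈ W, σ z = g z * σ' z := by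
  have loc : ∀ z, ∃ q : E → ℂ, z ∈ W →
      ContDiffAt ℝ ∞ q z ∧ q z ≠ 0 ∧ ∀ᶠ w in 𝓝 z, σ w = q w * σ' w := by
    intro z
    by_cases hz : z ∈ W
    · obtain ⟨e, he⟩ := D.exists_locEqn z
      obtain ⟨u, hu, hu0, hue⟩ := h.2 z hz e he
      obtain ⟨u', hu', hu0', hue'⟩ := h'.2 z hz e he
      refine ⟨fun w => u w * (u' w)⁻¹, fun _ =>
        ⟨hu.mul (hu'.inv hu0'), mul_ne_zero hu0 (inv_ne_zero hu0'), ?_⟩⟩
      filter_upwards [hue, hue', hu'.continuousAt.eventually_ne hu0'] with w h1 h2 h3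
      rw [h1, h2]
      field_simp
    · exact ⟨fun _ => 0, fun h => absurd h hz⟩
  choose q hq using loc
  have key : ∀ z ∈ W, (fun w => q w w) =ᶠ[𝓝 z] q z := by
    intro z hz
    obtain ⟨h1, h2, h3⟩ := hq z hz
    have h4 : ∀ᶠ w in 𝓝 z, ContinuousAt (q z) w :=
      ((h1.of_le (by exact_mod_cast le_top : (1 : WithTop ℕ∞) ≤ ∞)).eventually (by simp)).mono
        fun w hw => hw.continuousAt
    filter_upwards [hW.mem_nhds hz, h4, h3.eventually_nhds] with w w1 w2 w3
    obtain ⟨g1, g2, g3⟩ := hq w w1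
    have : (𝓝[(D.C)ᶜ] w).NeBot := mem_closure_iff_nhdsWithin_neBot.1 (D.dense_compl w)
    have t1 : Tendsto (q z) (𝓝[(D.C)ᶜ] w) (𝓝 (q z w)) :=
      w2.tendsto.mono_left nhdsWithin_le_nhds
    have t2 : Tendsto (q w) (𝓝[(D.C)ᶜ] w) (𝓝 (q w w)) :=
      g1.continuousAt.tendsto.mono_left nhdsWithin_le_nhds
    have e : q w =ᶠ[𝓝[(D.C)ᶜ] w] q z := by
      filter_upwards [self_mem_nhdsWithin, nhdsWithin_le_nhds (hW.mem_nhds w1),
        nhdsWithin_le_nhds w3, nhdsWithin_le_nhds g3] with x x1 x2 x3 x4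
      have hx : σ' x ≠ 0 := fun hx => x1 ((h'.zero_iff x2).1 hx)
      have hxx : q w x * σ' x = q z x * σ' x := by rw [← x4, ← x3]
      exact mul_right_cancel₀ hx hxx
    exact tendsto_nhds_unique t2 (t1.congr' e.symm)
  exact ⟨fun w => q w w,
    fun z hz => ((hq z hz).1.congr_of_eventuallyEq (key z hz)).contDiffWithinAt,
    fun z hz => (hq z hz).2.1, fun z hz => (hq z hz).2.2.self_of_nhds⟩

end Curve

end Pool.Agent.Helper67.SY
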