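import Pool.Agent.Helper67.SY.EqB3
import Pool.Agent.Helper67.SY.EqB1

/-!
# Project SY (MP_872606_gt), block B (equations)
-/

open Complex Filter Topology
open scoped ContDiff

namespace Pool.Agent.Helper67.SY

namespace Curve

variable (D : Curve)

/-- Gluing of equations on slabs.

Proof. Let `W k = W ∩ {k - 1 < L z < k + 1}`; on `W k ∩ W (k + 1)` (convex and open) `σ (k + 1) = exp (ℓ k) * σ k`
(`exists_unit`, `exists_log`). Let `ρ` be as in `exists_cut`. For `z ∈ W k` put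
`τ k z = σ k z * exp ((1 - ρ (L z - k)) * ℓ k z - ρ (L z - (k - 1)) * ℓ (k - 1) z)`, where the first term in the exponent
is read as `0` for `L z ≤ k` and the second as `0` for `k ≤ L z` (use `if`; both terms are smooth on `W k` since the
factor is zero for `L z ≤ k + 1/3`, and for `k - 1/3 ≤ L z`). It is an equation on `W k` (`IsEqn.mul`), and
`τ k = τ (k + 1)` on `W k ∩ W (k + 1)`: both are `σ k * exp ((1 - ρ (L z - k)) * ℓ k z)`. Let `σ z = τ ⌊L z⌋ z` and use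
`isEqn_of_local` (near `z` with `k = ⌊L z⌋` it is `τ k` or `τ (k - 1)`, and these are equal near `z` where both are
defined). -/
theorem glue {W : Set E} (hW : IsOpen W) (hc : Convex ℝ W) (L : E →L[ℝ] ℝ)
    (h : ∀ k : ℤ, ∃ σ, D.IsEqn (W ∩ {z | (k : ℝ) - 1 < L z ∧ L z < k + 1}) σ) : ∃ σ, D.IsEqn W σ := by
  choose σ hσ using h
  obtain ⟨ρ, hρ, hρ1, hρ0⟩ := exists_cut
  have hop : ∀ a b : ℝ, IsOpen (W ∩ {z : E | a < L z ∧ L z < b}) := fun a b =>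
    hW.inter ((isOpen_lt continuous_const L.continuous).inter
      (isOpen_lt L.continuous continuous_const))
  have hcv : ∀ a b : ℝ, Convex ℝ (W ∩ {z : E | a < L z ∧ L z < b}) := fun a b =>
    hc.inter ((convex_halfSpace_gt L.isLinear a).inter (convex_halfSpace_lt L.isLinear b))
  have hlog : ∀ k : ℤ, ∃ ℓ : E → ℂ, ContDiffOn ℝ ∞ ℓ (W ∩ {z | (k : ℝ) < L z ∧ L z < k + 1}) ∧
      ∀ z ∈ W ∩ {z | (k : ℝ) < L z ∧ L z < k + 1}, σ (k + 1) z = exp (ℓ z) * σ k z := by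
    intro k
    have h1 : D.IsEqn (W ∩ {z | (k : ℝ) < L z ∧ L z < k + 1}) (σ k) := (hσ k).mono (by
      rintro z ⟨hz, h1, h2⟩
      exact ⟨hz, by linarith, h2⟩)
    have h2 : D.IsEqn (W ∩ {z | (k : ℝ) < L z ∧ L z < k + 1}) (σ (k + 1)) := (hσ (k + 1)).mono (by
      rintro z ⟨hz, h1, h2⟩
      refine ⟨hz, ?_, ?_⟩
      · push_cast
        linarith
      · push_cast
        linarith)
    obtain ⟨g, hg, hg0, hgs⟩ := D.exists_unit (hop _ _) h2 h1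
    obtain ⟨ℓ, hℓ, hℓg⟩ := exists_log (hop _ _) (hcv _ _) hg hg0
    exact ⟨ℓ, hℓ, fun z hz => by rw [hgs z hz, hℓg z hz]⟩
  choose ℓ hℓ hℓσ using hlog
  refine ⟨fun z => exp (((1 - ρ (L z - ⌊L z⌋) : ℝ) : ℂ) * ℓ ⌊L z⌋ z) * σ ⌊L z⌋ z,
    D.isEqn_of_local fun z hz => ?_⟩
  rcases (Int.floor_le (L z)).lt_or_eq with hlt | heq
  · refine ⟨W ∩ {w | ((⌊L z⌋ : ℤ) : ℝ) < L w ∧ L w < ⌊L z⌋ + 1},
      fun w => exp (((1 - ρ (L w - ⌊L z⌋) : ℝ) : ℂ) * ℓ ⌊L z⌋ w) * σ ⌊L z⌋ w,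
      hop _ _, ⟨hz, hlt, Int.lt_floor_add_one _⟩, ?_, ?_⟩
    · refine IsEqn.mul (hop _ _) ((hσ ⌊L z⌋).mono ?_) ?_ (fun _ _ => exp_ne_zero _)
      · rintro w ⟨hw, h1, h2⟩
        exact ⟨hw, by linarith, h2⟩
      · have h3 : ContDiff ℝ ∞ (fun w : E => ((1 - ρ (L w - ⌊L z⌋) : ℝ) : ℂ)) :=
          Complex.ofRealCLM.contDiff.comp
            (contDiff_const.sub (hρ.comp (L.contDiff.sub contDiff_const)))
        exact (h3.contDiffOn.mul (hℓ ⌊L z⌋)).cexp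
    · rintro w ⟨hw, h1, h2⟩
      have h3 : ⌊L w⌋ = ⌊L z⌋ := Int.floor_eq_iff.2 ⟨h1.le, h2⟩
      simp only [h3]
  · obtain ⟨k, hk⟩ : ∃ k : ℤ, k = ⌊L z⌋ := ⟨_, rfl⟩
    rw [← hk] at heq
    refine ⟨W ∩ {w | (k : ℝ) - 1 / 3 < L w ∧ L w < k + 1 / 3}, σ k, hop _ _,
      ⟨hz, by linarith, by linarith⟩, (hσ k).mono ?_, ?_⟩
    · rintro w ⟨hw, h1, h2⟩
      exact ⟨hw, by linarith, by linarith⟩
    · rintro w ⟨hw, h1, h2⟩
      by_cases h3 : (k : ℝ) ≤ L w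
      · have h4 : ⌊L w⌋ = k := Int.floor_eq_iff.2 ⟨h3, by linarith⟩
        simp only [h4]
        rw [hρ1 _ (by linarith)]
        simp
      · have h4 : ⌊L w⌋ = k - 1 := Int.floor_eq_iff.2 ⟨by push_cast; linarith, by push_cast; linarith⟩
        simp only [h4]
        rw [hρ0 _ (by push_cast; linarith)]
        have h5 := hℓσ (k - 1) w ⟨hw, by push_cast; linarith, by push_cast; linarith⟩
        rw [sub_add_cancel] at h5
        rw [h5]
        simp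

end Curve

end Pool.Agent.Helper67.SY
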