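import Pool.Agent.Helper67.SY.EqA5
import Pool.Agent.Helper67.SY.EqB2

/-!
# Project SY (MP_872606_gt), block B (equations)
-/

open Complex Filter Topology
open scoped ContDiff

namespace Pool.Agent.Helper67.SY

private theorem EqB5_shift (x : ℝ) {P : ℕ} (hP : 0 < P) : ∃ n : ℤ, 0 ≤ x + n * P ∧ x + n * P ≤ P := by
  have hP' : (0 : ℝ) < P := by exact_mod_cast hP
  refine ⟨-⌊x / P⌋, ?_, ?_⟩
  · have h := mul_le_mul_of_nonneg_right (Int.floor_le (x / P)) hP'.le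
    rw [div_mul_cancel₀ _ hP'.ne'] at h
    push_cast
    linarith
  · have h := mul_le_mul_of_nonneg_right (Int.lt_floor_add_one (x / P)).le hP'.le
    rw [div_mul_cancel₀ _ hP'.ne'] at h
    push_cast
    linarith

namespace Curve

variable (D : Curve)

/-- Every point is, up to a lattice vector, in the box with sides `p`, `q`, `M`, `M`. -/
theorem exists_box (z : E) : ∃ n : Fin 4 → ℤ, 0 ≤ (z + D.v n).1.re ∧ (z + D.v n).1.re ≤ D.p ∧ 0 ≤ (z + D.v n).1.im ∧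
    (z + D.v n).1.im ≤ D.q ∧ 0 ≤ (z + D.v n).2.re ∧ (z + D.v n).2.re ≤ D.M ∧ 0 ≤ (z + D.v n).2.im ∧
    (z + D.v n).2.im ≤ D.M := by
  obtain ⟨n0, h0, h0'⟩ := EqB5_shift z.1.re D.hp
  obtain ⟨n1, h1, h1'⟩ := EqB5_shift z.1.im D.hq
  obtain ⟨n2, h2, h2'⟩ := EqB5_shift z.2.re D.hM
  obtain ⟨n3, h3, h3'⟩ := EqB5_shift z.2.im D.hM
  exact ⟨![n0, n1, n2, n3], h0, h0', h1, h1', h2, h2', h3, h3'⟩

/-- There is a number `δ > 0` such that there is an equation on every ball of radius `δ`.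

Proof. Lebesgue number lemma for the compact box `K` = points with coordinates in `[0, p]`, `[0, q]`, `[0, M]`, `[0, M]`
and the open cover by the balls of `exists_isEqn_ball`: every ball of radius `δ` with centre in `K` is contained in one of
them. For a general centre use `exists_box`, `IsEqn.add`, and `IsEqn.mono`. -/
theorem exists_radius : ∃ δ > 0, ∀ z, ∃ σ, D.IsEqn (Metric.ball z δ) σ := by
  choose ρ hρ σ hσ using D.exists_isEqn_ball
  have hK : IsCompact ((Set.Icc (0 : ℝ) D.p ×ℂ Set.Icc (0 : ℝ) D.q) ×ˢ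
      (Set.Icc (0 : ℝ) D.M ×ℂ Set.Icc (0 : ℝ) D.M)) :=
    (isCompact_Icc.reProdIm isCompact_Icc).prod (isCompact_Icc.reProdIm isCompact_Icc)
  obtain ⟨δ, hδ, h⟩ := lebesgue_number_lemma_of_metric hK (c := fun z : E => Metric.ball z (ρ z))
    (fun _ => Metric.isOpen_ball)
    (fun z _ => Set.mem_iUnion.2 ⟨z, Metric.mem_ball_self (hρ z)⟩)
  refine ⟨δ, hδ, fun z => ?_⟩
  obtain ⟨n, h0, h0', h1, h1', h2, h2', h3, h3'⟩ := D.exists_box z
  obtain ⟨w, hw⟩ := h (z + D.v n) ⟨⟨⟨h0, h0'⟩, ⟨h1, h1'⟩⟩, ⟨⟨h2, h2'⟩, ⟨h3, h3'⟩⟩⟩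
  refine ⟨fun y => σ w (y + D.v n), (((hσ w).mono hw).add n).mono fun y hy => ?_⟩
  show y + D.v n ∈ Metric.ball (z + D.v n) δ
  rw [Metric.mem_ball, dist_add_right]
  exact hy

end Curve

end Pool.Agent.Helper67.SY
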