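import Pool.Agent.Helper67.SY.EqB4
import Pool.Agent.Helper67.SY.EqB5

/-!
# Project SY (MP_872606_gt), block B (equations)
-/

open Complex Filter Topology
open scoped ContDiff

namespace Pool.Agent.Helper67.SY

namespace Curve

variable (D : Curve)

/-- There is a global equation.

Proof. Let `δ` be as in `exists_radius`, and let `L j` be `4 / δ` times the four real coordinates. For
`k : Fin 4 → ℤ` the cube `{∀ j, k j - 1 < L j z < k j + 1}` is contained in a ball of radius `δ` (the norm of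
`E = ℂ × ℂ` is the maximum of the norms of the two components; `‖w‖ ≤ |w.re| + |w.im|`). Use `glue` four times (with
`W` = a product of slabs for the remaining coordinates): first for fixed `k 1`, `k 2`, `k 3` over all `k 0`, and so on. -/
theorem exists_isEqn : ∃ σ, D.IsEqn Set.univ σ := by
  obtain ⟨δ, hδ, h⟩ := D.exists_radius
  set s : ℝ := 4 / δ with hs
  have hs0 : 0 < s := by positivity
  have hsδ : 1 / s = δ / 4 := by
    rw [hs]
    field_simp
  set L0 : E →L[ℝ] ℝ := s • (reCLM.comp (ContinuousLinearMap.fst ℝ ℂ ℂ)) with hL0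
  set L1 : E →L[ℝ] ℝ := s • (imCLM.comp (ContinuousLinearMap.fst ℝ ℂ ℂ)) with hL1
  set L2 : E →L[ℝ] ℝ := s • (reCLM.comp (ContinuousLinearMap.snd ℝ ℂ ℂ)) with hL2
  set L3 : E →L[ℝ] ℝ := s • (imCLM.comp (ContinuousLinearMap.snd ℝ ℂ ℂ)) with hL3
  let S : (E →L[ℝ] ℝ) → ℤ → Set E := fun L k => {z | (k : ℝ) - 1 < L z ∧ L z < k + 1}
  have hSo : ∀ L k, IsOpen (S L k) := fun L k =>
    (isOpen_lt continuous_const L.continuous).inter (isOpen_lt L.continuous continuous_const)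
  have hSc : ∀ L k, Convex ℝ (S L k) := fun L k =>
    (convex_halfSpace_gt L.isLinear _).inter (convex_halfSpace_lt L.isLinear _)
  have habs : ∀ (k : ℤ) (x : ℝ), (k : ℝ) - 1 < s * x → s * x < k + 1 → |x - k / s| < δ / 4 := by
    intro k x h1 h2
    have h3 : x - k / s = (s * x - k) * (1 / s) := by
      field_simp
    rw [h3, hsδ, abs_mul, abs_of_pos (by positivity : 0 < δ / 4)]
    have h4 : |s * x - k| < 1 := by
      rw [abs_lt]
      constructor <;> linarith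
    nlinarith [abs_nonneg (s * x - k)]
  have base : ∀ k0 k1 k2 k3, ∃ σ, D.IsEqn (((S L3 k3 ∩ S L2 k2) ∩ S L1 k1) ∩ S L0 k0) σ := by
    intro k0 k1 k2 k3
    obtain ⟨c, hc⟩ : ∃ c : E, c = ((⟨k0 / s, k1 / s⟩ : ℂ), (⟨k2 / s, k3 / s⟩ : ℂ)) := ⟨_, rfl⟩
    obtain ⟨σ, hσ⟩ := h c
    refine ⟨σ, hσ.mono ?_⟩
    rintro z ⟨⟨⟨⟨a3, b3⟩, ⟨a2, b2⟩⟩, ⟨a1, b1⟩⟩, ⟨a0, b0⟩⟩
    have e0 := habs k0 z.1.re a0 b0
    have e1 := habs k1 z.1.im a1 b1
    have e2 := habs k2 z.2.re a2 b2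
    have e3 := habs k3 z.2.im a3 b3
    rw [Metric.mem_ball, dist_eq_norm]
    refine lt_of_le_of_lt (max_le (a := ‖(z - c).1‖) (b := ‖(z - c).2‖) (c := δ / 2) ?_ ?_)
      (by linarith)
    · refine (norm_le_abs_re_add_abs_im _).trans ?_
      rw [hc]
      simp only [Prod.fst_sub, sub_re, sub_im]
      linarith
    · refine (norm_le_abs_re_add_abs_im _).trans ?_
      rw [hc]
      simp only [Prod.snd_sub, sub_re, sub_im]
      linarith
  have s1 : ∀ k1 k2 k3, ∃ σ, D.IsEqn ((S L3 k3 ∩ S L2 k2) ∩ S L1 k1) σ := fun k1 k2 k3 =>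
    D.glue (((hSo L3 k3).inter (hSo L2 k2)).inter (hSo L1 k1))
      (((hSc L3 k3).inter (hSc L2 k2)).inter (hSc L1 k1)) L0 (fun k0 => base k0 k1 k2 k3)
  have s2 : ∀ k2 k3, ∃ σ, D.IsEqn (S L3 k3 ∩ S L2 k2) σ := fun k2 k3 =>
    D.glue ((hSo L3 k3).inter (hSo L2 k2)) ((hSc L3 k3).inter (hSc L2 k2)) L1
      (fun k1 => s1 k1 k2 k3)
  have s3 : ∀ k3, ∃ σ, D.IsEqn (S L3 k3) σ := fun k3 =>
    D.glue (hSo L3 k3) (hSc L3 k3) L2 (fun k2 => s2 k2 k3)
  refine D.glue isOpen_univ convex_univ L3 (fun k => ?_)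
  obtain ⟨σ, hσ⟩ := s3 k
  exact ⟨σ, hσ.mono (by
    rintro z ⟨-, hz⟩
    exact hz)⟩

end Curve

end Pool.Agent.Helper67.SY
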