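import Pool.Agent.Helper67.SY.Al

/-!
# Project SY (MP_872606_gt), block F: calculus of 2-forms on open sets of normed spaces
-/

open Complex Filter Topology
open scoped ContDiff

namespace Pool.Agent.Helper67.SY

section

variable {V W : Type} [NormedAddCommGroup V] [NormedSpace ℝ V] [NormedAddCommGroup W] [NormedSpace ℝ W]

/-- The exterior derivative of the 2-form `η` is zero at `x`. -/
def Cl (η : V → V →L[ℝ] V →L[ℝ] ℝ) (x : V) : Prop :=
  ∀ u v w, fderiv ℝ η x u v w + fderiv ℝ η x v w u + fderiv ℝ η x w u v = 0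

/-- The pullback of a 2-form. -/
noncomputable def pull (f : V → W) (η : W → W →L[ℝ] W →L[ℝ] ℝ) : V → V →L[ℝ] V →L[ℝ] ℝ :=
  fun x => (η (f x)).bilinearComp (fderiv ℝ f x) (fderiv ℝ f x)

theorem pull_apply (f : V → W) (η : W → W →L[ℝ] W →L[ℝ] ℝ) (x u v : V) :
    pull f η x u v = η (f x) (fderiv ℝ f x u) (fderiv ℝ f x v) := rfl

theorem Cl.congr {η η' : V → V →L[ℝ] V →L[ℝ] ℝ} {x : V} (h : Cl η x) (he : ∀ᶠ z in 𝓝 x, η' z = η z) : Cl η' x := by
  intro u v w
  have h1 : fderiv ℝ η' x = fderiv ℝ η x := Filter.EventuallyEq.fderiv_eq he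
  rw [h1]
  exact h u v w

theorem Cl.add {η η' : V → V →L[ℝ] V →L[ℝ] ℝ} {x : V} (h : Cl η x) (h' : Cl η' x) (hd : DifferentiableAt ℝ η x)
    (hd' : DifferentiableAt ℝ η' x) : Cl (fun z => η z + η' z) x := by
  intro u v w
  have h1 : fderiv ℝ (fun z => η z + η' z) x = fderiv ℝ η x + fderiv ℝ η' x :=
    fderiv_fun_add (𝕜 := ℝ) (f := η) (g := η') hd hd'
  rw [h1]
  have h2 := h u v w
  have h3 := h' u v w
  simp only [add_apply]
  linarith

theorem Cl.smul {η : V → V →L[ℝ] V →L[ℝ] ℝ} {x : V} (h : Cl η x) (hd : DifferentiableAt ℝ η x) (c : ℝ) :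
    Cl (fun z => c • η z) x := by
  intro u v w
  have h1 : fderiv ℝ (fun z => c • η z) x = c • fderiv ℝ η x :=
    fderiv_fun_const_smul (𝕜 := ℝ) (f := η) hd c
  rw [h1]
  have h2 := h u v w
  simp only [smul_apply, smul_eq_mul]
  rw [← mul_add, ← mul_add, h2, mul_zero]

theorem cl_const (η : V →L[ℝ] V →L[ℝ] ℝ) (x : V) : Cl (fun _ => η) x := by
  intro u v w
  have h1 : fderiv ℝ (fun _ : V => η) x = 0 := fderiv_const_apply η
  rw [h1]
  simp

/-- Every alternating 2-form on `ℂ` is closed: it is a real function times `dA`, and a cyclic sum over three vectors of a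
2-dimensional space of `D g(u) * dA v w` is zero. -/
theorem cl_plane {η : ℂ → ℂ →L[ℝ] ℂ →L[ℝ] ℝ} {x : ℂ} (hd : DifferentiableAt ℝ η x)
    (alt : ∀ᶠ z in 𝓝 x, ∀ u, η z u u = 0) : Cl η x := by
  have key : ∀ a u : ℂ, fderiv ℝ η x a u u = 0 := by
    intro a u
    have h1 : HasFDerivAt η (fderiv ℝ η x) x := hd.hasFDerivAt
    have h3 := (h1.clm_apply (hasFDerivAt_const u x)).clm_apply (hasFDerivAt_const u x)
    have h4 : (fun z => η z u u) =ᶠ[𝓝 x] fun _ => (0 : ℝ) := by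
      filter_upwards [alt] with z hz using hz u
    have h5 : fderiv ℝ (fun z => η z u u) x = 0 := by
      rw [h4.fderiv_eq]
      exact fderiv_const_apply 0
    have h6 := h3.fderiv
    rw [h5] at h6
    have h7 := congrArg (fun T => T a) h6
    simpa using h7.symm
  have hdec : ∀ z : ℂ, z = z.re • (1 : ℂ) + z.im • Complex.I := by
    intro z
    apply Complex.ext <;> simp
  have key2 : ∀ a v w : ℂ, fderiv ℝ η x a v w = (v.re * w.im - v.im * w.re) * fderiv ℝ η x a 1 Complex.I := by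
    intro a v w
    have h1 := key a 1
    have h2 := key a Complex.I
    have h3 := key a (1 + Complex.I)
    simp only [map_add, add_apply] at h3
    rw [h1, h2] at h3
    have h4 : fderiv ℝ η x a Complex.I 1 = - fderiv ℝ η x a 1 Complex.I := by linarith
    rw [hdec v, hdec w]
    simp only [map_add, map_smul, add_apply, smul_apply, smul_eq_mul, h1, h2, h4]
    simp
    ring
  have key3 : ∀ u : ℂ, fderiv ℝ η x u 1 Complex.I =
      u.re * fderiv ℝ η x 1 1 Complex.I + u.im * fderiv ℝ η x Complex.I 1 Complex.I := by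
    intro u
    conv_lhs => rw [hdec u]
    simp only [map_add, map_smul, add_apply, smul_apply, smul_eq_mul]
  intro u v w
  rw [key2 u v w, key2 v w u, key2 w u v, key3 u, key3 v, key3 w]
  ring

theorem smooth_pull {f : V → W} {η : W → W →L[ℝ] W →L[ℝ] ℝ} {x : V} (hf : ContDiffAt ℝ ∞ f x)
    (hη : ContDiffAt ℝ ∞ η (f x)) : ContDiffAt ℝ ∞ (pull f η) x := by
  have h1 : ContDiffAt ℝ ∞ (fun y => η (f y)) x := hη.comp x hf
  have h2 : ContDiffAt ℝ ∞ (fderiv ℝ f) x := hf.fderiv_right (by simp)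
  have h3 : ContDiffAt ℝ ∞ (fun y => (η (f y)).comp (fderiv ℝ f y)) x := h1.clm_comp h2
  have hfl : ∀ (V' W' : Type) [NormedAddCommGroup V'] [NormedSpace ℝ V'] [NormedAddCommGroup W'] [NormedSpace ℝ W'],
      ContDiff ℝ ∞ (fun B : V' →L[ℝ] W' →L[ℝ] ℝ => B.flip) := by
    intro V' W' _ _ _ _
    exact ContinuousLinearMap.contDiff (𝕜 := ℝ) (E := V' →L[ℝ] W' →L[ℝ] ℝ) (F := W' →L[ℝ] V' →L[ℝ] ℝ)
      ((ContinuousLinearMap.flipₗᵢ ℝ V' W' ℝ : (V' →L[ℝ] W' →L[ℝ] ℝ) ≃ₗᵢ[ℝ] (W' →L[ℝ] V' →L[ℝ] ℝ)) :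
        (V' →L[ℝ] W' →L[ℝ] ℝ) →L[ℝ] (W' →L[ℝ] V' →L[ℝ] ℝ))
  have h4 : ContDiffAt ℝ ∞ (fun y => ((η (f y)).comp (fderiv ℝ f y)).flip) x :=
    (hfl V W).contDiffAt.comp x h3
  have h5 : ContDiffAt ℝ ∞ (fun y => (((η (f y)).comp (fderiv ℝ f y)).flip).comp (fderiv ℝ f y)) x := h4.clm_comp h2
  exact (hfl V V).contDiffAt.comp x h5

end

end Pool.Agent.Helper67.SY
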