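import Pool.Agent.Helper67.SY.Fm

/-!
# Project SY (MP_872606_gt), block F: pullbacks of closed forms
-/

open Complex Filter Topology
open scoped ContDiff

namespace Pool.Agent.Helper67.SY

variable {V W : Type} [NormedAddCommGroup V] [NormedSpace ℝ V] [NormedAddCommGroup W] [NormedSpace ℝ W]

private theorem Fm2_deriv {f : V → W} {η : W → W →L[ℝ] W →L[ℝ] ℝ} {x : V} (hf : ContDiffAt ℝ ∞ f x)
    (hη : DifferentiableAt ℝ η (f x)) (hp : DifferentiableAt ℝ (pull f η) x) (a u v : V) :
    fderiv ℝ (pull f η) x a u v =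
      fderiv ℝ η (f x) (fderiv ℝ f x a) (fderiv ℝ f x u) (fderiv ℝ f x v) +
      η (f x) (fderiv ℝ (fderiv ℝ f) x a u) (fderiv ℝ f x v) +
      η (f x) (fderiv ℝ f x u) (fderiv ℝ (fderiv ℝ f) x a v) := by
  have h1 : HasFDerivAt (fun z => pull f η z u v)
      (((fderiv ℝ (pull f η) x).flip u).flip v) x := by
    have h2 := (hp.hasFDerivAt.clm_apply (hasFDerivAt_const u x)).clm_apply (hasFDerivAt_const v x)
    refine h2.congr_fderiv ?_
    ext b
    simp
  have hfd : HasFDerivAt f (fderiv ℝ f x) x := (hf.differentiableAt (by simp)).hasFDerivAt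
  have hff : HasFDerivAt (fderiv ℝ f) (fderiv ℝ (fderiv ℝ f) x) x := by
    have h3 : ContDiffAt ℝ 1 (fderiv ℝ f) x := hf.fderiv_right (by norm_cast)
    exact (h3.differentiableAt (by simp)).hasFDerivAt
  have hη' : HasFDerivAt (fun z => η (f z)) ((fderiv ℝ η (f x)).comp (fderiv ℝ f x)) x :=
    HasFDerivAt.comp (g := η) x hη.hasFDerivAt hfd
  have h4 := (hη'.clm_apply (hff.clm_apply (hasFDerivAt_const u x))).clm_apply
    (hff.clm_apply (hasFDerivAt_const v x))
  have h5 := h1.unique h4
  have h6 := congrArg (fun L : V →L[ℝ] ℝ => L a) h5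
  simp only [ContinuousLinearMap.flip_apply] at h6
  rw [h6]
  simp
  ring

/-- The pullback of a closed alternating form is closed. The derivative of `pull f η` at `x` in the direction `u`, at
`v`, `w`, is `Dη(Df u)(Df v, Df w) + η(D²f(u,v), Df w) + η(Df v, D²f(u,w))`; the terms with second derivatives cancel in
the cyclic sum, since `D²f` is symmetric and `η (f x)` is antisymmetric. -/
theorem cl_pull {f : V → W} {η : W → W →L[ℝ] W →L[ℝ] ℝ} {x : V} (hf : ContDiffAt ℝ ∞ f x)
    (hη : DifferentiableAt ℝ η (f x)) (alt : ∀ u, η (f x) u u = 0) (h : Cl η (f x)) : Cl (pull f η) x := by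
  intro u v w
  by_cases hp : DifferentiableAt ℝ (pull f η) x
  · rw [Fm2_deriv hf hη hp, Fm2_deriv hf hη hp, Fm2_deriv hf hη hp]
    have hs : IsSymmSndFDerivAt ℝ f x := hf.isSymmSndFDerivAt (by
      rw [minSmoothness_of_isRCLikeNormedField]; exact WithTop.coe_le_coe.2 le_top)
    have anti : ∀ a b, η (f x) a b = -η (f x) b a := by
      intro a b
      have h1 := alt (a + b)
      simp only [map_add, add_apply] at h1
      have h2 := alt a
      have h3 := alt b
      linarith
    have h1 := h (fderiv ℝ f x u) (fderiv ℝ f x v) (fderiv ℝ f x w)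
    rw [hs v u, hs w v, hs w u, anti (fderiv ℝ f x v) (fderiv ℝ (fderiv ℝ f) x u w),
      anti (fderiv ℝ f x w) (fderiv ℝ (fderiv ℝ f) x u v),
      anti (fderiv ℝ f x u) (fderiv ℝ (fderiv ℝ f) x v w)]
    linarith
  · rw [fderiv_zero_of_not_differentiableAt hp]
    simp

end Pool.Agent.Helper67.SY
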