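import Pool.Agent.Helper67.SY.Cvr

/-!
# Project SY (MP_872606_gt), block G (cocycle)
-/

open Complex Filter Topology
open scoped ContDiff

namespace Pool.Agent.Helper67.SY

/-- The pairs of a lattice vector and a smooth function without zeros. -/
@[ext] private structure Gp1_H (w : (Fin 4 → ℤ) →+ E) where
  n : Fin 4 → ℤ
  g : E → ℂ
  ne : ∀ z, g z ≠ 0
  smooth : ContDiff ℝ ∞ g

private lemma Gp1_shift {g : E → ℂ} (h : ContDiff ℝ ∞ g) (a : E) : ContDiff ℝ ∞ (fun z => g (z + a)) :=
  h.comp (contDiff_id.add contDiff_const)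

private noncomputable instance Gp1_group (w : (Fin 4 → ℤ) →+ E) : Group (Gp1_H w) where
  mul x y := ⟨x.n + y.n, fun z => x.g (z + w y.n) * y.g z, fun z => mul_ne_zero (x.ne _) (y.ne _),
    (Gp1_shift x.smooth _).mul y.smooth⟩
  one := ⟨0, fun _ => 1, fun _ => one_ne_zero, contDiff_const⟩
  inv x := ⟨-x.n, fun z => (x.g (z + w (-x.n)))⁻¹, fun z => inv_ne_zero (x.ne _),
    (Gp1_shift x.smooth _).inv fun z => x.ne _⟩
  mul_assoc x y z := by
    refine Gp1_H.ext (add_assoc _ _ _) (funext fun t => ?_)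
    show x.g (t + w z.n + w y.n) * y.g (t + w z.n) * z.g t = x.g (t + w (y.n + z.n)) * (y.g (t + w z.n) * z.g t)
    rw [map_add, add_assoc t, add_comm (w z.n), mul_assoc]
  one_mul x := by
    refine Gp1_H.ext (zero_add _) (funext fun t => ?_)
    show 1 * x.g t = x.g t
    rw [one_mul]
  mul_one x := by
    refine Gp1_H.ext (add_zero _) (funext fun t => ?_)
    show x.g (t + w 0) * 1 = x.g t
    rw [map_zero, add_zero, mul_one]
  inv_mul_cancel x := by
    refine Gp1_H.ext (neg_add_cancel _) (funext fun t => ?_)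
    show (x.g (t + w x.n + w (-x.n)))⁻¹ * x.g t = 1
    rw [map_neg, add_assoc, add_neg_cancel, add_zero, inv_mul_cancel₀ (x.ne t)]

private def Gp1_fst (w : (Fin 4 → ℤ) →+ E) : Gp1_H w →* Multiplicative (Fin 4 → ℤ) where
  toFun x := Multiplicative.ofAdd x.n
  map_one' := rfl
  map_mul' _ _ := rfl

/-- Commuting multipliers for the generators of `ℤ ^ 4` extend to a cocycle.

Proof. On the set `H` of the pairs `(n, g)`, `n ∈ ℤ ^ 4`, `g : E → ℂˣ`, consider the group law
`(n, g) * (m, h) = (n + m, fun z => g (z + w m) * h z)` (unit `(0, 1)`, inverse `(-n, fun z => (g (z - w n))⁻¹)`). The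
elements `(bv i, G i)` commute by `hc`, so `f n = ∏ (bv i, G i) ^ (n i)` (in a fixed order) satisfies
`f (n + m) = f n * f m`; its first component is `n`, and `ε n` is its second component. The pairs with smooth second
component are a subgroup. -/
theorem exists_cocycle (w : (Fin 4 → ℤ) →+ E) (G : Fin 4 → E → ℂ) (hG : ∀ i z, G i z ≠ 0)
    (hs : ∀ i, ContDiff ℝ ∞ (G i))
    (hc : ∀ i j z, G i (z + w (bv j)) * G j z = G j (z + w (bv i)) * G i z) :
    ∃ ε : (Fin 4 → ℤ) → E → ℂ, (∀ n, ContDiff ℝ ∞ (ε n)) ∧ (∀ n z, ε n z ≠ 0) ∧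
      (∀ n m z, ε (n + m) z = ε n (z + w m) * ε m z) ∧ ∀ i z, ε (bv i) z = G i z := by
  classical
  set x : Fin 4 → Gp1_H w := fun i => ⟨bv i, G i, hG i, hs i⟩ with hx
  have hcomm : ∀ a ∈ Set.range x, ∀ b ∈ Set.range x, a * b = b * a := by
    rintro _ ⟨i, rfl⟩ _ ⟨j, rfl⟩
    exact Gp1_H.ext (add_comm _ _) (funext fun z => hc i j z)
  let inst : CommGroup (Subgroup.closure (Set.range x)) :=
    { (inferInstance : Group (Subgroup.closure (Set.range x))) with
      mul_comm := (Subgroup.isMulCommutative_closure hcomm).is_comm.comm }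
  set X : Fin 4 → Subgroup.closure (Set.range x) := fun i => ⟨x i, Subgroup.subset_closure ⟨i, rfl⟩⟩ with hX
  set F : (Fin 4 → ℤ) → Gp1_H w := fun n => ((∏ i, X i ^ n i : Subgroup.closure (Set.range x)) : Gp1_H w) with hF
  have hadd : ∀ n m, F (n + m) = F n * F m := by
    intro n m
    have : (∏ i, X i ^ (n + m) i) = (∏ i, X i ^ n i) * ∏ i, X i ^ m i := by
      rw [← Finset.prod_mul_distrib]
      exact Finset.prod_congr rfl fun i _ => zpow_add _ _ _
    exact congrArg Subtype.val this
  have hbv : ∀ i, F (bv i) = x i := by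
    intro i
    have : (∏ j, X j ^ bv i j) = X i := by
      rw [Finset.prod_eq_single i]
      · simp [bv]
      · intro j _ hj
        simp [bv, Pi.single_eq_of_ne hj]
      · intro h
        exact absurd (Finset.mem_univ i) h
    exact congrArg Subtype.val this
  let φ : (Fin 4 → ℤ) →+ (Fin 4 → ℤ) :=
    AddMonoidHom.mk' (fun n => (F n).n) fun n m => congrArg Gp1_H.n (hadd n m)
  have hφ : φ = AddMonoidHom.id _ := by
    refine AddMonoidHom.functions_ext' _ _ _ fun i => ?_
    refine AddMonoidHom.ext_int ?_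
    exact congrArg Gp1_H.n (hbv i)
  have hn : ∀ n, (F n).n = n := fun n => DFunLike.congr_fun hφ n
  refine ⟨fun n => (F n).g, fun n => (F n).smooth, fun n => (F n).ne, fun n m z => ?_, fun i z => ?_⟩
  · have h := congrFun (congrArg Gp1_H.g (hadd n m)) z
    refine h.trans ?_
    show (F n).g (z + w (F m).n) * (F m).g z = _
    rw [hn]
  · exact congrFun (congrArg Gp1_H.g (hbv i)) z

end Pool.Agent.Helper67.SY
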