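import Pool.Agent.Helper67.SY.Cvr

/-!
# Project SY (MP_872606_gt), block G (cocycle)
-/

open Complex Filter Topology
open scoped ContDiff

namespace Pool.Agent.Helper67.SY

namespace Curve

variable (D : Curve)

/-- `IsEqn.add`, `exists_unit`, `exists_root` (all with `W = univ`). -/
theorem exists_lift {σ : E → ℂ} (h : D.IsEqn Set.univ σ) (n : Fin 4 → ℤ) :
    ∃ g : E → ℂ, ContDiff ℝ ∞ g ∧ (∀ z, g z ≠ 0) ∧ ∀ z, σ (z + D.v n) = g z ^ 6 * σ z := by
  obtain ⟨g, hg, h0, he⟩ := D.exists_unit isOpen_univ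
    ((h.add n).mono (W' := Set.univ) fun _ _ => Set.mem_univ _) h
  obtain ⟨V, hV, hV0, hVe⟩ := exists_root isOpen_univ convex_univ hg h0
  refine ⟨V, contDiffOn_univ.1 hV, fun z => hV0 z (Set.mem_univ z), fun z => ?_⟩
  rw [hVe z (Set.mem_univ z)]
  exact he z (Set.mem_univ z)

/-- The partial products. -/
private noncomputable def Gp2_P (a : E) (g : E → ℂ) (k : ℕ) (z : E) : ℂ :=
  ∏ l ∈ Finset.range k, g (z + (l : ℝ) • a)

private theorem Gp2_succ (a : E) (g : E → ℂ) (k : ℕ) (z : E) :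
    Gp2_P a g (k + 1) z = Gp2_P a g k z * g (z + (k : ℝ) • a) := Finset.prod_range_succ _ _

private theorem Gp2_smooth {a : E} {g : E → ℂ} (hg : ContDiff ℝ ∞ g) (k : ℕ) :
    ContDiff ℝ ∞ (Gp2_P a g k) := by
  unfold Gp2_P
  refine contDiff_prod fun l _ => ?_
  exact hg.comp (contDiff_id.add contDiff_const)

private theorem Gp2_ne {a : E} {g : E → ℂ} (hg : ∀ z, g z ≠ 0) (k : ℕ) (z : E) :
    Gp2_P a g k z ≠ 0 := Finset.prod_ne_zero_iff.2 fun _ _ => hg _

private theorem Gp2_eq {a : E} {g σ : E → ℂ} (hg : ∀ z, σ (z + a) = g z ^ 6 * σ z) (k : ℕ) (z : E) :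
    σ (z + (k : ℝ) • a) = Gp2_P a g k z ^ 6 * σ z := by
  induction k with
  | zero => simp [Gp2_P]
  | succ k ih =>
    have h1 : z + ((k + 1 : ℕ) : ℝ) • a = z + (k : ℝ) • a + a := by
      push_cast
      rw [add_smul, one_smul, add_assoc]
    rw [h1, hg, ih, Gp2_succ]
    ring

private theorem Gp2_swap1 {a b : E} {f g : E → ℂ} {ζ : ℂ}
    (h : ∀ z, f (z + b) * g z = ζ * (g (z + a) * f z)) (k : ℕ) (z : E) :
    Gp2_P a f k (z + b) * g z = ζ ^ k * (g (z + (k : ℝ) • a) * Gp2_P a f k z) := by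
  induction k with
  | zero => simp [Gp2_P]
  | succ k ih =>
    have h1 : z + ((k + 1 : ℕ) : ℝ) • a = z + (k : ℝ) • a + a := by
      push_cast
      rw [add_smul, one_smul, add_assoc]
    have h2 : z + b + (k : ℝ) • a = z + (k : ℝ) • a + b := by abel
    rw [Gp2_succ, Gp2_succ, h1, h2]
    linear_combination f (z + (k : ℝ) • a + b) * ih + ζ ^ k * Gp2_P a f k z * h (z + (k : ℝ) • a)

private theorem Gp2_swap {a b : E} {f g : E → ℂ} {ζ : ℂ}
    (h : ∀ z, f (z + b) * g z = ζ * (g (z + a) * f z)) (k m : ℕ) (z : E) :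
    Gp2_P a f k (z + (m : ℝ) • b) * Gp2_P b g m z =
      ζ ^ (k * m) * (Gp2_P b g m (z + (k : ℝ) • a) * Gp2_P a f k z) := by
  induction m with
  | zero => simp [Gp2_P]
  | succ m ih =>
    have h1 : z + ((m + 1 : ℕ) : ℝ) • b = z + (m : ℝ) • b + b := by
      push_cast
      rw [add_smul, one_smul, add_assoc]
    have h2 : z + (k : ℝ) • a + (m : ℝ) • b = z + (m : ℝ) • b + (k : ℝ) • a := by abel
    have h3 := Gp2_swap1 h k (z + (m : ℝ) • b)
    rw [Gp2_succ, Gp2_succ, h1, h2, mul_add, mul_one, pow_add]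
    linear_combination Gp2_P b g m z * h3 + ζ ^ k * g (z + (m : ℝ) • b + (k : ℝ) • a) * ih

/-- Sixth powers of the lifts commute.

Proof. Let `g i` be as in `exists_lift` for `n = bv i`. The function
`c z = g i (z + v (bv j)) * g j z / (g j (z + v (bv i)) * g i z)` satisfies `c z ^ 6 = 1` off the curve (both
`(g i (z + v (bv j)) * g j z) ^ 6 * σ z` and `(g j (z + v (bv i)) * g i z) ^ 6 * σ z` are
`σ (z + v (bv i) + v (bv j))`), hence everywhere (`dense_compl`, continuity), and as `E` is connected and the set of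
the sixth roots of unity is discrete, `c` is a constant `ζ i j` with `ζ i j ^ 6 = 1`. Let
`G i z = ∏ k < 6, g i (z + k v (bv i))`. Then `σ (z + 6 v (bv i)) = G i z ^ 6 * σ z`, and
`G i (z + 6 v (bv j)) * G j z = ζ ^ 36 * G j (z + 6 v (bv i)) * G i z` (exchange the 36 pairs of factors one by one; e.g.
by two inductions: for the partial products `P i k z = ∏ l < k, g i (z + l v (bv i))` one has
`P i k (z + m v (bv j)) * P j m z = ζ ^ (k * m) * P j m (z + k v (bv i)) * P i k z`). -/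
theorem exists_gens {σ : E → ℂ} (h : D.IsEqn Set.univ σ) :
    ∃ G : Fin 4 → E → ℂ, (∀ i, ContDiff ℝ ∞ (G i)) ∧ (∀ i z, G i z ≠ 0) ∧
      (∀ i z, σ (z + D.v ((6 : ℤ) • bv i)) = G i z ^ 6 * σ z) ∧
      ∀ i j z, G i (z + D.v ((6 : ℤ) • bv j)) * G j z = G j (z + D.v ((6 : ℤ) • bv i)) * G i z := by
  choose g gs g0 ge using fun i : Fin 4 => D.exists_lift h (bv i)
  have hv : ∀ i, D.v ((6 : ℤ) • bv i) = ((6 : ℕ) : ℝ) • D.v (bv i) := by
    intro i
    unfold v
    rw [vec_smul]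
    norm_num
  have key : ∀ i j, ∃ ζ : ℂ, ζ ^ 6 = 1 ∧
      ∀ z, g i (z + D.v (bv j)) * g j z = ζ * (g j (z + D.v (bv i)) * g i z) := by
    intro i j
    have hc : ∀ i j, Continuous fun z => g i (z + D.v (bv j)) * g j z := fun i j =>
      ((gs i).continuous.comp (continuous_id.add continuous_const)).mul (gs j).continuous
    have h6 : (fun z => (g i (z + D.v (bv j)) * g j z) ^ 6) =
        fun z => (g j (z + D.v (bv i)) * g i z) ^ 6 := by
      refine Continuous.ext_on D.dense_compl ((hc i j).pow 6) ((hc j i).pow 6) fun z hz => ?_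
      have hz0 : σ z ≠ 0 := fun h1 => hz ((h.zero_iff (Set.mem_univ z)).1 h1)
      refine mul_right_cancel₀ hz0 ?_
      have e1 := ge i (z + D.v (bv j))
      rw [ge j z] at e1
      have e2 := ge j (z + D.v (bv i))
      rw [ge i z] at e2
      have e3 : z + D.v (bv j) + D.v (bv i) = z + D.v (bv i) + D.v (bv j) := by abel
      rw [e3, e2] at e1
      change (g i (z + D.v (bv j)) * g j z) ^ 6 * σ z = (g j (z + D.v (bv i)) * g i z) ^ 6 * σ z
      rw [mul_pow, mul_pow, mul_assoc, mul_assoc]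
      exact e1.symm
    have hne : ∀ z, g j (z + D.v (bv i)) * g i z ≠ 0 := fun z => mul_ne_zero (g0 _ _) (g0 _ _)
    have hfin : Set.Finite {w : ℂ | w ^ 6 = 1} := by
      refine (Polynomial.nthRoots 6 (1 : ℂ)).toFinset.finite_toSet.subset fun w hw => ?_
      simp only [Finset.mem_coe, Multiset.mem_toFinset]
      exact (Polynomial.mem_nthRoots (by norm_num)).2 hw
    obtain ⟨ζ, hζ, hE⟩ := (isPreconnected_univ (α := E)).eqOn_const_of_mapsTo
      (T := {w : ℂ | w ^ 6 = 1})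
      (f := fun z => g i (z + D.v (bv j)) * g j z / (g j (z + D.v (bv i)) * g i z))
      hfin.isDiscrete ((hc i j).div (hc j i) hne).continuousOn
      (fun z _ => by
        change (_ / _) ^ 6 = (1 : ℂ)
        rw [div_pow, div_eq_one_iff_eq (pow_ne_zero 6 (hne z))]
        exact congrFun h6 z)
      ⟨1, one_pow 6⟩
    refine ⟨ζ, hζ, fun z => ?_⟩
    have h1 := hE (Set.mem_univ z)
    exact (div_eq_iff (hne z)).1 h1
  refine ⟨fun i => Gp2_P (D.v (bv i)) (g i) 6, fun i => Gp2_smooth (gs i) 6,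
    fun i z => Gp2_ne (g0 i) 6 z, fun i z => ?_, fun i j z => ?_⟩
  · rw [hv]
    exact Gp2_eq (ge i) 6 z
  · obtain ⟨ζ, hζ, hE⟩ := key i j
    rw [hv, hv, Gp2_swap hE 6 6 z, pow_mul, hζ, one_pow, one_mul]

end Curve

end Pool.Agent.Helper67.SY
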