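import Pool.Agent.Helper67.SY.Gp1
import Pool.Agent.Helper67.SY.Gp2

/-!
# Project SY (MP_872606_gt), block G (cocycle)
-/

open Complex Filter Topology
open scoped ContDiff

namespace Pool.Agent.Helper67.SY

private theorem Gp3_root (D : Curve) {σ s : E → ℂ} (hσ : D.IsEqn Set.univ σ) {c : E} {ρ : ℝ}
    (hs : D.IsEqn (Metric.ball c ρ) s) : ∃ V : E → ℂ, ContDiffOn ℝ ∞ V (Metric.ball c ρ) ∧
      (∀ z ∈ Metric.ball c ρ, V z ≠ 0) ∧ ∀ z ∈ Metric.ball c ρ, σ z = s z * V z ^ 6 := by
  obtain ⟨g, hg, hg0, hgs⟩ := D.exists_unit Metric.isOpen_ball (hσ.mono (Set.subset_univ _)) hs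
  obtain ⟨V, hV, hV0, hV6⟩ := exists_root Metric.isOpen_ball (convex_ball c ρ) hg hg0
  refine ⟨V, hV, hV0, fun z hz => ?_⟩
  rw [hgs z hz, hV6 z hz, mul_comm]

private theorem Gp3_single (S : AddSubgroup (Fin 4 → ℤ)) (h : ∀ i, bv i ∈ S) (n : Fin 4 → ℤ) :
    n ∈ S := by
  rw [← Finset.univ_sum_single n]
  refine AddSubgroup.sum_mem S fun i _ => ?_
  have h1 : (Pi.single i (n i) : Fin 4 → ℤ) = n i • bv i := by
    unfold bv
    rw [← Pi.single_smul, smul_eq_mul, mul_one]
  rw [h1]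
  exact AddSubgroup.zsmul_mem S (h i) _

/-- The covering data exist.

Proof. `exists_isEqn`, `exists_gens`, `exists_cocycle` with `w n = D.v (6 • n)` (`vec_add`, `vec_smul`, `vec_zero`). The
property `∀ z, σ (z + D.v (6 • n)) = ε n z ^ 6 * σ z` holds for `n = bv i`, is stable under sums, and under `n ↦ -n`
(`ε 0 = 1` and `ε (-n) (z + D.v (6 • n)) * ε n z = ε 0 z = 1`), so it holds for all `n`. The roots near the special
points: `exists_unit` for `σ` and `isEqn_br`, `isEqn_cl` on the balls of radius `2 r` (with `IsEqn.mono`), and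
`exists_root` (balls are convex); `choose`. -/
theorem exists_cov (D : Curve) : Nonempty (Cov D) := by
  obtain ⟨σ, hσ⟩ := D.exists_isEqn
  obtain ⟨G, hGs, hG0, hGp, hGc⟩ := D.exists_gens hσ
  have v_zero : D.v ((6 : ℤ) • (0 : Fin 4 → ℤ)) = 0 := by
    rw [smul_zero]
    exact vec_zero _ _ _
  have v_add : ∀ n m : Fin 4 → ℤ, D.v ((6 : ℤ) • (n + m)) = D.v ((6 : ℤ) • n) + D.v ((6 : ℤ) • m) := by
    intro n m
    rw [smul_add]
    exact vec_add _ _ _ _ _
  obtain ⟨ε, hs, hne, hadd, hbv⟩ := exists_cocycle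
    (⟨⟨fun n => D.v ((6 : ℤ) • n), v_zero⟩, v_add⟩ : (Fin 4 → ℤ) →+ E) G hG0 hGs hGc
  have hadd' : ∀ n m z, ε (n + m) z = ε n (z + D.v ((6 : ℤ) • m)) * ε m z := hadd
  have e0 : ∀ z, ε 0 z = 1 := by
    intro z
    have h := hadd' 0 0 z
    rw [v_zero, add_zero, add_zero] at h
    exact mul_right_cancel₀ (hne 0 z) (by rw [one_mul]; exact h.symm)
  have hpow : ∀ n z, σ (z + D.v ((6 : ℤ) • n)) = ε n z ^ 6 * σ z := by
    have hS := Gp3_single
      { carrier := {n | ∀ z, σ (z + D.v ((6 : ℤ) • n)) = ε n z ^ 6 * σ z}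
        add_mem' := by
          intro n m hn hm z
          rw [v_add, add_comm (D.v _) (D.v _), ← add_assoc, hn, hm, hadd', mul_pow, mul_assoc]
        zero_mem' := by
          intro z
          rw [v_zero, add_zero, e0, one_pow, one_mul]
        neg_mem' := by
          intro n hn z
          have h1 : z = (z + D.v ((6 : ℤ) • (-n))) + D.v ((6 : ℤ) • n) := by
            rw [add_assoc, ← v_add, neg_add_cancel, v_zero, add_zero]
          have h2 : ε n (z + D.v ((6 : ℤ) • (-n))) * ε (-n) z = 1 := by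
            rw [← hadd', add_neg_cancel, e0]
          have h3 : σ z = ε n (z + D.v ((6 : ℤ) • (-n))) ^ 6 * σ (z + D.v ((6 : ℤ) • (-n))) := by
            conv_lhs => rw [h1]
            exact hn _
          rw [h3, ← mul_assoc, ← mul_pow, mul_comm (ε (-n) z), h2, one_pow, one_mul] } ?_
    · intro n z
      exact hS n z
    · intro i z
      show σ (z + D.v ((6 : ℤ) • bv i)) = ε (bv i) z ^ 6 * σ z
      rw [hGp, hbv]
  choose Vb hb1 hb2 hb3 using fun (j : Fin 2) (n : Fin 4 → ℤ) => Gp3_root D hσ (D.isEqn_br j n)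
  choose Vc hc1 hc2 hc3 using fun (j : Fin 2) (n : Fin 4 → ℤ) => Gp3_root D hσ (D.isEqn_cl j n)
  exact ⟨{ σ := σ
           ε := ε
           Vb := Vb
           Vc := Vc
           eqn := hσ
           smooth := hs
           ne := hne
           add := hadd'
           pow := hpow
           Vb_smooth := hb1
           Vb_ne := hb2
           Vb_eq := hb3
           Vc_smooth := hc1
           Vc_ne := hc2
           Vc_eq := hc3 }⟩

end Pool.Agent.Helper67.SY
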