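import Pool.Agent.Helper67.SY.Fm2

/-!
# Project SY (MP_872606_gt), block H: the 2-form on the base
-/

open Complex Filter Topology
open scoped ContDiff

namespace Pool.Agent.Helper67.SY

/-- `∑ conj p_i dp_i` -/
noncomputable def cPl (p : E) : E →L[ℝ] ℂ := (starRingEnd ℂ) p.1 • dx + (starRingEnd ℂ) p.2 • dy

noncomputable def ns (p : E) : ℝ := ‖p.1‖ ^ 2 + ‖p.2‖ ^ 2

/-- The derivative of the 1-form `g (|p| ^ 2) Im (∑ conj p_i dp_i)`. -/
noncomputable def etaf (g : ℝ → ℝ) (p : E) : E →L[ℝ] E →L[ℝ] ℝ :=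
  (2 * deriv g (ns p)) • dA.bilinearComp (cPl p) (cPl p) +
    (2 * g (ns p)) • (dA.bilinearComp dx dx + dA.bilinearComp dy dy)

private theorem Hx1_ns (p : E) : ns p = p.1.re ^ 2 + p.1.im ^ 2 + (p.2.re ^ 2 + p.2.im ^ 2) := by
  unfold ns
  rw [← Complex.normSq_eq_norm_sq, ← Complex.normSq_eq_norm_sq, Complex.normSq_apply, Complex.normSq_apply]
  ring

theorem ns_pos {p : E} (hp : p ≠ 0) : 0 < ns p := by
  unfold ns
  by_cases h : p.1 = 0
  · have h2 : p.2 ≠ 0 := fun h2 => hp (Prod.ext h h2)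
    have := norm_pos_iff.mpr h2
    positivity
  · have := norm_pos_iff.mpr h
    positivity

private theorem Hx1_cPl (p u : E) : cPl p u = (starRingEnd ℂ) p.1 * u.1 + (starRingEnd ℂ) p.2 * u.2 := rfl

private theorem Hx1_apply (g : ℝ → ℝ) (p u v : E) : etaf g p u v =
    2 * deriv g (ns p) * dA (cPl p u) (cPl p v) + 2 * g (ns p) * (dA u.1 v.1 + dA u.2 v.2) := rfl

set_option maxSynthPendingDepth 3 in
private theorem Hx1_bil {n : WithTop ℕ∞} {c : E → E →L[ℝ] ℂ} {x : E} (hc : ContDiffAt ℝ n c x) :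
    ContDiffAt ℝ n (fun z => dA.bilinearComp (c z) (c z)) x := by
  have h1 : ContDiffAt ℝ n (fun z => dA.comp (c z)) x := contDiffAt_const.clm_comp hc
  have h2 : ContDiffAt ℝ n (fun z => (dA.comp (c z)).flip) x :=
    (ContinuousLinearMap.flipₗᵢ ℝ E ℂ ℝ).contDiff.contDiffAt.comp x h1
  have h3 : ContDiffAt ℝ n (fun z => (dA.comp (c z)).flip.comp (c z)) x := h2.clm_comp hc
  exact (ContinuousLinearMap.flipₗᵢ ℝ E E ℝ).contDiff.contDiffAt.comp x h3

private theorem Hx1_smooth_ns : ContDiff ℝ ∞ ns := by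
  have : ns = fun p : E => ‖p.1‖ ^ 2 + ‖p.2‖ ^ 2 := rfl
  rw [this]
  exact (contDiff_fst.norm_sq ℝ).add (contDiff_snd.norm_sq ℝ)

private theorem Hx1_smooth_cPl : ContDiff ℝ ∞ cPl := by
  have h1 : ContDiff ℝ ∞ (fun p : E => (starRingEnd ℂ) p.1) := Complex.conjCLE.contDiff.comp contDiff_fst
  have h2 : ContDiff ℝ ∞ (fun p : E => (starRingEnd ℂ) p.2) := Complex.conjCLE.contDiff.comp contDiff_snd
  exact (h1.smul contDiff_const).add (h2.smul contDiff_const)

private theorem Hx1_deriv {g : ℝ → ℝ} (hg : ContDiffOn ℝ ∞ g (Set.Ioi 0)) {t : ℝ} (ht : 0 < t) :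
    ContDiffAt ℝ ∞ g t ∧ ContDiffAt ℝ ∞ (deriv g) t := by
  refine ⟨hg.contDiffAt (Ioi_mem_nhds ht), ?_⟩
  have h := (contDiffOn_infty_iff_deriv_of_isOpen isOpen_Ioi).1 hg
  exact h.2.contDiffAt (Ioi_mem_nhds ht)

set_option maxSynthPendingDepth 3 in
theorem etaf_smooth {g : ℝ → ℝ} (hg : ContDiffOn ℝ ∞ g (Set.Ioi 0)) {p : E} (hp : p ≠ 0) :
    ContDiffAt ℝ ∞ (etaf g) p := by
  obtain ⟨h1, h2⟩ := Hx1_deriv hg (ns_pos hp)
  have hn : ContDiffAt ℝ ∞ ns p := Hx1_smooth_ns.contDiffAt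
  have h3 : ContDiffAt ℝ ∞ (fun q => 2 * deriv g (ns q)) p := contDiffAt_const.mul (h2.comp p hn)
  have h4 : ContDiffAt ℝ ∞ (fun q => 2 * g (ns q)) p := contDiffAt_const.mul (h1.comp p hn)
  have h5 := Hx1_bil (n := ∞) (x := p) Hx1_smooth_cPl.contDiffAt
  have h6 : ContDiffAt ℝ ∞ (fun q => (2 * deriv g (ns q)) • dA.bilinearComp (cPl q) (cPl q)) p :=
    ContDiffAt.smul h3 h5
  have h7 : ContDiffAt ℝ ∞ (fun q => (2 * g (ns q)) • (dA.bilinearComp dx dx + dA.bilinearComp dy dy)) p :=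
    ContDiffAt.smul h4 contDiffAt_const
  exact h6.add h7

private theorem Hx1_hd_ns (p w : E) : HasDerivAt (fun t : ℝ => ns (p + t • w))
    (2 * (p.1.re * w.1.re + p.1.im * w.1.im + p.2.re * w.2.re + p.2.im * w.2.im)) 0 := by
  have h : (fun t : ℝ => ns (p + t • w)) = fun t : ℝ =>
      (p.1.re + t * w.1.re) ^ 2 + (p.1.im + t * w.1.im) ^ 2 +
        ((p.2.re + t * w.2.re) ^ 2 + (p.2.im + t * w.2.im) ^ 2) := by
    funext t
    rw [Hx1_ns]
    simp
  rw [h]
  have key : ∀ a b : ℝ, HasDerivAt (fun t : ℝ => (a + t * b) ^ 2) (2 * (a * b)) 0 := by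
    intro a b
    have h1 : HasDerivAt (fun t : ℝ => a + t * b) b 0 := by
      simpa using ((hasDerivAt_id (0 : ℝ)).mul_const b).const_add a
    have h2 := h1.pow 2
    refine HasDerivAt.congr_deriv h2 ?_
    norm_num
    ring
  have h5 := ((key p.1.re w.1.re).add (key p.1.im w.1.im)).add ((key p.2.re w.2.re).add (key p.2.im w.2.im))
  refine h5.congr_deriv ?_
  ring

private theorem Hx1_dC (p u v : E) : dA (cPl p u) (cPl p v) =
    (p.1.re * u.1.re + p.1.im * u.1.im + (p.2.re * u.2.re + p.2.im * u.2.im)) *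
      (p.1.re * v.1.im - p.1.im * v.1.re + (p.2.re * v.2.im - p.2.im * v.2.re)) -
    (p.1.re * u.1.im - p.1.im * u.1.re + (p.2.re * u.2.im - p.2.im * u.2.re)) *
      (p.1.re * v.1.re + p.1.im * v.1.im + (p.2.re * v.2.re + p.2.im * v.2.im)) := by
  rw [dA_apply, Hx1_cPl, Hx1_cPl]
  simp only [Complex.add_re, Complex.add_im, Complex.mul_re, Complex.mul_im, Complex.conj_re, Complex.conj_im]
  ring

private theorem Hx1_hd_dC (p w u v : E) : HasDerivAt (fun t : ℝ => dA (cPl (p + t • w) u) (cPl (p + t • w) v))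
    (dA (cPl w u) (cPl p v) + dA (cPl p u) (cPl w v)) 0 := by
  have h : (fun t : ℝ => dA (cPl (p + t • w) u) (cPl (p + t • w) v)) = fun t : ℝ =>
      dA (cPl p u) (cPl p v) + t * (dA (cPl w u) (cPl p v) + dA (cPl p u) (cPl w v)) +
        t ^ 2 * dA (cPl w u) (cPl w v) := by
    funext t
    have hC : ∀ x : E, cPl (p + t • w) x = cPl p x + t • cPl w x := by
      intro x
      rw [Hx1_cPl, Hx1_cPl, Hx1_cPl]
      simp only [Prod.fst_add, Prod.snd_add, Prod.smul_fst, Prod.smul_snd, map_add, Complex.real_smul, map_mul,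
        Complex.conj_ofReal]
      ring
    rw [hC, hC]
    simp only [map_add, map_smul, add_apply, smul_apply, smul_eq_mul]
    ring
  rw [h]
  have h1 : HasDerivAt (fun t : ℝ => t * (dA (cPl w u) (cPl p v) + dA (cPl p u) (cPl w v)))
      (dA (cPl w u) (cPl p v) + dA (cPl p u) (cPl w v)) 0 := by
    simpa using (hasDerivAt_id (0 : ℝ)).mul_const (dA (cPl w u) (cPl p v) + dA (cPl p u) (cPl w v))
  have h2 : HasDerivAt (fun t : ℝ => t ^ 2 * dA (cPl w u) (cPl w v)) 0 0 := by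
    simpa using ((hasDerivAt_id (0 : ℝ)).pow 2).mul_const (dA (cPl w u) (cPl w v))
  have h3 := (h1.const_add (dA (cPl p u) (cPl p v))).add h2
  rw [add_zero] at h3
  exact h3

set_option maxSynthPendingDepth 3 in
private theorem Hx1_fderiv {g : ℝ → ℝ} (hg : ContDiffOn ℝ ∞ g (Set.Ioi 0)) {p : E} (hp : p ≠ 0) (w u v : E) :
    fderiv ℝ (etaf g) p w u v =
      2 * (deriv (deriv g) (ns p) *
        (2 * (p.1.re * w.1.re + p.1.im * w.1.im + p.2.re * w.2.re + p.2.im * w.2.im))) *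
          dA (cPl p u) (cPl p v) +
      2 * deriv g (ns p) * (dA (cPl w u) (cPl p v) + dA (cPl p u) (cPl w v)) +
      2 * (deriv g (ns p) *
        (2 * (p.1.re * w.1.re + p.1.im * w.1.im + p.2.re * w.2.re + p.2.im * w.2.im))) *
          (dA u.1 v.1 + dA u.2 v.2) := by
  obtain ⟨h1, h2⟩ := Hx1_deriv hg (ns_pos hp)
  have hd : DifferentiableAt ℝ (etaf g) p := (etaf_smooth hg hp).differentiableAt (by simp)
  have hl : HasDerivAt (fun t : ℝ => p + t • w) w 0 := by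
    simpa using ((hasDerivAt_id (0 : ℝ)).smul_const w).const_add p
  have hc : HasDerivAt (fun t : ℝ => etaf g (p + t • w)) (fderiv ℝ (etaf g) p w) 0 := by
    have hd' : HasFDerivAt (etaf g) (fderiv ℝ (etaf g) p) (p + (0 : ℝ) • w) := by
      simpa using hd.hasFDerivAt
    exact hd'.comp_hasDerivAt (0 : ℝ) hl
  have hc2 : HasDerivAt (fun t : ℝ => etaf g (p + t • w) u v) (fderiv ℝ (etaf g) p w u v) 0 := by
    have h3 := hc.clm_apply (hasDerivAt_const (0 : ℝ) u)
    have h4 := h3.clm_apply (hasDerivAt_const (0 : ℝ) v)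
    simpa using h4
  have hn := Hx1_hd_ns p w
  have h0 : ns (p + (0 : ℝ) • w) = ns p := by simp
  have hg1 : HasDerivAt g (deriv g (ns p)) (ns (p + (0 : ℝ) • w)) := by
    rw [h0]
    exact (h1.differentiableAt (by simp)).hasDerivAt
  have hg2 : HasDerivAt (deriv g) (deriv (deriv g) (ns p)) (ns (p + (0 : ℝ) • w)) := by
    rw [h0]
    exact (h2.differentiableAt (by simp)).hasDerivAt
  have e1 := hg1.comp (0 : ℝ) hn
  have e2 := hg2.comp (0 : ℝ) hn
  have e3 := (e2.const_mul 2).mul (Hx1_hd_dC p w u v)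
  have e4 := (e1.const_mul 2).mul_const (dA u.1 v.1 + dA u.2 v.2)
  have e5 := e3.add e4
  have e6 : (fun t : ℝ => etaf g (p + t • w) u v) = fun t : ℝ =>
      2 * deriv g (ns (p + t • w)) * dA (cPl (p + t • w) u) (cPl (p + t • w) v) +
        2 * g (ns (p + t • w)) * (dA u.1 v.1 + dA u.2 v.2) := by
    funext t
    exact Hx1_apply g _ u v
  rw [e6] at hc2
  have e7 := hc2.unique e5
  rw [e7]
  simp only [Function.comp_apply, zero_smul, add_zero]

/-- Proof. By calculation: with `s = ns p`, `C p u = cPl p u` (linear in `u`, conjugate linear in `p`) and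
`ds(w) = 2 Re (C p w)`, the derivative of `etaf g` in the direction `w` at `u`, `v` is
`4 g''(s) Re (C p w) dA (C p u) (C p v) + 2 g'(s) (dA (C w u) (C p v) + dA (C p u) (C w v))
+ 4 g'(s) Re (C p w) (dA u.1 v.1 + dA u.2 v.2)`, and the cyclic sums of the `g''` and of the `g'` terms are zero by `ring`
after writing everything with real and imaginary parts. (Or: it is the exterior derivative of a 1-form.) -/
theorem etaf_closed {g : ℝ → ℝ} (hg : ContDiffOn ℝ ∞ g (Set.Ioi 0)) {p : E} (hp : p ≠ 0) : Cl (etaf g) p := by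
  intro u v w
  rw [Hx1_fderiv hg hp, Hx1_fderiv hg hp, Hx1_fderiv hg hp]
  simp only [dA_apply, Hx1_cPl, Complex.add_re, Complex.add_im, Complex.mul_re, Complex.mul_im, Complex.conj_re,
    Complex.conj_im]
  ring

theorem etaf_alt (g : ℝ → ℝ) (p u : E) : etaf g p u u = 0 := by
  rw [Hx1_apply, dA_self, dA_self, dA_self]
  ring

/-- For `g t = 1 / (2 t)` it is the Fubini-Study form (Lagrange identity). -/
theorem etaf_fs {g : ℝ → ℝ} {p : E} (hp : p ≠ 0) (hg : ∀ᶠ t in 𝓝 (ns p), g t = 1 / (2 * t)) (u v : E) :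
    etaf g p u v = dA (p.1 * u.2 - p.2 * u.1) (p.1 * v.2 - p.2 * v.1) / (‖p.1‖ ^ 2 + ‖p.2‖ ^ 2) ^ 2 := by
  have hpos := ns_pos hp
  have h1 : g (ns p) = 1 / (2 * ns p) := hg.self_of_nhds
  have h2 : deriv g (ns p) = -(1 / (2 * ns p ^ 2)) := by
    have h3 : g =ᶠ[𝓝 (ns p)] fun t => 1 / (2 * t) := hg
    rw [h3.deriv_eq]
    have h4 : HasDerivAt (fun t : ℝ => 1 / (2 * t)) (-(1 / (2 * ns p ^ 2))) (ns p) := by
      have h5 : HasDerivAt (fun t : ℝ => 2 * t) 2 (ns p) := by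
        simpa using (hasDerivAt_id (ns p)).const_mul 2
      have h6 := h5.inv (by positivity)
      have h7 : (fun t : ℝ => 1 / (2 * t)) = fun t : ℝ => (2 * t)⁻¹ := by
        funext t
        rw [one_div]
      rw [h7]
      refine h6.congr_deriv ?_
      field_simp
      try ring
    exact h4.deriv
  have h8 : (‖p.1‖ ^ 2 + ‖p.2‖ ^ 2) = ns p := rfl
  rw [h8, Hx1_apply, h1, h2]
  rw [eq_div_iff (by positivity)]
  have h9 : (2 * -(1 / (2 * ns p ^ 2)) * dA (cPl p u) (cPl p v) + 2 * (1 / (2 * ns p)) * (dA u.1 v.1 + dA u.2 v.2)) *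
      ns p ^ 2 = -dA (cPl p u) (cPl p v) + ns p * (dA u.1 v.1 + dA u.2 v.2) := by
    field_simp
  rw [h9, Hx1_ns]
  simp only [dA_apply, Hx1_cPl, Complex.add_re, Complex.add_im, Complex.mul_re, Complex.mul_im, Complex.conj_re,
    Complex.conj_im, Complex.sub_re, Complex.sub_im]
  ring

end Pool.Agent.Helper67.SY
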