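import Pool.Agent.Helper67.SY.Dt

/-!
# Project SY (MP_872606_gt), block H: the 2-form on the base
-/

open Complex Filter Topology
open scoped ContDiff

namespace Pool.Agent.Helper67.SY

private theorem Hx2_dA_im (a b : ℂ) : dA a b = ((starRingEnd ℂ) a * b).im := by
  rw [dA_apply]; simp; ring

private theorem Hx2_dA_abs (a b : ℂ) : |dA a b| ≤ ‖a‖ * ‖b‖ := by
  rw [Hx2_dA_im]
  refine (Complex.abs_im_le_norm _).trans ?_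
  rw [norm_mul, RCLike.norm_conj]

private theorem Hx2_one {ν : ℂ} {k : ℝ} (h : ‖ν‖ ≤ k) (hk : k < 1) (ξ : ℂ) :
    (1 - k) / (1 + k) * ‖ξ‖ ^ 2 ≤ dA ξ (jn ν ξ) := by
  set n := ‖ν‖ with hn
  have hn0 : 0 ≤ n := norm_nonneg _
  have hn1 : n < 1 := lt_of_le_of_lt h hk
  have hd : 0 < 1 - n ^ 2 := by nlinarith
  have e : dA ξ (jn ν ξ) = (1 + n ^ 2) / (1 - n ^ 2) * ‖ξ‖ ^ 2 +
      2 / (1 - n ^ 2) * (ν * (starRingEnd ℂ) ξ ^ 2).re := by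
    rw [Hx2_dA_im, jn_apply]
    have h1 : (starRingEnd ℂ) ξ * (I * (1 + ‖ν‖ ^ 2) / (1 - ‖ν‖ ^ 2) * ξ +
        2 * I * ν / (1 - ‖ν‖ ^ 2) * (starRingEnd ℂ) ξ) =
        I * (((1 + n ^ 2) / (1 - n ^ 2) * ‖ξ‖ ^ 2 : ℝ) : ℂ) +
          I * (((2 / (1 - n ^ 2) : ℝ) : ℂ) * (ν * (starRingEnd ℂ) ξ ^ 2)) := by
      have h2 : (starRingEnd ℂ) ξ * ξ = ((‖ξ‖ ^ 2 : ℝ) : ℂ) := by
        rw [mul_comm, Complex.mul_conj, Complex.normSq_eq_norm_sq]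
      have h3 : (starRingEnd ℂ) ξ * (I * (1 + ‖ν‖ ^ 2) / (1 - ‖ν‖ ^ 2) * ξ +
          2 * I * ν / (1 - ‖ν‖ ^ 2) * (starRingEnd ℂ) ξ) =
          I * ((1 + ‖ν‖ ^ 2) / (1 - ‖ν‖ ^ 2)) * ((starRingEnd ℂ) ξ * ξ) +
          I * (2 / (1 - ‖ν‖ ^ 2) * (ν * (starRingEnd ℂ) ξ ^ 2)) := by ring
      rw [h3, h2]
      push_cast
      ring
    rw [h1, Complex.add_im, Complex.I_mul_im, Complex.I_mul_im, Complex.ofReal_re, Complex.re_ofReal_mul]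
  have hre : -(n * ‖ξ‖ ^ 2) ≤ (ν * (starRingEnd ℂ) ξ ^ 2).re := by
    have h1 := Complex.abs_re_le_norm (ν * (starRingEnd ℂ) ξ ^ 2)
    rw [norm_mul, norm_pow, RCLike.norm_conj] at h1
    exact (abs_le.mp h1).1
  rw [e]
  have h4 : (1 - k) / (1 + k) ≤ (1 - n) / (1 + n) := by
    rw [div_le_div_iff₀ (by linarith) (by linarith)]
    nlinarith
  have h5 : (1 + n ^ 2) / (1 - n ^ 2) + 2 / (1 - n ^ 2) * (-n) = (1 - n) / (1 + n) := by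
    have : (1 - n ^ 2) ≠ 0 := hd.ne'
    have : (1 + n) ≠ 0 := by positivity
    field_simp
    ring
  have h6 : 2 / (1 - n ^ 2) * (-(n * ‖ξ‖ ^ 2)) ≤ 2 / (1 - n ^ 2) * (ν * (starRingEnd ℂ) ξ ^ 2).re :=
    mul_le_mul_of_nonneg_left hre (by positivity)
  have h7 : (1 - k) / (1 + k) * ‖ξ‖ ^ 2 ≤ (1 - n) / (1 + n) * ‖ξ‖ ^ 2 :=
    mul_le_mul_of_nonneg_right h4 (by positivity)
  calc (1 - k) / (1 + k) * ‖ξ‖ ^ 2 ≤ (1 - n) / (1 + n) * ‖ξ‖ ^ 2 := h7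
    _ = (1 + n ^ 2) / (1 - n ^ 2) * ‖ξ‖ ^ 2 + 2 / (1 - n ^ 2) * (-(n * ‖ξ‖ ^ 2)) := by
        rw [← h5]; ring
    _ ≤ _ := by linarith

private theorem Hx2_two {ν : ℂ} {k : ℝ} (h : ‖ν‖ ≤ k) (hk : k < 1) (ξ : ℂ) :
    ‖jn ν ξ‖ ≤ (1 + k) / (1 - k) * ‖ξ‖ := by
  set n := ‖ν‖ with hn
  have hn0 : 0 ≤ n := norm_nonneg _
  have hn1 : n < 1 := lt_of_le_of_lt h hk
  have hd : 0 < 1 - n ^ 2 := by nlinarith
  have e : jn ν ξ = I * ((((1 + n ^ 2) / (1 - n ^ 2) : ℝ) : ℂ) * ξ) +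
      I * (((2 / (1 - n ^ 2) : ℝ) : ℂ) * (ν * (starRingEnd ℂ) ξ)) := by
    rw [jn_apply]; push_cast; ring
  have h1 : ‖jn ν ξ‖ ≤ (1 + n ^ 2) / (1 - n ^ 2) * ‖ξ‖ + 2 / (1 - n ^ 2) * (n * ‖ξ‖) := by
    rw [e]
    refine (norm_add_le _ _).trans (le_of_eq ?_)
    rw [norm_mul, norm_mul, norm_mul, norm_mul, norm_mul, Complex.norm_I, RCLike.norm_conj, Complex.norm_real,
      Complex.norm_real, Real.norm_of_nonneg (by positivity), Real.norm_of_nonneg (by positivity), one_mul, one_mul]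
  have h5 : (1 + n ^ 2) / (1 - n ^ 2) + 2 / (1 - n ^ 2) * n = (1 + n) / (1 - n) := by
    have : (1 - n ^ 2) ≠ 0 := hd.ne'
    have : (1 - n) ≠ 0 := by linarith
    field_simp
    ring
  have h4 : (1 + n) / (1 - n) ≤ (1 + k) / (1 - k) := by
    rw [div_le_div_iff₀ (by linarith) (by linarith)]
    nlinarith
  calc ‖jn ν ξ‖ ≤ (1 + n ^ 2) / (1 - n ^ 2) * ‖ξ‖ + 2 / (1 - n ^ 2) * (n * ‖ξ‖) := h1
    _ = (1 + n) / (1 - n) * ‖ξ‖ := by rw [← h5]; ring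
    _ ≤ _ := mul_le_mul_of_nonneg_right h4 (norm_nonneg _)

/-- The form `K dA(x) + dA(y)` tames the almost complex structure for large `K`.

Proof. With `ξ = u.1`, `η = u.2`, `ν = J.ν z.1`, `μ = J.μ z`: `dA ξ (jn ν ξ) ≥ (1 - k) / (1 + k) * ‖ξ‖ ^ 2` (because
`dA ξ (jn ν ξ) = ((1 + ‖ν‖ ^ 2) ‖ξ‖ ^ 2 + 2 Re (ν conj ξ ^ 2)) / (1 - ‖ν‖ ^ 2) ≥ (1 - ‖ν‖) ^ 2 / (1 - ‖ν‖ ^ 2) * ‖ξ‖ ^ 2`), `‖jn ν ξ‖ ≤
C ‖ξ‖` with `C = (1 + k) ^ 2 / (1 - k ^ 2)`, and `dA η (J u).2 = ‖η‖ ^ 2 + dA η (-I μ conj ξ + μ conj (jn ν ξ))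
≥ ‖η‖ ^ 2 - B (1 + C) ‖ξ‖ ‖η‖`. -/
theorem exists_K {D : Curve} (J : JDat D) : ∃ K : ℝ, 0 < K ∧ ∀ z u : E, u ≠ 0 →
    0 < K * dA u.1 (J.Jb z u).1 + dA u.2 (J.Jb z u).2 := by
  have hk0 : 0 ≤ J.k := (norm_nonneg _).trans (J.ν_le 0)
  have hB0 : 0 ≤ J.B := (norm_nonneg _).trans (J.μ_le 0)
  have hk := J.hk
  set m := (1 - J.k) / (1 + J.k) with hm
  set C := (1 + J.k) / (1 - J.k) with hC
  have hm0 : 0 < m := div_pos (by linarith) (by linarith)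
  have hC0 : 0 < C := div_pos (by linarith) (by linarith)
  set L := J.B * (1 + C) with hL
  refine ⟨(L ^ 2 + 1) / m, by positivity, fun z u hu => ?_⟩
  have a1 : m * ‖u.1‖ ^ 2 ≤ dA u.1 (J.Jb z u).1 := Hx2_one (J.ν_le z.1) hk u.1
  have a2 : ‖jn (J.ν z.1) u.1‖ ≤ C * ‖u.1‖ := Hx2_two (J.ν_le z.1) hk u.1
  have a3 : dA u.2 (J.Jb z u).2 = ‖u.2‖ ^ 2 +
      dA u.2 (-(I * J.μ z * (starRingEnd ℂ) u.1) + J.μ z * (starRingEnd ℂ) (jn (J.ν z.1) u.1)) := by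
    have : (J.Jb z u).2 = I * u.2 + (-(I * J.μ z * (starRingEnd ℂ) u.1) +
        J.μ z * (starRingEnd ℂ) (jn (J.ν z.1) u.1)) := by
      show (Jn (J.ν z.1) (J.μ z) u).2 = _
      rw [Jn_snd]; ring
    rw [this, map_add, dA_I]
  have a4 : |dA u.2 (-(I * J.μ z * (starRingEnd ℂ) u.1) + J.μ z * (starRingEnd ℂ) (jn (J.ν z.1) u.1))| ≤
      L * ‖u.1‖ * ‖u.2‖ := by
    refine (Hx2_dA_abs _ _).trans ?_
    have b1 : ‖-(I * J.μ z * (starRingEnd ℂ) u.1) + J.μ z * (starRingEnd ℂ) (jn (J.ν z.1) u.1)‖ ≤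
        L * ‖u.1‖ := by
      refine (norm_add_le _ _).trans ?_
      rw [norm_neg, norm_mul, norm_mul, norm_mul, Complex.norm_I, RCLike.norm_conj, RCLike.norm_conj, one_mul]
      have c1 : ‖J.μ z‖ * ‖u.1‖ ≤ J.B * ‖u.1‖ := mul_le_mul_of_nonneg_right (J.μ_le z) (norm_nonneg _)
      have c2 : ‖J.μ z‖ * ‖jn (J.ν z.1) u.1‖ ≤ J.B * (C * ‖u.1‖) :=
        mul_le_mul (J.μ_le z) a2 (norm_nonneg _) hB0
      calc _ ≤ J.B * ‖u.1‖ + J.B * (C * ‖u.1‖) := add_le_add c1 c2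
        _ = L * ‖u.1‖ := by rw [hL]; ring
    calc ‖u.2‖ * _ ≤ ‖u.2‖ * (L * ‖u.1‖) := mul_le_mul_of_nonneg_left b1 (norm_nonneg _)
      _ = L * ‖u.1‖ * ‖u.2‖ := by ring
  have a5 := (abs_le.mp a4).1
  rw [a3]
  have a6 : (L ^ 2 + 1) * ‖u.1‖ ^ 2 ≤ (L ^ 2 + 1) / m * dA u.1 (J.Jb z u).1 := by
    calc (L ^ 2 + 1) * ‖u.1‖ ^ 2 = (L ^ 2 + 1) / m * (m * ‖u.1‖ ^ 2) := by field_simp
      _ ≤ _ := mul_le_mul_of_nonneg_left a1 (by positivity)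
  have a7 : 0 < (L ^ 2 + 1) * ‖u.1‖ ^ 2 + ‖u.2‖ ^ 2 - L * ‖u.1‖ * ‖u.2‖ := by
    by_cases h1 : u.1 = 0
    · have h2 : u.2 ≠ 0 := fun h2 => hu (Prod.ext h1 h2)
      have h3 : 0 < ‖u.2‖ := norm_pos_iff.mpr h2
      rw [h1, norm_zero]
      nlinarith
    · have h3 : 0 < ‖u.1‖ := norm_pos_iff.mpr h1
      nlinarith [sq_nonneg (‖u.2‖ - L * ‖u.1‖ / 2), sq_nonneg (L * ‖u.1‖), pow_pos h3 2]
  linarith

end Pool.Agent.Helper67.SY
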