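import Pool.Agent.Helper67.SY.Hx1
import Pool.Agent.Helper67.SY.Hx2
import Pool.Agent.Helper67.SY.EqA2

/-!
# Project SY (MP_872606_gt), block H: the 2-form on the base
-/

open Complex Filter Topology
open scoped ContDiff

namespace Pool.Agent.Helper67.SY

private noncomputable def Hx3_g (r : ℝ) (t : ℝ) : ℝ :=
  Real.smoothTransition ((3 / 4 * r ^ 2 - t) / (r ^ 2 / 4)) / (2 * t)

private theorem Hx3_g_smooth (r : ℝ) : ContDiffOn ℝ ∞ (Hx3_g r) (Set.Ioi 0) := by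
  intro t ht
  have ht' : (0 : ℝ) < t := ht
  have h1 : ContDiff ℝ ∞ fun t : ℝ => Real.smoothTransition ((3 / 4 * r ^ 2 - t) / (r ^ 2 / 4)) :=
    Real.smoothTransition.contDiff.comp ((contDiff_const.sub contDiff_id).div_const _)
  have h2 : ContDiff ℝ ∞ fun t : ℝ => 2 * t := contDiff_const.mul contDiff_id
  exact (h1.contDiffAt.div h2.contDiffAt (by positivity)).contDiffWithinAt

private theorem Hx3_g_nonneg {r t : ℝ} (ht : 0 < t) : 0 ≤ Hx3_g r t :=
  div_nonneg (Real.smoothTransition.nonneg _) (by positivity)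

private theorem Hx3_g_one {r t : ℝ} (hr : 0 < r) (ht : t < r ^ 2 / 2) : ∀ᶠ s in 𝓝 t, Hx3_g r s = 1 / (2 * s) := by
  filter_upwards [Iio_mem_nhds ht] with s hs
  have hs' : s < r ^ 2 / 2 := hs
  unfold Hx3_g
  rw [Real.smoothTransition.one_of_one_le]
  rw [le_div_iff₀ (by positivity)]
  linarith

private theorem Hx3_g_zero {r t : ℝ} (hr : 0 < r) (ht : 3 / 4 * r ^ 2 < t) : Hx3_g r t = 0 ∧ deriv (Hx3_g r) t = 0 := by
  have h : Hx3_g r =ᶠ[𝓝 t] fun _ => 0 := by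
    filter_upwards [Ioi_mem_nhds ht] with s hs
    have hs' : 3 / 4 * r ^ 2 < s := hs
    unfold Hx3_g
    rw [Real.smoothTransition.zero_of_nonpos, zero_div]
    exact div_nonpos_of_nonpos_of_nonneg (by linarith) (by positivity)
  exact ⟨h.self_of_nhds, by rw [h.deriv_eq]; simp⟩

private theorem Hx3_bound {r : ℝ} (hr : 0 < r) :
    ∃ C : ℝ, 0 < C ∧ ∀ t, r ^ 2 / 2 ≤ t → |deriv (Hx3_g r) t| * t ≤ C := by
  have hc : ContinuousOn (fun t => |deriv (Hx3_g r) t| * t) (Set.Icc (r ^ 2 / 2) (3 / 4 * r ^ 2)) := by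
    have h1 : ContinuousOn (deriv (Hx3_g r)) (Set.Ioi 0) :=
      ((contDiffOn_infty_iff_deriv_of_isOpen isOpen_Ioi).1 (Hx3_g_smooth r)).2.continuousOn
    have h2 : Set.Icc (r ^ 2 / 2) (3 / 4 * r ^ 2) ⊆ Set.Ioi 0 := by
      intro t ht
      have : 0 < r ^ 2 / 2 := by positivity
      exact lt_of_lt_of_le this ht.1
    exact (h1.mono h2).abs.mul continuousOn_id
  obtain ⟨C, hC⟩ := isCompact_Icc.exists_bound_of_continuousOn hc
  refine ⟨|C| + 1, by positivity, fun t ht => ?_⟩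
  by_cases h : t ≤ 3 / 4 * r ^ 2
  · have h1 := hC t ⟨ht, h⟩
    rw [Real.norm_eq_abs] at h1
    have h2 := le_abs_self (|deriv (Hx3_g r) t| * t)
    have h3 := le_abs_self C
    linarith
  · rw [(Hx3_g_zero hr (not_le.mp h)).2]
    simp only [abs_zero, zero_mul]
    positivity

private theorem Hx3_cs (p u : E) : ‖cPl p u‖ ^ 2 ≤ ns p * ns u := by
  have h1 : ‖cPl p u‖ ≤ ‖p.1‖ * ‖u.1‖ + ‖p.2‖ * ‖u.2‖ := by
    have h2 : cPl p u = (starRingEnd ℂ) p.1 * u.1 + (starRingEnd ℂ) p.2 * u.2 := rfl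
    rw [h2]
    refine (norm_add_le _ _).trans ?_
    rw [norm_mul, norm_mul, RCLike.norm_conj, RCLike.norm_conj]
  have h3 : ‖cPl p u‖ ^ 2 ≤ (‖p.1‖ * ‖u.1‖ + ‖p.2‖ * ‖u.2‖) ^ 2 := pow_le_pow_left₀ (norm_nonneg _) h1 2
  refine h3.trans ?_
  unfold ns
  nlinarith [sq_nonneg (‖p.1‖ * ‖u.2‖ - ‖p.2‖ * ‖u.1‖)]

private theorem Hx3_I (p u : E) : cPl p (I * u.1, I * u.2) = I * cPl p u := by
  have h2 : ∀ w : E, cPl p w = (starRingEnd ℂ) p.1 * w.1 + (starRingEnd ℂ) p.2 * w.2 := fun _ => rfl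
  rw [h2, h2]
  ring

private theorem Hx3_etaf {r : ℝ} (hr : 0 < r) {C : ℝ} (hC : 0 < C)
    (hb : ∀ t, r ^ 2 / 2 ≤ t → |deriv (Hx3_g r) t| * t ≤ C) {p : E} (hp : p ≠ 0) (u : E) :
    -(2 * C * ns u) ≤ etaf (Hx3_g r) p u (I * u.1, I * u.2) := by
  have hu : 0 ≤ ns u := by unfold ns; positivity
  have hpos := ns_pos hp
  by_cases h : ns p < r ^ 2 / 2
  · rw [etaf_fs hp (Hx3_g_one hr h)]
    have h1 : p.1 * (I * u.2) - p.2 * (I * u.1) = I * (p.1 * u.2 - p.2 * u.1) := by ring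
    have h2 : 0 ≤ dA (p.1 * u.2 - p.2 * u.1) (p.1 * (I * u.2) - p.2 * (I * u.1)) := by
      rw [h1, dA_I]; positivity
    have h3 : 0 ≤ 2 * C * ns u := by positivity
    have h4 : 0 ≤ dA (p.1 * u.2 - p.2 * u.1) (p.1 * (I * u.2) - p.2 * (I * u.1)) /
        (‖p.1‖ ^ 2 + ‖p.2‖ ^ 2) ^ 2 := div_nonneg h2 (by positivity)
    exact (neg_nonpos.mpr h3).trans h4
  · have h1 := hb (ns p) (not_lt.mp h)
    have h2 : etaf (Hx3_g r) p u (I * u.1, I * u.2) =
        2 * deriv (Hx3_g r) (ns p) * dA (cPl p u) (cPl p (I * u.1, I * u.2)) +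
          2 * Hx3_g r (ns p) * (dA u.1 (I * u.1) + dA u.2 (I * u.2)) := rfl
    rw [h2, Hx3_I, dA_I, dA_I, dA_I]
    have h3 := Hx3_cs p u
    have h4 : 0 ≤ Hx3_g r (ns p) := Hx3_g_nonneg hpos
    have h5 : -(|deriv (Hx3_g r) (ns p)| * (ns p * ns u)) ≤ deriv (Hx3_g r) (ns p) * ‖cPl p u‖ ^ 2 := by
      have h6 : |deriv (Hx3_g r) (ns p) * ‖cPl p u‖ ^ 2| ≤ |deriv (Hx3_g r) (ns p)| * (ns p * ns u) := by
        rw [abs_mul, abs_of_nonneg (sq_nonneg ‖cPl p u‖)]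
        exact mul_le_mul_of_nonneg_left h3 (abs_nonneg _)
      exact (abs_le.mp h6).1
    have h7 : |deriv (Hx3_g r) (ns p)| * (ns p * ns u) ≤ C * ns u := by
      calc _ = (|deriv (Hx3_g r) (ns p)| * ns p) * ns u := by ring
        _ ≤ _ := mul_le_mul_of_nonneg_right h1 hu
    have h8 : 0 ≤ 2 * Hx3_g r (ns p) * (‖u.1‖ ^ 2 + ‖u.2‖ ^ 2) := by positivity
    nlinarith

private theorem Hx3_etaf_zero {r : ℝ} (hr : 0 < r) {p : E} (hp : 3 / 4 * r ^ 2 < ns p) : etaf (Hx3_g r) p = 0 := by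
  obtain ⟨h1, h2⟩ := Hx3_g_zero hr hp
  refine ContinuousLinearMap.ext fun u => ContinuousLinearMap.ext fun v => ?_
  show 2 * deriv (Hx3_g r) (ns p) * dA (cPl p u) (cPl p v) + 2 * Hx3_g r (ns p) * (dA u.1 v.1 + dA u.2 v.2) = 0
  rw [h1, h2]
  ring

private noncomputable def Hx3_base (K : ℝ) : E →L[ℝ] E →L[ℝ] ℝ :=
  K • dA.bilinearComp dx dx + dA.bilinearComp dy dy

private theorem Hx3_base_apply (K : ℝ) (u v : E) : Hx3_base K u v = K * dA u.1 v.1 + dA u.2 v.2 := rfl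

private theorem Hx3_base_zero (K k : ℝ) : Hx3_base K + k • (0 : E →L[ℝ] E →L[ℝ] ℝ) = Hx3_base K := by
  refine ContinuousLinearMap.ext fun u => ContinuousLinearMap.ext fun v => ?_
  show Hx3_base K u v + k * 0 = _
  ring

open Classical in
private noncomputable def Hx3_eta (D : Curve) (K k : ℝ) (z : E) : E →L[ℝ] E →L[ℝ] ℝ :=
  if h : ∃ m : Fin 2 × (Fin 4 → ℤ), ‖z - (D.c m.1 + D.v m.2)‖ < D.r then
    Hx3_base K + k • etaf (Hx3_g D.r) (z - (D.c h.choose.1 + D.v h.choose.2))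
  else Hx3_base K

private theorem Hx3_pos {D : Curve} (K k : ℝ) {z : E} {j : Fin 2} {n : Fin 4 → ℤ} (h : ‖z - (D.c j + D.v n)‖ < D.r) :
    Hx3_eta D K k z = Hx3_base K + k • etaf (Hx3_g D.r) (z - (D.c j + D.v n)) := by
  have hr := D.hr
  have h0 : ∃ m : Fin 2 × (Fin 4 → ℤ), ‖z - (D.c m.1 + D.v m.2)‖ < D.r := ⟨(j, n), h⟩
  unfold Hx3_eta
  rw [dif_pos h0]
  have h1 := h0.choose_spec
  obtain ⟨h2, h3⟩ := D.special_unique_c (j := h0.choose.1) (n := h0.choose.2) (j' := j) (n' := n) (z := z)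
    (by linarith) (by linarith)
  rw [h2, h3]

private theorem Hx3_neg {D : Curve} (K k : ℝ) {z : E} (h : ¬ ∃ m : Fin 2 × (Fin 4 → ℤ), ‖z - (D.c m.1 + D.v m.2)‖ < D.r) :
    Hx3_eta D K k z = Hx3_base K := by
  unfold Hx3_eta
  rw [dif_neg h]

private theorem Hx3_near_pos {D : Curve} (K k : ℝ) {z : E} {j : Fin 2} {n : Fin 4 → ℤ}
    (h : ‖z - (D.c j + D.v n)‖ < D.r) :
    ∀ᶠ w in 𝓝 z, Hx3_eta D K k w = Hx3_base K + k • etaf (Hx3_g D.r) (w - (D.c j + D.v n)) := by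
  have hc : Continuous fun w : E => ‖w - (D.c j + D.v n)‖ := by fun_prop
  filter_upwards [(isOpen_Iio.preimage hc).mem_nhds (show z ∈ (fun w : E => ‖w - (D.c j + D.v n)‖) ⁻¹' Set.Iio D.r from h)]
    with w hw
  exact Hx3_pos K k hw

private theorem Hx3_near_neg {D : Curve} (K k : ℝ) {z : E}
    (h : ¬ ∃ m : Fin 2 × (Fin 4 → ℤ), ‖z - (D.c m.1 + D.v m.2)‖ < D.r) :
    ∀ᶠ w in 𝓝 z, Hx3_eta D K k w = Hx3_base K := by
  have hr := D.hr
  filter_upwards [Metric.ball_mem_nhds z (show (0 : ℝ) < D.r / 10 by positivity)] with w hw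
  by_cases hw2 : ∃ m : Fin 2 × (Fin 4 → ℤ), ‖w - (D.c m.1 + D.v m.2)‖ < D.r
  · obtain ⟨⟨j, n⟩, hm⟩ := hw2
    rw [Hx3_pos K k hm]
    have h1 : D.r ≤ ‖z - (D.c j + D.v n)‖ := by
      by_contra h2
      exact h ⟨(j, n), not_le.mp h2⟩
    have h2 : ‖w - z‖ < D.r / 10 := by rwa [← dist_eq_norm]
    have h3 : ‖z - (D.c j + D.v n)‖ ≤ ‖w - z‖ + ‖w - (D.c j + D.v n)‖ := by
      have : z - (D.c j + D.v n) = -(w - z) + (w - (D.c j + D.v n)) := by abel
      rw [this]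
      refine (norm_add_le _ _).trans ?_
      rw [norm_neg]
    have h4 : 9 / 10 * D.r < ‖w - (D.c j + D.v n)‖ := by linarith
    have h5 : 3 / 4 * D.r ^ 2 < ns (w - (D.c j + D.v n)) := by
      have h6 : ‖w - (D.c j + D.v n)‖ ^ 2 ≤ ns (w - (D.c j + D.v n)) := by
        unfold ns
        rw [Prod.norm_def]
        rcases max_cases ‖(w - (D.c j + D.v n)).1‖ ‖(w - (D.c j + D.v n)).2‖ with h7 | h7
        · rw [h7.1]; nlinarith [sq_nonneg ‖(w - (D.c j + D.v n)).2‖]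
        · rw [h7.1]; nlinarith [sq_nonneg ‖(w - (D.c j + D.v n)).1‖]
      nlinarith
    rw [Hx3_etaf_zero hr h5]
    exact Hx3_base_zero K k
  · exact Hx3_neg K k hw2

set_option maxSynthPendingDepth 3 in
private theorem Hx3_shift {η : E → E →L[ℝ] E →L[ℝ] ℝ} {z a : E} (h : Cl η (z - a)) : Cl (fun w => η (w - a)) z := by
  intro u v w
  have h1 : fderiv ℝ (fun w => η (w - a)) z = fderiv ℝ η (z - a) := by
    simp only [sub_eq_add_neg]
    exact fderiv_comp_add_right (𝕜 := ℝ) (f := η) (x := z) (-a)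
  rw [h1]
  exact h u v w

set_option maxSynthPendingDepth 3 in
private theorem Hx3_smooth_pos {D : Curve} {z : E} (hz : z ∈ D.dm) {j : Fin 2} {n : Fin 4 → ℤ} :
    ContDiffAt ℝ ∞ (fun w => etaf (Hx3_g D.r) (w - (D.c j + D.v n))) z := by
  have hp : z - (D.c j + D.v n) ≠ 0 := sub_ne_zero.mpr (hz j n)
  have h1 : ContDiffAt ℝ ∞ (fun w : E => w - (D.c j + D.v n)) z := contDiffAt_id.sub contDiffAt_const
  exact ContDiffAt.comp z (etaf_smooth (Hx3_g_smooth D.r) hp) h1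

set_option maxSynthPendingDepth 3 in
private theorem Hx3_smooth_add {D : Curve} (K k : ℝ) {z : E} (hz : z ∈ D.dm) (j : Fin 2) (n : Fin 4 → ℤ) :
    ContDiffAt ℝ ∞ (fun w => Hx3_base K + k • etaf (Hx3_g D.r) (w - (D.c j + D.v n))) z := by
  have h1 := Hx3_smooth_pos hz (j := j) (n := n)
  have h2 : ContDiffAt ℝ ∞ (fun w => k • etaf (Hx3_g D.r) (w - (D.c j + D.v n))) z :=
    ContDiffAt.const_smul k h1
  exact contDiffAt_const.add h2

/-- Proof. Let `K` be as in `exists_K`. Let `χ : ℝ → ℝ` be smooth with `χ t = 1` for `t ≤ r ^ 2 / 2` and `χ t = 0` for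
`t ≥ 3 / 4 * r ^ 2`, and `g t = χ t / (2 t)`. There is `C > 0` such that `- C * ns u ≤ etaf g p u (I u.1, I u.2)` for all `p` with
`r ^ 2 / 2 ≤ ns p` and all `u` (compactness of `{r ^ 2 / 2 ≤ ns p ≤ 3 / 4 * r ^ 2}`, or an explicit bound); for `ns p < r ^ 2 / 2`,
`p ≠ 0` it is `≥ 0` by `etaf_fs` and `dA_I`. Let `k = min K 1 / (2 C)`. Put
`η z = K • dA.bilinearComp dx dx + dA.bilinearComp dy dy + k • etaf g (z - (c j + v n))` if there are `j`, `n` with
`‖z - (c j + v n)‖ < r` (they are unique, `special_unique_c`), and without the last term otherwise; the last term is zero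
for `ns p ≥ 3 / 4 * r ^ 2`, in particular near the points with `‖p‖ = r`, so near every `z ∈ dm` one of the two formulas
holds. `‖p.1‖, ‖p.2‖ < r / 2` gives `ns p < r ^ 2 / 2`. In the balls of radius `r` the almost complex structure is
`Jn 0 0` (`near_c_ν`, `near_c_μ`, `Jn_zero`). -/
theorem exists_hdat {D : Curve} (J : JDat D) : Nonempty (HDat D J) := by
  have hr := D.hr
  obtain ⟨K, hK, hKt⟩ := exists_K J
  obtain ⟨C, hC, hb⟩ := Hx3_bound hr
  set m := min K 1 with hm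
  have hm0 : 0 < m := lt_min hK one_pos
  set k := m / (4 * C) with hk
  have hk0 : 0 < k := by positivity
  refine ⟨⟨K, k, hK, hk0, Hx3_eta D K k, ?_, ?_, ?_, ?_, ?_, ?_⟩⟩
  · intro z hz
    refine ContDiffAt.contDiffWithinAt ?_
    by_cases h : ∃ m : Fin 2 × (Fin 4 → ℤ), ‖z - (D.c m.1 + D.v m.2)‖ < D.r
    · obtain ⟨⟨j, n⟩, h1⟩ := h
      refine ContDiffAt.congr_of_eventuallyEq ?_ (Hx3_near_pos K k h1)
      exact Hx3_smooth_add K k hz j n
    · exact ContDiffAt.congr_of_eventuallyEq contDiffAt_const (Hx3_near_neg K k h)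
  · intro z _ u
    by_cases h : ∃ m : Fin 2 × (Fin 4 → ℤ), ‖z - (D.c m.1 + D.v m.2)‖ < D.r
    · obtain ⟨⟨j, n⟩, h1⟩ := h
      rw [Hx3_pos K k h1, add_apply, add_apply, Hx3_base_apply, dA_self, dA_self]
      rw [smul_apply, smul_apply, etaf_alt]
      simp
    · rw [Hx3_neg K k h, Hx3_base_apply, dA_self, dA_self]
      simp
  · intro z hz
    show Cl (Hx3_eta D K k) z
    by_cases h : ∃ m : Fin 2 × (Fin 4 → ℤ), ‖z - (D.c m.1 + D.v m.2)‖ < D.r
    · obtain ⟨⟨j, n⟩, h1⟩ := h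
      refine Cl.congr ?_ (Hx3_near_pos K k h1)
      have hp : z - (D.c j + D.v n) ≠ 0 := sub_ne_zero.mpr (hz j n)
      have hs := (Hx3_smooth_pos hz (j := j) (n := n)).differentiableAt (by simp)
      refine Cl.add (cl_const _ _) (Cl.smul (Hx3_shift (etaf_closed (Hx3_g_smooth D.r) hp)) hs k)
        (differentiableAt_const _) (hs.const_smul k)
    · exact Cl.congr (cl_const _ _) (Hx3_near_neg K k h)
  · intro n z
    by_cases h : ∃ m : Fin 2 × (Fin 4 → ℤ), ‖z - (D.c m.1 + D.v m.2)‖ < D.r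
    · obtain ⟨⟨j, n'⟩, h1⟩ := h
      have h2 : z + D.v n - (D.c j + D.v (n' + n)) = z - (D.c j + D.v n') := by
        unfold Curve.v
        rw [vec_add]
        abel
      have h3 : ‖z + D.v n - (D.c j + D.v (n' + n))‖ < D.r := by rw [h2]; exact h1
      rw [Hx3_pos K k h1, Hx3_pos K k h3, h2]
    · have h4 : ¬ ∃ m : Fin 2 × (Fin 4 → ℤ), ‖z + D.v n - (D.c m.1 + D.v m.2)‖ < D.r := by
        rintro ⟨⟨j, n'⟩, h1⟩
        refine h ⟨(j, n' + -n), ?_⟩
        have h2 : z - (D.c j + D.v (n' + -n)) = z + D.v n - (D.c j + D.v n') := by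
          unfold Curve.v
          rw [vec_add, vec_neg]
          abel
        show ‖z - (D.c j + D.v (n' + -n))‖ < D.r
        rw [h2]
        exact h1
      rw [Hx3_neg K k h, Hx3_neg K k h4]
  · intro z hz u hu
    by_cases h : ∃ m : Fin 2 × (Fin 4 → ℤ), ‖z - (D.c m.1 + D.v m.2)‖ < D.r
    · obtain ⟨⟨j, n⟩, h1⟩ := h
      have hp : z - (D.c j + D.v n) ≠ 0 := sub_ne_zero.mpr (hz j n)
      have hν : J.ν z.1 = 0 := by
        refine J.near_c_ν j n z.1 (lt_of_le_of_lt ?_ h1)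
        exact norm_fst_le (z - (D.c j + D.v n))
      have hμ : J.μ z = 0 := J.near_c_μ j n z h1
      have hJ : J.Jb z u = (I * u.1, I * u.2) := by
        show Jn (J.ν z.1) (J.μ z) u = _
        rw [hν, hμ, Jn_zero]
      have h2 := Hx3_etaf hr hC hb hp u
      have hu0 : 0 < ns u := ns_pos hu
      rw [hJ, Hx3_pos K k h1, add_apply, add_apply, Hx3_base_apply, smul_apply, smul_apply, smul_eq_mul, dA_I, dA_I]
      have h3 : k * -(2 * C * ns u) ≤ k * etaf (Hx3_g D.r) (z - (D.c j + D.v n)) u (I * u.1, I * u.2) :=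
        mul_le_mul_of_nonneg_left h2 hk0.le
      have h4 : k * -(2 * C * ns u) = -(m / 2 * ns u) := by
        rw [hk]; field_simp; ring
      have h5 : m * ns u ≤ K * ‖u.1‖ ^ 2 + ‖u.2‖ ^ 2 := by
        unfold ns
        have a1 : m ≤ K := min_le_left _ _
        have a2 : m ≤ 1 := min_le_right _ _
        nlinarith [sq_nonneg ‖u.1‖, sq_nonneg ‖u.2‖, mul_le_mul_of_nonneg_right a1 (sq_nonneg ‖u.1‖),
          mul_le_mul_of_nonneg_right a2 (sq_nonneg ‖u.2‖)]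
      have h6 : 0 < m / 2 * ns u := by positivity
      have h7 : m * ns u = m / 2 * ns u + m / 2 * ns u := by ring
      linarith
    · rw [Hx3_neg K k h, Hx3_base_apply]
      exact hKt z u hu
  · intro j n p hp h1 h2 u v
    have h3 : D.c j + D.v n + p - (D.c j + D.v n) = p := by abel
    have h4 : ‖D.c j + D.v n + p - (D.c j + D.v n)‖ < D.r := by
      rw [h3, Prod.norm_def]
      exact max_lt (by linarith) (by linarith)
    have h5 : ns p < D.r ^ 2 / 2 := by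
      unfold ns
      have a1 := norm_nonneg p.1
      have a2 := norm_nonneg p.2
      nlinarith
    rw [Hx3_pos K k h4, h3, add_apply, add_apply, Hx3_base_apply, smul_apply, smul_apply, smul_eq_mul,
      etaf_fs hp (Hx3_g_one hr h5)]
    ring

end Pool.Agent.Helper67.SY
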