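import Pool.Agent.Helper67.SY.Dt

/-!
# Project SY (MP_872606_gt), block J: existence of the almost complex structure
-/

open Complex Filter Topology
open scoped ContDiff

namespace Pool.Agent.Helper67.SY

private theorem Jx1_det (A : ℂ →L[ℝ] ℂ) : A.det = (A 1).re * (A I).im - (A I).re * (A 1).im := by
  have h : A.det = LinearMap.det (A : ℂ →ₗ[ℝ] ℂ) := rfl
  rw [h, ← LinearMap.det_toMatrix Complex.basisOneI, Matrix.det_fin_two]
  simp [LinearMap.toMatrix_apply]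

private theorem Jx1_formula (A : ℂ →L[ℝ] ℂ) (ξ : ℂ) :
    A ξ = (A 1 - I * A I) / 2 * ξ + (A 1 + I * A I) / 2 * (starRingEnd ℂ) ξ := by
  have h : A ξ = ξ.re * A 1 + ξ.im * A I := by
    have h1 : ξ = (ξ.re : ℝ) • (1 : ℂ) + (ξ.im : ℝ) • I := by
      apply Complex.ext <;> simp
    conv_lhs => rw [h1]
    rw [map_add, map_smul, map_smul]
    simp
  rw [h]
  generalize A 1 = u
  generalize A I = w
  apply Complex.ext <;> simp <;> ring

private theorem Jx1_lt (A : ℂ →L[ℝ] ℂ) (hA : 0 < A.det) :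
    ‖(A 1 + I * A I) / 2‖ < ‖(A 1 - I * A I) / 2‖ := by
  rw [Jx1_det] at hA
  have h : ‖(A 1 + I * A I) / 2‖ ^ 2 < ‖(A 1 - I * A I) / 2‖ ^ 2 := by
    rw [← Complex.normSq_eq_norm_sq, ← Complex.normSq_eq_norm_sq, Complex.normSq_apply, Complex.normSq_apply]
    generalize A 1 = u at *
    generalize A I = w at *
    simp
    nlinarith
  exact lt_of_pow_lt_pow_left₀ 2 (norm_nonneg _) h

open Classical in
/-- The function `ν` of the piece. -/
private noncomputable def Jx1_nu (D : Curve) (f : ℂ → ℝ) (νb : Fin 2 → ℂ) (x : ℂ) : ℂ :=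
  if h : ∃ p : Fin 2 × (Fin 4 → ℤ), ‖x - (D.b p.1 + D.v p.2).1‖ < 2 * D.r then
    (f (x - (D.b h.choose.1 + D.v h.choose.2).1) : ℂ) * νb h.choose.1
  else 0

private theorem Jx1_v_add (D : Curve) (n m : Fin 4 → ℤ) : D.v (n + m) = D.v n + D.v m := vec_add _ _ _ _ _

private theorem Jx1_v_sub (D : Curve) (n m : Fin 4 → ℤ) : D.v (n - m) = D.v n - D.v m := by
  have h := Jx1_v_add D (n - m) m
  rw [sub_add_cancel] at h
  rw [h]
  abel

private theorem Jx1_v_fst (D : Curve) {n m : Fin 4 → ℤ} (h0 : n 0 = m 0) (h1 : n 1 = m 1) : (D.v n).1 = (D.v m).1 := by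
  unfold Curve.v vec
  simp only [h0, h1]

private theorem Jx1_nu_eq (D : Curve) (f : ℂ → ℝ) (νb : Fin 2 → ℂ) (x : ℂ) (j : Fin 2) (n : Fin 4 → ℤ)
    (h : ‖x - (D.b j + D.v n).1‖ < 2 * D.r) :
    Jx1_nu D f νb x = (f (x - (D.b j + D.v n).1) : ℂ) * νb j := by
  classical
  have hex : ∃ p : Fin 2 × (Fin 4 → ℤ), ‖x - (D.b p.1 + D.v p.2).1‖ < 2 * D.r := ⟨(j, n), h⟩
  unfold Jx1_nu
  rw [dif_pos hex]
  have hc := hex.choose_spec
  generalize hex.choose = p at hc ⊢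
  obtain ⟨j', n'⟩ := p
  simp only at hc ⊢
  have hdist : ‖(D.b j - (D.b j' + vec D.p D.q D.M (n' - n))).1‖ < 4 * D.r := by
    have h2 : (D.b j - (D.b j' + vec D.p D.q D.M (n' - n))).1
        = (x - (D.b j' + D.v n').1) - (x - (D.b j + D.v n).1) := by
      have h3 : vec D.p D.q D.M (n' - n) = D.v n' - D.v n := Jx1_v_sub D n' n
      rw [h3]
      simp only [Prod.fst_sub, Prod.fst_add]
      ring
    rw [h2]
    calc ‖(x - (D.b j' + D.v n').1) - (x - (D.b j + D.v n).1)‖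
        ≤ ‖x - (D.b j' + D.v n').1‖ + ‖x - (D.b j + D.v n).1‖ := norm_sub_le _ _
      _ < 4 * D.r := by linarith
  obtain ⟨e1, e2, e3⟩ := D.sep_b j j' (n' - n) hdist
  subst e1
  have e4 : (D.v n').1 = (D.v n).1 := by
    apply Jx1_v_fst
    · simp only [Pi.sub_apply] at e2
      linarith
    · simp only [Pi.sub_apply] at e3
      linarith
  simp only [Prod.fst_add, e4]

private theorem Jx1_nu_zero (D : Curve) (f : ℂ → ℝ) (νb : Fin 2 → ℂ) (x : ℂ)
    (h : ∀ j n, 2 * D.r ≤ ‖x - (D.b j + D.v n).1‖) : Jx1_nu D f νb x = 0 := by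
  classical
  unfold Jx1_nu
  rw [dif_neg]
  rintro ⟨p, hp⟩
  exact absurd (h p.1 p.2) (not_le.2 hp)

/-- The function `ν`.

Proof. `A j ξ = α ξ + β conj ξ` with `α = (A 1 - I A I) / 2`, `β = (A 1 + I A I) / 2`, `det (A j) = ‖α‖ ^ 2 - ‖β‖ ^ 2 > 0`, so
`α ≠ 0` and `νb j = β / α` has norm `< 1`. Let `χ : ℝ → ℝ` be smooth, `0 ≤ χ ≤ 1`, `χ t = 1` for `t ≤ r ^ 2`, `χ t = 0` for
`t ≥ 2 r ^ 2`, and `ν x = χ (‖x - (b j + v n).1‖ ^ 2) * νb j` if there are `j`, `n` with `‖x - (b j + v n).1‖ < 2 r`, and `0`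
otherwise. By `sep_b` the number `j` and the point `(b j + v n).1` are unique (two of them with distance `< 4 r` have
`j = j'` and `n 0 = n' 0`, `n 1 = n' 1`), and near `x` the same formula holds. By `sep_cb` points `x` with
`‖x - (c j + v n).1‖ < r` have distance `≥ 3 r` from the `(b j' + v n').1`. -/
theorem exists_nu (D : Curve) : ∃ (ν : ℂ → ℂ) (k : ℝ) (νb αb : Fin 2 → ℂ), k < 1 ∧ (∀ x, ‖ν x‖ ≤ k) ∧
    ContDiff ℝ ∞ ν ∧ (∀ n x, ν (x + (D.v n).1) = ν x) ∧ (∀ j, αb j ≠ 0) ∧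
    (∀ j ξ, D.A j ξ = αb j * (ξ + νb j * (starRingEnd ℂ) ξ)) ∧
    (∀ j n x, ‖x - (D.b j + D.v n).1‖ < D.r → ν x = νb j) ∧
    (∀ j n x, ‖x - (D.c j + D.v n).1‖ < D.r → ν x = 0) := by
  classical
  have hr := D.hr
  have hlt : ∀ j, ‖(D.A j 1 + I * D.A j I) / 2‖ < ‖(D.A j 1 - I * D.A j I) / 2‖ :=
    fun j => Jx1_lt (D.A j) (D.A_det j)
  have hα : ∀ j, (D.A j 1 - I * D.A j I) / 2 ≠ 0 := by
    intro j h0
    have := hlt j
    rw [h0, norm_zero] at this
    exact absurd this (not_lt.2 (norm_nonneg _))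
  let αb : Fin 2 → ℂ := fun j => (D.A j 1 - I * D.A j I) / 2
  let νb : Fin 2 → ℂ := fun j => ((D.A j 1 + I * D.A j I) / 2) / ((D.A j 1 - I * D.A j I) / 2)
  have hνb : ∀ j, ‖νb j‖ < 1 := by
    intro j
    simp only [νb]
    rw [norm_div]
    exact (div_lt_one (norm_pos_iff.2 (hα j))).2 (hlt j)
  let g : ContDiffBump (0 : ℂ) := ⟨D.r, 3 / 2 * D.r, hr, by linarith⟩
  let f : ℂ → ℝ := fun x => g x
  have hf0 : ∀ x, 0 ≤ f x := fun x => g.nonneg
  have hf1 : ∀ x, f x ≤ 1 := fun x => g.le_one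
  have hfone : ∀ x, ‖x‖ ≤ D.r → f x = 1 := by
    intro x hx
    apply g.one_of_mem_closedBall
    rw [Metric.mem_closedBall, dist_zero_right]
    exact hx
  have hfzero : ∀ x, 3 / 2 * D.r ≤ ‖x‖ → f x = 0 := by
    intro x hx
    apply g.zero_of_le_dist
    rw [dist_zero_right]
    exact hx
  have hfs : ContDiff ℝ ∞ f := g.contDiff
  refine ⟨Jx1_nu D f νb, max ‖νb 0‖ ‖νb 1‖, νb, αb, max_lt (hνb 0) (hνb 1), ?_, ?_, ?_, hα, ?_, ?_, ?_⟩
  · intro x
    by_cases h : ∃ p : Fin 2 × (Fin 4 → ℤ), ‖x - (D.b p.1 + D.v p.2).1‖ < 2 * D.r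
    · obtain ⟨⟨j, n⟩, hjn⟩ := h
      rw [Jx1_nu_eq D f νb x j n hjn, norm_mul, Complex.norm_real, Real.norm_eq_abs, abs_of_nonneg (hf0 _)]
      have h1 : ‖νb j‖ ≤ max ‖νb 0‖ ‖νb 1‖ := by
        fin_cases j
        · exact le_max_left _ _
        · exact le_max_right _ _
      calc f (x - (D.b j + D.v n).1) * ‖νb j‖ ≤ 1 * ‖νb j‖ :=
            mul_le_mul_of_nonneg_right (hf1 _) (norm_nonneg _)
        _ = ‖νb j‖ := one_mul _
        _ ≤ _ := h1
    · rw [Jx1_nu_zero D f νb x (fun j n => not_lt.1 (fun hlt' => h ⟨(j, n), hlt'⟩)), norm_zero]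
      exact le_max_of_le_left (norm_nonneg _)
  · rw [contDiff_iff_contDiffAt]
    intro x
    by_cases h : ∃ p : Fin 2 × (Fin 4 → ℤ), ‖x - (D.b p.1 + D.v p.2).1‖ < 2 * D.r
    · obtain ⟨⟨j, n⟩, hjn⟩ := h
      simp only at hjn
      have hev : Jx1_nu D f νb =ᶠ[𝓝 x] fun y => (f (y - (D.b j + D.v n).1) : ℂ) * νb j := by
        have hopen : IsOpen {y : ℂ | ‖y - (D.b j + D.v n).1‖ < 2 * D.r} :=
          isOpen_lt (by fun_prop) continuous_const
        filter_upwards [hopen.mem_nhds hjn] with y hy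
        exact Jx1_nu_eq D f νb y j n hy
      refine ContDiffAt.congr_of_eventuallyEq ?_ hev
      have h1 : ContDiff ℝ ∞ (fun y : ℂ => f (y - (D.b j + D.v n).1)) :=
        hfs.comp (contDiff_id.sub contDiff_const)
      have h2 : ContDiff ℝ ∞ (fun y : ℂ => (f (y - (D.b j + D.v n).1) : ℂ)) :=
        Complex.ofRealCLM.contDiff.comp h1
      exact (h2.mul contDiff_const).contDiffAt
    · have hfar : ∀ j n, 2 * D.r ≤ ‖x - (D.b j + D.v n).1‖ :=
        fun j n => not_lt.1 (fun hlt' => h ⟨(j, n), hlt'⟩)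
      have hev : Jx1_nu D f νb =ᶠ[𝓝 x] fun _ => (0 : ℂ) := by
        filter_upwards [Metric.ball_mem_nhds x (half_pos hr)] with y hy
        rw [Metric.mem_ball, dist_eq_norm] at hy
        by_cases h' : ∃ p : Fin 2 × (Fin 4 → ℤ), ‖y - (D.b p.1 + D.v p.2).1‖ < 2 * D.r
        · obtain ⟨⟨j, n⟩, hjn⟩ := h'
          simp only at hjn
          rw [Jx1_nu_eq D f νb y j n hjn, hfzero, Complex.ofReal_zero, zero_mul]
          have h3 := hfar j n
          have h4 : x - (D.b j + D.v n).1 = (y - (D.b j + D.v n).1) - (y - x) := by ring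
          have h5 : ‖x - (D.b j + D.v n).1‖ ≤ ‖y - (D.b j + D.v n).1‖ + ‖y - x‖ := by
            rw [h4]
            exact norm_sub_le _ _
          linarith
        · exact Jx1_nu_zero D f νb y (fun j n => not_lt.1 (fun hlt' => h' ⟨(j, n), hlt'⟩))
      exact contDiffAt_const.congr_of_eventuallyEq hev
  · intro n x
    by_cases h : ∃ p : Fin 2 × (Fin 4 → ℤ), ‖x - (D.b p.1 + D.v p.2).1‖ < 2 * D.r
    · obtain ⟨⟨j, m⟩, hjm⟩ := h
      simp only at hjm
      have h1 : x + (D.v n).1 - (D.b j + D.v (m + n)).1 = x - (D.b j + D.v m).1 := by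
        rw [Jx1_v_add]
        simp only [Prod.fst_add]
        ring
      have h2 : ‖x + (D.v n).1 - (D.b j + D.v (m + n)).1‖ < 2 * D.r := by
        rw [h1]
        exact hjm
      rw [Jx1_nu_eq D f νb x j m hjm, Jx1_nu_eq D f νb _ j (m + n) h2, h1]
    · have hfar : ∀ j n, 2 * D.r ≤ ‖x - (D.b j + D.v n).1‖ :=
        fun j n => not_lt.1 (fun hlt' => h ⟨(j, n), hlt'⟩)
      rw [Jx1_nu_zero D f νb x hfar, Jx1_nu_zero]
      intro j m
      have h1 : x + (D.v n).1 - (D.b j + D.v m).1 = x - (D.b j + D.v (m - n)).1 := by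
        rw [Jx1_v_sub]
        simp only [Prod.fst_add, Prod.fst_sub]
        ring
      rw [h1]
      exact hfar j (m - n)
  · intro j ξ
    rw [Jx1_formula (D.A j) ξ]
    simp only [αb, νb]
    rw [mul_add, ← mul_assoc, mul_div_cancel₀ _ (hα j)]
  · intro j n x hx
    rw [Jx1_nu_eq D f νb x j n (by linarith), hfone _ hx.le, Complex.ofReal_one, one_mul]
  · intro j n x hx
    apply Jx1_nu_zero
    intro j' n'
    have h1 := D.sep_cb j j' (n' - n)
    have h2 : (D.c j - (D.b j' + vec D.p D.q D.M (n' - n))).1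
        = (x - (D.b j' + D.v n').1) - (x - (D.c j + D.v n).1) := by
      have h3 : vec D.p D.q D.M (n' - n) = D.v n' - D.v n := Jx1_v_sub D n' n
      rw [h3]
      simp only [Prod.fst_sub, Prod.fst_add]
      ring
    rw [h2] at h1
    have h4 : ‖(x - (D.b j' + D.v n').1) - (x - (D.c j + D.v n).1)‖
        ≤ ‖x - (D.b j' + D.v n').1‖ + ‖x - (D.c j + D.v n).1‖ := norm_sub_le _ _
    linarith

end Pool.Agent.Helper67.SY
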