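import Pool.Agent.Helper67.SY.Dt

/-!
# Project SY (MP_872606_gt), block J: existence of the almost complex structure
-/

open Complex Filter Topology
open scoped ContDiff

namespace Pool.Agent.Helper67.SY

private theorem Jx2_tendsto {D : Curve} {z : E} {f : ℂ → ℂ} (h : D.Gr z f) :
    Tendsto (fun x : ℂ => ((x, f x) : E)) (𝓝 z.1) (𝓝 z) := by
  have h1 : ContinuousAt (fun x : ℂ => ((x, f x) : E)) z.1 :=
    continuousAt_id.prodMk h.smooth.continuousAt
  have h2 : ((z.1, f z.1) : E) = z := by rw [h.val]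
  have h3 := h1.tendsto
  rw [h2] at h3
  exact h3

private theorem Jx2_br {D : Curve} {w : E} {j : Fin 2} {n : Fin 4 → ℤ}
    (hz : ‖w - (D.b j + D.v n)‖ < 2 * D.r) :
    w ∈ D.C ↔ (w.2 - (D.b j + D.v n).2) ^ 2 - D.A j (w.1 - (D.b j + D.v n).1) = 0 := by
  have e1 : w - D.v n - D.b j = w - (D.b j + D.v n) := by abel
  have h1 := D.br j (w - D.v n) (by rw [e1]; exact hz)
  have h2 := D.periodic n (w - D.v n)
  have e2 : w - D.v n + vec D.p D.q D.M n = w := sub_add_cancel w (D.v n)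
  rw [e2] at h2
  rw [h2, h1]
  unfold brEqn
  have e3 : (w - D.v n).2 - (D.b j).2 = w.2 - (D.b j + D.v n).2 := by
    rw [Prod.snd_sub, Prod.snd_add]; ring
  have e4 : (w - D.v n).1 - (D.b j).1 = w.1 - (D.b j + D.v n).1 := by
    rw [Prod.fst_sub, Prod.fst_add]; ring
  rw [e3, e4]

private theorem Jx2_cl {D : Curve} {w : E} {j : Fin 2} {n : Fin 4 → ℤ}
    (hz : ‖w - (D.c j + D.v n)‖ < 2 * D.r) :
    w ∈ D.C ↔ ∃ i, w.2 - (D.c j + D.v n).2 - D.a j i * (w.1 - (D.c j + D.v n).1) = 0 := by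
  have e1 : w - D.v n - D.c j = w - (D.c j + D.v n) := by abel
  have h1 := D.cl j (w - D.v n) (by rw [e1]; exact hz)
  have h2 := D.periodic n (w - D.v n)
  have e2 : w - D.v n + vec D.p D.q D.M n = w := sub_add_cancel w (D.v n)
  rw [e2] at h2
  rw [h2, h1]
  unfold clEqn
  have e3 : (w - D.v n).2 - (D.c j).2 = w.2 - (D.c j + D.v n).2 := by
    rw [Prod.snd_sub, Prod.snd_add]; ring
  have e4 : (w - D.v n).1 - (D.c j).1 = w.1 - (D.c j + D.v n).1 := by
    rw [Prod.fst_sub, Prod.fst_add]; ring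
  rw [e3, e4, Finset.prod_eq_zero_iff]
  constructor
  · rintro ⟨i, -, hi⟩
    exact ⟨i, hi⟩
  · rintro ⟨i, hi⟩
    exact ⟨i, Finset.mem_univ i, hi⟩

private theorem Jx2_inj (A : ℂ →L[ℝ] ℂ) (hA : 0 < A.det) {ξ : ℂ} (h : A ξ = 0) : ξ = 0 := by
  have hd : LinearMap.det (A : ℂ →ₗ[ℝ] ℂ) ≠ 0 := ne_of_gt hA
  have hi := (LinearMap.equivOfDetNeZero (A : ℂ →ₗ[ℝ] ℂ) hd).injective
  apply hi
  rw [map_zero]
  exact h

private theorem Jx2_near {D : Curve} {z : E} {f : ℂ → ℂ} (h : D.Gr z f) {B : E}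
    (hz : ‖z - B‖ < 2 * D.r) :
    ∀ᶠ x in 𝓝 z.1, ((x, f x) : E) ∈ D.C ∧ ‖((x, f x) : E) - B‖ < 2 * D.r := by
  have h1 := (Jx2_tendsto h).eventually h.graph
  have hopen : IsOpen {w : E | ‖w - B‖ < 2 * D.r} := isOpen_lt (by fun_prop) continuous_const
  have h2 := (Jx2_tendsto h).eventually (hopen.mem_nhds hz)
  filter_upwards [h1, h2] with x hx1 hx2
  exact ⟨hx1.2 rfl, hx2⟩

/-- On the ball of radius `2 r` around a branch point the branches of the curve satisfy `∂f/∂x̄ = ν ∂f/∂x`.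

Proof. For `x` near `z.1` the point `(x, f x)` is on the curve and in the ball, so with `g = f - (b j + v n).2` one has
`g x ^ 2 = A (x - (b j + v n).1)` (`br`, `periodic`). `g z.1 ≠ 0`, otherwise `A (z.1 - ..) = 0`, `A` is injective and
`z = b j + v n`. The derivative is `2 g Df ξ = A ξ = α (ξ + ν conj ξ)` near `z.1`. -/
theorem dbar_br {D : Curve} {z : E} {f : ℂ → ℂ} (h : D.Gr z f) {j : Fin 2} {n : Fin 4 → ℤ}
    (hz : ‖z - (D.b j + D.v n)‖ < 2 * D.r) {ν α : ℂ} (hA : ∀ ξ, D.A j ξ = α * (ξ + ν * (starRingEnd ℂ) ξ)) :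
    ∀ᶠ x in 𝓝 z.1, dbar f x = ν * del f x := by
  have hne : f z.1 - (D.b j + D.v n).2 ≠ 0 := by
    intro h0
    have h1 := (Jx2_br hz).1 h.mem
    rw [h.val] at h0
    rw [h0] at h1
    have h2 : D.A j (z.1 - (D.b j + D.v n).1) = 0 := by
      have h3 : (0 : ℂ) ^ 2 = 0 := by norm_num
      rw [h3, zero_sub, neg_eq_zero] at h1
      exact h1
    have h3 := Jx2_inj (D.A j) (D.A_det j) h2
    exact h.ne_b j n (Prod.ext (sub_eq_zero.1 h3) (sub_eq_zero.1 h0))
  have hev : ∀ᶠ x in 𝓝 z.1, (f x - (D.b j + D.v n).2) ^ 2 = D.A j (x - (D.b j + D.v n).1) := by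
    filter_upwards [Jx2_near h hz] with x hx
    exact sub_eq_zero.1 ((Jx2_br hx.2).1 hx.1)
  have hne' : ∀ᶠ x in 𝓝 z.1, f x - (D.b j + D.v n).2 ≠ 0 :=
    (h.smooth.continuousAt.sub continuousAt_const).eventually_ne hne
  have hdiff : ∀ᶠ x in 𝓝 z.1, ContDiffAt ℝ 1 f x :=
    (h.smooth.of_le (by exact_mod_cast le_top)).eventually (by simp)
  filter_upwards [hev.eventually_nhds, hne', hdiff] with x hx1 hx2 hx3
  have hd : HasFDerivAt f (fderiv ℝ f x) x := (hx3.differentiableAt (by norm_num)).hasFDerivAt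
  have hd1 : HasFDerivAt (fun y => (f y - (D.b j + D.v n).2) ^ 2)
      ((2 * (f x - (D.b j + D.v n).2)) • fderiv ℝ f x) x := by
    have h1 := (hd.sub_const (D.b j + D.v n).2).pow 2
    refine h1.congr_fderiv ?_
    ext <;> simp
  have hd2 : HasFDerivAt (fun y => D.A j (y - (D.b j + D.v n).1)) (D.A j) x := by
    have h1 := (D.A j).hasFDerivAt.comp x ((hasFDerivAt_id x).sub_const (D.b j + D.v n).1)
    refine h1.congr_fderiv ?_
    ext <;> simp
  have he : (2 * (f x - (D.b j + D.v n).2)) • fderiv ℝ f x = D.A j :=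
    (hd1.congr_of_eventuallyEq (hx1.mono fun y hy => hy.symm)).unique hd2
  have he1 : ∀ ξ, 2 * (f x - (D.b j + D.v n).2) * fderiv ℝ f x ξ = α * (ξ + ν * (starRingEnd ℂ) ξ) := by
    intro ξ
    rw [← hA ξ, ← he]
    simp
  have h1 : 2 * (f x - (D.b j + D.v n).2) * fderiv ℝ f x 1 = α * (1 + ν) := by
    rw [he1 1, map_one (starRingEnd ℂ), mul_one]
  have hI : 2 * (f x - (D.b j + D.v n).2) * fderiv ℝ f x I = α * (I + ν * (-I)) := by
    rw [he1 I, Complex.conj_I]
  have hc : 2 * (f x - (D.b j + D.v n).2) ≠ 0 := mul_ne_zero two_ne_zero hx2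
  unfold dbar del
  apply mul_left_cancel₀ hc
  generalize fderiv ℝ f x 1 = u at *
  generalize fderiv ℝ f x I = w at *
  generalize 2 * (f x - (D.b j + D.v n).2) = g at *
  linear_combination ((1 - ν) / 2) * h1 + I * (1 + ν) / 2 * hI + α * (1 - ν ^ 2) / 2 * Complex.I_sq

/-- On the ball of radius `2 r` around a 6-fold point a graph is one of the six lines.

Proof. Put `(x', y') = z - (c j + v n)`; `y' = a j i x'` for some `i` (`cl`, `periodic`), `x' ≠ 0`, and for the other `k` one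
has `y' ≠ a j k x'`. For `x` near `z.1` the point `(x, f x)` is on the curve, so it is on one of the lines, and near `z`
the other five lines are away. -/
theorem line_cl {D : Curve} {z : E} {f : ℂ → ℂ} (h : D.Gr z f) {j : Fin 2} {n : Fin 4 → ℤ}
    (hz : ‖z - (D.c j + D.v n)‖ < 2 * D.r) :
    ∃ i, (∀ᶠ x in 𝓝 z.1, f x = (D.c j + D.v n).2 + D.a j i * (x - (D.c j + D.v n).1)) ∧
      z.1 ≠ (D.c j + D.v n).1 ∧
      ∀ k, k ≠ i → z.2 - (D.c j + D.v n).2 ≠ D.a j k * (z.1 - (D.c j + D.v n).1) := by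
  obtain ⟨i, hi⟩ := (Jx2_cl hz).1 h.mem
  have hne : z.1 ≠ (D.c j + D.v n).1 := by
    intro h0
    rw [h0, sub_self, mul_zero, sub_zero] at hi
    exact h.ne_c j n (Prod.ext h0 (sub_eq_zero.1 hi))
  have hk : ∀ k, k ≠ i → z.2 - (D.c j + D.v n).2 ≠ D.a j k * (z.1 - (D.c j + D.v n).1) := by
    intro k hki hk
    rw [hk, ← sub_mul] at hi
    rcases mul_eq_zero.1 hi with h1 | h1
    · exact hki (D.a_inj j (sub_eq_zero.1 h1))
    · exact hne (sub_eq_zero.1 h1)
  refine ⟨i, ?_, hne, hk⟩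
  have hev : ∀ᶠ x in 𝓝 z.1, ∀ k, k ≠ i →
      f x - (D.c j + D.v n).2 - D.a j k * (x - (D.c j + D.v n).1) ≠ 0 := by
    rw [Filter.eventually_all]
    intro k
    by_cases hki : k = i
    · exact Filter.Eventually.of_forall fun x hx => absurd hki hx
    · have hc : ContinuousAt (fun x => f x - (D.c j + D.v n).2 - D.a j k * (x - (D.c j + D.v n).1)) z.1 :=
        (h.smooth.continuousAt.sub continuousAt_const).sub
          (continuousAt_const.mul (continuousAt_id.sub continuousAt_const))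
      have h0 : f z.1 - (D.c j + D.v n).2 - D.a j k * (z.1 - (D.c j + D.v n).1) ≠ 0 := by
        rw [h.val]
        exact sub_ne_zero.2 (hk k hki)
      filter_upwards [hc.eventually_ne h0] with x hx _
      exact hx
  filter_upwards [hev, Jx2_near h hz] with x hx1 hx2
  obtain ⟨i', hi'⟩ := (Jx2_cl hx2.2).1 hx2.1
  have hii : i' = i := by
    by_contra hc
    exact hx1 i' hc hi'
  subst hii
  simp only at hi'
  linear_combination hi'

theorem dbar_cl {D : Curve} {z : E} {f : ℂ → ℂ} (h : D.Gr z f) {j : Fin 2} {n : Fin 4 → ℤ}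
    (hz : ‖z - (D.c j + D.v n)‖ < 2 * D.r) : ∀ᶠ x in 𝓝 z.1, dbar f x = 0 := by
  obtain ⟨i, hi, -, -⟩ := line_cl h hz
  filter_upwards [hi.eventually_nhds] with x hx
  have hd : HasFDerivAt (fun y : ℂ => (D.c j + D.v n).2 + D.a j i * (y - (D.c j + D.v n).1))
      (D.a j i • ContinuousLinearMap.id ℝ ℂ) x :=
    (((hasFDerivAt_id x).sub_const (D.c j + D.v n).1).const_mul (D.a j i)).const_add (D.c j + D.v n).2
  have hf : fderiv ℝ f x = D.a j i • ContinuousLinearMap.id ℝ ℂ := by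
    rw [Filter.EventuallyEq.fderiv_eq hx]
    exact hd.fderiv
  unfold dbar
  rw [hf]
  simp only [smul_apply, ContinuousLinearMap.id_apply, smul_eq_mul, mul_one]
  linear_combination (D.a j i / 2) * Complex.I_sq

end Pool.Agent.Helper67.SY
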