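import Pool.Agent.Helper67.SY.PUa
import Pool.Agent.Helper67.SY.EqB5

/-!
# Project SY (MP_872606_gt), block P (periodic solutions of local problems by a partition of unity)
-/

open Complex Filter Topology
open scoped ContDiff

namespace Pool.Agent.Helper67.SY

/-- Representatives for a free action of `Fin 4 → ℤ`. -/
private theorem PUb_reps (sh : (Fin 4 → ℤ) → (Fin 4 → ℤ) → (Fin 4 → ℤ)) (h0 : ∀ k, sh 0 k = k)
    (hadd : ∀ n m k, sh (n + m) k = sh n (sh m k)) (hfree : ∀ n k, sh n k = k → n = 0) :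
    ∃ (rep : (Fin 4 → ℤ) → (Fin 4 → ℤ)) (N : (Fin 4 → ℤ) → (Fin 4 → ℤ)),
      (∀ k, sh (N k) (rep k) = k) ∧ (∀ n k, rep (sh n k) = rep k) ∧ ∀ n k, N (sh n k) = n + N k := by
  classical
  let S : Setoid (Fin 4 → ℤ) :=
    { r := fun k k' => ∃ n, sh n k = k'
      iseqv :=
        { refl := fun k => ⟨0, h0 k⟩
          symm := by
            rintro k k' ⟨n, rfl⟩
            refine ⟨-n, ?_⟩
            rw [← hadd, neg_add_cancel, h0]
          trans := by
            rintro a b c ⟨n, rfl⟩ ⟨m, rfl⟩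
            exact ⟨m + n, hadd m n a⟩ } }
  let rep : (Fin 4 → ℤ) → (Fin 4 → ℤ) := fun k => (Quotient.mk S k).out
  have hrep : ∀ k, ∃ n, sh n (rep k) = k := fun k => Quotient.mk_out (s := S) k
  choose N hN using hrep
  have hr : ∀ n k, rep (sh n k) = rep k := by
    intro n k
    have h1 : Quotient.mk S (sh n k) = Quotient.mk S k :=
      Quotient.sound (s := S) (S.iseqv.symm ⟨n, rfl⟩)
    show (Quotient.mk S (sh n k)).out = (Quotient.mk S k).out
    rw [h1]
  refine ⟨rep, N, hN, hr, fun n k => ?_⟩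
  have h1 := hN (sh n k)
  rw [hr] at h1
  have h2 : sh (n + N k) (rep k) = sh n k := by rw [hadd, hN]
  have h3 : sh (-(n + N k) + N (sh n k)) (rep k) = rep k := by
    rw [hadd, h1, ← h2, ← hadd, neg_add_cancel, h0]
  have h4 := hfree _ _ h3
  have h5 : N (sh n k) = n + N k := by
    have := add_eq_zero_iff_eq_neg.1 h4
    rw [eq_comm]
    exact neg_injective this
  exact h5

namespace Curve

variable (D : Curve)

private theorem PUb_vneg (n : Fin 4 → ℤ) : D.v (-n) = -D.v n := vec_neg _ _ _ _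

private theorem PUb_vadd (n m : Fin 4 → ℤ) : D.v (n + m) = D.v n + D.v m := vec_add _ _ _ _ _

/-- A uniform radius. -/
private theorem PUb_radius (T : E → (E → ℂ) → Prop)
    (trans : ∀ z m n, T z m → T (z + D.v n) (fun w => m (w - D.v n)))
    (loc : ∀ z, ∃ δ > 0, ∃ m, ∀ w ∈ Metric.ball z δ, T w m) :
    ∃ δ > 0, ∀ z, ∃ m, ∀ w ∈ Metric.ball z δ, T w m := by
  choose ρ hρ m hm using loc
  have hK : IsCompact ((Set.Icc (0 : ℝ) D.p ×ℂ Set.Icc (0 : ℝ) D.q) ×ˢ
      (Set.Icc (0 : ℝ) D.M ×ℂ Set.Icc (0 : ℝ) D.M)) :=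
    (isCompact_Icc.reProdIm isCompact_Icc).prod (isCompact_Icc.reProdIm isCompact_Icc)
  obtain ⟨δ, hδ, h⟩ := lebesgue_number_lemma_of_metric hK (c := fun z : E => Metric.ball z (ρ z))
    (fun _ => Metric.isOpen_ball)
    (fun z _ => Set.mem_iUnion.2 ⟨z, Metric.mem_ball_self (hρ z)⟩)
  refine ⟨δ, hδ, fun z => ?_⟩
  obtain ⟨n, h0, h0', h1, h1', h2, h2', h3, h3'⟩ := D.exists_box z
  obtain ⟨w, hw⟩ := h (z + D.v n) ⟨⟨⟨h0, h0'⟩, ⟨h1, h1'⟩⟩, ⟨⟨h2, h2'⟩, ⟨h3, h3'⟩⟩⟩
  refine ⟨fun y => m w (y - D.v (-n)), fun y hy => ?_⟩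
  have hy1 : y + D.v n ∈ Metric.ball (z + D.v n) δ := by
    rw [Metric.mem_ball, dist_add_right]
    exact hy
  have h4 := trans _ _ (-n) (hm w _ (hw hy1))
  rwa [PUb_vneg, add_neg_cancel_right, ← PUb_vneg] at h4

/-- Local problems which are translation invariant, depend on the germ only, and are stable under convex combinations
with smooth coefficients, and which have local solutions, have a global periodic solution.

Proof. By compactness of the box (as in `exists_radius`) and translation invariance there is `δ > 0` such that on every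
ball of radius `δ` there is a function `m` with `T z m` for all `z` in the ball. Take `exists_partition` for `δ`. Choose a
set of representatives for the action `sh` (which is free) and, for a representative `k`, a solution `m k` on the ball
with centre `cen k`; for `sh n k` take `m (sh n k) z = m k (z - D.v n)`, a solution on the ball with centre
`cen (sh n k)`. The function `∑ᶠ k, ρ k z * m k z` is periodic. Near a given point `z` it is the finite sum over the `k`
with `z ∈ tsupport (ρ k)`, and for these `T z (m k)` holds. -/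
theorem exists_periodic (T : E → (E → ℂ) → Prop)
    (congr : ∀ z m m', (∀ᶠ w in 𝓝 z, m w = m' w) → T z m → T z m')
    (trans : ∀ z m n, T z m → T (z + D.v n) (fun w => m (w - D.v n)))
    (conv : ∀ (z : E) (s : Finset (Fin 4 → ℤ)) (ρ : (Fin 4 → ℤ) → E → ℝ) (m : (Fin 4 → ℤ) → E → ℂ),
      (∀ k ∈ s, ContDiff ℝ ∞ (ρ k)) → (∀ᶠ w in 𝓝 z, ∑ k ∈ s, ρ k w = 1) → (∀ k ∈ s, T z (m k)) →
      T z (fun w => ∑ k ∈ s, (ρ k w : ℂ) * m k w))
    (loc : ∀ z, ∃ δ > 0, ∃ m, ∀ w ∈ Metric.ball z δ, T w m) :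
    ∃ m : E → ℂ, (∀ n z, m (z + D.v n) = m z) ∧ ∀ z, T z m := by
  classical
  obtain ⟨δ, hδ, hm0⟩ := D.PUb_radius T trans loc
  choose m0 hm0 using hm0
  obtain ⟨ρ, cen, sh, hρ, -, hsupp, hlf, hone, hshift, hcen, hsh0, hshadd, hfree⟩ := D.exists_partition hδ
  obtain ⟨rep, N, hN, hrep, hNsh⟩ := PUb_reps sh hsh0 hshadd hfree
  set μ : (Fin 4 → ℤ) → E → ℂ := fun k z => m0 (cen (rep k)) (z - D.v (N k)) with hμ
  have hμsh : ∀ n k z, μ (sh n k) (z + D.v n) = μ k z := by
    intro n k z
    show m0 (cen (rep (sh n k))) (z + D.v n - D.v (N (sh n k))) = m0 (cen (rep k)) (z - D.v (N k))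
    rw [hrep, hNsh, D.PUb_vadd]
    congr 1
    abel
  have hμT : ∀ k, ∀ w ∈ Metric.ball (cen k) δ, T w (μ k) := by
    intro k w hw
    have h1 : cen k = cen (rep k) + D.v (N k) := by
      conv_lhs => rw [← hN k]
      exact hcen _ _
    have h2 : w - D.v (N k) ∈ Metric.ball (cen (rep k)) δ := by
      rw [h1] at hw
      rw [Metric.mem_ball] at hw ⊢
      calc dist (w - D.v (N k)) (cen (rep k))
          = dist (w - D.v (N k) + D.v (N k)) (cen (rep k) + D.v (N k)) := (dist_add_right _ _ _).symm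
        _ = dist w (cen (rep k) + D.v (N k)) := by rw [sub_add_cancel]
        _ < δ := hw
    have h3 := trans _ _ (N k) (hm0 (cen (rep k)) _ h2)
    rwa [sub_add_cancel] at h3
  have hsupp0 : ∀ k z, z ∉ tsupport (ρ k) → ρ k z = 0 := fun k z h => image_eq_zero_of_notMem_tsupport h
  refine ⟨fun z => ∑ᶠ k, (ρ k z : ℂ) * μ k z, fun n z => ?_, fun z => ?_⟩
  · have hbij : Function.Bijective (sh n) := by
      constructor
      · intro a b hab
        have h1 : sh (-n) (sh n a) = sh (-n) (sh n b) := by rw [hab]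
        rwa [← hshadd, ← hshadd, neg_add_cancel, hsh0, hsh0] at h1
      · intro b
        exact ⟨sh (-n) b, by rw [← hshadd, add_neg_cancel, hsh0]⟩
    refine (finsum_eq_of_bijective (sh n) hbij fun k => ?_).symm
    rw [hshift, hμsh]
  · have hfin : {k | z ∈ tsupport (ρ k)}.Finite := hlf.point_finite z
    have hev : ∀ᶠ w in 𝓝 z, {k | w ∈ tsupport (ρ k)} ⊆ {k | z ∈ tsupport (ρ k)} :=
      hlf.eventually_subset (fun k => isClosed_tsupport _) z
    have hev' : ∀ᶠ w in 𝓝 z, ∀ k, k ∉ hfin.toFinset → ρ k w = 0 := by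
      filter_upwards [hev] with w hw k hk
      refine hsupp0 k w fun h => hk ?_
      rw [Set.Finite.mem_toFinset]
      exact hw h
    refine congr z (fun w => ∑ k ∈ hfin.toFinset, (ρ k w : ℂ) * μ k w) _ ?_
      (conv z hfin.toFinset ρ μ (fun k _ => hρ k) ?_ ?_)
    · filter_upwards [hev'] with w hw
      refine (finsum_eq_sum_of_support_subset _ ?_).symm
      intro k hk
      by_contra h
      refine hk ?_
      show (ρ k w : ℂ) * μ k w = 0
      rw [hw k (by simpa using h), Complex.ofReal_zero, zero_mul]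
    · filter_upwards [hev'] with w hw
      rw [← hone w]
      refine (finsum_eq_sum_of_support_subset _ ?_).symm
      intro k hk
      by_contra h
      exact hk (hw k (by simpa using h))
    · intro k hk
      rw [Set.Finite.mem_toFinset] at hk
      exact hμT k z (hsupp k hk)

end Curve

end Pool.Agent.Helper67.SY
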