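import Pool.Agent.Helper67.SY.Jx1
import Pool.Agent.Helper67.SY.Jx2
import Pool.Agent.Helper67.SY.PUb

/-!
# Project SY (MP_872606_gt), block J: existence of the almost complex structure
-/

open Complex Filter Topology
open scoped ContDiff

namespace Pool.Agent.Helper67.SY

private theorem Jx3_cont_del {f : ℂ → ℂ} {x : ℂ} (h : ContDiffAt ℝ ∞ f x) : ContDiffAt ℝ ∞ (del f) x := by
  have h1 : ContDiffAt ℝ ∞ (fderiv ℝ f) x := h.fderiv_right (by simp)
  have h2 : ∀ u : ℂ, ContDiffAt ℝ ∞ (fun y => fderiv ℝ f y u) x := fun u => h1.clm_apply contDiffAt_const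
  exact ((h2 1).sub (contDiffAt_const.mul (h2 I))).div_const 2

private theorem Jx3_cont_dbar {f : ℂ → ℂ} {x : ℂ} (h : ContDiffAt ℝ ∞ f x) : ContDiffAt ℝ ∞ (dbar f) x := by
  have h1 : ContDiffAt ℝ ∞ (fderiv ℝ f) x := h.fderiv_right (by simp)
  have h2 : ∀ u : ℂ, ContDiffAt ℝ ∞ (fun y => fderiv ℝ f y u) x := fun u => h1.clm_apply contDiffAt_const
  exact ((h2 1).add (contDiffAt_const.mul (h2 I))).div_const 2

private theorem Jx3_shift (f : ℂ → ℂ) (a c x : ℂ) :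
    del (fun y => f (y + a) - c) x = del f (x + a) ∧ dbar (fun y => f (y + a) - c) x = dbar f (x + a) := by
  have h : fderiv ℝ (fun y => f (y + a) - c) x = fderiv ℝ f (x + a) := by
    rw [fderiv_sub_const, fderiv_comp_add_right]
  unfold del dbar
  rw [h]
  exact ⟨rfl, rfl⟩

private theorem Jx3_congr {f g : ℂ → ℂ} {x : ℂ} (h : f =ᶠ[𝓝 x] g) :
    ∀ᶠ y in 𝓝 x, del f y = del g y ∧ dbar f y = dbar g y := by
  filter_upwards [h.eventuallyEq_nhds] with y hy
  unfold del dbar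
  rw [hy.fderiv_eq]
  exact ⟨rfl, rfl⟩

private theorem Jx3_gr {D : Curve} {z : E} {f : ℂ → ℂ} {n : Fin 4 → ℤ} (h : D.Gr (z + D.v n) f) :
    D.Gr z (fun x => f (x + (D.v n).1) - (D.v n).2) := by
  refine ⟨(D.periodic n z).1 h.mem, fun j m hz => ?_, fun j m hz => ?_, ?_, ?_, ?_⟩
  · refine h.ne_b j (m + n) ?_
    rw [hz, add_assoc]
    unfold Curve.v
    rw [vec_add]
  · refine h.ne_c j (m + n) ?_
    rw [hz, add_assoc]
    unfold Curve.v
    rw [vec_add]
  · have h1 : ContDiffAt ℝ ∞ f (z.1 + (D.v n).1) := h.smooth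
    have h2 : ContDiffAt ℝ ∞ (fun x : ℂ => x + (D.v n).1) z.1 := contDiffAt_id.add contDiffAt_const
    exact (ContDiffAt.comp z.1 h1 h2).sub contDiffAt_const
  · show f (z.1 + (D.v n).1) - (D.v n).2 = z.2
    have h1 : f (z.1 + (D.v n).1) = z.2 + (D.v n).2 := h.val
    rw [h1, add_sub_cancel_right]
  · have h1 : Tendsto (fun w : E => w + D.v n) (𝓝 z) (𝓝 (z + D.v n)) :=
      (continuous_id.add continuous_const).tendsto z
    filter_upwards [h1.eventually h.graph] with w hw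
    have h2 : w + D.v n ∈ D.C ↔ w ∈ D.C := D.periodic n w
    rw [← h2, hw]
    show w.2 + (D.v n).2 = f (w.1 + (D.v n).1) ↔ w.2 = f (w.1 + (D.v n).1) - (D.v n).2
    rw [eq_sub_iff_add_eq]

private theorem Jx3_gr_eq {D : Curve} {w : E} {f f' : ℂ → ℂ} (hc : ContinuousAt f' w.1) (hv : f' w.1 = w.2)
    (h' : ∀ᶠ x in 𝓝 w, (x ∈ D.C ↔ x.2 = f' x.1)) (h : ∀ᶠ x in 𝓝 w, (x ∈ D.C ↔ x.2 = f x.1)) :
    f =ᶠ[𝓝 w.1] f' := by
  have ht : Tendsto (fun x : ℂ => (x, f' x)) (𝓝 w.1) (𝓝 w) := by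
    have h1 : ContinuousAt (fun x : ℂ => (x, f' x)) w.1 := continuousAt_id.prodMk hc
    have h2 : ((w.1, f' w.1) : E) = w := by rw [hv]
    have h3 := h1.tendsto
    simp only [h2] at h3
    exact h3
  filter_upwards [ht.eventually h', ht.eventually h] with x h1 h2
  exact (h2.1 (h1.2 rfl)).symm

private theorem Jx3_sep_b {D : Curve} {z : E} (hz : ∀ j n, z ≠ D.b j + D.v n) :
    ∃ ρ > 0, ∀ j n, ρ ≤ ‖z - (D.b j + D.v n)‖ := by
  by_cases h : ∃ j n, ‖z - (D.b j + D.v n)‖ < 2 * D.r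
  · obtain ⟨j, n, hjn⟩ := h
    refine ⟨‖z - (D.b j + D.v n)‖, norm_pos_iff.2 (sub_ne_zero.2 (hz j n)), fun j' n' => ?_⟩
    by_contra hlt
    rw [not_le] at hlt
    obtain ⟨h1, h2⟩ := D.special_unique_b (hlt.trans hjn) hjn
    rw [h1, h2] at hlt
    exact lt_irrefl _ hlt
  · refine ⟨2 * D.r, by have := D.hr; positivity, fun j n => ?_⟩
    by_contra hlt
    exact h ⟨j, n, not_le.1 hlt⟩

private theorem Jx3_sep_c {D : Curve} {z : E} (hz : ∀ j n, z ≠ D.c j + D.v n) :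
    ∃ ρ > 0, ∀ j n, ρ ≤ ‖z - (D.c j + D.v n)‖ := by
  by_cases h : ∃ j n, ‖z - (D.c j + D.v n)‖ < 2 * D.r
  · obtain ⟨j, n, hjn⟩ := h
    refine ⟨‖z - (D.c j + D.v n)‖, norm_pos_iff.2 (sub_ne_zero.2 (hz j n)), fun j' n' => ?_⟩
    by_contra hlt
    rw [not_le] at hlt
    obtain ⟨h1, h2⟩ := D.special_unique_c (hlt.trans hjn) hjn
    rw [h1, h2] at hlt
    exact lt_irrefl _ hlt
  · refine ⟨2 * D.r, by have := D.hr; positivity, fun j n => ?_⟩
    by_contra hlt
    exact h ⟨j, n, not_le.1 hlt⟩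

/-- The graph function is smooth and gives the curve near the point. -/
private theorem Jx3_graph {D : Curve} {z : E} {f : ℂ → ℂ} (h : D.Gr z f) :
    ∃ δ > 0, (∀ w ∈ Metric.ball z δ, ContDiffAt ℝ ∞ f w.1) ∧
      ∀ w ∈ Metric.ball z δ, ∀ f', D.Gr w f' → f =ᶠ[𝓝 w.1] f' := by
  obtain ⟨ρ₁, hρ₁, hg⟩ := Metric.eventually_nhds_iff_ball.1 h.graph
  obtain ⟨ρ₂, hρ₂, hsb⟩ := Jx3_sep_b h.ne_b
  obtain ⟨ρ₃, hρ₃, hsc⟩ := Jx3_sep_c h.ne_c
  set ρ := min ρ₁ (min ρ₂ ρ₃) with hρd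
  have hρ : 0 < ρ := lt_min hρ₁ (lt_min hρ₂ hρ₃)
  have hgr : ∀ w ∈ Metric.ball z ρ, ∀ᶠ x in 𝓝 w, (x ∈ D.C ↔ x.2 = f x.1) := by
    intro w hw
    filter_upwards [Metric.isOpen_ball.mem_nhds hw] with x hx
    exact hg x (Metric.ball_subset_ball (min_le_left _ _) hx)
  have hnb : ∀ w ∈ Metric.ball z ρ, ∀ j n, w ≠ D.b j + D.v n := by
    rintro w hw j n rfl
    have h1 := hsb j n
    rw [Metric.mem_ball', dist_eq_norm] at hw
    have h2 : ρ ≤ ρ₂ := (min_le_right _ _).trans (min_le_left _ _)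
    linarith
  have hnc : ∀ w ∈ Metric.ball z ρ, ∀ j n, w ≠ D.c j + D.v n := by
    rintro w hw j n rfl
    have h1 := hsc j n
    rw [Metric.mem_ball', dist_eq_norm] at hw
    have h2 : ρ ≤ ρ₃ := (min_le_right _ _).trans (min_le_right _ _)
    linarith
  obtain ⟨δ₀, hδ₀, hδ⟩ : ∃ δ > 0, ∀ x ∈ Metric.ball z.1 δ, ((x, f x) : E) ∈ Metric.ball z ρ := by
    have h1 : ContinuousAt (fun x : ℂ => ((x, f x) : E)) z.1 :=
      continuousAt_id.prodMk h.smooth.continuousAt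
    have h2 : ((z.1, f z.1) : E) = z := by rw [h.val]
    have h3 : ∀ᶠ x in 𝓝 z.1, ((x, f x) : E) ∈ Metric.ball z ρ := by
      refine h1.eventually (Metric.isOpen_ball.mem_nhds ?_)
      simp only [h2]
      exact Metric.mem_ball_self hρ
    exact Metric.eventually_nhds_iff_ball.1 h3
  have hfst : ∀ w ∈ Metric.ball z (min δ₀ ρ), w.1 ∈ Metric.ball z.1 δ₀ := by
    intro w hw
    have h1 : dist w.1 z.1 ≤ dist w z := le_max_left _ _
    exact (h1.trans_lt hw).trans_le (min_le_left _ _)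
  refine ⟨min δ₀ ρ, lt_min hδ₀ hρ, fun w hw0 => ?_, fun w hw0 f' hf' => ?_⟩
  · have hw := hδ w.1 (hfst w hw0)
    have hwC : ((w.1, f w.1) : E) ∈ D.C :=
      (hg _ (Metric.ball_subset_ball (min_le_left _ _) hw)).2 rfl
    obtain ⟨f', h1, h2, h3⟩ := D.reg _ hwC (hnc _ hw) (hnb _ hw)
    exact h1.congr_of_eventuallyEq (Jx3_gr_eq h1.continuousAt h2 h3 (hgr _ hw))
  · exact Jx3_gr_eq hf'.smooth.continuousAt hf'.val hf'.graph
      (hgr w (Metric.ball_subset_ball (min_le_right _ _) hw0))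

/-- The local problem. -/
private def Jx3_T (D : Curve) (ν : ℂ → ℂ) (z : E) (m : E → ℂ) : Prop :=
  ContDiffAt ℝ ∞ m z ∧ (∀ f, D.Gr z f → ∀ᶠ w in 𝓝 z, m w = dbar f w.1 - ν w.1 * del f w.1) ∧
    (∀ j n, ‖z - (D.b j + D.v n)‖ < D.r → m z = 0) ∧ (∀ j n, ‖z - (D.c j + D.v n)‖ < D.r → m z = 0)

private theorem Jx3_zero {D : Curve} {ν : ℂ → ℂ} {z : E}
    (h : ∀ f, D.Gr z f → ∀ᶠ w in 𝓝 z, dbar f w.1 = ν w.1 * del f w.1) : Jx3_T D ν z fun _ => 0 := by
  refine ⟨contDiffAt_const, fun f hf => ?_, fun _ _ _ => rfl, fun _ _ _ => rfl⟩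
  filter_upwards [h f hf] with w hw
  rw [hw, sub_self]

private theorem Jx3_fst {z c : E} {r : ℝ} (h : ‖z - c‖ < r) : ∀ᶠ w in 𝓝 z, ‖w.1 - c.1‖ < r := by
  have h1 : ‖z.1 - c.1‖ < r := lt_of_le_of_lt (norm_fst_le (z - c)) h
  have h2 : Continuous fun w : E => ‖w.1 - c.1‖ := (continuous_fst.sub continuous_const).norm
  exact h2.continuousAt.eventually (gt_mem_nhds h1)

/-- Proof. Take `ν` from `exists_nu` and `μ` from `exists_periodic` for the local problem `T z m` :=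
`ContDiffAt ℝ ∞ m z ∧ (∀ f, D.Gr z f → ∀ᶠ w in 𝓝 z, m w = dbar f w.1 - ν w.1 * del f w.1) ∧
(∀ j n, ‖z - (D.b j + D.v n)‖ < D.r → m z = 0) ∧ (∀ j n, ‖z - (D.c j + D.v n)‖ < D.r → m z = 0)`.
`congr`, `trans` (for `Gr z f` the function `x ↦ f (x - (v n).1) + (v n).2` is a graph at `z + v n`), `conv` are clear
(`∑ ρ k = 1` near `z`). Local solutions at `z`:
* `z ∉ C`: `m = 0` on a ball off `C`.
* `z = b j + v n` or `z = c j + v n`: `m = 0` on the ball of radius `r`, by `dbar_br` (and `ν = νb j` on the ball) and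
  `dbar_cl` (and `ν = 0` on the ball).
* `z` regular, `Gr z f`: `m w = dbar f w.1 - ν w.1 * del f w.1` on a small ball, where `C` is the graph of `f`, and which
  contains no special point: for `w` in the ball on `C` with `Gr w f'` one has `f' = f` near `w.1`. If
  `‖w - (b j + v n)‖ < r` for some `w` in the small ball then (for a ball of radius `< r`) `z` is in the ball of radius
  `2 r`, and `dbar f = νb j * del f` near `z.1` by `dbar_br`, while `ν w.1 = νb j`; choose the small ball accordingly (at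
  most one `b j + v n` is at distance `< 2 r` from `z`, `special_unique_b`). In the same way for `c j + v n`.
The function `μ` is continuous and periodic, so bounded (`exists_box`). -/
theorem exists_jdat (D : Curve) : Nonempty (JDat D) := by
  obtain ⟨ν, k, νb, αb, hk, hνk, hνs, hνp, hαb, hA, hνb, hνc⟩ := exists_nu D
  have hr := D.hr
  have hloc_b : ∀ (w : E) (j : Fin 2) (n : Fin 4 → ℤ), ‖w - (D.b j + D.v n)‖ < D.r →
      Jx3_T D ν w fun _ => 0 := by
    intro w j n hw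
    refine Jx3_zero fun f hf => ?_
    have h1 := dbar_br hf (hw.trans (by linarith)) (hA j)
    have h2 : Tendsto (fun x : E => x.1) (𝓝 w) (𝓝 w.1) := continuousAt_fst
    filter_upwards [h2.eventually h1, Jx3_fst hw] with x hx hx'
    rw [hx, hνb j n x.1 hx']
  have hloc_c : ∀ (w : E) (j : Fin 2) (n : Fin 4 → ℤ), ‖w - (D.c j + D.v n)‖ < D.r →
      Jx3_T D ν w fun _ => 0 := by
    intro w j n hw
    refine Jx3_zero fun f hf => ?_
    have h1 := dbar_cl hf (j := j) (n := n) (hw.trans (by linarith))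
    have h2 : Tendsto (fun x : E => x.1) (𝓝 w) (𝓝 w.1) := continuousAt_fst
    filter_upwards [h2.eventually h1, Jx3_fst hw] with x hx hx'
    rw [hx, hνc j n x.1 hx', zero_mul]
  have key := D.exists_periodic (Jx3_T D ν) ?_ ?_ ?_ ?_
  · obtain ⟨μ, hμp, hμ⟩ := key
    have hμs : ContDiff ℝ ∞ μ := contDiff_iff_contDiffAt.2 fun z => (hμ z).1
    obtain ⟨B, hB⟩ : ∃ B, ∀ z, ‖μ z‖ ≤ B := by
      have hK : IsCompact ((Set.Icc (0 : ℝ) D.p ×ℂ Set.Icc (0 : ℝ) D.q) ×ˢ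
          (Set.Icc (0 : ℝ) D.M ×ℂ Set.Icc (0 : ℝ) D.M)) :=
        (isCompact_Icc.reProdIm isCompact_Icc).prod (isCompact_Icc.reProdIm isCompact_Icc)
      obtain ⟨B, hB⟩ := hK.exists_bound_of_continuousOn hμs.continuous.continuousOn
      refine ⟨B, fun z => ?_⟩
      obtain ⟨n, h0, h0', h1, h1', h2, h2', h3, h3'⟩ := D.exists_box z
      rw [← hμp n z]
      exact hB _ ⟨⟨⟨h0, h0'⟩, ⟨h1, h1'⟩⟩, ⟨⟨h2, h2'⟩, ⟨h3, h3'⟩⟩⟩
    exact ⟨{
      ν := ν
      μ := μ
      k := k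
      B := B
      hk := hk
      ν_le := hνk
      μ_le := hB
      smooth_ν := hνs
      smooth_μ := hμs
      per_ν := hνp
      per_μ := hμp
      reg := fun z f hf => (hμ z).2.1 f hf
      νb := νb
      αb := αb
      αb_ne := hαb
      A_eq := hA
      near_b_ν := hνb
      near_c_ν := hνc
      near_b_μ := fun j n z hz => (hμ z).2.2.1 j n hz
      near_c_μ := fun j n z hz => (hμ z).2.2.2 j n hz }⟩
  · -- the germ
    rintro z m m' hmm ⟨h1, h2, h3, h4⟩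
    have h0 : m z = m' z := hmm.self_of_nhds
    refine ⟨h1.congr_of_eventuallyEq (hmm.mono fun w hw => hw.symm), fun f hf => ?_,
      fun j n hz => h0 ▸ h3 j n hz, fun j n hz => h0 ▸ h4 j n hz⟩
    filter_upwards [h2 f hf, hmm] with w hw hw'
    rw [← hw', hw]
  · -- translations
    rintro z m n ⟨h1, h2, h3, h4⟩
    have hvv : ∀ (x : E) (n' : Fin 4 → ℤ), z + D.v n - (x + D.v n') = z - (x + D.v (n' - n)) := by
      intro x n'
      unfold Curve.v
      rw [sub_eq_add_neg n' n, vec_add, vec_neg]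
      abel
    refine ⟨?_, fun f hf => ?_, fun j n' hz => ?_, fun j n' hz => ?_⟩
    · have h5 : ContDiffAt ℝ ∞ m (z + D.v n - D.v n) := by rwa [add_sub_cancel_right]
      have h6 : ContDiffAt ℝ ∞ (fun w : E => w - D.v n) (z + D.v n) :=
        contDiffAt_id.sub contDiffAt_const
      exact ContDiffAt.comp (z + D.v n) h5 h6
    · have h5 := h2 _ (Jx3_gr hf)
      have h6 : Tendsto (fun w : E => w - D.v n) (𝓝 (z + D.v n)) (𝓝 z) := by
        have h7 : Tendsto (fun w : E => w - D.v n) (𝓝 (z + D.v n)) (𝓝 (z + D.v n - D.v n)) :=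
          (continuous_id.sub continuous_const).tendsto (z + D.v n)
        rwa [add_sub_cancel_right] at h7
      filter_upwards [h6.eventually h5] with w hw
      rw [hw, (Jx3_shift f _ _ _).1, (Jx3_shift f _ _ _).2]
      have h7 : (w - D.v n).1 + (D.v n).1 = w.1 := by
        rw [Prod.fst_sub, sub_add_cancel]
      have h8 : ν (w - D.v n).1 = ν w.1 := by
        rw [← hνp n, h7]
      rw [h7, h8]
    · show m (z + D.v n - D.v n) = 0
      rw [add_sub_cancel_right]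
      rw [hvv] at hz
      exact h3 j _ hz
    · show m (z + D.v n - D.v n) = 0
      rw [add_sub_cancel_right]
      rw [hvv] at hz
      exact h4 j _ hz
  · -- convex combinations
    intro z s ρ m hρ hsum hT
    refine ⟨?_, fun f hf => ?_, fun j n hz => ?_, fun j n hz => ?_⟩
    · refine ContDiffAt.sum fun i hi => ?_
      have h1 : ContDiffAt ℝ ∞ (fun w => (ρ i w : ℂ)) z :=
        Complex.ofRealCLM.contDiff.contDiffAt.comp z (hρ i hi).contDiffAt
      exact h1.mul (hT i hi).1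
    · have h1 : ∀ᶠ w in 𝓝 z, ∀ i ∈ s, m i w = dbar f w.1 - ν w.1 * del f w.1 :=
        (Filter.eventually_all_finset s).2 fun i hi => (hT i hi).2.1 f hf
      filter_upwards [h1, hsum] with w hw hw'
      rw [Finset.sum_congr rfl fun i hi => by rw [hw i hi], ← Finset.sum_mul, ← Complex.ofReal_sum,
        hw', Complex.ofReal_one, one_mul]
    · exact Finset.sum_eq_zero fun i hi => by rw [(hT i hi).2.2.1 j n hz, mul_zero]
    · exact Finset.sum_eq_zero fun i hi => by rw [(hT i hi).2.2.2 j n hz, mul_zero]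
  · -- local solutions
    intro z
    by_cases hb : ∃ j n, z = D.b j + D.v n
    · obtain ⟨j, n, rfl⟩ := hb
      refine ⟨D.r, hr, fun _ => 0, fun w hw => hloc_b w j n ?_⟩
      rwa [Metric.mem_ball, dist_eq_norm] at hw
    by_cases hc : ∃ j n, z = D.c j + D.v n
    · obtain ⟨j, n, rfl⟩ := hc
      refine ⟨D.r, hr, fun _ => 0, fun w hw => hloc_c w j n ?_⟩
      rwa [Metric.mem_ball, dist_eq_norm] at hw
    have hb' : ∀ j n, z ≠ D.b j + D.v n := fun j n h => hb ⟨j, n, h⟩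
    have hc' : ∀ j n, z ≠ D.c j + D.v n := fun j n h => hc ⟨j, n, h⟩
    by_cases hz : z ∈ D.C
    swap
    · obtain ⟨δ, hδ, hball⟩ := Metric.isOpen_iff.1 D.closed.isOpen_compl z hz
      exact ⟨δ, hδ, fun _ => 0, fun w hw => Jx3_zero fun f hf => absurd hf.mem (hball hw)⟩
    obtain ⟨f, hfs, hfv, hfg⟩ := D.reg z hz hc' hb'
    have hGr : D.Gr z f := ⟨hz, hb', hc', hfs, hfv, hfg⟩
    obtain ⟨δ₁, hδ₁, hsm, huniq⟩ := Jx3_graph hGr
    have hlin : ∀ {q : ℂ → Prop}, (∀ᶠ x in 𝓝 z.1, q x) → ∃ δ > 0, ∀ w ∈ Metric.ball z δ, q w.1 := by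
      intro q hq
      have h2 : Tendsto (fun x : E => x.1) (𝓝 z) (𝓝 z.1) := continuousAt_fst
      exact Metric.eventually_nhds_iff_ball.1 (h2.eventually hq)
    obtain ⟨δ₂, hδ₂, hb2⟩ : ∃ δ > 0, ∀ w ∈ Metric.ball z δ, ∀ j n, ‖z - (D.b j + D.v n)‖ < 2 * D.r →
        dbar f w.1 = νb j * del f w.1 := by
      by_cases h : ∃ j n, ‖z - (D.b j + D.v n)‖ < 2 * D.r
      · obtain ⟨j, n, hjn⟩ := h
        obtain ⟨δ, hδ, h1⟩ := hlin (dbar_br hGr hjn (hA j))
        refine ⟨δ, hδ, fun w hw j' n' h2 => ?_⟩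
        obtain ⟨h3, -⟩ := D.special_unique_b h2 hjn
        rw [h3]
        exact h1 w hw
      · exact ⟨1, one_pos, fun w _ j n h2 => absurd ⟨j, n, h2⟩ h⟩
    obtain ⟨δ₃, hδ₃, hc2⟩ : ∃ δ > 0, ∀ w ∈ Metric.ball z δ, ∀ j n, ‖z - (D.c j + D.v n)‖ < 2 * D.r →
        dbar f w.1 = 0 := by
      by_cases h : ∃ j n, ‖z - (D.c j + D.v n)‖ < 2 * D.r
      · obtain ⟨j, n, hjn⟩ := h
        obtain ⟨δ, hδ, h1⟩ := hlin (dbar_cl hGr hjn)
        exact ⟨δ, hδ, fun w hw _ _ _ => h1 w hw⟩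
      · exact ⟨1, one_pos, fun w _ j n h2 => absurd ⟨j, n, h2⟩ h⟩
    refine ⟨min (min δ₁ D.r) (min δ₂ δ₃), lt_min (lt_min hδ₁ hr) (lt_min hδ₂ hδ₃),
      fun w => dbar f w.1 - ν w.1 * del f w.1, fun w hw => ?_⟩
    have hw1 : w ∈ Metric.ball z δ₁ :=
      Metric.ball_subset_ball ((min_le_left _ _).trans (min_le_left _ _)) hw
    have hwr : w ∈ Metric.ball z D.r :=
      Metric.ball_subset_ball ((min_le_left _ _).trans (min_le_right _ _)) hw
    have hw2 : w ∈ Metric.ball z δ₂ :=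
      Metric.ball_subset_ball ((min_le_right _ _).trans (min_le_left _ _)) hw
    have hw3 : w ∈ Metric.ball z δ₃ :=
      Metric.ball_subset_ball ((min_le_right _ _).trans (min_le_right _ _)) hw
    have hclose : ∀ x : E, ‖w - x‖ < D.r → ‖z - x‖ < 2 * D.r := by
      intro x hx
      rw [Metric.mem_ball', dist_eq_norm] at hwr
      have h1 : z - x = (z - w) + (w - x) := by abel
      rw [h1]
      refine lt_of_le_of_lt (norm_add_le _ _) ?_
      linarith
    refine ⟨?_, fun f' hf' => ?_, fun j n hz' => ?_, fun j n hz' => ?_⟩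
    · have h1 : ContDiffAt ℝ ∞ (fun x : E => dbar f x.1) w :=
        ContDiffAt.comp w (Jx3_cont_dbar (hsm w hw1)) contDiffAt_fst
      have h2 : ContDiffAt ℝ ∞ (fun x : E => del f x.1) w :=
        ContDiffAt.comp w (Jx3_cont_del (hsm w hw1)) contDiffAt_fst
      have h3 : ContDiffAt ℝ ∞ (fun x : E => ν x.1) w :=
        ContDiffAt.comp w hνs.contDiffAt contDiffAt_fst
      exact h1.sub (h3.mul h2)
    · have h1 := Jx3_congr (huniq w hw1 f' hf')
      have h2 : Tendsto (fun x : E => x.1) (𝓝 w) (𝓝 w.1) := continuousAt_fst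
      filter_upwards [h2.eventually h1] with x hx
      rw [hx.1, hx.2]
    · have h1 : ‖w.1 - (D.b j + D.v n).1‖ < D.r :=
        lt_of_le_of_lt (norm_fst_le (w - (D.b j + D.v n))) hz'
      show dbar f w.1 - ν w.1 * del f w.1 = 0
      rw [hb2 w hw2 j n (hclose _ hz'), hνb j n w.1 h1, sub_self]
    · have h1 : ‖w.1 - (D.c j + D.v n).1‖ < D.r :=
        lt_of_le_of_lt (norm_fst_le (w - (D.c j + D.v n))) hz'
      show dbar f w.1 - ν w.1 * del f w.1 = 0
      rw [hc2 w hw3 j n (hclose _ hz'), hνc j n w.1 h1, zero_mul, sub_self]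

end Pool.Agent.Helper67.SY
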