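import Pool.Agent.Helper67.SY.Cv
import Pool.Agent.Helper42.SA.Df

/-!
# Project SY (MP_872606_gt), block M: from `Multisection` (helper42) to `Curve`
-/

open Complex Filter Topology
open scoped ContDiff

namespace Pool.Agent.Helper67.SY

open Pool.Agent.Helper42.SA

/-- Near `z` the set `C` is the graph of a smooth function. -/
def Germ (C : Set E) (z : E) : Prop :=
  ∃ f : ℂ → ℂ, ContDiffAt ℝ ∞ f z.1 ∧ f z.1 = z.2 ∧ ∀ᶠ w in 𝓝 z, (w ∈ C ↔ w.2 = f w.1)

/-- A nonzero element of the lattice `M (ℤ + i ℤ)` has norm at least `1`. -/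
theorem lat_norm {M : ℕ} (hM : 0 < M) {m : ℂ} (hm : m ∈ lat M M) (h : ‖m‖ < 1) : m = 0 := by
  obtain ⟨a, b, rfl⟩ := hm
  have key : ∀ k : ℤ, |(k : ℝ) * M| < 1 → k = 0 := by
    intro k hk
    by_contra hne
    have h1 : (1 : ℝ) ≤ |(k : ℝ)| := by exact_mod_cast Int.one_le_abs hne
    have h2 : (1 : ℝ) ≤ M := by exact_mod_cast hM
    rw [abs_mul, abs_of_nonneg (by positivity : (0 : ℝ) ≤ (M : ℝ))] at hk
    nlinarith
  have ha := key a ((abs_re_le_norm _).trans_lt h)
  have hb := key b ((abs_im_le_norm _).trans_lt h)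
  rw [ha, hb]
  apply Complex.ext <;> simp

/-- `lat M M` is closed. -/
theorem lat_closed (M : ℕ) : IsClosed (lat M M : Set ℂ) := by
  rcases Nat.eq_zero_or_pos M with rfl | hM
  · refine Set.Subsingleton.isClosed ?_
    rintro _ ⟨a, b, rfl⟩ _ ⟨a', b', rfl⟩
    apply Complex.ext <;> simp
  · refine Metric.isClosed_of_pairwise_le_dist one_pos fun u hu v hv huv => ?_
    by_contra hlt
    rw [not_le, dist_eq_norm] at hlt
    exact huv (sub_eq_zero.1 (lat_norm hM ((lat M M).sub_mem hu hv) hlt))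

/-- If `y - f i x = l ∈ Λ`, then near `(x, y)` the set `C` is the graph of `f i + l`: for `(x', y')` near `(x, y)` in `C`
one has `y' - f j x' ∈ Λ` for some `j`; if `j = i` then `y' - f i x' - l` is a small element of `Λ`, so `0`; for the
others `f i x + l - f j x` is not in the closed set `Λ`. -/
theorem germ_of_regularAt {M : ℕ} (hM : 0 < M) {K : ℝ} {n : ℕ} {C : Set E} {x : ℂ} (h : RegularAt (lat M M) K n C x)
    {y : ℂ} (hy : (x, y) ∈ C) : Germ C (x, y) := by
  obtain ⟨U, hU, hxU, f, hf, hC⟩ := h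
  obtain ⟨i, hi⟩ := (hC x hxU y).1 hy
  have hUx : U ∈ 𝓝 x := hU.mem_nhds hxU
  have hfc : ∀ j, ContDiffAt ℝ ∞ (f j) x := fun j => (hf.smooth j).contDiffAt hUx
  have hφ : ∀ j, ContinuousAt (fun w : E => w.2 - f j w.1) (x, y) := fun j =>
    continuousAt_snd.sub (ContinuousAt.comp (x := ((x, y) : E)) (hfc j).continuousAt
      continuousAt_fst)
  refine ⟨fun t => f i t + (y - f i x), (hfc i).add contDiffAt_const, by simp, ?_⟩
  have h1 : ∀ᶠ w in 𝓝 ((x, y) : E), w.1 ∈ U := continuousAt_fst.eventually hUx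
  have h2 : ∀ᶠ w in 𝓝 ((x, y) : E), ∀ j, j ≠ i → w.2 - f j w.1 ∉ lat M M := by
    rw [eventually_all]
    intro j
    by_cases hji : j = i
    · exact Eventually.of_forall fun w hw => absurd hji hw
    · have h3 : y - f j x ∈ ((lat M M : Set ℂ))ᶜ := by
        intro h4
        refine hji (hf.disj i j x hxU ?_).symm
        have h5 : f i x - f j x = (y - f j x) - (y - f i x) := by ring
        rw [h5]
        exact (lat M M).sub_mem h4 hi
      filter_upwards [(hφ j).eventually ((lat_closed M).isOpen_compl.mem_nhds h3)] with w hw _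
      exact hw
  have h3 : ∀ᶠ w in 𝓝 ((x, y) : E), ‖(w.2 - f i w.1) - (y - f i x)‖ < 1 := by
    have h4 := ((hφ i).sub (continuousAt_const (y := y - f i x))).norm
    have h5 : ‖(((x, y) : E).2 - f i ((x, y) : E).1) - (y - f i x)‖ < 1 := by simp
    exact h4.eventually (Iio_mem_nhds h5)
  filter_upwards [h1, h2, h3] with w hw1 hw2 hw3
  rw [show (w ∈ C ↔ _) from hC w.1 hw1 w.2]
  constructor
  · rintro ⟨j, hj⟩
    have hji : j = i := by
      by_contra hne
      exact hw2 j hne hj
    rw [hji] at hj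
    have h6 := lat_norm hM ((lat M M).sub_mem hj hi) hw3
    linear_combination h6
  · intro hw
    exact ⟨i, by rw [hw, add_sub_cancel_left]; exact hi⟩

end Pool.Agent.Helper67.SY
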