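import Pool.Agent.Helper67.SY.Ms1

/-!
# Project SY (MP_872606_gt), block M: from `Multisection` (helper42) to `Curve`
-/

open Complex Filter Topology
open scoped ContDiff

namespace Pool.Agent.Helper67.SY

open Pool.Agent.Helper42.SA

/-- As `germ_of_regularAt`. Near `(c, y₀)`: a point `(x, y) ∈ C` with `y - (y₀ + a i (x - c)) ∈ Λ` has
`y = y₀ + a i (x - c)` (`lat_norm`), and `y - g j x ∈ Λ` is impossible since `y₀ - g j c` is not in the closed set `Λ`.
A point `(c, y)` of `C` with `y - y₀ ∉ Λ` has `y - g j c ∈ Λ`, and near it the lines and the other graphs are away. -/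
theorem of_clusterAt {M : ℕ} (hM : 0 < M) {K : ℝ} {n : ℕ} {C : Set E} {c : ℂ} (h : ClusterAt (lat M M) K n 6 C c) :
    ∃ (y₀ : ℂ) (a : Fin 6 → ℂ), Function.Injective a ∧
      (∃ ρ > 0, ∀ z, ‖z - (c, y₀)‖ < ρ → (z ∈ C ↔ clEqn (c, y₀) a z = 0)) ∧
      ∀ y, (c, y) ∈ C → y - y₀ ∈ lat M M ∨ Germ C (c, y) := by
  obtain ⟨U, hU, hc, y₀, a, g, ha, hg, _, h2, hC⟩ := h
  have hop : IsOpen ((lat M M : Set ℂ)ᶜ) := (lat_closed M).isOpen_compl
  have hgc : ∀ j, ContDiffAt ℝ ∞ (g j) c := fun j => (hg.smooth j).contDiffAt (hU.mem_nhds hc)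
  have evU : ∀ y : ℂ, ∀ᶠ w : E in 𝓝 ((c, y) : E), w.1 ∈ U := fun y =>
    continuousAt_fst.preimage_mem_nhds (hU.mem_nhds hc)
  have cg : ∀ (y : ℂ) (j), ContinuousAt (fun w : E => w.2 - g j w.1) ((c, y) : E) := by
    intro y j
    have h3 : ContinuousAt (g j) ((c, y) : E).1 := (hgc j).continuousAt
    exact continuousAt_snd.sub (h3.comp (f := fun w : E => w.1) continuousAt_fst)
  have cl : ∀ (y : ℂ) (i), ContinuousAt (fun w : E => w.2 - (y₀ + a i * (w.1 - c))) ((c, y) : E) := by
    intro y i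
    apply Continuous.continuousAt
    fun_prop
  have evg : ∀ (y : ℂ) (j), y - g j c ∉ lat M M →
      ∀ᶠ w : E in 𝓝 ((c, y) : E), w.2 - g j w.1 ∉ lat M M := fun y j hy =>
    (cg y j).preimage_mem_nhds (hop.mem_nhds hy)
  have evl : ∀ (y : ℂ) (i), y - y₀ ∉ lat M M →
      ∀ᶠ w : E in 𝓝 ((c, y) : E), w.2 - (y₀ + a i * (w.1 - c)) ∉ lat M M := by
    intro y i hy
    refine (cl y i).preimage_mem_nhds (hop.mem_nhds ?_)
    show y - (y₀ + a i * (c - c)) ∉ lat M M
    rw [sub_self, mul_zero, add_zero]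
    exact hy
  refine ⟨y₀, a, ha, ?_, ?_⟩
  · have ev1 : ∀ᶠ w : E in 𝓝 ((c, y₀) : E), ∀ i, ‖w.2 - (y₀ + a i * (w.1 - c))‖ < 1 := by
      rw [Filter.eventually_all]
      intro i
      have h3 := (cl y₀ i).norm
      refine h3.eventually_lt continuousAt_const ?_
      show ‖y₀ - (y₀ + a i * (c - c))‖ < 1
      rw [sub_self, mul_zero, add_zero, sub_self, norm_zero]
      exact one_pos
    have ev2 : ∀ᶠ w : E in 𝓝 ((c, y₀) : E), ∀ j, w.2 - g j w.1 ∉ lat M M := by
      rw [Filter.eventually_all]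
      intro j
      refine evg y₀ j ?_
      have h3 := h2 c hc 0 j
      rwa [sub_self, mul_zero, add_zero] at h3
    have ev : ∀ᶠ w : E in 𝓝 ((c, y₀) : E), (w ∈ C ↔ clEqn (c, y₀) a w = 0) := by
      filter_upwards [evU y₀, ev1, ev2] with w h3 h4 h5
      have h6 : w ∈ C ↔ ∃ i, w.2 - (y₀ + a i * (w.1 - c)) ∈ lat M M := by
        have h7 := hC w.1 h3 w.2
        rw [Prod.mk.eta] at h7
        rw [h7]
        constructor
        · rintro (h8 | ⟨j, hj⟩)
          · exact h8
          · exact absurd hj (h5 j)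
        · exact Or.inl
      rw [h6]
      unfold clEqn
      rw [Finset.prod_eq_zero_iff]
      constructor
      · rintro ⟨i, hi⟩
        have h7 := lat_norm hM hi (h4 i)
        exact ⟨i, Finset.mem_univ i, by rw [← h7]; ring⟩
      · rintro ⟨i, -, hi⟩
        refine ⟨i, ?_⟩
        have h7 : w.2 - (y₀ + a i * (w.1 - c)) = 0 := by
          rw [← hi]
          ring
        rw [h7]
        exact (lat M M).zero_mem
    obtain ⟨ρ, hρ, h3⟩ := Metric.eventually_nhds_iff.1 ev
    refine ⟨ρ, hρ, fun z hz => h3 ?_⟩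
    rw [dist_eq_norm]
    exact hz
  · intro y hy
    by_cases hy0 : y - y₀ ∈ lat M M
    · exact Or.inl hy0
    refine Or.inr ?_
    rcases (hC c hc y).1 hy with ⟨i, hi⟩ | ⟨j, hj⟩
    · rw [sub_self, mul_zero, add_zero] at hi
      exact absurd hi hy0
    refine ⟨fun x => g j x + (y - g j c), (hgc j).add contDiffAt_const, ?_, ?_⟩
    · show g j c + (y - g j c) = y
      ring
    have ev1 : ∀ᶠ w : E in 𝓝 ((c, y) : E), ∀ i, w.2 - (y₀ + a i * (w.1 - c)) ∉ lat M M := by
      rw [Filter.eventually_all]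
      exact fun i => evl y i hy0
    have ev2 : ∀ᶠ w : E in 𝓝 ((c, y) : E), ∀ k, k ≠ j → w.2 - g k w.1 ∉ lat M M := by
      rw [Filter.eventually_all]
      intro k
      by_cases hk : k = j
      · exact Filter.Eventually.of_forall fun w h3 => absurd hk h3
      · have h3 : y - g k c ∉ lat M M := by
          intro h4
          have h5 := (lat M M).sub_mem h4 hj
          have h6 : y - g k c - (y - g j c) = g j c - g k c := by ring
          rw [h6] at h5
          exact hk (hg.disj j k c hc h5).symm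
        filter_upwards [evg y k h3] with w h4 _
        exact h4
    have ev3 : ∀ᶠ w : E in 𝓝 ((c, y) : E), ‖w.2 - g j w.1 - (y - g j c)‖ < 1 := by
      have h3 : ContinuousAt (fun w : E => ‖w.2 - g j w.1 - (y - g j c)‖) ((c, y) : E) :=
        ((cg y j).sub continuousAt_const).norm
      refine h3.eventually_lt continuousAt_const ?_
      show ‖y - g j c - (y - g j c)‖ < 1
      rw [sub_self, norm_zero]
      exact one_pos
    filter_upwards [evU y, ev1, ev2, ev3] with w h3 h4 h5 h6
    have h7 := hC w.1 h3 w.2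
    rw [Prod.mk.eta] at h7
    rw [h7]
    constructor
    · rintro (⟨i, hi⟩ | ⟨k, hk⟩)
      · exact absurd hi (h4 i)
      · have hkj : k = j := by
          by_contra h8
          exact h5 k h8 hk
        subst hkj
        have h8 := lat_norm hM ((lat M M).sub_mem hk hj) h6
        show w.2 = g k w.1 + (y - g k c)
        linear_combination h8
    · intro h8
      refine Or.inr ⟨j, ?_⟩
      have h9 : w.2 - g j w.1 = y - g j c := by
        rw [h8]
        ring
      rw [h9]
      exact hj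

end Pool.Agent.Helper67.SY
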