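import Pool.Agent.Helper67.SY.Ms1

/-!
# Project SY (MP_872606_gt), block M: from `Multisection` (helper42) to `Curve`
-/

open Complex Filter Topology
open scoped ContDiff

namespace Pool.Agent.Helper67.SY

open Pool.Agent.Helper42.SA

/-- As `germ_of_regularAt`. Near `(b, y₀)`: a point `(x, y) ∈ C` with `z ^ 2 = A (x - b)`, `y - (y₀ + z) ∈ Λ` has `z` small
(since `A (x - b)` is small), so `y = y₀ + z` (`lat_norm`), and `y - g j x ∈ Λ` is impossible since `y₀ - g j b` is not in
the closed set `Λ`. A point `(b, y)` of `C` with `y - y₀ ∉ Λ` has `y - g j b ∈ Λ`, and near it the branching sheet and the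
other graphs are away. -/
theorem of_branchAt {M : ℕ} (hM : 0 < M) {K : ℝ} {n : ℕ} {C : Set E} {b : ℂ} (h : BranchAt (lat M M) K n C b) :
    ∃ (y₀ : ℂ) (A : ℂ →L[ℝ] ℂ), 0 < A.det ∧
      (∃ ρ > 0, ∀ z, ‖z - (b, y₀)‖ < ρ → (z ∈ C ↔ brEqn (b, y₀) A z = 0)) ∧
      ∀ y, (b, y) ∈ C → y - y₀ ∈ lat M M ∨ Germ C (b, y) := by
  obtain ⟨U, hU, hbU, y₀, A, g, hA, hS, hz, hC⟩ := h
  have hcl := lat_closed M
  have hg : ∀ j, ContDiffAt ℝ ∞ (g j) b := fun j => (hS.smooth j).contDiffAt (hU.mem_nhds hbU)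
  have hev : ∀ (k : Fin (n - 2)) (y : ℂ), y - g k b ∉ lat M M →
      ∀ᶠ w : E in 𝓝 (b, y), w.2 - g k w.1 ∉ lat M M := by
    intro k y hk
    have h1 : ContinuousAt (fun w : E => g k w.1) (b, y) :=
      ContinuousAt.comp (f := fun w : E => w.1) (g := g k) (x := (b, y)) (hg k).continuousAt
        continuousAt_fst
    have hc : ContinuousAt (fun w : E => w.2 - g k w.1) (b, y) := continuousAt_snd.sub h1
    exact hc.preimage_mem_nhds (hcl.isOpen_compl.mem_nhds hk)
  have hUev : ∀ y : ℂ, ∀ᶠ w : E in 𝓝 (b, y), w.1 ∈ U := fun y =>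
    (continuousAt_fst (p := ((b, y) : E))).preimage_mem_nhds (hU.mem_nhds hbU)
  have hsm : ∀ (y : ℂ) (ε : ℝ), 0 < ε →
      ∀ᶠ w : E in 𝓝 (b, y), ‖A (w.1 - b)‖ < ε ^ 2 ∧ ‖w.2 - y‖ < ε := by
    intro y ε hε
    have c1 : Continuous fun w : E => ‖A (w.1 - b)‖ :=
      (A.continuous.comp (continuous_fst.sub continuous_const)).norm
    have c2 : Continuous fun w : E => ‖w.2 - y‖ := (continuous_snd.sub continuous_const).norm
    have e1 : ‖A (((b, y) : E).1 - b)‖ < ε ^ 2 := by
      have : A (b - b) = 0 := by rw [sub_self, map_zero]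
      change ‖A (b - b)‖ < ε ^ 2
      rw [this, norm_zero]; positivity
    have e2 : ‖((b, y) : E).2 - y‖ < ε := by
      change ‖y - y‖ < ε
      rw [sub_self, norm_zero]; exact hε
    exact (c1.continuousAt.eventually (gt_mem_nhds e1)).and
      (c2.continuousAt.eventually (gt_mem_nhds e2))
  have hzn : ∀ (ε : ℝ) (z v : ℂ), 0 < ε → z ^ 2 = v → ‖v‖ < ε ^ 2 → ‖z‖ < ε := by
    intro ε z v hε h1 h2
    rw [← h1, norm_pow] at h2
    exact lt_of_pow_lt_pow_left₀ 2 hε.le h2
  have h00 : (0 : ℂ) ^ 2 = A (b - b) := by rw [sub_self, map_zero]; ring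
  have hne : ∀ j, y₀ - g j b ∉ lat M M := by
    intro j
    have := (hz b hbU 0 h00).2 j
    rwa [add_zero] at this
  refine ⟨y₀, A, hA, ?_, ?_⟩
  · have h1 : ∀ᶠ w : E in 𝓝 (b, y₀), ((w ∈ C) ↔ brEqn (b, y₀) A w = 0) := by
      have h2 : ∀ᶠ w : E in 𝓝 (b, y₀), ∀ j, w.2 - g j w.1 ∉ lat M M :=
        eventually_all.2 fun j => hev j y₀ (hne j)
      filter_upwards [h2, hUev y₀, hsm y₀ (1 / 2) (by norm_num)] with w hw1 hw2 hw3
      have hw4 := hC w.1 hw2 w.2
      change ((w.1, w.2) ∈ C) ↔ (w.2 - y₀) ^ 2 - A (w.1 - b) = 0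
      rw [hw4]
      constructor
      · rintro (⟨z, hz1, hz2⟩ | ⟨j, hj⟩)
        · have hz3 := hzn (1 / 2) z _ (by norm_num) hz1 hw3.1
          have hz4 : ‖w.2 - (y₀ + z)‖ < 1 := by
            have e : w.2 - (y₀ + z) = (w.2 - y₀) - z := by ring
            rw [e]
            refine lt_of_le_of_lt (norm_sub_le _ _) ?_
            linarith [hw3.2]
          have hz5 := lat_norm hM hz2 hz4
          have hz6 : w.2 - y₀ = z := by linear_combination hz5
          rw [hz6, hz1, sub_self]
        · exact absurd hj (hw1 j)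
      · intro h3
        refine Or.inl ⟨w.2 - y₀, sub_eq_zero.1 h3, ?_⟩
        have e : w.2 - (y₀ + (w.2 - y₀)) = 0 := by ring
        rw [e]
        exact (lat M M).zero_mem
    obtain ⟨ρ, hρ, h2⟩ := Metric.eventually_nhds_iff.1 h1
    exact ⟨ρ, hρ, fun z hz => h2 (by rwa [dist_eq_norm])⟩
  · intro y hy
    rcases (hC b hbU y).1 hy with ⟨z, hz1, hz2⟩ | ⟨j, hj⟩
    · left
      have h1 : z = 0 := by
        rw [sub_self, map_zero] at hz1
        exact pow_eq_zero_iff (two_ne_zero) |>.1 hz1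
      rwa [h1, add_zero] at hz2
    · right
      obtain ⟨l, hl⟩ : ∃ l, l = y - g j b := ⟨_, rfl⟩
      rw [← hl] at hj
      refine ⟨fun x => g j x + l, (hg j).add contDiffAt_const, ?_, ?_⟩
      · change g j b + l = y
        rw [hl]; ring
      have hy0 : y - y₀ ∉ lat M M := by
        intro h1
        refine hne j ?_
        have e : y₀ - g j b = -(y - y₀) + l := by rw [hl]; ring
        rw [e]
        exact (lat M M).add_mem ((lat M M).neg_mem h1) hj
      have hk : ∀ k, k ≠ j → y - g k b ∉ lat M M := by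
        intro k hkj h1
        refine hkj (hS.disj j k b hbU ?_).symm
        have e : g j b - g k b = (y - g k b) - l := by rw [hl]; ring
        rw [e]
        exact (lat M M).sub_mem h1 hj
      obtain ⟨ε, hε, hball⟩ := Metric.isOpen_iff.1 hcl.isOpen_compl (y - y₀) hy0
      have h2 : ∀ᶠ w : E in 𝓝 (b, y), ∀ k, k ≠ j → w.2 - g k w.1 ∉ lat M M :=
        eventually_all.2 fun k => by
          by_cases hkj : k = j
          · exact Eventually.of_forall fun w h => absurd hkj h
          · filter_upwards [hev k y (hk k hkj)] with w hw _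
            exact hw
      have h3 : ∀ᶠ w : E in 𝓝 (b, y), ‖w.2 - g j w.1 - l‖ < 1 := by
        have c1 : ContinuousAt (fun w : E => g j w.1) (b, y) :=
          ContinuousAt.comp (f := fun w : E => w.1) (g := g j) (x := (b, y)) (hg j).continuousAt
            continuousAt_fst
        have c2 : ContinuousAt (fun w : E => ‖w.2 - g j w.1 - l‖) (b, y) :=
          ((continuousAt_snd.sub c1).sub continuousAt_const).norm
        refine c2.eventually (gt_mem_nhds ?_)
        change ‖y - g j b - l‖ < 1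
        rw [← hl, sub_self, norm_zero]
        norm_num
      filter_upwards [h2, h3, hUev y, hsm y (ε / 2) (by positivity)] with w hw1 hw2 hw3 hw4
      have hw5 := hC w.1 hw3 w.2
      change ((w.1, w.2) ∈ C) ↔ w.2 = g j w.1 + l
      rw [hw5]
      constructor
      · rintro (⟨z, hz1, hz2⟩ | ⟨k, hk1⟩)
        · exfalso
          have hz3 := hzn (ε / 2) z _ (by positivity) hz1 hw4.1
          refine hball ?_ hz2
          rw [Metric.mem_ball, dist_eq_norm]
          have e : w.2 - (y₀ + z) - (y - y₀) = (w.2 - y) - z := by ring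
          rw [e]
          refine lt_of_le_of_lt (norm_sub_le _ _) ?_
          linarith [hw4.2]
        · by_cases hkj : k = j
          · subst hkj
            have h5 := lat_norm hM ((lat M M).sub_mem hk1 hj) hw2
            linear_combination h5
          · exact absurd hk1 (hw1 k hkj)
      · intro h5
        refine Or.inr ⟨j, ?_⟩
        have e : w.2 - g j w.1 = l := by rw [h5]; ring
        rw [e]
        exact hj

end Pool.Agent.Helper67.SY
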