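import Pool.Agent.Helper67.SY.Ms1

/-!
# Project SY (MP_872606_gt), block M: from `Multisection` (helper42) to `Curve`
-/

open Complex Filter Topology
open scoped ContDiff

namespace Pool.Agent.Helper67.SY

open Pool.Agent.Helper42.SA

private theorem Ms4_graph {M : ℕ} {U : Set ℂ} (hU : IsOpen U) {n : ℕ} {f : Fin n → ℂ → ℂ}
    (hf : ∀ i, ContinuousOn (f i) U) {x y : ℂ} (hx : x ∈ U) (h : ∀ i, y - f i x ∉ lat M M) :
    ∀ᶠ w in 𝓝 ((x, y) : E), w.1 ∈ U ∧ ∀ i, w.2 - f i w.1 ∉ lat M M := by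
  have hUx : U ∈ 𝓝 x := hU.mem_nhds hx
  have h1 : ∀ᶠ w in 𝓝 ((x, y) : E), w.1 ∈ U := continuousAt_fst.eventually hUx
  refine h1.and ?_
  rw [eventually_all]
  intro i
  have hφ : ContinuousAt (fun w : E => w.2 - f i w.1) (x, y) :=
    continuousAt_snd.sub (ContinuousAt.comp (x := ((x, y) : E)) ((hf i).continuousAt hUx)
      continuousAt_fst)
  exact hφ.eventually ((lat_closed M).isOpen_compl.mem_nhds (h i))

private theorem Ms4_sheets {M : ℕ} {K : ℝ} {U : Set ℂ} (hU : IsOpen U) {n : ℕ} {f : Fin n → ℂ → ℂ}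
    (hf : Sheets (lat M M) K U f) {x y : ℂ} (hx : x ∈ U) (h : ∀ i, y - f i x ∉ lat M M) :
    ∀ᶠ w in 𝓝 ((x, y) : E), w.1 ∈ U ∧ ∀ i, w.2 - f i w.1 ∉ lat M M :=
  Ms4_graph hU (fun i => (hf.smooth i).continuousOn) hx h

private theorem Ms4_regular {M : ℕ} {K : ℝ} {n : ℕ} {C : Set E} {x : ℂ}
    (h : RegularAt (lat M M) K n C x) {y : ℂ} (hy : (x, y) ∉ C) :
    ∀ᶠ w in 𝓝 ((x, y) : E), w ∉ C := by
  obtain ⟨U, hU, hxU, f, hf, hC⟩ := h
  have h0 : ∀ i, y - f i x ∉ lat M M := fun i hi => hy ((hC x hxU y).2 ⟨i, hi⟩)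
  filter_upwards [Ms4_sheets hU hf hxU h0] with w hw hwC
  obtain ⟨i, hi⟩ := (hC w.1 hw.1 w.2).1 hwC
  exact hw.2 i hi

private theorem Ms4_cluster {M : ℕ} {K : ℝ} {n r : ℕ} {C : Set E} {x : ℂ}
    (h : ClusterAt (lat M M) K n r C x) {y : ℂ} (hy : (x, y) ∉ C) :
    ∀ᶠ w in 𝓝 ((x, y) : E), w ∉ C := by
  obtain ⟨U, hU, hxU, y₀, a, g, -, hg, -, -, hC⟩ := h
  have h0 : ∀ i, y - g i x ∉ lat M M := fun i hi => hy ((hC x hxU y).2 (Or.inr ⟨i, hi⟩))
  have h1 : ∀ i, y - (fun t : ℂ => y₀ + a i * (t - x)) x ∉ lat M M :=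
    fun i hi => hy ((hC x hxU y).2 (Or.inl ⟨i, hi⟩))
  have h2 : ∀ i, ContinuousOn (fun t : ℂ => y₀ + a i * (t - x)) U := fun i =>
    Continuous.continuousOn (by fun_prop)
  filter_upwards [Ms4_sheets hU hg hxU h0, Ms4_graph hU h2 hxU h1] with w hw hw' hwC
  rcases (hC w.1 hw.1 w.2).1 hwC with ⟨i, hi⟩ | ⟨i, hi⟩
  · exact hw'.2 i hi
  · exact hw.2 i hi

private theorem Ms4_branch {M : ℕ} {K : ℝ} {n : ℕ} {C : Set E} {x : ℂ}
    (h : BranchAt (lat M M) K n C x) {y : ℂ} (hy : (x, y) ∉ C) :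
    ∀ᶠ w in 𝓝 ((x, y) : E), w ∉ C := by
  obtain ⟨U, hU, hxU, y₀, A, g, -, hg, -, hC⟩ := h
  have h0 : ∀ i, y - g i x ∉ lat M M := fun i hi => hy ((hC x hxU y).2 (Or.inr ⟨i, hi⟩))
  have h1 : y - y₀ ∉ lat M M := fun hi =>
    hy ((hC x hxU y).2 (Or.inl ⟨0, by simp, by simpa using hi⟩))
  obtain ⟨ε, hε, hball⟩ := Metric.isOpen_iff.1 (lat_closed M).isOpen_compl (y - y₀) h1
  have hA : ∀ᶠ w in 𝓝 ((x, y) : E), ‖A (w.1 - x)‖ < (ε / 2) ^ 2 := by
    have hc : Continuous fun w : E => ‖A (w.1 - x)‖ := by fun_prop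
    have h3 : ‖A (((x, y) : E).1 - x)‖ < (ε / 2) ^ 2 := by
      simp only [sub_self, map_zero, norm_zero]
      positivity
    exact hc.continuousAt.eventually (Iio_mem_nhds h3)
  have hy' : ∀ᶠ w in 𝓝 ((x, y) : E), ‖w.2 - y‖ < ε / 2 := by
    have hc : Continuous fun w : E => ‖w.2 - y‖ := by fun_prop
    have h3 : ‖((x, y) : E).2 - y‖ < ε / 2 := by
      simp only [sub_self, norm_zero]
      positivity
    exact hc.continuousAt.eventually (Iio_mem_nhds h3)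
  filter_upwards [Ms4_sheets hU hg hxU h0, hA, hy'] with w hw hwA hwy hwC
  rcases (hC w.1 hw.1 w.2).1 hwC with ⟨z, hz, hi⟩ | ⟨i, hi⟩
  · have hzn : ‖z‖ < ε / 2 := by
      rw [← hz, norm_pow] at hwA
      exact lt_of_pow_lt_pow_left₀ 2 (by positivity) hwA
    refine hball ?_ hi
    rw [Metric.mem_ball, dist_eq_norm]
    calc ‖w.2 - (y₀ + z) - (y - y₀)‖ = ‖(w.2 - y) - z‖ := by congr 1; ring
      _ ≤ ‖w.2 - y‖ + ‖z‖ := norm_sub_le _ _
      _ < ε := by linarith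
  · exact hw.2 i hi

/-- The limit of points `(x k, y k)` of `C` is in `C`. Let `x` be the limit of `x k`; up to a translation by `lat p q`
(`periodic`) `x` is one of the special points, or a regular point. Use the local description near the fibre over `x`:
for a subsequence `y k - f i (x k) ∈ Λ` with fixed `i`, and `Λ` is closed. At a branch point the numbers `z k` with
`z k ^ 2 = A (x k - b)` converge to `0`. -/
theorem multisection_closed {p q M n : ℕ} {K : ℝ} {C : Set E} {c₁ c₂ b₁ b₂ : ℂ}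
    (h : Multisection p q M K n 6 C c₁ c₂ b₁ b₂) : IsClosed C := by
  rw [← isOpen_compl_iff, isOpen_iff_eventually]
  rintro ⟨x, y⟩ hxy
  by_cases hx : ∀ s ∈ ({c₁, c₂, b₁, b₂} : Set ℂ), x - s ∉ lat p q
  · exact Ms4_regular (h.regular x hx) hxy
  push Not at hx
  obtain ⟨s, hs, hxs⟩ := hx
  have h0 : ∀ u v : ℂ, (u + (x - s), v) ∈ C ↔ (u, v) ∈ C := fun u v => by
    have h1 := h.periodic (x - s) hxs 0 (lat M M).zero_mem u v
    rwa [add_zero] at h1
  have hsy : (s, y) ∉ C := fun h1 => hxy (by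
    have h2 := (h0 s y).2 h1
    rwa [add_sub_cancel] at h2)
  have key : ∀ᶠ w in 𝓝 ((s, y) : E), w ∉ C := by
    simp only [Set.mem_insert_iff, Set.mem_singleton_iff] at hs
    rcases hs with rfl | rfl | rfl | rfl
    · exact Ms4_cluster (h.cluster _ (by simp)) hsy
    · exact Ms4_cluster (h.cluster _ (by simp)) hsy
    · exact Ms4_branch (h.branch _ (by simp)) hsy
    · exact Ms4_branch (h.branch _ (by simp)) hsy
  have hc : Tendsto (fun w : E => ((w.1 - (x - s), w.2) : E)) (𝓝 ((x, y) : E)) (𝓝 ((s, y) : E)) := by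
    have h1 : Continuous (fun w : E => ((w.1 - (x - s), w.2) : E)) := by fun_prop
    have h2 := h1.tendsto ((x, y) : E)
    rwa [show (((x, y) : E).1 - (x - s), ((x, y) : E).2) = ((s, y) : E) by simp] at h2
  filter_upwards [hc.eventually key] with w hw hwC
  refine hw ?_
  rw [← h0, sub_add_cancel]
  exact hwC

end Pool.Agent.Helper67.SY
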