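import Pool.Agent.Helper67.SY.Ms2
import Pool.Agent.Helper67.SY.Ms3
import Pool.Agent.Helper67.SY.Ms4

/-!
# Project SY (MP_872606_gt), block M: from `Multisection` (helper42) to `Curve`
-/

open Complex Filter Topology
open scoped ContDiff

namespace Pool.Agent.Helper67.SY

open Pool.Agent.Helper42.SA

private theorem Ms5_mem1 (p q M : ℕ) (n : Fin 4 → ℤ) : (vec p q M n).1 ∈ lat p q := ⟨n 0, n 1, rfl⟩

private theorem Ms5_mem2 (p q M : ℕ) (n : Fin 4 → ℤ) : (vec p q M n).2 ∈ lat M M := ⟨n 2, n 3, rfl⟩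

private theorem Ms5_ex {p q M : ℕ} {a m : ℂ} (ha : a ∈ lat p q) (hm : m ∈ lat M M) :
    ∃ n, vec p q M n = (a, m) := by
  obtain ⟨a0, a1, rfl⟩ := ha
  obtain ⟨m0, m1, rfl⟩ := hm
  exact ⟨![a0, a1, m0, m1], by unfold vec; simp⟩

private theorem Ms5_germ {C : Set E} {v w : E} (hper : ∀ z, z + v ∈ C ↔ z ∈ C) (h : Germ C w) : Germ C (w + v) := by
  obtain ⟨f, h1, h2, h3⟩ := h
  refine ⟨fun x => f (x - v.1) + v.2, ?_, ?_, ?_⟩
  · have h4 : ContDiffAt ℝ ∞ f ((w + v).1 - v.1) := by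
      have e : (w + v).1 - v.1 = w.1 := by simp
      rw [e]
      exact h1
    exact (ContDiffAt.comp (w + v).1 h4 (contDiffAt_id.sub contDiffAt_const)).add contDiffAt_const
  · simp [h2]
  · have h4 : Tendsto (fun z : E => z - v) (𝓝 (w + v)) (𝓝 w) := by
      have h5 : Continuous fun z : E => z - v := by fun_prop
      have h6 := h5.tendsto (w + v)
      rwa [add_sub_cancel_right] at h6
    filter_upwards [h4.eventually h3] with z hz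
    have h5 := hper (z - v)
    rw [sub_add_cancel] at h5
    rw [h5, hz]
    simp only [Prod.snd_sub, Prod.fst_sub]
    exact sub_eq_iff_eq_add

private theorem Ms5_small {p q : ℕ} (hp : 0 < p) (hq : 0 < q) {a b : ℤ}
    (h : ‖(⟨(a : ℝ) * p, (b : ℝ) * q⟩ : ℂ)‖ < 1) : a = 0 ∧ b = 0 := by
  have key : ∀ (k : ℤ) (P : ℕ), 0 < P → |(k : ℝ) * P| < 1 → k = 0 := by
    intro k P hP hk
    by_contra hne
    have h1 : (1 : ℝ) ≤ |(k : ℝ)| := by exact_mod_cast Int.one_le_abs hne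
    have h2 : (1 : ℝ) ≤ P := by exact_mod_cast hP
    rw [abs_mul, abs_of_nonneg (by positivity : (0 : ℝ) ≤ (P : ℝ))] at hk
    nlinarith
  exact ⟨key a p hp (lt_of_le_of_lt (Complex.abs_re_le_norm ⟨(a : ℝ) * p, (b : ℝ) * q⟩) h),
    key b q hq (lt_of_le_of_lt (Complex.abs_im_le_norm ⟨(a : ℝ) * p, (b : ℝ) * q⟩) h)⟩

private theorem Ms5_far {p q : ℕ} (hp : 0 < p) (hq : 0 < q) {d : ℂ} (hd : d ∉ lat p q) :
    ∃ δ > 0, ∀ a ∈ lat p q, δ ≤ ‖d - a‖ := by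
  by_cases h0 : ∃ a ∈ lat p q, ‖d - a‖ < 1 / 2
  · obtain ⟨a, ha, h1⟩ := h0
    have hpos : 0 < ‖d - a‖ := by
      rw [norm_pos_iff, sub_ne_zero]
      rintro rfl
      exact hd ha
    refine ⟨‖d - a‖, hpos, fun a' ha' => ?_⟩
    by_contra hlt
    rw [not_le] at hlt
    have h2 : ‖a - a'‖ < 1 := by
      calc ‖a - a'‖ = ‖(d - a') - (d - a)‖ := by congr 1; ring
        _ ≤ ‖d - a'‖ + ‖d - a‖ := norm_sub_le _ _
        _ < 1 := by linarith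
    have h3 := (lat p q).sub_mem ha ha'
    obtain ⟨x, y, h4⟩ := h3
    rw [h4] at h2
    obtain ⟨rfl, rfl⟩ := Ms5_small hp hq h2
    have h5 : a = a' := by
      rw [← sub_eq_zero, h4]
      apply Complex.ext <;> simp
    rw [h5] at hlt
    exact lt_irrefl _ hlt
  · push Not at h0
    exact ⟨1 / 2, by norm_num, h0⟩

/-- A multisection gives a `Curve`, with `c = ![(c₁, y₁), (c₂, y₂)]`, `b = ![(b₁, y₃), (b₂, y₄)]` from `of_clusterAt`,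
`of_branchAt`, and `r` small: `8 r < 1`, `2 r ≤` the four radii `ρ`, and `4 r` at most the distances of the classes
modulo `lat p q` of `c₁`, `c₂`, `b₁`, `b₂` (the lattice is discrete; the classes are different by `cc`, `bb`, `cb`).
`reg`: translate `z` so that `z.1` is one of the special points or apply `germ_of_regularAt`. -/
theorem exists_curve {p q M n : ℕ} {K : ℝ} {C : Set E} {c₁ c₂ b₁ b₂ : ℂ}
    (h : Multisection p q M K n 6 C c₁ c₂ b₁ b₂) : ∃ D : Curve, D.C = C := by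
  have hper : ∀ n z, z + vec p q M n ∈ C ↔ z ∈ C := fun n z =>
    h.periodic _ (Ms5_mem1 p q M n) _ (Ms5_mem2 p q M n) z.1 z.2
  obtain ⟨y₁, a₁, ia₁, ⟨ρ₁, hρ₁, cl₁⟩, al₁⟩ := of_clusterAt h.hM (h.cluster c₁ (by simp))
  obtain ⟨y₂, a₂, ia₂, ⟨ρ₂, hρ₂, cl₂⟩, al₂⟩ := of_clusterAt h.hM (h.cluster c₂ (by simp))
  obtain ⟨y₃, A₁, dA₁, ⟨ρ₃, hρ₃, cl₃⟩, al₃⟩ := of_branchAt h.hM (h.branch b₁ (by simp))
  obtain ⟨y₄, A₂, dA₂, ⟨ρ₄, hρ₄, cl₄⟩, al₄⟩ := of_branchAt h.hM (h.branch b₂ (by simp))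
  obtain ⟨δ₁, hδ₁, f₁⟩ := Ms5_far h.hp h.hq h.cc
  obtain ⟨δ₂, hδ₂, f₂⟩ := Ms5_far h.hp h.hq h.bb
  obtain ⟨δ₃, hδ₃, f₃⟩ := Ms5_far h.hp h.hq (h.cb c₁ (by simp) b₁ (by simp))
  obtain ⟨δ₄, hδ₄, f₄⟩ := Ms5_far h.hp h.hq (h.cb c₁ (by simp) b₂ (by simp))
  obtain ⟨δ₅, hδ₅, f₅⟩ := Ms5_far h.hp h.hq (h.cb c₂ (by simp) b₁ (by simp))
  obtain ⟨δ₆, hδ₆, f₆⟩ := Ms5_far h.hp h.hq (h.cb c₂ (by simp) b₂ (by simp))
  obtain ⟨r, hr, r0, r1, r2, r3, r4, s1, s2, s3, s4, s5, s6⟩ : ∃ r : ℝ, 0 < r ∧ 8 * r < 1 ∧ 2 * r ≤ ρ₁ ∧ 2 * r ≤ ρ₂ ∧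
      2 * r ≤ ρ₃ ∧ 2 * r ≤ ρ₄ ∧ 4 * r ≤ δ₁ ∧ 4 * r ≤ δ₂ ∧ 4 * r ≤ δ₃ ∧ 4 * r ≤ δ₄ ∧ 4 * r ≤ δ₅ ∧ 4 * r ≤ δ₆ := by
    have hev : ∀ᶠ r : ℝ in 𝓝[>] 0, 0 < r ∧ 8 * r < 1 ∧ 2 * r ≤ ρ₁ ∧ 2 * r ≤ ρ₂ ∧
      2 * r ≤ ρ₃ ∧ 2 * r ≤ ρ₄ ∧ 4 * r ≤ δ₁ ∧ 4 * r ≤ δ₂ ∧ 4 * r ≤ δ₃ ∧ 4 * r ≤ δ₄ ∧ 4 * r ≤ δ₅ ∧ 4 * r ≤ δ₆ := by
      have key : ∀ (k ρ : ℝ), 0 < ρ → ∀ᶠ r : ℝ in 𝓝[>] 0, k * r < ρ := by
        intro k ρ hρ
        have h1 : Tendsto (fun r : ℝ => k * r) (𝓝 0) (𝓝 0) := by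
          have h2 : Continuous fun r : ℝ => k * r := by fun_prop
          have h3 := h2.tendsto 0
          rwa [mul_zero] at h3
        exact (h1.mono_left nhdsWithin_le_nhds).eventually (gt_mem_nhds hρ)
      filter_upwards [self_mem_nhdsWithin, key 8 1 one_pos, key 2 _ hρ₁, key 2 _ hρ₂, key 2 _ hρ₃, key 2 _ hρ₄,
        key 4 _ hδ₁, key 4 _ hδ₂, key 4 _ hδ₃, key 4 _ hδ₄, key 4 _ hδ₅, key 4 _ hδ₆] with r
        k0 k1 k2 k3 k4 k5 k6 k7 k8 k9 k10 k11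
      exact ⟨k0, k1, k2.le, k3.le, k4.le, k5.le, k6.le, k7.le, k8.le, k9.le, k10.le, k11.le⟩
    exact hev.exists
  have hself : ∀ (x : E) (n : Fin 4 → ℤ), ‖(x - (x + vec p q M n)).1‖ < 4 * r → n 0 = 0 ∧ n 1 = 0 := by
    intro x n hn
    have e : (x - (x + vec p q M n)).1 = -(vec p q M n).1 := by simp
    rw [e, norm_neg] at hn
    exact Ms5_small h.hp h.hq (lt_trans hn (by linarith))
  have hcross : ∀ {x y : E} {δ : ℝ}, (∀ a ∈ lat p q, δ ≤ ‖x.1 - y.1 - a‖) → 4 * r ≤ δ →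
      ∀ n, 4 * r ≤ ‖(x - (y + vec p q M n)).1‖ := by
    intro x y δ h1 h2 n
    have e : (x - (y + vec p q M n)).1 = x.1 - y.1 - (vec p q M n).1 := by
      simp only [Prod.fst_sub, Prod.fst_add]
      ring
    rw [e]
    exact h2.trans (h1 _ (Ms5_mem1 p q M n))
  have hcross' : ∀ {x y : E} {δ : ℝ}, (∀ a ∈ lat p q, δ ≤ ‖x.1 - y.1 - a‖) → 4 * r ≤ δ →
      ∀ n, 4 * r ≤ ‖(y - (x + vec p q M n)).1‖ := by
    intro x y δ h1 h2 n
    have e : (y - (x + vec p q M n)).1 = -(x.1 - y.1 - -(vec p q M n).1) := by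
      simp only [Prod.fst_sub, Prod.fst_add]
      ring
    rw [e, norm_neg]
    exact h2.trans (h1 _ ((lat p q).neg_mem (Ms5_mem1 p q M n)))
  have hreg : ∀ (z : E) (x₀ y₀ : ℂ), z ∈ C → z.1 - x₀ ∈ lat p q →
      (∀ y, (x₀, y) ∈ C → y - y₀ ∈ lat M M ∨ Germ C (x₀, y)) → (∀ n, z ≠ (x₀, y₀) + vec p q M n) → Germ C z := by
    intro z x₀ y₀ hz hx hal hne
    obtain ⟨n, hn⟩ := Ms5_ex (M := M) hx (lat M M).zero_mem
    have ez : (x₀, z.2) + vec p q M n = z := by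
      rw [hn]
      refine Prod.ext ?_ ?_ <;> simp
    have hC : (x₀, z.2) ∈ C := by
      rw [← hper n, ez]
      exact hz
    rcases hal z.2 hC with h1 | h1
    · obtain ⟨n', hn'⟩ := Ms5_ex hx h1
      refine absurd ?_ (hne n')
      rw [hn']
      refine Prod.ext ?_ ?_ <;> simp
    · have h2 := Ms5_germ (hper n) h1
      rwa [ez] at h2
  refine ⟨{ p := p, q := q, M := M, hp := h.hp, hq := h.hq, hM := h.hM, C := C
            c := ![(c₁, y₁), (c₂, y₂)], b := ![(b₁, y₃), (b₂, y₄)], a := ![a₁, a₂], A := ![A₁, A₂]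
            r := r, hr := hr, hr8 := r0
            a_inj := ?_, A_det := ?_, closed := multisection_closed h, periodic := hper
            sep_c := ?_, sep_b := ?_, sep_cb := ?_, cl := ?_, br := ?_, reg := ?_ }, rfl⟩
  · intro j
    fin_cases j
    · exact ia₁
    · exact ia₂
  · intro j
    fin_cases j
    · exact dA₁
    · exact dA₂
  · intro j j' n hn
    fin_cases j <;> fin_cases j'
    · exact ⟨rfl, hself _ n hn⟩
    · exact absurd (hcross (x := (c₁, y₁)) (y := (c₂, y₂)) f₁ s1 n) (not_le.mpr hn)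
    · exact absurd (hcross' (x := (c₁, y₁)) (y := (c₂, y₂)) f₁ s1 n) (not_le.mpr hn)
    · exact ⟨rfl, hself _ n hn⟩
  · intro j j' n hn
    fin_cases j <;> fin_cases j'
    · exact ⟨rfl, hself _ n hn⟩
    · exact absurd (hcross (x := (b₁, y₃)) (y := (b₂, y₄)) f₂ s2 n) (not_le.mpr hn)
    · exact absurd (hcross' (x := (b₁, y₃)) (y := (b₂, y₄)) f₂ s2 n) (not_le.mpr hn)
    · exact ⟨rfl, hself _ n hn⟩
  · intro j j' n
    fin_cases j <;> fin_cases j'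
    · exact hcross (x := (c₁, y₁)) (y := (b₁, y₃)) f₃ s3 n
    · exact hcross (x := (c₁, y₁)) (y := (b₂, y₄)) f₄ s4 n
    · exact hcross (x := (c₂, y₂)) (y := (b₁, y₃)) f₅ s5 n
    · exact hcross (x := (c₂, y₂)) (y := (b₂, y₄)) f₆ s6 n
  · intro j z hz
    fin_cases j
    · exact cl₁ z (lt_of_lt_of_le hz r1)
    · exact cl₂ z (lt_of_lt_of_le hz r2)
  · intro j z hz
    fin_cases j
    · exact cl₃ z (lt_of_lt_of_le hz r3)
    · exact cl₄ z (lt_of_lt_of_le hz r4)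
  · intro z hz hc hb
    by_cases k1 : z.1 - c₁ ∈ lat p q
    · exact hreg z c₁ y₁ hz k1 al₁ (hc 0)
    by_cases k2 : z.1 - c₂ ∈ lat p q
    · exact hreg z c₂ y₂ hz k2 al₂ (hc 1)
    by_cases k3 : z.1 - b₁ ∈ lat p q
    · exact hreg z b₁ y₃ hz k3 al₃ (hb 0)
    by_cases k4 : z.1 - b₂ ∈ lat p q
    · exact hreg z b₂ y₄ hz k4 al₄ (hb 1)
    refine germ_of_regularAt h.hM (h.regular z.1 ?_) hz
    intro s hs
    simp only [Set.mem_insert_iff, Set.mem_singleton_iff] at hs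
    rcases hs with rfl | rfl | rfl | rfl
    · exact k1
    · exact k2
    · exact k3
    · exact k4

end Pool.Agent.Helper67.SY
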