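import Pool.Agent.Helper67.SY.Cv

/-!
# Project SY (MP_872606_gt), block P (periodic solutions of local problems by a partition of unity)
-/

open Complex Filter Topology
open scoped ContDiff

namespace Pool.Agent.Helper67.SY

namespace Curve

variable (D : Curve)

/-- A smooth step which is `0` for `t ≤ -1/4` and `1` for `1/4 ≤ t`. -/
noncomputable def PUa_s (t : ℝ) : ℝ := Real.smoothTransition (2 * t + 1 / 2)

/-- The bump function of one variable. -/
noncomputable def PUa_β (t : ℝ) : ℝ := PUa_s (t + 1 / 2) - PUa_s (t - 1 / 2)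

theorem PUa_s_zero {t : ℝ} (h : t ≤ -(1 / 4)) : PUa_s t = 0 :=
  Real.smoothTransition.zero_of_nonpos (by linarith)

theorem PUa_s_one {t : ℝ} (h : 1 / 4 ≤ t) : PUa_s t = 1 :=
  Real.smoothTransition.one_of_one_le (by linarith)

theorem PUa_β_smooth : ContDiff ℝ ∞ PUa_β := by
  have h : ContDiff ℝ ∞ Real.smoothTransition := Real.smoothTransition.contDiff
  unfold PUa_β PUa_s
  exact (h.comp (by fun_prop)).sub (h.comp (by fun_prop))

theorem PUa_β_nonneg (t : ℝ) : 0 ≤ PUa_β t := by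
  have h : PUa_s (t - 1 / 2) ≤ PUa_s (t + 1 / 2) := Real.smoothTransition.monotone (by linarith)
  unfold PUa_β
  linarith

theorem PUa_β_zero {t : ℝ} (h : 3 / 4 ≤ |t|) : PUa_β t = 0 := by
  unfold PUa_β
  rcases le_abs.1 h with h1 | h1
  · rw [PUa_s_one (by linarith), PUa_s_one (by linarith), sub_self]
  · rw [PUa_s_zero (by linarith), PUa_s_zero (by linarith), sub_self]

theorem PUa_β_sum (t : ℝ) : PUa_β (t - ⌊t⌋) + PUa_β (t - ((⌊t⌋ + 1 : ℤ) : ℝ)) = 1 := by
  have h1 := Int.floor_le t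
  have h2 := Int.lt_floor_add_one t
  unfold PUa_β
  push_cast
  have e : t - ((⌊t⌋ : ℝ) + 1) + 1 / 2 = t - ⌊t⌋ - 1 / 2 := by ring
  rw [e, PUa_s_one (t := t - ⌊t⌋ + 1 / 2) (by linarith), PUa_s_zero (t := t - ((⌊t⌋ : ℝ) + 1) - 1 / 2) (by linarith)]
  ring

theorem PUa_β_out {t : ℝ} {k : ℤ} (h : k ≠ ⌊t⌋) (h' : k ≠ ⌊t⌋ + 1) : PUa_β (t - k) = 0 := by
  have h1 := Int.floor_le t
  have h2 := Int.lt_floor_add_one t
  refine PUa_β_zero ?_
  rcases lt_or_gt_of_ne h with h3 | h3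
  · have h4 : k + 1 ≤ ⌊t⌋ := h3
    have h5 : (k : ℝ) + 1 ≤ ⌊t⌋ := by exact_mod_cast h4
    rw [le_abs]
    left
    linarith
  · have h4 : ⌊t⌋ + 2 ≤ k := by omega
    have h5 : (⌊t⌋ : ℝ) + 2 ≤ k := by exact_mod_cast h4
    rw [le_abs]
    right
    linarith

/-- The four real coordinates. -/
noncomputable def PUa_x (z : E) : Fin 4 → ℝ := ![z.1.re, z.1.im, z.2.re, z.2.im]

theorem PUa_x_smooth (i : Fin 4) : ContDiff ℝ ∞ (fun z : E => PUa_x z i) := by
  have h1 : ContDiff ℝ ∞ (fun z : E => z.1.re) := Complex.reCLM.contDiff.comp contDiff_fst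
  have h2 : ContDiff ℝ ∞ (fun z : E => z.1.im) := Complex.imCLM.contDiff.comp contDiff_fst
  have h3 : ContDiff ℝ ∞ (fun z : E => z.2.re) := Complex.reCLM.contDiff.comp contDiff_snd
  have h4 : ContDiff ℝ ∞ (fun z : E => z.2.im) := Complex.imCLM.contDiff.comp contDiff_snd
  fin_cases i
  · exact h1
  · exact h2
  · exact h3
  · exact h4

theorem PUa_x_lip (z w : E) (i : Fin 4) : |PUa_x z i - PUa_x w i| ≤ ‖z - w‖ := by
  have h1 : ‖(z - w).1‖ ≤ ‖z - w‖ := norm_fst_le _
  have h2 : ‖(z - w).2‖ ≤ ‖z - w‖ := norm_snd_le _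
  have a := Complex.abs_re_le_norm (z - w).1
  have b := Complex.abs_im_le_norm (z - w).1
  have c := Complex.abs_re_le_norm (z - w).2
  have d := Complex.abs_im_le_norm (z - w).2
  fin_cases i
  · exact a.trans h1
  · exact b.trans h1
  · exact c.trans h2
  · exact d.trans h2

/-- The periods in the four directions. -/
def PUa_P (p q M : ℕ) : Fin 4 → ℤ := ![(p : ℤ), q, M, M]

theorem PUa_x_vec (p q M : ℕ) (z : E) (n : Fin 4 → ℤ) (i : Fin 4) :
    PUa_x (z + vec p q M n) i = PUa_x z i + (n i : ℝ) * (PUa_P p q M i : ℝ) := by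
  fin_cases i <;> simp [PUa_x, PUa_P, vec]

theorem PUa_tsupport (N : ℕ) (k : Fin 4 → ℤ) :
    tsupport (fun z : E => ∏ i, PUa_β (N * PUa_x z i - k i)) ⊆ {z | ∀ i, |N * PUa_x z i - k i| ≤ 3 / 4} := by
  refine closure_minimal ?_ ?_
  · intro z hz i
    by_contra hc
    push Not at hc
    refine hz ?_
    exact Finset.prod_eq_zero (Finset.mem_univ i) (PUa_β_zero hc.le)
  · have h : {z : E | ∀ i, |N * PUa_x z i - k i| ≤ 3 / 4} =
        ⋂ i, {z : E | |N * PUa_x z i - k i| ≤ 3 / 4} := by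
      ext z
      simp
    rw [h]
    refine isClosed_iInter fun i => isClosed_le ?_ continuous_const
    have hx := (PUa_x_smooth i).continuous
    exact ((continuous_const.mul hx).sub continuous_const).abs

/-- A periodic partition of unity with small supports.

Proof. Let `N : ℕ` with `4 / N < δ`, `N > 0`. There is a smooth `β : ℝ → ℝ`, `0 ≤ β`, with support in `(-1, 1)` (even
`β t = 0` for `|t| ≥ 9/10`) and `∑ᶠ k : ℤ, β (t - k) = 1` (take `β t = s (t + 1/2 ...) - s (...)` for a smooth step `s`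
which is `0` for `t ≤ -1/4` and `1` for `1/4 ≤ t`: `β t = s (t + 1/2) - s (t - 1/2)`). Put
`ρ k z = β (N z.1.re - k 0) * β (N z.1.im - k 1) * β (N z.2.re - k 2) * β (N z.2.im - k 3)` and
`cen k = ((k 0 + k 1 I) / N, (k 2 + k 3 I) / N)`, `sh n k = k + N (n 0 p, n 1 q, n 2 M, n 3 M)`. -/
theorem exists_partition {δ : ℝ} (hδ : 0 < δ) :
    ∃ (ρ : (Fin 4 → ℤ) → E → ℝ) (cen : (Fin 4 → ℤ) → E) (sh : (Fin 4 → ℤ) → (Fin 4 → ℤ) → (Fin 4 → ℤ)),
      (∀ k, ContDiff ℝ ∞ (ρ k)) ∧ (∀ k z, 0 ≤ ρ k z) ∧ (∀ k, tsupport (ρ k) ⊆ Metric.ball (cen k) δ) ∧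
      LocallyFinite (fun k => tsupport (ρ k)) ∧ (∀ z, ∑ᶠ k, ρ k z = 1) ∧
      (∀ n k z, ρ (sh n k) (z + D.v n) = ρ k z) ∧ (∀ n k, cen (sh n k) = cen k + D.v n) ∧
      (∀ k, sh 0 k = k) ∧ (∀ n m k, sh (n + m) k = sh n (sh m k)) ∧ (∀ n k, sh n k = k → n = 0) := by
  classical
  obtain ⟨N, hN⟩ := exists_nat_gt (max 1 (2 / δ))
  have hN1 : (1 : ℝ) < N := lt_of_le_of_lt (le_max_left _ _) hN
  have hN0 : (0 : ℝ) < N := by linarith
  have hN2 : 2 / (N : ℝ) < δ := by
    have h : 2 / δ < N := lt_of_le_of_lt (le_max_right _ _) hN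
    rw [div_lt_iff₀ hδ] at h
    rw [div_lt_iff₀ hN0]
    linarith
  have hP : ∀ i, 0 < PUa_P D.p D.q D.M i := by
    intro i
    have h1 : (0 : ℤ) < D.p := by exact_mod_cast D.hp
    have h2 : (0 : ℤ) < D.q := by exact_mod_cast D.hq
    have h3 : (0 : ℤ) < D.M := by exact_mod_cast D.hM
    fin_cases i
    · exact h1
    · exact h2
    · exact h3
    · exact h3
  refine ⟨fun k z => ∏ i, PUa_β (N * PUa_x z i - k i),
    fun k => (⟨(k 0 : ℝ) / N, (k 1 : ℝ) / N⟩, ⟨(k 2 : ℝ) / N, (k 3 : ℝ) / N⟩),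
    fun n k i => k i + N * (n i * PUa_P D.p D.q D.M i), ?_, ?_, ?_, ?_, ?_, ?_, ?_, ?_, ?_, ?_⟩
  · intro k
    refine contDiff_prod fun i _ => PUa_β_smooth.comp ?_
    exact (contDiff_const.mul (PUa_x_smooth i)).sub contDiff_const
  · intro k z
    exact Finset.prod_nonneg fun i _ => PUa_β_nonneg _
  · intro k z hz
    have h := PUa_tsupport N k hz
    have key : ∀ i, |PUa_x z i - (k i : ℝ) / N| ≤ 3 / 4 / N := by
      intro i
      have h1 := h i
      have h2 : PUa_x z i - (k i : ℝ) / N = (N * PUa_x z i - k i) / N := by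
        field_simp
      rw [h2, abs_div, abs_of_pos hN0]
      exact div_le_div_of_nonneg_right h1 hN0.le
    have hb : 3 / 4 / (N : ℝ) + 3 / 4 / N < δ := by
      have : 3 / 4 / (N : ℝ) + 3 / 4 / N = (3 / 2) / N := by ring
      rw [this]
      refine lt_trans ?_ hN2
      exact div_lt_div_of_pos_right (by norm_num) hN0
    rw [Metric.mem_ball, dist_eq_norm, Prod.norm_def]
    refine max_lt ?_ ?_
    · refine lt_of_le_of_lt (Complex.norm_le_abs_re_add_abs_im _) (lt_of_le_of_lt (add_le_add ?_ ?_) hb)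
      · exact key 0
      · exact key 1
    · refine lt_of_le_of_lt (Complex.norm_le_abs_re_add_abs_im _) (lt_of_le_of_lt (add_le_add ?_ ?_) hb)
      · exact key 2
      · exact key 3
  · intro z
    refine ⟨Metric.ball z 1, Metric.ball_mem_nhds z one_pos, ?_⟩
    refine (Set.finite_Icc (fun i => ⌊N * PUa_x z i - N - 1⌋) (fun i => ⌈N * PUa_x z i + N + 1⌉)).subset ?_
    rintro k ⟨w, hw, hwz⟩
    have h := PUa_tsupport N k hw
    rw [Metric.mem_ball, dist_eq_norm] at hwz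
    have key : ∀ i, (N * PUa_x z i - N - 1 : ℝ) ≤ k i ∧ (k i : ℝ) ≤ N * PUa_x z i + N + 1 := by
      intro i
      have h1 := abs_le.1 (h i)
      have h2 := abs_le.1 ((PUa_x_lip w z i).trans hwz.le)
      constructor <;> nlinarith [h1.1, h1.2, h2.1, h2.2]
    refine ⟨fun i => ?_, fun i => ?_⟩
    · have h1 : ((⌊N * PUa_x z i - N - 1⌋ : ℤ) : ℝ) ≤ k i := (Int.floor_le _).trans (key i).1
      exact_mod_cast h1
    · have h1 : (k i : ℝ) ≤ ((⌈N * PUa_x z i + N + 1⌉ : ℤ) : ℝ) := (key i).2.trans (Int.le_ceil _)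
      exact_mod_cast h1
  · intro z
    have hsub : Function.support (fun k : Fin 4 → ℤ => ∏ i, PUa_β (N * PUa_x z i - k i)) ⊆
        ↑(Fintype.piFinset (fun i => ({⌊N * PUa_x z i⌋, ⌊N * PUa_x z i⌋ + 1} : Finset ℤ))) := by
      intro k hk
      rw [Finset.mem_coe, Fintype.mem_piFinset]
      intro i
      rw [Finset.mem_insert, Finset.mem_singleton]
      by_contra hc
      push Not at hc
      exact hk (Finset.prod_eq_zero (Finset.mem_univ i) (PUa_β_out hc.1 hc.2))
    rw [finsum_eq_sum_of_support_subset _ hsub,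
      ← Finset.prod_univ_sum (fun i => ({⌊N * PUa_x z i⌋, ⌊N * PUa_x z i⌋ + 1} : Finset ℤ))
        (fun i j => PUa_β (N * PUa_x z i - j))]
    refine Finset.prod_eq_one fun i _ => ?_
    rw [Finset.sum_pair (by omega)]
    exact PUa_β_sum _
  · intro n k z
    refine Finset.prod_congr rfl fun i _ => ?_
    congr 1
    rw [Curve.v, PUa_x_vec]
    push_cast
    ring
  · intro n k
    have hx : ∀ i, ((k i + N * (n i * PUa_P D.p D.q D.M i) : ℤ) : ℝ) / N =
        (k i : ℝ) / N + (n i : ℝ) * (PUa_P D.p D.q D.M i : ℝ) := by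
      intro i
      push_cast
      field_simp
    refine Prod.ext (Complex.ext ?_ ?_) (Complex.ext ?_ ?_)
    · exact (hx 0).trans (by simp [PUa_P, Curve.v, vec])
    · exact (hx 1).trans (by simp [PUa_P, Curve.v, vec])
    · exact (hx 2).trans (by simp [PUa_P, Curve.v, vec])
    · exact (hx 3).trans (by simp [PUa_P, Curve.v, vec])
  · intro k
    funext i
    simp
  · intro n m k
    funext i
    simp only [Pi.add_apply]
    ring
  · intro n k h
    funext i
    have h1 := congrFun h i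
    have h2 : (N : ℤ) * (n i * PUa_P D.p D.q D.M i) = 0 := by
      have : k i + (N : ℤ) * (n i * PUa_P D.p D.q D.M i) = k i := h1
      linarith
    have h3 : (N : ℤ) ≠ 0 := by
      intro h0
      have : (N : ℝ) = 0 := by exact_mod_cast h0
      linarith
    rcases mul_eq_zero.1 h2 with h4 | h4
    · exact absurd h4 h3
    · rcases mul_eq_zero.1 h4 with h5 | h5
      · exact h5
      · exact absurd h5 (hP i).ne'

end Curve

end Pool.Agent.Helper67.SY
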