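import Pool.Agent.Helper67.SY.Dt
import Pool.Agent.Helper67.SY.Fm

/-!
# Project SY (MP_872606_gt): the patches

`Pt`: the main patch (complement of the 6-fold points in `ℂ × ℂ`) and, for each 6-fold point modulo `6 Λ`, the two
standard patches of the blow-up, with coordinates `(x', y' / x')` and `(y', x' / y')`. In every patch the cyclic covering is
`ŵ ^ 6 = sg`.
-/

open Complex Filter Topology
open scoped ContDiff

namespace Pool.Agent.Helper67.SY

/-- Representatives of the lattice modulo `6`. -/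
abbrev Rep : Type := Fin 4 → Fin 6

def emb (κ : Rep) : Fin 4 → ℤ := fun i => ((κ i : ℕ) : ℤ)

inductive Pt
  | main
  | u (j : Fin 2) (κ : Rep)
  | w (j : Fin 2) (κ : Rep)
  deriving DecidableEq

/-- The exceptional curve which meets the patch. -/
def Pt.site : Pt → Option (Fin 2 × Rep)
  | .main => none
  | .u j κ => some (j, κ)
  | .w j κ => some (j, κ)

namespace Curve

variable (D : Curve)

/-- The 6-fold point of the patch. -/
noncomputable def cen (j : Fin 2) (κ : Rep) : E := D.c j + D.v (emb κ)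

/-- `1 + ∑ i, ‖a j i‖`: the slopes of the curve and the number `t j` are smaller. -/
noncomputable def rad (j : Fin 2) : ℝ := 1 + ∑ i, ‖D.a j i‖

/-- The domains of the patches. -/
def dom : Pt → Set E
  | .main => D.dm
  | .u _ _ => {q | ‖q.1‖ < D.r / 2 ∧ ‖q.1 * q.2‖ < D.r / 2}
  | .w j _ => {q | ‖q.1‖ < D.r / 2 ∧ ‖q.1 * q.2‖ < D.r / 2 ∧ ‖q.2‖ * D.rad j < 1}

/-- The maps to the base. -/
noncomputable def bl : Pt → E → E
  | .main => fun q => q
  | .u j κ => fun q => D.cen j κ + (q.1, q.1 * q.2)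
  | .w j κ => fun q => D.cen j κ + (q.1 * q.2, q.1)

end Curve

/-- The factor of the coordinate of the covering: `w = fac * ŵ`; equation of the exceptional curve. -/
noncomputable def fac : Pt → E → ℂ
  | .main => fun _ => 1
  | .u _ _ => fun q => q.1
  | .w _ _ => fun q => q.1

/-- The equation of the covering in the patch. -/
noncomputable def Cov.sg {D : Curve} (H : Cov D) : Pt → E → ℂ
  | .main => H.σ
  | .u j κ => fun q => (∏ i, (q.2 - D.a j i)) * H.Vc j (emb κ) (D.bl (.u j κ) q) ^ 6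
  | .w j κ => fun q => (∏ i, (1 - D.a j i * q.2)) * H.Vc j (emb κ) (D.bl (.w j κ) q) ^ 6

/-! ### tensors on the patches -/

/-- The derivative of `q ↦ q.1 * q.2`. -/
noncomputable def mm (q : E) : E →L[ℝ] ℂ := q.2 • dx + q.1 • dy

namespace JDat

variable {D : Curve} (J : JDat D)

noncomputable def νp : Pt → E → ℂ
  | .main => fun q => J.ν q.1
  | .u _ _ => fun _ => 0
  | .w _ _ => fun _ => 0

noncomputable def μp : Pt → E → ℂ
  | .main => J.μ
  | .u _ _ => fun _ => 0
  | .w _ _ => fun _ => 0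

/-- The almost complex structure of the patch. -/
noncomputable def Jp (a : Pt) (q : E) : E →L[ℝ] E := Jn (J.νp a q) (J.μp a q)

/-- The (2,0)-form of the patch; `fac` times it is the pullback of the (2,0)-form of the base. -/
noncomputable def Omp : Pt → E → E →L[ℝ] E →L[ℝ] ℂ
  | .main => fun q => wedge (al (J.ν q.1)) (be (J.μ q))
  | .u _ _ => fun _ => wedge (al 0) (be 0)
  | .w _ _ => fun _ => -wedge (al 0) (be 0)

end JDat

/-- The closed 2-form of the patch. -/
noncomputable def HDat.hp {D : Curve} {J : JDat D} (T : HDat D J) : Pt → E → E →L[ℝ] E →L[ℝ] ℝ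
  | .main => T.η
  | .u _ _ => fun q => T.K • dA.bilinearComp dx dx + dA.bilinearComp (mm q) (mm q) +
      (T.k / (1 + ‖q.2‖ ^ 2) ^ 2) • dA.bilinearComp dy dy
  | .w _ _ => fun q => T.K • dA.bilinearComp (mm q) (mm q) + dA.bilinearComp dx dx +
      (T.k / (1 + ‖q.2‖ ^ 2) ^ 2) • dA.bilinearComp dy dy

/-- `q.1 * ∑ i, ∏ k ≠ i, (q.2 - a k) ^ 5 + κ (q.2 - t) ^ 24` -/
noncomputable def clU (a : Fin 6 → ℂ) (κ : ℝ) (t : ℂ) (q : E) : ℂ :=
  q.1 * (∑ i, ∏ k ∈ Finset.univ.erase i, (q.2 - a k) ^ 5) + κ * (q.2 - t) ^ 24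

noncomputable def clW (a : Fin 6 → ℂ) (κ : ℝ) (t : ℂ) (q : E) : ℂ :=
  q.1 * (∑ i, ∏ k ∈ Finset.univ.erase i, (1 - a k * q.2) ^ 5) + κ * (1 - t * q.2) ^ 24

/-- The function of the patch which gives the section of `K ^ 6`. -/
noncomputable def SDat.Rp {D : Curve} {H : Cov D} (S : SDat D H) : Pt → E → ℂ
  | .main => S.R
  | .u j κ => fun q => clU (D.a j) S.κ (S.t j) q * H.Vc j (emb κ) (D.bl (.u j κ) q) ^ 30
  | .w j κ => fun q => clW (D.a j) S.κ (S.t j) q * H.Vc j (emb κ) (D.bl (.w j κ) q) ^ 30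

/-! ### the total space -/

/-- The points of the covering in the patch `a`. -/
def Cov.MM {D : Curve} (H : Cov D) (a : Pt) : Set (E × ℂ) := {m | m.1 ∈ D.dom a ∧ m.2 ^ 6 = H.sg a m.1}

/-- The disjoint union of the patches of the covering. -/
abbrev Cov.Tot {D : Curve} (H : Cov D) : Type := Σ a : Pt, ↥(H.MM a)

/-- Homogeneous coordinates on the exceptional curves. -/
noncomputable def hv : Pt → E × ℂ → ℂ × ℂ × ℂ
  | .main => fun m => (1, 0, m.2)
  | .u _ _ => fun m => (1, m.1.2, m.2)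
  | .w _ _ => fun m => (m.1.2, 1, m.2)

/-- Proportional vectors. -/
def Prp (x y : ℂ × ℂ × ℂ) : Prop := x.1 * y.2.1 = x.2.1 * y.1 ∧ x.1 * y.2.2 = x.2.2 * y.1 ∧ x.2.1 * y.2.2 = x.2.2 * y.2.1

/-- The relation of points in the patches `a`, `b` of the covering. -/
def Cov.Rl {D : Curve} (H : Cov D) (a b : Pt) (m m' : E × ℂ) : Prop :=
  (fac a m.1 ≠ 0 ∧ fac b m'.1 ≠ 0 ∧ ∃ n, D.bl b m'.1 = D.bl a m.1 + D.v ((6 : ℤ) • n) ∧
      fac b m'.1 * m'.2 = H.ε n (D.bl a m.1) * (fac a m.1 * m.2)) ∨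
    (fac a m.1 = 0 ∧ fac b m'.1 = 0 ∧ a.site = b.site ∧ Prp (hv a m) (hv b m'))

end Pool.Agent.Helper67.SY
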