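import Pool.Agent.Helper67.SY.Pa
import Pool.Agent.Helper67.SY.EqA2

/-!
# Project SY (MP_872606_gt), block P: the patches
-/

open Complex Filter Topology
open scoped ContDiff

namespace Pool.Agent.Helper67.SY

/-- The representatives. -/
theorem emb_eq {κ κ' : Rep} {n : Fin 4 → ℤ} (h : emb κ = emb κ' + (6 : ℤ) • n) : κ = κ' ∧ n = 0 := by
  have key : ∀ i, κ i = κ' i ∧ n i = 0 := by
    intro i
    have h1 := congrFun h i
    simp only [emb, Pi.add_apply, Pi.smul_apply, smul_eq_mul] at h1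
    have h2 := (κ i).isLt
    have h3 := (κ' i).isLt
    have h4 : n i = 0 := by omega
    rw [h4] at h1
    exact ⟨Fin.ext (by omega), h4⟩
  exact ⟨funext fun i => (key i).1, funext fun i => (key i).2⟩

/-- Every lattice vector is a representative plus 6 times a lattice vector (`Int.emod`). -/
theorem exists_emb (n : Fin 4 → ℤ) : ∃ κ m, n = emb κ + (6 : ℤ) • m := by
  have h1 : ∀ i, 0 ≤ n i % 6 := fun i => Int.emod_nonneg _ (by norm_num)
  have h2 : ∀ i, n i % 6 < 6 := fun i => Int.emod_lt_of_pos _ (by norm_num)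
  refine ⟨fun i => ⟨(n i % 6).toNat, by have := h1 i; have := h2 i; omega⟩, fun i => n i / 6, ?_⟩
  funext i
  simp only [emb, Pi.add_apply, Pi.smul_apply, smul_eq_mul]
  have := h1 i
  have := h2 i
  omega

namespace Curve

variable (D : Curve)

theorem v_zero : D.v 0 = 0 := vec_zero _ _ _
theorem v_add (n m : Fin 4 → ℤ) : D.v (n + m) = D.v n + D.v m := vec_add _ _ _ n m
theorem v_neg (n : Fin 4 → ℤ) : D.v (-n) = -D.v n := vec_neg _ _ _ n
theorem v_small {n : Fin 4 → ℤ} (h : ‖D.v n‖ < 1) : n = 0 := vec_small D.hp D.hq D.hM h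

/-- The set of the 6-fold points is closed: there is at most one at distance `< 2 r` from a given point. -/
theorem isOpen_dom (a : Pt) : IsOpen (D.dom a) := by
  cases a with
  | main =>
    change IsOpen D.dm
    rw [Metric.isOpen_iff]
    intro z hz
    by_cases h : ∃ j n, ‖z - (D.c j + D.v n)‖ < 2 * D.r
    · obtain ⟨j, n, h⟩ := h
      refine ⟨‖z - (D.c j + D.v n)‖, norm_pos_iff.2 (sub_ne_zero.2 (hz j n)), ?_⟩
      intro z' hz' j' n' he
      rw [Metric.mem_ball, dist_comm, dist_eq_norm, he] at hz'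
      obtain ⟨rfl, rfl⟩ := D.special_unique_c h (hz'.trans h)
      exact lt_irrefl _ hz'
    · refine ⟨2 * D.r, mul_pos two_pos D.hr, ?_⟩
      intro z' hz' j' n' he
      rw [Metric.mem_ball, dist_comm, dist_eq_norm, he] at hz'
      exact h ⟨j', n', hz'⟩
  | u j κ =>
    change IsOpen {q : E | ‖q.1‖ < D.r / 2 ∧ ‖q.1 * q.2‖ < D.r / 2}
    exact (isOpen_lt continuous_fst.norm continuous_const).inter
      (isOpen_lt (continuous_fst.mul continuous_snd).norm continuous_const)
  | w j κ =>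
    change IsOpen {q : E | ‖q.1‖ < D.r / 2 ∧ ‖q.1 * q.2‖ < D.r / 2 ∧ ‖q.2‖ * D.rad j < 1}
    exact (isOpen_lt continuous_fst.norm continuous_const).inter
      ((isOpen_lt (continuous_fst.mul continuous_snd).norm continuous_const).inter
        (isOpen_lt (continuous_snd.norm.mul continuous_const) continuous_const))

theorem bl_smooth (a : Pt) : ContDiff ℝ ∞ (D.bl a) := by
  cases a with
  | main => exact contDiff_id
  | u j κ => exact contDiff_const.add (contDiff_fst.prodMk (contDiff_fst.mul contDiff_snd))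
  | w j κ => exact contDiff_const.add ((contDiff_fst.mul contDiff_snd).prodMk contDiff_fst)

theorem fac_smooth (a : Pt) : ContDiff ℝ ∞ (fac a) := by
  cases a with
  | main => exact contDiff_const
  | u j κ => exact contDiff_fst
  | w j κ => exact contDiff_fst

/-- In the patches of the blow-up the base point is at distance `< r / 2` from the 6-fold point. -/
theorem bl_near {a : Pt} {j : Fin 2} {κ : Rep} (ha : a.site = some (j, κ)) {q : E} (hq : q ∈ D.dom a) :
    ‖(D.bl a q - D.cen j κ).1‖ < D.r / 2 ∧ ‖(D.bl a q - D.cen j κ).2‖ < D.r / 2 := by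
  cases a with
  | main => exact absurd ha (by simp [Pt.site])
  | u j' κ' =>
    simp only [Pt.site, Option.some.injEq, Prod.mk.injEq] at ha
    obtain ⟨rfl, rfl⟩ := ha
    have h1 : D.bl (.u j' κ') q - D.cen j' κ' = (q.1, q.1 * q.2) := add_sub_cancel_left _ _
    rw [h1]
    exact hq
  | w j' κ' =>
    simp only [Pt.site, Option.some.injEq, Prod.mk.injEq] at ha
    obtain ⟨rfl, rfl⟩ := ha
    have h1 : D.bl (.w j' κ') q - D.cen j' κ' = (q.1 * q.2, q.1) := add_sub_cancel_left _ _
    rw [h1]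
    exact ⟨hq.2.1, hq.1⟩

/-- Zeros of `fac` are mapped to the 6-fold point. -/
theorem bl_zero {a : Pt} {q : E} (h : fac a q = 0) : ∃ j κ, a.site = some (j, κ) ∧ D.bl a q = D.cen j κ := by
  cases a with
  | main => exact absurd h one_ne_zero
  | u j κ =>
    refine ⟨j, κ, rfl, ?_⟩
    have h1 : q.1 = 0 := h
    change D.cen j κ + (q.1, q.1 * q.2) = D.cen j κ
    rw [h1, zero_mul]
    exact add_zero _
  | w j κ =>
    refine ⟨j, κ, rfl, ?_⟩
    have h1 : q.1 = 0 := h
    change D.cen j κ + (q.1 * q.2, q.1) = D.cen j κ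
    rw [h1, zero_mul]
    exact add_zero _

theorem bl_ne {a : Pt} {j : Fin 2} {κ : Rep} (ha : a.site = some (j, κ)) {q : E} (h : fac a q ≠ 0) :
    D.bl a q ≠ D.cen j κ := by
  cases a with
  | main => exact absurd ha (by simp [Pt.site])
  | u j' κ' =>
    simp only [Pt.site, Option.some.injEq, Prod.mk.injEq] at ha
    obtain ⟨rfl, rfl⟩ := ha
    intro h1
    have h2 : ((q.1, q.1 * q.2) : E) = 0 := add_eq_left.1 (h1 : D.cen j' κ' + (q.1, q.1 * q.2) = D.cen j' κ')
    exact h (congrArg Prod.fst h2)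
  | w j' κ' =>
    simp only [Pt.site, Option.some.injEq, Prod.mk.injEq] at ha
    obtain ⟨rfl, rfl⟩ := ha
    intro h1
    have h2 : ((q.1 * q.2, q.1) : E) = 0 := add_eq_left.1 (h1 : D.cen j' κ' + (q.1 * q.2, q.1) = D.cen j' κ')
    exact h (congrArg Prod.snd h2)

/-- Off the exceptional curve the map to the base is in the main patch (`special_unique_c`). -/
theorem bl_dm {a : Pt} {q : E} (hq : q ∈ D.dom a) (h : fac a q ≠ 0) : D.bl a q ∈ D.dm := by
  have key : ∀ j κ, a.site = some (j, κ) → D.bl a q ∈ D.dm := by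
    intro j κ ha j' n' he
    have h1 := D.bl_near ha hq
    have hr := D.hr
    have h2 : ‖D.bl a q - (D.c j + D.v (emb κ))‖ < 2 * D.r := by
      rw [Prod.norm_def]
      exact max_lt (by have := h1.1; unfold cen at this; linarith)
        (by have := h1.2; unfold cen at this; linarith)
    have h3 : ‖D.bl a q - (D.c j' + D.v n')‖ < 2 * D.r := by
      rw [he, sub_self, norm_zero]
      linarith
    obtain ⟨rfl, rfl⟩ := D.special_unique_c h2 h3
    exact D.bl_ne ha h he
  cases a with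
  | main => exact hq
  | u j κ => exact key j κ rfl
  | w j κ => exact key j κ rfl

theorem bl_inj {a : Pt} {q q' : E} (h : fac a q ≠ 0) (h' : fac a q' ≠ 0) (he : D.bl a q = D.bl a q') : q = q' := by
  cases a with
  | main => exact he
  | u j κ =>
    have h0 : q.1 ≠ 0 := h
    have h1 : ((q.1, q.1 * q.2) : E) = (q'.1, q'.1 * q'.2) := add_left_cancel he
    have h2 : q.1 = q'.1 := (Prod.ext_iff.1 h1).1
    have h3 : q.1 * q.2 = q'.1 * q'.2 := (Prod.ext_iff.1 h1).2
    rw [← h2] at h3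
    exact Prod.ext h2 (mul_left_cancel₀ h0 h3)
  | w j κ =>
    have h0 : q.1 ≠ 0 := h
    have h1 : ((q.1 * q.2, q.1) : E) = (q'.1 * q'.2, q'.1) := add_left_cancel he
    have h2 : q.1 = q'.1 := (Prod.ext_iff.1 h1).2
    have h3 : q.1 * q.2 = q'.1 * q'.2 := (Prod.ext_iff.1 h1).1
    rw [← h2] at h3
    exact Prod.ext h2 (mul_left_cancel₀ h0 h3)

theorem fderiv_bl_u (j : Fin 2) (κ : Rep) (q v : E) : fderiv ℝ (D.bl (.u j κ)) q v = (v.1, mm q v) := by
  have h1 : HasFDerivAt (fun q : E => D.cen j κ + (q.1, q.1 * q.2))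
      (0 + dx.prod (q.1 • dy + q.2 • dx)) q :=
    (hasFDerivAt_const _ _).add ((hasFDerivAt_fst (𝕜 := ℝ)).prodMk
      ((hasFDerivAt_fst (𝕜 := ℝ)).mul (hasFDerivAt_snd (𝕜 := ℝ))))
  have h2 : D.bl (.u j κ) = fun q : E => D.cen j κ + (q.1, q.1 * q.2) := rfl
  rw [h2, h1.fderiv]
  refine Prod.ext ?_ ?_
  · simp [dx_apply]
  · simp [mm, dx_apply, dy_apply, add_comm]

theorem fderiv_bl_w (j : Fin 2) (κ : Rep) (q v : E) : fderiv ℝ (D.bl (.w j κ)) q v = (mm q v, v.1) := by
  have h1 : HasFDerivAt (fun q : E => D.cen j κ + (q.1 * q.2, q.1))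
      (0 + (q.1 • dy + q.2 • dx).prod dx) q :=
    (hasFDerivAt_const _ _).add (((hasFDerivAt_fst (𝕜 := ℝ)).mul (hasFDerivAt_snd (𝕜 := ℝ))).prodMk
      (hasFDerivAt_fst (𝕜 := ℝ)))
  have h2 : D.bl (.w j κ) = fun q : E => D.cen j κ + (q.1 * q.2, q.1) := rfl
  rw [h2, h1.fderiv]
  refine Prod.ext ?_ ?_
  · simp [mm, dx_apply, dy_apply, add_comm]
  · simp [dx_apply]

theorem fderiv_bl_main (q v : E) : fderiv ℝ (D.bl .main) q v = v := by
  have h2 : D.bl .main = fun q : E => q := rfl
  rw [h2, fderiv_fun_id]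
  rfl

end Curve

end Pool.Agent.Helper67.SY
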