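import Pool.Agent.Helper67.SY.Pb1

/-!
# Project SY (MP_872606_gt), block P: the equation of the covering in the patches
-/

open Complex Filter Topology
open scoped ContDiff

namespace Pool.Agent.Helper67.SY

namespace Cov

variable {D : Curve} (H : Cov D)

theorem ε_zero (z : E) : H.ε 0 z = 1 := by
  have h := H.add 0 0 z
  rw [smul_zero, D.v_zero, add_zero, add_zero] at h
  have h0 := H.ne 0 z
  field_simp at h
  exact h.symm

private theorem Pb2_norm_lt {p : E} {r : ℝ} (h1 : ‖p.1‖ < r / 2) (h2 : ‖p.2‖ < r / 2) : ‖p‖ < 2 * r := by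
  have h3 := norm_nonneg p.1
  rw [Prod.norm_def]
  exact max_lt (by linarith) (by linarith)

private theorem Pb2_ball_u {j : Fin 2} {κ : Rep} {q : E} (hq : q ∈ D.dom (.u j κ)) :
    D.bl (.u j κ) q ∈ Metric.ball (D.c j + D.v (emb κ)) (2 * D.r) := by
  rw [mem_ball_iff_norm]
  have h : D.bl (.u j κ) q - (D.c j + D.v (emb κ)) = (q.1, q.1 * q.2) := by
    change (D.c j + D.v (emb κ)) + (q.1, q.1 * q.2) - (D.c j + D.v (emb κ)) = _
    abel
  rw [h]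
  exact Pb2_norm_lt hq.1 hq.2

private theorem Pb2_ball_w {j : Fin 2} {κ : Rep} {q : E} (hq : q ∈ D.dom (.w j κ)) :
    D.bl (.w j κ) q ∈ Metric.ball (D.c j + D.v (emb κ)) (2 * D.r) := by
  rw [mem_ball_iff_norm]
  have h : D.bl (.w j κ) q - (D.c j + D.v (emb κ)) = (q.1 * q.2, q.1) := by
    change (D.c j + D.v (emb κ)) + (q.1 * q.2, q.1) - (D.c j + D.v (emb κ)) = _
    abel
  rw [h]
  exact Pb2_norm_lt hq.2.1 hq.1

private theorem Pb2_cl_u (j : Fin 2) (κ : Rep) (q : E) :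
    clEqn (D.c j + D.v (emb κ)) (D.a j) (D.bl (.u j κ) q) = q.1 ^ 6 * ∏ i, (q.2 - D.a j i) := by
  have h1 : (D.bl (.u j κ) q).1 = (D.c j + D.v (emb κ)).1 + q.1 := rfl
  have h2 : (D.bl (.u j κ) q).2 = (D.c j + D.v (emb κ)).2 + q.1 * q.2 := rfl
  unfold clEqn
  rw [h1, h2]
  have h3 : ∀ i, (D.c j + D.v (emb κ)).2 + q.1 * q.2 - (D.c j + D.v (emb κ)).2 -
      D.a j i * ((D.c j + D.v (emb κ)).1 + q.1 - (D.c j + D.v (emb κ)).1) = q.1 * (q.2 - D.a j i) := by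
    intro i
    ring
  rw [Finset.prod_congr rfl (fun i _ => h3 i), Finset.prod_mul_distrib]
  simp

private theorem Pb2_cl_w (j : Fin 2) (κ : Rep) (q : E) :
    clEqn (D.c j + D.v (emb κ)) (D.a j) (D.bl (.w j κ) q) = q.1 ^ 6 * ∏ i, (1 - D.a j i * q.2) := by
  have h1 : (D.bl (.w j κ) q).1 = (D.c j + D.v (emb κ)).1 + q.1 * q.2 := rfl
  have h2 : (D.bl (.w j κ) q).2 = (D.c j + D.v (emb κ)).2 + q.1 := rfl
  unfold clEqn
  rw [h1, h2]
  have h3 : ∀ i, (D.c j + D.v (emb κ)).2 + q.1 - (D.c j + D.v (emb κ)).2 -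
      D.a j i * ((D.c j + D.v (emb κ)).1 + q.1 * q.2 - (D.c j + D.v (emb κ)).1) = q.1 * (1 - D.a j i * q.2) := by
    intro i
    ring
  rw [Finset.prod_congr rfl (fun i _ => h3 i), Finset.prod_mul_distrib]
  simp

/-- `Vc` is smooth on the ball of radius `2 r`, `σ` is smooth (`H.eqn`). -/
theorem sg_smooth (a : Pt) : ContDiffOn ℝ ∞ (H.sg a) (D.dom a) := by
  cases a with
  | main => exact H.eqn.1.mono (Set.subset_univ _)
  | u j κ =>
    have h1 : ContDiffOn ℝ ∞ (fun q => H.Vc j (emb κ) (D.bl (.u j κ) q)) (D.dom (.u j κ)) :=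
      (H.Vc_smooth j (emb κ)).comp (D.bl_smooth (.u j κ)).contDiffOn (fun q hq => Pb2_ball_u hq)
    have h2 : ContDiff ℝ ∞ (fun q : E => ∏ i, (q.2 - D.a j i)) :=
      contDiff_prod fun i _ => contDiff_snd.sub contDiff_const
    exact h2.contDiffOn.mul (h1.pow 6)
  | w j κ =>
    have h1 : ContDiffOn ℝ ∞ (fun q => H.Vc j (emb κ) (D.bl (.w j κ) q)) (D.dom (.w j κ)) :=
      (H.Vc_smooth j (emb κ)).comp (D.bl_smooth (.w j κ)).contDiffOn (fun q hq => Pb2_ball_w hq)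
    have h2 : ContDiff ℝ ∞ (fun q : E => ∏ i, (1 - D.a j i * q.2)) :=
      contDiff_prod fun i _ => contDiff_const.sub (contDiff_const.mul contDiff_snd)
    exact h2.contDiffOn.mul (h1.pow 6)

/-- `Vc_eq`; `clEqn (cen) (a j) (cen + (q.1, q.1 * q.2)) = q.1 ^ 6 * ∏ i, (q.2 - a j i)`, and so on. -/
theorem sg_bl {a : Pt} {q : E} (hq : q ∈ D.dom a) : H.σ (D.bl a q) = fac a q ^ 6 * H.sg a q := by
  cases a with
  | main =>
    change H.σ q = (1 : ℂ) ^ 6 * H.σ q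
    rw [one_pow, one_mul]
  | u j κ =>
    rw [H.Vc_eq j (emb κ) _ (Pb2_ball_u hq), Pb2_cl_u, mul_assoc]
    rfl
  | w j κ =>
    rw [H.Vc_eq j (emb κ) _ (Pb2_ball_w hq), Pb2_cl_w, mul_assoc]
    rfl

/-- The curve in the patch `u` is given by `q.2 = a j i`. -/
theorem sg_u_zero {j : Fin 2} {κ : Rep} {q : E} (hq : q ∈ D.dom (.u j κ)) :
    H.sg (.u j κ) q = 0 ↔ ∃ i, q.2 = D.a j i := by
  have h1 : H.Vc j (emb κ) (D.bl (.u j κ) q) ^ 6 ≠ 0 := pow_ne_zero 6 (H.Vc_ne j (emb κ) _ (Pb2_ball_u hq))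
  change (∏ i, (q.2 - D.a j i)) * H.Vc j (emb κ) (D.bl (.u j κ) q) ^ 6 = 0 ↔ _
  rw [mul_eq_zero, or_iff_left h1, Finset.prod_eq_zero_iff]
  constructor
  · rintro ⟨i, -, h⟩
    exact ⟨i, sub_eq_zero.mp h⟩
  · rintro ⟨i, h⟩
    exact ⟨i, Finset.mem_univ i, sub_eq_zero.mpr h⟩

/-- The curve does not meet the patch `w`: `‖a j i * q.2‖ < 1`. -/
theorem sg_w_ne {j : Fin 2} {κ : Rep} {q : E} (hq : q ∈ D.dom (.w j κ)) : H.sg (.w j κ) q ≠ 0 := by
  have h1 : H.Vc j (emb κ) (D.bl (.w j κ) q) ^ 6 ≠ 0 := pow_ne_zero 6 (H.Vc_ne j (emb κ) _ (Pb2_ball_w hq))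
  refine mul_ne_zero (Finset.prod_ne_zero_iff.mpr fun i _ h => ?_) h1
  have h2 : ‖D.a j i * q.2‖ = 1 := by
    rw [← sub_eq_zero.mp h, norm_one]
  rw [norm_mul] at h2
  have h3 : ‖D.a j i‖ ≤ ∑ k, ‖D.a j k‖ :=
    Finset.single_le_sum (f := fun k => ‖D.a j k‖) (fun k _ => norm_nonneg _) (Finset.mem_univ i)
  have h4 : ‖q.2‖ * D.rad j < 1 := hq.2.2
  have h5 : ‖D.a j i‖ ≤ D.rad j := by
    unfold Curve.rad
    linarith
  have h6 := mul_le_mul_of_nonneg_right h5 (norm_nonneg q.2)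
  rw [mul_comm (D.rad j)] at h6
  linarith

theorem sg_main_zero {q : E} : H.sg .main q = 0 ↔ q ∈ D.C := by
  obtain ⟨e, he⟩ := D.exists_locEqn q
  obtain ⟨u, -, hu, hev⟩ := H.eqn.2 q (Set.mem_univ q) e he
  have h1 : H.σ q = e q * u q := hev.self_of_nhds
  have h2 : e q = 0 ↔ q ∈ D.C := (D.locEqn_zero he).self_of_nhds
  change H.σ q = 0 ↔ _
  rw [h1, mul_eq_zero, or_iff_left hu, h2]

end Cov

end Pool.Agent.Helper67.SY
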