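import Pool.Agent.Helper67.SY.Pb1
import Pool.Agent.Helper67.SY.Fm2

/-!
# Project SY (MP_872606_gt), block P: the closed 2-form of the patches
-/

open Complex Filter Topology
open scoped ContDiff

namespace Pool.Agent.Helper67.SY

/-- The product of the coordinates. -/
private noncomputable def Pb3_m : E → ℂ := fun q => q.1 * q.2

private theorem Pb3_m_smooth : ContDiff ℝ ∞ Pb3_m := contDiff_fst.mul contDiff_snd

private theorem Pb3_m_fderiv (q : E) : fderiv ℝ Pb3_m q = mm q := by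
  have h1 : HasFDerivAt Pb3_m (q.1 • dy + q.2 • dx) q :=
    (hasFDerivAt_fst (𝕜 := ℝ)).mul (hasFDerivAt_snd (𝕜 := ℝ))
  rw [h1.fderiv]
  unfold mm
  exact add_comm _ _

private theorem Pb3_mm_apply (q v : E) : mm q v = q.2 * v.1 + q.1 * v.2 := rfl

/-- The form on the line. -/
private noncomputable def Pb3_g (k : ℝ) : ℂ → ℂ →L[ℝ] ℂ →L[ℝ] ℝ := fun t => (k / (1 + ‖t‖ ^ 2) ^ 2) • dA

private theorem Pb3_smul_smooth {W : Type} [NormedAddCommGroup W] [NormedSpace ℝ W] (w : W) {f : ℂ → ℝ}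
    (hf : ContDiff ℝ ∞ f) : ContDiff ℝ ∞ (fun t => f t • w) := hf.smul contDiff_const

private theorem Pb3_g_smooth (k : ℝ) : ContDiff ℝ ∞ (Pb3_g k) := by
  have h1 : ContDiff ℝ ∞ (fun t : ℂ => ‖t‖ ^ 2) := contDiff_norm_sq ℝ
  have h2 : ContDiff ℝ ∞ (fun t : ℂ => k / (1 + ‖t‖ ^ 2) ^ 2) :=
    contDiff_const.div ((contDiff_const.add h1).pow 2) (fun t => by positivity)
  exact Pb3_smul_smooth dA h2

private theorem Pb3_A (q : E) : (pull (Prod.fst : E → ℂ) (fun _ => dA)) q = dA.bilinearComp dx dx := by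
  unfold pull
  rw [fderiv_fst]
  rfl

private theorem Pb3_B (q : E) : (pull Pb3_m (fun _ => dA)) q = dA.bilinearComp (mm q) (mm q) := by
  unfold pull
  rw [Pb3_m_fderiv]

private theorem Pb3_C (k : ℝ) (q : E) :
    (pull (Prod.snd : E → ℂ) (Pb3_g k)) q = (k / (1 + ‖q.2‖ ^ 2) ^ 2) • dA.bilinearComp dy dy := by
  unfold pull
  rw [fderiv_snd]
  rfl

private theorem Pb3_smooth {f : E → ℂ} {η : ℂ → ℂ →L[ℝ] ℂ →L[ℝ] ℝ} (hf : ContDiff ℝ ∞ f) (hη : ContDiff ℝ ∞ η) :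
    ContDiff ℝ ∞ (pull f η) :=
  contDiff_iff_contDiffAt.2 fun _ => smooth_pull hf.contDiffAt hη.contDiffAt

private theorem Pb3_cl {f : E → ℂ} {η : ℂ → ℂ →L[ℝ] ℂ →L[ℝ] ℝ} (hf : ContDiff ℝ ∞ f) (hη : ContDiff ℝ ∞ η)
    (alt : ∀ t u, η t u u = 0) (q : E) : Cl (pull f η) q :=
  cl_pull hf.contDiffAt (hη.differentiable (by simp) _) (alt _)
    (cl_plane (hη.differentiable (by simp) _) (Eventually.of_forall alt))

private theorem Pb3_comb_smooth (K K' k : ℝ) : ContDiff ℝ ∞ (fun q : E => K • pull (Prod.fst : E → ℂ) (fun _ => dA) q +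
    K' • pull Pb3_m (fun _ => dA) q + pull (Prod.snd : E → ℂ) (Pb3_g k) q) :=
  (((Pb3_smooth contDiff_fst contDiff_const).const_smul K).add
    ((Pb3_smooth Pb3_m_smooth contDiff_const).const_smul K')).add (Pb3_smooth contDiff_snd (Pb3_g_smooth k))

private theorem Pb3_comb_cl (K K' k : ℝ) (q : E) :
    Cl (fun q : E => K • pull (Prod.fst : E → ℂ) (fun _ => dA) q +
    K' • pull Pb3_m (fun _ => dA) q + pull (Prod.snd : E → ℂ) (Pb3_g k) q) q := by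
  have s1 : ContDiff ℝ ∞ (pull (Prod.fst : E → ℂ) (fun _ => dA)) := Pb3_smooth contDiff_fst contDiff_const
  have s2 : ContDiff ℝ ∞ (pull Pb3_m (fun _ => dA)) := Pb3_smooth Pb3_m_smooth contDiff_const
  have s3 : ContDiff ℝ ∞ (pull (Prod.snd : E → ℂ) (Pb3_g k)) := Pb3_smooth contDiff_snd (Pb3_g_smooth k)
  have c1 : Cl (pull (Prod.fst : E → ℂ) (fun _ => dA)) q :=
    Pb3_cl contDiff_fst contDiff_const (fun _ => dA_self) q
  have c2 : Cl (pull Pb3_m (fun _ => dA)) q := Pb3_cl Pb3_m_smooth contDiff_const (fun _ => dA_self) q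
  have c3 : Cl (pull (Prod.snd : E → ℂ) (Pb3_g k)) q :=
    Pb3_cl contDiff_snd (Pb3_g_smooth k) (fun t u => by
      change (k / (1 + ‖t‖ ^ 2) ^ 2) • dA u u = 0
      rw [dA_self, smul_zero]) q
  have d1 := s1.differentiable (by simp) q
  have d2 := s2.differentiable (by simp) q
  have d3 := s3.differentiable (by simp) q
  exact ((c1.smul d1 K).add (c2.smul d2 K') (d1.const_smul K) (d2.const_smul K')).add c3
    ((d1.const_smul K).add (d2.const_smul K')) d3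

namespace HDat

variable {D : Curve} {J : JDat D} (T : HDat D J)

private theorem Pb3_hp_u (j : Fin 2) (κ : Rep) : T.hp (.u j κ) =
    fun q : E => T.K • pull (Prod.fst : E → ℂ) (fun _ => dA) q +
    (1 : ℝ) • pull Pb3_m (fun _ => dA) q + pull (Prod.snd : E → ℂ) (Pb3_g T.k) q := by
  funext q
  rw [Pb3_A, Pb3_B, Pb3_C, one_smul]
  rfl

private theorem Pb3_hp_w (j : Fin 2) (κ : Rep) : T.hp (.w j κ) =
    fun q : E => (1 : ℝ) • pull (Prod.fst : E → ℂ) (fun _ => dA) q +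
    T.K • pull Pb3_m (fun _ => dA) q + pull (Prod.snd : E → ℂ) (Pb3_g T.k) q := by
  funext q
  rw [Pb3_A, Pb3_B, Pb3_C, one_smul, add_comm (dA.bilinearComp dx dx)]
  rfl

private theorem Pb3_u_apply (j : Fin 2) (κ : Rep) (q u v : E) : T.hp (.u j κ) q u v =
    T.K * dA u.1 v.1 + dA (mm q u) (mm q v) + T.k / (1 + ‖q.2‖ ^ 2) ^ 2 * dA u.2 v.2 := rfl

private theorem Pb3_w_apply (j : Fin 2) (κ : Rep) (q u v : E) : T.hp (.w j κ) q u v =
    T.K * dA (mm q u) (mm q v) + dA u.1 v.1 + T.k / (1 + ‖q.2‖ ^ 2) ^ 2 * dA u.2 v.2 := rfl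

/-- `dA.bilinearComp (mm q) (mm q)` is bilinear in `q`; `1 + ‖q.2‖ ^ 2 ≠ 0`; `‖q.2‖ ^ 2` is smooth (`contDiff_norm_sq`). -/
theorem hp_smooth (a : Pt) : ContDiffOn ℝ ∞ (T.hp a) (D.dom a) := by
  cases a with
  | main => exact T.smooth
  | u j κ =>
    rw [Pb3_hp_u]
    exact (Pb3_comb_smooth _ _ _).contDiffOn
  | w j κ =>
    rw [Pb3_hp_w]
    exact (Pb3_comb_smooth _ _ _).contDiffOn

theorem hp_alt {a : Pt} {q : E} (hq : q ∈ D.dom a) (u : E) : T.hp a q u u = 0 := by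
  cases a with
  | main => exact T.alt q hq u
  | u j κ =>
    rw [Pb3_u_apply, dA_self, dA_self, dA_self]
    ring
  | w j κ =>
    rw [Pb3_w_apply, dA_self, dA_self, dA_self]
    ring

/-- In the patches `u`, `w` it is a sum of pullbacks of closed forms: `dA.bilinearComp dx dx` is constant,
`dA.bilinearComp (mm q) (mm q)` is the pullback of `dA` under `q ↦ q.1 * q.2`, and the last term is the pullback of the
form `(k / (1 + ‖t‖ ^ 2) ^ 2) • dA` on `ℂ` under `dy` (`cl_plane`, `cl_pull`). -/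
theorem hp_cl {a : Pt} {q : E} (hq : q ∈ D.dom a) : Cl (T.hp a) q := by
  cases a with
  | main => exact T.closed q hq
  | u j κ =>
    rw [Pb3_hp_u]
    exact Pb3_comb_cl _ _ _ q
  | w j κ =>
    rw [Pb3_hp_w]
    exact Pb3_comb_cl _ _ _ q

private theorem Pb3_pos {K k A B X Y Z : ℝ} (hK : 0 < K) (hk : 0 < k) (hB : 0 < B) (hX : 0 ≤ X) (hY : 0 ≤ Y)
    (hZ : 0 ≤ Z) (hA : 0 < A) (h : X ≠ 0 ∨ Z ≠ 0) : 0 < K * X + A * Y + k / B * Z := by
  have h1 : 0 < k / B := div_pos hk hB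
  have h2 : 0 ≤ A * Y := mul_nonneg hA.le hY
  rcases h with h | h
  · have h3 : 0 < K * X := mul_pos hK (lt_of_le_of_ne hX (Ne.symm h))
    have h4 : 0 ≤ k / B * Z := mul_nonneg h1.le hZ
    linarith
  · have h3 : 0 ≤ K * X := mul_nonneg hK.le hX
    have h4 : 0 < k / B * Z := mul_pos h1 (lt_of_le_of_ne hZ (Ne.symm h))
    linarith

/-- In the patches `u`, `w` with `J u = (I u.1, I u.2)` (`Jn_zero`): `dA_I`, `mm q (I u.1, I u.2) = I * mm q u`, so it is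
`K ‖u.1‖ ^ 2 + ‖mm q u‖ ^ 2 + k / (..) ^ 2 * ‖u.2‖ ^ 2` (patch `u`). -/
theorem hp_tame {a : Pt} {q : E} (hq : q ∈ D.dom a) {u : E} (hu : u ≠ 0) : 0 < T.hp a q u (J.Jp a q u) := by
  have hne : ‖u.1‖ ^ 2 ≠ 0 ∨ ‖u.2‖ ^ 2 ≠ 0 := by
    by_contra h
    rw [not_or, not_not, not_not] at h
    exact hu (Prod.ext (norm_eq_zero.1 (pow_eq_zero_iff two_ne_zero |>.1 h.1))
      (norm_eq_zero.1 (pow_eq_zero_iff two_ne_zero |>.1 h.2)))
  have hB : 0 < (1 + ‖q.2‖ ^ 2) ^ 2 := by positivity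
  have hm : mm q (I * u.1, I * u.2) = I * mm q u := by
    rw [Pb3_mm_apply, Pb3_mm_apply]
    ring
  cases a with
  | main => exact T.tame q hq u hu
  | u j κ =>
    have h1 : J.Jp (.u j κ) q u = (I * u.1, I * u.2) := Jn_zero u
    rw [h1, Pb3_u_apply, hm]
    change 0 < T.K * dA u.1 (I * u.1) + dA (mm q u) (I * mm q u) + T.k / (1 + ‖q.2‖ ^ 2) ^ 2 * dA u.2 (I * u.2)
    rw [dA_I, dA_I, dA_I]
    have h2 := Pb3_pos (A := 1) T.hK T.hk hB (sq_nonneg ‖u.1‖) (sq_nonneg ‖mm q u‖) (sq_nonneg ‖u.2‖) one_pos hne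
    rwa [one_mul] at h2
  | w j κ =>
    have h1 : J.Jp (.w j κ) q u = (I * u.1, I * u.2) := Jn_zero u
    rw [h1, Pb3_w_apply, hm]
    change 0 < T.K * dA (mm q u) (I * mm q u) + dA u.1 (I * u.1) + T.k / (1 + ‖q.2‖ ^ 2) ^ 2 * dA u.2 (I * u.2)
    rw [dA_I, dA_I, dA_I]
    have h2 := Pb3_pos (K := 1) one_pos T.hk hB (sq_nonneg ‖u.1‖) (sq_nonneg ‖mm q u‖) (sq_nonneg ‖u.2‖) T.hK hne
    rw [one_mul] at h2
    linarith

/-- Off the exceptional curve it is the pullback of the form of the base. Use `near` with `p = (q.1, q.1 * q.2)` resp.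
`p = (q.1 * q.2, q.1)`: `p ∧ D u = ± q.1 ^ 2 * u.2`, and `‖p.1‖ ^ 2 + ‖p.2‖ ^ 2 = ‖q.1‖ ^ 2 (1 + ‖q.2‖ ^ 2)`; `dA_mul`. -/
theorem hp_bl {a : Pt} {q : E} (hq : q ∈ D.dom a) (h : fac a q ≠ 0) (u v : E) :
    T.hp a q u v = T.η (D.bl a q) (fderiv ℝ (D.bl a) q u) (fderiv ℝ (D.bl a) q v) := by
  cases a with
  | main =>
    rw [D.fderiv_bl_main, D.fderiv_bl_main]
    rfl
  | u j κ =>
    have h0 : q.1 ≠ 0 := h
    have hn : ‖q.1‖ ≠ 0 := norm_ne_zero_iff.2 h0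
    have hp : ((q.1, q.1 * q.2) : E) ≠ 0 := fun h1 => h0 (congrArg Prod.fst h1)
    have hb : D.bl (.u j κ) q = D.c j + D.v (emb κ) + (q.1, q.1 * q.2) := rfl
    rw [D.fderiv_bl_u, D.fderiv_bl_u, hb, T.near j (emb κ) _ hp hq.1 hq.2, Pb3_u_apply]
    have e1 : ∀ z : E, q.1 * mm q z - q.1 * q.2 * z.1 = q.1 ^ 2 * z.2 := by
      intro z
      rw [Pb3_mm_apply]
      ring
    change _ = T.K * dA u.1 v.1 + dA (mm q u) (mm q v) +
      T.k * dA (q.1 * mm q u - q.1 * q.2 * u.1) (q.1 * mm q v - q.1 * q.2 * v.1) /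
        (‖q.1‖ ^ 2 + ‖q.1 * q.2‖ ^ 2) ^ 2
    rw [e1, e1, dA_mul, norm_mul, norm_pow]
    have h2 : (‖q.1‖ ^ 2 + (‖q.1‖ * ‖q.2‖) ^ 2) ^ 2 = (‖q.1‖ ^ 2) ^ 2 * (1 + ‖q.2‖ ^ 2) ^ 2 := by ring
    rw [h2]
    have h3 : (1 + ‖q.2‖ ^ 2) ^ 2 ≠ 0 := by positivity
    field_simp
  | w j κ =>
    have h0 : q.1 ≠ 0 := h
    have hn : ‖q.1‖ ≠ 0 := norm_ne_zero_iff.2 h0
    have hp : ((q.1 * q.2, q.1) : E) ≠ 0 := fun h1 => h0 (congrArg Prod.snd h1)
    have hb : D.bl (.w j κ) q = D.c j + D.v (emb κ) + (q.1 * q.2, q.1) := rfl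
    rw [D.fderiv_bl_w, D.fderiv_bl_w, hb, T.near j (emb κ) _ hp hq.2.1 hq.1, Pb3_w_apply]
    have e1 : ∀ z : E, q.1 * q.2 * z.1 - q.1 * mm q z = -q.1 ^ 2 * z.2 := by
      intro z
      rw [Pb3_mm_apply]
      ring
    change _ = T.K * dA (mm q u) (mm q v) + dA u.1 v.1 +
      T.k * dA (q.1 * q.2 * u.1 - q.1 * mm q u) (q.1 * q.2 * v.1 - q.1 * mm q v) /
        (‖q.1 * q.2‖ ^ 2 + ‖q.1‖ ^ 2) ^ 2
    rw [e1, e1, dA_mul, norm_mul, norm_neg, norm_pow]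
    have h2 : ((‖q.1‖ * ‖q.2‖) ^ 2 + ‖q.1‖ ^ 2) ^ 2 = (‖q.1‖ ^ 2) ^ 2 * (1 + ‖q.2‖ ^ 2) ^ 2 := by ring
    rw [h2]
    have h3 : (1 + ‖q.2‖ ^ 2) ^ 2 ≠ 0 := by positivity
    field_simp

end HDat

end Pool.Agent.Helper67.SY
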