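import Pool.Agent.Helper67.SY.Pb2

/-!
# Project SY (MP_872606_gt), block P: almost complex structure, (2,0)-form and section in the patches
-/

open Complex Filter Topology
open scoped ContDiff

namespace Pool.Agent.Helper67.SY

private theorem Pb4_normsq (ν : ℂ) : ((‖ν‖ : ℝ) : ℂ) ^ 2 = ν * (starRingEnd ℂ) ν := by
  rw [Complex.mul_conj, Complex.normSq_eq_norm_sq]
  push_cast
  ring

private theorem Pb4_conj_smooth {f : E → ℂ} (hf : ContDiff ℝ ∞ f) : ContDiff ℝ ∞ (fun q => (starRingEnd ℂ) (f q)) :=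
  Complex.conjCLE.contDiff.comp hf

private theorem Pb4_jn_smooth {f : E → ℂ} (hf : ContDiff ℝ ∞ f) (h : ∀ q, ‖f q‖ < 1) :
    ContDiff ℝ ∞ (fun q => jn (f q)) := by
  have h0 : ContDiff ℝ ∞ (fun q => f q * (starRingEnd ℂ) (f q)) := hf.mul (Pb4_conj_smooth hf)
  have hne : ∀ q, (1 - f q * (starRingEnd ℂ) (f q)) ≠ 0 := by
    intro q
    rw [← Pb4_normsq]
    have : (1 - ‖f q‖ ^ 2 : ℝ) ≠ 0 := by nlinarith [norm_nonneg (f q), h q]
    exact_mod_cast this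
  have hinv : ContDiff ℝ ∞ (fun q => (1 - f q * (starRingEnd ℂ) (f q))⁻¹) := (contDiff_const.sub h0).inv hne
  have h1 : ContDiff ℝ ∞ (fun q => I * (1 + f q * (starRingEnd ℂ) (f q)) / (1 - f q * (starRingEnd ℂ) (f q))) := by
    simp only [div_eq_mul_inv]
    exact (contDiff_const.mul (contDiff_const.add h0)).mul hinv
  have h2 : ContDiff ℝ ∞ (fun q => 2 * I * f q / (1 - f q * (starRingEnd ℂ) (f q))) := by
    simp only [div_eq_mul_inv]
    exact (contDiff_const.mul hf).mul hinv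
  have h3 : (fun q => jn (f q)) = fun q =>
      (I * (1 + f q * (starRingEnd ℂ) (f q)) / (1 - f q * (starRingEnd ℂ) (f q))) • ContinuousLinearMap.id ℝ ℂ +
      (2 * I * f q / (1 - f q * (starRingEnd ℂ) (f q))) • (Complex.conjCLE : ℂ →L[ℝ] ℂ) := by
    funext q
    unfold jn
    rw [Pb4_normsq]
  rw [h3]
  exact (h1.smul contDiff_const).add (h2.smul contDiff_const)

private theorem Pb4_Jn_smooth {f g : E → ℂ} (hf : ContDiff ℝ ∞ f) (hg : ContDiff ℝ ∞ g) (h : ∀ q, ‖f q‖ < 1) :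
    ContDiff ℝ ∞ (fun q => Jn (f q) (g q)) := by
  have hj := Pb4_jn_smooth hf h
  have hA : ContDiff ℝ ∞ (fun q => (jn (f q)).comp dx) := hj.clm_comp contDiff_const
  have hB : ContDiff ℝ ∞ (fun q => I • dy - (I * g q) • dxb +
      g q • (Complex.conjCLE : ℂ →L[ℝ] ℂ).comp ((jn (f q)).comp dx)) :=
    (contDiff_const.sub ((contDiff_const.mul hg).smul contDiff_const)).add
      (hg.smul (contDiff_const.clm_comp hA))
  have h3 : (fun q => Jn (f q) (g q)) = fun q => (ContinuousLinearMap.inl ℝ ℂ ℂ).comp ((jn (f q)).comp dx) +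
      (ContinuousLinearMap.inr ℝ ℂ ℂ).comp (I • dy - (I * g q) • dxb +
      g q • (Complex.conjCLE : ℂ →L[ℝ] ℂ).comp ((jn (f q)).comp dx)) := by
    funext q
    refine ContinuousLinearMap.ext fun u => ?_
    refine Prod.ext ?_ ?_
    · show jn (f q) (dx u) = jn (f q) (dx u) + 0
      rw [add_zero]
    · show (I • dy - (I * g q) • dxb +
        g q • (Complex.conjCLE : ℂ →L[ℝ] ℂ).comp ((jn (f q)).comp dx)) u = 0 + (I • dy - (I * g q) • dxb +
        g q • (Complex.conjCLE : ℂ →L[ℝ] ℂ).comp ((jn (f q)).comp dx)) u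
      rw [zero_add]
  rw [h3]
  exact (contDiff_const.clm_comp hA).add (contDiff_const.clm_comp hB)

private theorem Pb4_flip (V' W' G' : Type) [NormedAddCommGroup V'] [NormedSpace ℝ V'] [NormedAddCommGroup W']
    [NormedSpace ℝ W'] [NormedAddCommGroup G'] [NormedSpace ℝ G'] :
    ContDiff ℝ ∞ (fun B : V' →L[ℝ] W' →L[ℝ] G' => B.flip) :=
  ContinuousLinearMap.contDiff (𝕜 := ℝ) (E := V' →L[ℝ] W' →L[ℝ] G') (F := W' →L[ℝ] V' →L[ℝ] G')
    ((ContinuousLinearMap.flipₗᵢ ℝ V' W' G' : (V' →L[ℝ] W' →L[ℝ] G') ≃ₗᵢ[ℝ] (W' →L[ℝ] V' →L[ℝ] G')) :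
      (V' →L[ℝ] W' →L[ℝ] G') →L[ℝ] (W' →L[ℝ] V' →L[ℝ] G'))

private theorem Pb4_bil_smooth {α β : E → E →L[ℝ] ℂ} (hα : ContDiff ℝ ∞ α) (hβ : ContDiff ℝ ∞ β) :
    ContDiff ℝ ∞ (fun q => (ContinuousLinearMap.mul ℝ ℂ).bilinearComp (α q) (β q)) := by
  have h3 : ContDiff ℝ ∞ (fun q => (ContinuousLinearMap.mul ℝ ℂ).comp (α q)) := contDiff_const.clm_comp hα
  have h4 : ContDiff ℝ ∞ (fun q => ((ContinuousLinearMap.mul ℝ ℂ).comp (α q)).flip) := (Pb4_flip E ℂ ℂ).comp h3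
  have h5 : ContDiff ℝ ∞ (fun q => (((ContinuousLinearMap.mul ℝ ℂ).comp (α q)).flip).comp (β q)) := h4.clm_comp hβ
  exact (Pb4_flip E E ℂ).comp h5

private theorem Pb4_wedge_smooth {f g : E → ℂ} (hf : ContDiff ℝ ∞ f) (hg : ContDiff ℝ ∞ g) :
    ContDiff ℝ ∞ (fun q => wedge (al (f q)) (be (g q))) := by
  have hα : ContDiff ℝ ∞ (fun q => al (f q)) := contDiff_const.add (hf.smul contDiff_const)
  have hβ : ContDiff ℝ ∞ (fun q => be (g q)) := contDiff_const.sub (hg.smul contDiff_const)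
  exact (Pb4_bil_smooth hα hβ).sub (Pb4_bil_smooth hβ hα)

private theorem Pb4_mm (q u : E) : mm q u = q.2 * u.1 + q.1 * u.2 := rfl

private theorem Pb4_wedge0 (u v : E) : wedge (al 0) (be 0) u v = u.1 * v.2 - u.2 * v.1 := by
  rw [wedge_apply, al_apply, al_apply, be_apply, be_apply]
  ring

namespace JDat

variable {D : Curve} (J : JDat D)

theorem νp_lt (a : Pt) (q : E) : ‖J.νp a q‖ < 1 := by
  cases a with
  | main => exact J.ν_lt q.1
  | u j κ =>
    show ‖(0 : ℂ)‖ < 1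
    rw [norm_zero]
    exact one_pos
  | w j κ =>
    show ‖(0 : ℂ)‖ < 1
    rw [norm_zero]
    exact one_pos

/-- `Jn ν μ` is a smooth function of `ν`, `μ` for `‖ν‖ < 1`. -/
theorem Jp_smooth (a : Pt) : ContDiff ℝ ∞ (J.Jp a) := by
  have h1 : ContDiff ℝ ∞ (J.νp a) := by
    cases a with
    | main => exact J.smooth_ν.comp contDiff_fst
    | u j κ => exact contDiff_const
    | w j κ => exact contDiff_const
  have h2 : ContDiff ℝ ∞ (J.μp a) := by
    cases a with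
    | main => exact J.smooth_μ
    | u j κ => exact contDiff_const
    | w j κ => exact contDiff_const
  exact Pb4_Jn_smooth h1 h2 (J.νp_lt a)

theorem Jp_sq (a : Pt) (q u : E) : J.Jp a q (J.Jp a q u) = -u := Jn_sq (J.νp_lt a q) _ u

theorem Omp_smooth (a : Pt) : ContDiff ℝ ∞ (J.Omp a) := by
  cases a with
  | main => exact Pb4_wedge_smooth (J.smooth_ν.comp contDiff_fst) J.smooth_μ
  | u j κ => exact contDiff_const
  | w j κ => exact contDiff_const

theorem Omp_type (a : Pt) (q : E) : IsTwoZero (J.Jp a q) (J.Omp a q) := by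
  have h0 : IsTwoZero (Jn 0 0) (wedge (al 0) (be 0)) := wedge_type (by rw [norm_zero]; exact one_pos) 0
  cases a with
  | main => exact wedge_type (J.ν_lt q.1) (J.μ q)
  | u j κ => exact h0
  | w j κ =>
    refine ⟨fun u => ?_, fun u v => ?_⟩
    · show -(wedge (al 0) (be 0) u u) = 0
      rw [h0.1 u, neg_zero]
    · show -(wedge (al 0) (be 0) (Jn 0 0 u) v) = I * -(wedge (al 0) (be 0) u v)
      rw [h0.2 u v]
      ring

/-- `Omp a q (1, *) (0, 1) = ± (1 + ν) ≠ 0` (`u = (1, 0)`, `v = (0, 1)`). -/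
theorem Omp_ne (a : Pt) (q : E) : J.Omp a q ≠ 0 := by
  intro h
  have h1 : J.Omp a q (1, 0) (0, 1) = 0 := by
    rw [h]
    rfl
  cases a with
  | main =>
    have h2 : J.Omp .main q (1, 0) (0, 1) = 1 + J.ν q.1 := by
      show wedge (al (J.ν q.1)) (be (J.μ q)) (1, 0) (0, 1) = 1 + J.ν q.1
      rw [wedge_apply, al_apply, al_apply, be_apply, be_apply]
      simp
    rw [h2] at h1
    have h3 : J.ν q.1 = -1 := by linear_combination h1
    have h4 := J.ν_lt q.1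
    rw [h3, norm_neg, norm_one] at h4
    exact lt_irrefl _ h4
  | u j κ =>
    have h2 : J.Omp (.u j κ) q (1, 0) (0, 1) = 1 := by
      show wedge (al 0) (be 0) (1, 0) (0, 1) = 1
      rw [Pb4_wedge0]
      simp
    rw [h2] at h1
    exact one_ne_zero h1
  | w j κ =>
    have h2 : J.Omp (.w j κ) q (1, 0) (0, 1) = -1 := by
      show -(wedge (al 0) (be 0) (1, 0) (0, 1)) = -1
      rw [Pb4_wedge0]
      simp
    rw [h2] at h1
    exact (neg_ne_zero.mpr one_ne_zero) h1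

private theorem Pb4_base {a : Pt} {j : Fin 2} {κ : Rep} (ha : a.site = some (j, κ)) {q : E} (hq : q ∈ D.dom a) :
    J.ν (D.bl a q).1 = 0 ∧ J.μ (D.bl a q) = 0 := by
  obtain ⟨h1, h2⟩ := D.bl_near ha hq
  have hr := D.hr
  have h3 : ‖(D.bl a q - (D.c j + D.v (emb κ))).1‖ < D.r := by
    have : D.bl a q - (D.c j + D.v (emb κ)) = D.bl a q - D.cen j κ := rfl
    rw [this]
    linarith
  have h4 : ‖(D.bl a q - (D.c j + D.v (emb κ))).2‖ < D.r := by
    have : D.bl a q - (D.c j + D.v (emb κ)) = D.bl a q - D.cen j κ := rfl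
    rw [this]
    linarith
  refine ⟨J.near_c_ν j (emb κ) _ h3, J.near_c_μ j (emb κ) _ ?_⟩
  rw [Prod.norm_def]
  exact max_lt h3 h4

/-- The map to the base is holomorphic; in the patches `u`, `w` the base structure is `Jn 0 0` (`bl_near`, `near_c_ν`,
`near_c_μ`). -/
theorem Jp_bl {a : Pt} {q : E} (hq : q ∈ D.dom a) (u : E) :
    fderiv ℝ (D.bl a) q (J.Jp a q u) = J.Jb (D.bl a q) (fderiv ℝ (D.bl a) q u) := by
  cases a with
  | main =>
    rw [D.fderiv_bl_main, D.fderiv_bl_main]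
    rfl
  | u j κ =>
    obtain ⟨h1, h2⟩ := J.Pb4_base (a := .u j κ) rfl hq
    have h3 : J.Jb (D.bl (.u j κ) q) = Jn 0 0 := by
      unfold Jb
      rw [h1, h2]
    have h4 : J.Jp (.u j κ) q u = (I * u.1, I * u.2) := Jn_zero u
    rw [h3, Jn_zero, D.fderiv_bl_u, D.fderiv_bl_u, h4, Pb4_mm, Pb4_mm]
    refine Prod.ext rfl ?_
    show q.2 * (I * u.1) + q.1 * (I * u.2) = I * (q.2 * u.1 + q.1 * u.2)
    ring
  | w j κ =>
    obtain ⟨h1, h2⟩ := J.Pb4_base (a := .w j κ) rfl hq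
    have h3 : J.Jb (D.bl (.w j κ) q) = Jn 0 0 := by
      unfold Jb
      rw [h1, h2]
    have h4 : J.Jp (.w j κ) q u = (I * u.1, I * u.2) := Jn_zero u
    rw [h3, Jn_zero, D.fderiv_bl_w, D.fderiv_bl_w, h4, Pb4_mm, Pb4_mm]
    refine Prod.ext ?_ rfl
    show q.2 * (I * u.1) + q.1 * (I * u.2) = I * (q.2 * u.1 + q.1 * u.2)
    ring

theorem Om_bl {a : Pt} {q : E} (hq : q ∈ D.dom a) (u v : E) :
    J.Om (D.bl a q) (fderiv ℝ (D.bl a) q u) (fderiv ℝ (D.bl a) q v) = fac a q * J.Omp a q u v := by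
  cases a with
  | main =>
    rw [D.fderiv_bl_main, D.fderiv_bl_main]
    show _ = 1 * J.Omp .main q u v
    rw [one_mul]
    rfl
  | u j κ =>
    obtain ⟨h1, h2⟩ := J.Pb4_base (a := .u j κ) rfl hq
    have h3 : J.Om (D.bl (.u j κ) q) = wedge (al 0) (be 0) := by
      unfold Om
      rw [h1, h2]
    rw [h3, D.fderiv_bl_u, D.fderiv_bl_u, Pb4_wedge0, Pb4_mm, Pb4_mm]
    show u.1 * (q.2 * v.1 + q.1 * v.2) - (q.2 * u.1 + q.1 * u.2) * v.1 = q.1 * wedge (al 0) (be 0) u v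
    rw [Pb4_wedge0]
    ring
  | w j κ =>
    obtain ⟨h1, h2⟩ := J.Pb4_base (a := .w j κ) rfl hq
    have h3 : J.Om (D.bl (.w j κ) q) = wedge (al 0) (be 0) := by
      unfold Om
      rw [h1, h2]
    rw [h3, D.fderiv_bl_w, D.fderiv_bl_w, Pb4_wedge0, Pb4_mm, Pb4_mm]
    show (q.2 * u.1 + q.1 * u.2) * v.1 - u.1 * (q.2 * v.1 + q.1 * v.2) = q.1 * -(wedge (al 0) (be 0) u v)
    rw [Pb4_wedge0]
    ring

theorem Jb_add (n : Fin 4 → ℤ) (z : E) : J.Jb (z + D.v n) = J.Jb z := by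
  unfold Jb
  rw [J.per_μ, show (z + D.v n).1 = z.1 + (D.v n).1 from rfl, J.per_ν]

theorem Om_add (n : Fin 4 → ℤ) (z : E) : J.Om (z + D.v n) = J.Om z := by
  unfold Om
  rw [J.per_μ, show (z + D.v n).1 = z.1 + (D.v n).1 from rfl, J.per_ν]

end JDat

private theorem Pb4_ball {D : Curve} {a : Pt} {j : Fin 2} {κ : Rep} (ha : a.site = some (j, κ)) {q : E}
    (hq : q ∈ D.dom a) : D.bl a q ∈ Metric.ball (D.c j + D.v (emb κ)) (2 * D.r) := by
  obtain ⟨h1, h2⟩ := D.bl_near ha hq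
  have hr := D.hr
  rw [Metric.mem_ball, dist_eq_norm, Prod.norm_def]
  have h3 : ‖(D.bl a q - (D.c j + D.v (emb κ))).1‖ < D.r / 2 := h1
  have h4 : ‖(D.bl a q - (D.c j + D.v (emb κ))).2‖ < D.r / 2 := h2
  exact max_lt (by linarith) (by linarith)

private theorem Pb4_Vc {D : Curve} (H : Cov D) {a : Pt} {j : Fin 2} {κ : Rep} (ha : a.site = some (j, κ)) (m : ℕ) :
    ContDiffOn ℝ ∞ (fun q => H.Vc j (emb κ) (D.bl a q) ^ m) (D.dom a) :=
  ((H.Vc_smooth j (emb κ)).comp (D.bl_smooth a).contDiffOn fun _ hq => Pb4_ball ha hq).pow m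

private theorem Pb4_clU_smooth (a : Fin 6 → ℂ) (κ : ℝ) (t : ℂ) : ContDiff ℝ ∞ (clU a κ t) := by
  unfold clU
  refine (contDiff_fst.mul (ContDiff.sum fun i _ => contDiff_prod fun k _ => ?_)).add
    (contDiff_const.mul ((contDiff_snd.sub contDiff_const).pow 24))
  exact (contDiff_snd.sub contDiff_const).pow 5

private theorem Pb4_clW_smooth (a : Fin 6 → ℂ) (κ : ℝ) (t : ℂ) : ContDiff ℝ ∞ (clW a κ t) := by
  unfold clW
  refine (contDiff_fst.mul (ContDiff.sum fun i _ => contDiff_prod fun k _ => ?_)).add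
    (contDiff_const.mul ((contDiff_const.sub (contDiff_const.mul contDiff_snd)).pow 24))
  exact (contDiff_const.sub (contDiff_const.mul contDiff_snd)).pow 5

private theorem Pb4_clU_eq (a : Fin 6 → ℂ) (κ : ℝ) (t : ℂ) (q : E) :
    clNum a κ t (q.1, q.1 * q.2) = q.1 ^ 24 * clU a κ t q := by
  unfold clNum clU
  have h1 : ∀ i : Fin 6, ∏ k ∈ Finset.univ.erase i, (q.1 * q.2 - a k * q.1) ^ 5 =
      q.1 ^ 25 * ∏ k ∈ Finset.univ.erase i, (q.2 - a k) ^ 5 := by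
    intro i
    have h2 : ∀ k ∈ Finset.univ.erase i, (q.1 * q.2 - a k * q.1) ^ 5 = q.1 ^ 5 * (q.2 - a k) ^ 5 := by
      intro k _
      rw [← mul_pow]
      ring
    rw [Finset.prod_congr rfl h2, Finset.prod_mul_distrib, Finset.prod_const, Finset.card_erase_of_mem (Finset.mem_univ i),
      Finset.card_univ, Fintype.card_fin, ← pow_mul]
  show (∑ i, ∏ k ∈ Finset.univ.erase i, (q.1 * q.2 - a k * q.1) ^ 5) + κ * (q.1 * q.2 - t * q.1) ^ 24 = _
  rw [Finset.sum_congr rfl fun i _ => h1 i, ← Finset.mul_sum, show q.1 * q.2 - t * q.1 = q.1 * (q.2 - t) by ring, mul_pow]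
  ring

private theorem Pb4_clW_eq (a : Fin 6 → ℂ) (κ : ℝ) (t : ℂ) (q : E) :
    clNum a κ t (q.1 * q.2, q.1) = q.1 ^ 24 * clW a κ t q := by
  unfold clNum clW
  have h1 : ∀ i : Fin 6, ∏ k ∈ Finset.univ.erase i, (q.1 - a k * (q.1 * q.2)) ^ 5 =
      q.1 ^ 25 * ∏ k ∈ Finset.univ.erase i, (1 - a k * q.2) ^ 5 := by
    intro i
    have h2 : ∀ k ∈ Finset.univ.erase i, (q.1 - a k * (q.1 * q.2)) ^ 5 = q.1 ^ 5 * (1 - a k * q.2) ^ 5 := by
      intro k _
      rw [← mul_pow]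
      ring
    rw [Finset.prod_congr rfl h2, Finset.prod_mul_distrib, Finset.prod_const, Finset.card_erase_of_mem (Finset.mem_univ i),
      Finset.card_univ, Fintype.card_fin, ← pow_mul]
  show (∑ i, ∏ k ∈ Finset.univ.erase i, (q.1 - a k * (q.1 * q.2)) ^ 5) + κ * (q.1 - t * (q.1 * q.2)) ^ 24 = _
  rw [Finset.sum_congr rfl fun i _ => h1 i, ← Finset.mul_sum,
    show q.1 - t * (q.1 * q.2) = q.1 * (1 - t * q.2) by ring, mul_pow]
  ring

namespace SDat

variable {D : Curve} {H : Cov D} (S : SDat D H)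

theorem Rp_smooth (a : Pt) : ContDiffOn ℝ ∞ (S.Rp a) (D.dom a) := by
  cases a with
  | main => exact S.smooth
  | u j κ => exact (Pb4_clU_smooth _ _ _).contDiffOn.mul (Pb4_Vc H (a := .u j κ) rfl 30)
  | w j κ => exact (Pb4_clW_smooth _ _ _).contDiffOn.mul (Pb4_Vc H (a := .w j κ) rfl 30)

/-- `near_c`; `clNum a κ t (q.1, q.1 * q.2) = q.1 ^ 24 * clU a κ t q`, and so on. -/
theorem Rp_bl {a : Pt} {q : E} (hq : q ∈ D.dom a) (h : fac a q ≠ 0) : S.R (D.bl a q) = fac a q ^ 24 * S.Rp a q := by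
  cases a with
  | main =>
    show S.R q = 1 ^ 24 * S.R q
    rw [one_pow, one_mul]
  | u j κ =>
    have hq1 : q.1 ≠ 0 := h
    have hp : ((q.1, q.1 * q.2) : E) ≠ 0 := fun h0 => hq1 (congrArg Prod.fst h0)
    have h1 := S.near_c j (emb κ) (q.1, q.1 * q.2) hp hq.1 hq.2
    show S.R (D.c j + D.v (emb κ) + (q.1, q.1 * q.2)) = q.1 ^ 24 * (clU (D.a j) S.κ (S.t j) q *
      H.Vc j (emb κ) (D.c j + D.v (emb κ) + (q.1, q.1 * q.2)) ^ 30)
    rw [h1, Pb4_clU_eq, mul_assoc]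
  | w j κ =>
    have hq1 : q.1 ≠ 0 := h
    have hp : ((q.1 * q.2, q.1) : E) ≠ 0 := fun h0 => hq1 (congrArg Prod.snd h0)
    have h1 := S.near_c j (emb κ) (q.1 * q.2, q.1) hp hq.2.1 hq.1
    show S.R (D.c j + D.v (emb κ) + (q.1 * q.2, q.1)) = q.1 ^ 24 * (clW (D.a j) S.κ (S.t j) q *
      H.Vc j (emb κ) (D.c j + D.v (emb κ) + (q.1 * q.2, q.1)) ^ 30)
    rw [h1, Pb4_clW_eq, mul_assoc]

end SDat

end Pool.Agent.Helper67.SY
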