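import Pool.Agent.Helper67.SY.Dt

/-!
# Project SY (MP_872606_gt), block S: the section of `K ^ 6`
-/

open Complex Filter Topology
open scoped ContDiff

namespace Pool.Agent.Helper67.SY

/-- The local problem for the function `S` with poles of order five along the curve. -/
def ST (D : Curve) (z : E) (m : E → ℂ) : Prop :=
  (z ∉ D.C → ContDiffAt ℝ ∞ m z) ∧
  (∀ f, D.Gr z f → ∃ G : E → ℂ, ContDiffAt ℝ ∞ G z ∧ ∀ᶠ w in 𝓝 z,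
    (w ∉ D.C → m w = G w / (w.2 - f w.1) ^ 5) ∧ (w ∈ D.C → G w = 1)) ∧
  (∀ j n, z = D.b j + D.v n → ∃ G : E → ℂ, ContDiffAt ℝ ∞ G z ∧ ∀ᶠ w in 𝓝 z,
    (w ∉ D.C → m w = G w / brEqn z (D.A j) w ^ 5) ∧ (w ∈ D.C → G w = 32 * (w.2 - z.2) ^ 5)) ∧
  (∀ j n, ‖z - (D.c j + D.v n)‖ < D.r → ∀ᶠ w in 𝓝 z, w ∉ D.C →
    m w = ∑ i, 1 / (w.2 - (D.c j + D.v n).2 - D.a j i * (w.1 - (D.c j + D.v n).1)) ^ 5)

/-- The periodic function `S` with the additional term near the 6-fold points. -/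
structure SPre (D : Curve) where
  S : E → ℂ
  κ : ℝ
  t : Fin 2 → ℂ
  hκ : 0 < κ
  ht : ∀ j, ‖t j‖ < 1 + ∑ i, ‖D.a j i‖
  ht' : ∀ j i, D.a j i ≠ t j
  per : ∀ n z, S (z + D.v n) = S z
  off : ∀ z, z ∉ D.C → ContDiffAt ℝ ∞ S z
  near_c : ∀ j n (p : E), ‖p.1‖ < D.r / 2 → ‖p.2‖ < D.r / 2 → D.c j + D.v n + p ∉ D.C →
    S (D.c j + D.v n + p) = clNum (D.a j) κ (t j) p / (∏ i, (p.2 - D.a j i * p.1)) ^ 5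
  near_b : ∀ j n, ∃ G : E → ℂ, ContDiffAt ℝ ∞ G (D.b j + D.v n) ∧ ∀ᶠ w in 𝓝 (D.b j + D.v n),
    (w ∉ D.C → S w = G w / brEqn (D.b j + D.v n) (D.A j) w ^ 5) ∧
    (w ∈ D.C → G w = 32 * (w.2 - (D.b j + D.v n).2) ^ 5)
  zs_lt : ∀ j i, ‖zs (D.a j) κ (t j) i‖ < D.r / 2 ∧ ‖D.a j i * zs (D.a j) κ (t j) i‖ < D.r / 2
  reg : ∀ z f, D.Gr z f → (∀ j n, D.r / 2 ≤ ‖z - (D.c j + D.v n)‖) → ∃ G : E → ℂ, ContDiffAt ℝ ∞ G z ∧ G z ≠ 0 ∧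
    ∀ᶠ w in 𝓝 z, w ∉ D.C → S w = G w / (w.2 - f w.1) ^ 5

end Pool.Agent.Helper67.SY
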