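import Pool.Agent.Helper67.SY.Sx0
import Pool.Agent.Helper67.SY.EqA1

/-!
# Project SY (MP_872606_gt), block S: the section of `K ^ 6`
-/

open Complex Filter Topology
open scoped ContDiff

namespace Pool.Agent.Helper67.SY

theorem ST.congr (D : Curve) (z : E) (m m' : E → ℂ) (h : ∀ᶠ w in 𝓝 z, m w = m' w) (hm : ST D z m) : ST D z m' := by
  obtain ⟨h1, h2, h3, h4⟩ := hm
  refine ⟨fun hz => (h1 hz).congr_of_eventuallyEq (h.mono fun w hw => hw.symm), fun f hf => ?_,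
    fun j n hz => ?_, fun j n hz => ?_⟩
  · obtain ⟨G, hG, hG'⟩ := h2 f hf
    refine ⟨G, hG, ?_⟩
    filter_upwards [hG', h] with w a1 a2
    exact ⟨fun hw => by rw [← a2]; exact a1.1 hw, a1.2⟩
  · obtain ⟨G, hG, hG'⟩ := h3 j n hz
    refine ⟨G, hG, ?_⟩
    filter_upwards [hG', h] with w a1 a2
    exact ⟨fun hw => by rw [← a2]; exact a1.1 hw, a1.2⟩
  · filter_upwards [h4 j n hz, h] with w a1 a2 hw
    rw [← a2]
    exact a1 hw

private theorem Sx1_v_sub (D : Curve) (n n' : Fin 4 → ℤ) : D.v (n' - n) = D.v n' - D.v n := by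
  have h : D.v (n' - n + n) = D.v (n' - n) + D.v n := vec_add _ _ _ _ _
  rw [sub_add_cancel] at h
  rw [h, add_sub_cancel_right]

private theorem Sx1_mem (D : Curve) (n : Fin 4 → ℤ) (w : E) : w - D.v n ∈ D.C ↔ w ∈ D.C := by
  have h := D.periodic n (w - D.v n)
  have e : w - D.v n + vec D.p D.q D.M n = w := sub_add_cancel w (D.v n)
  rw [e] at h
  exact h.symm

private theorem Sx1_tendsto (z v : E) : Tendsto (fun w : E => w - v) (𝓝 (z + v)) (𝓝 z) := by
  have h : ContinuousAt (fun w : E => w - v) (z + v) := by fun_prop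
  have h' := h.tendsto
  rwa [add_sub_cancel_right] at h'

private theorem Sx1_tendsto' (z v : E) : Tendsto (fun w : E => w + v) (𝓝 z) (𝓝 (z + v)) := by
  have h : ContinuousAt (fun w : E => w + v) z := by fun_prop
  exact h.tendsto

private theorem Sx1_smooth {G : E → ℂ} {z v : E} (h : ContDiffAt ℝ ∞ G z) :
    ContDiffAt ℝ ∞ (fun w => G (w - v)) (z + v) := by
  have h1 : ContDiffAt ℝ ∞ (fun w : E => w - v) (z + v) := contDiffAt_id.sub contDiffAt_const
  have h2 : ContDiffAt ℝ ∞ G ((fun w : E => w - v) (z + v)) := by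
    simpa using h
  exact h2.comp (z + v) h1

private theorem Sx1_gr (D : Curve) (z : E) (n : Fin 4 → ℤ) (f : ℂ → ℂ) (h : D.Gr (z + D.v n) f) :
    D.Gr z (fun x => f (x + (D.v n).1) - (D.v n).2) := by
  refine ⟨?_, fun j n' hz => ?_, fun j n' hz => ?_, ?_, ?_, ?_⟩
  · have := h.mem
    rw [← Sx1_mem D n] at this
    rwa [add_sub_cancel_right] at this
  · refine h.ne_b j (n' + n) ?_
    have e : D.v (n' + n) = D.v n' + D.v n := vec_add _ _ _ _ _
    rw [e, hz]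
    abel
  · refine h.ne_c j (n' + n) ?_
    have e : D.v (n' + n) = D.v n' + D.v n := vec_add _ _ _ _ _
    rw [e, hz]
    abel
  · have h1 : ContDiffAt ℝ ∞ (fun x : ℂ => x + (D.v n).1) z.1 := contDiffAt_id.add contDiffAt_const
    have h2 : ContDiffAt ℝ ∞ f ((fun x : ℂ => x + (D.v n).1) z.1) := h.smooth
    exact (h2.comp z.1 h1).sub contDiffAt_const
  · have h1 : f (z.1 + (D.v n).1) = z.2 + (D.v n).2 := h.val
    simp only [h1, add_sub_cancel_right]
  · have h1 := (Sx1_tendsto' z (D.v n)).eventually h.graph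
    filter_upwards [h1] with w hw
    rw [← Sx1_mem D n (w + D.v n), add_sub_cancel_right] at hw
    rw [hw]
    show w.2 + (D.v n).2 = f (w.1 + (D.v n).1) ↔ w.2 = f (w.1 + (D.v n).1) - (D.v n).2
    constructor
    · intro e
      rw [← e]
      ring
    · intro e
      rw [e]
      ring

/-- `Gr z f` is equivalent to `Gr (z + v n) (x ↦ f (x - (v n).1) + (v n).2)`; use `periodic`, `vec_add`, `vec_neg`. -/
theorem ST.trans (D : Curve) (z : E) (m : E → ℂ) (n : Fin 4 → ℤ) (hm : ST D z m) :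
    ST D (z + D.v n) (fun w => m (w - D.v n)) := by
  obtain ⟨h1, h2, h3, h4⟩ := hm
  refine ⟨fun hz => ?_, fun f hf => ?_, fun j n' hz => ?_, fun j n' hz => ?_⟩
  · have hz' : z ∉ D.C := by
      intro h
      apply hz
      rw [← Sx1_mem D n, add_sub_cancel_right]
      exact h
    exact Sx1_smooth (h1 hz')
  · obtain ⟨G, hG, hG'⟩ := h2 _ (Sx1_gr D z n f hf)
    refine ⟨fun w => G (w - D.v n), Sx1_smooth hG, ?_⟩
    filter_upwards [(Sx1_tendsto z (D.v n)).eventually hG'] with w hw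
    rw [Sx1_mem] at hw
    refine ⟨fun h => ?_, hw.2⟩
    rw [hw.1 h]
    have e : (w - D.v n).2 - (f ((w - D.v n).1 + (D.v n).1) - (D.v n).2) = w.2 - f w.1 := by
      simp only [Prod.fst_sub, Prod.snd_sub, sub_add_cancel]
      ring
    rw [e]
  · obtain ⟨G, hG, hG'⟩ := h3 j (n' - n) (by
      rw [Sx1_v_sub, eq_sub_of_add_eq hz]
      abel)
    refine ⟨fun w => G (w - D.v n), Sx1_smooth hG, ?_⟩
    filter_upwards [(Sx1_tendsto z (D.v n)).eventually hG'] with w hw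
    rw [Sx1_mem] at hw
    have e2 : (w - D.v n).2 - z.2 = w.2 - (z + D.v n).2 := by
      simp only [Prod.snd_sub, Prod.snd_add]
      ring
    have e1 : (w - D.v n).1 - z.1 = w.1 - (z + D.v n).1 := by
      simp only [Prod.fst_sub, Prod.fst_add]
      ring
    have e : brEqn z (D.A j) (w - D.v n) = brEqn (z + D.v n) (D.A j) w := by
      unfold brEqn
      rw [e1, e2]
    refine ⟨fun h => ?_, fun h => ?_⟩
    · rw [hw.1 h, e]
    · rw [hw.2 h, e2]
  · have e0 : z - (D.c j + D.v (n' - n)) = z + D.v n - (D.c j + D.v n') := by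
      rw [Sx1_v_sub]
      abel
    have hz' : ‖z - (D.c j + D.v (n' - n))‖ < D.r := by
      rw [e0]
      exact hz
    filter_upwards [(Sx1_tendsto z (D.v n)).eventually (h4 j (n' - n) hz')] with w hw h
    rw [Sx1_mem] at hw
    rw [hw h]
    refine Finset.sum_congr rfl fun i _ => ?_
    have e1 : (w - D.v n).1 - (D.c j + D.v (n' - n)).1 = w.1 - (D.c j + D.v n').1 := by
      rw [Sx1_v_sub]
      simp only [Prod.fst_sub, Prod.fst_add]
      ring
    have e2 : (w - D.v n).2 - (D.c j + D.v (n' - n)).2 = w.2 - (D.c j + D.v n').2 := by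
      rw [Sx1_v_sub]
      simp only [Prod.snd_sub, Prod.snd_add]
      ring
    rw [e1, e2]

private theorem Sx1_cast {ρ : E → ℝ} (h : ContDiff ℝ ∞ ρ) (z : E) :
    ContDiffAt ℝ ∞ (fun w => ((ρ w : ℝ) : ℂ)) z :=
  (Complex.ofRealCLM.contDiff.comp h).contDiffAt

private theorem Sx1_sum {s : Finset (Fin 4 → ℤ)} {ρ : (Fin 4 → ℤ) → E → ℝ}
    {G : (Fin 4 → ℤ) → E → ℂ} {z : E} (hρ : ∀ k ∈ s, ContDiff ℝ ∞ (ρ k))
    (hG : ∀ k ∈ s, ContDiffAt ℝ ∞ (G k) z) :
    ContDiffAt ℝ ∞ (fun w => ∑ k ∈ s, (ρ k w : ℂ) * G k w) z :=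
  ContDiffAt.sum fun k hk => (Sx1_cast (hρ k hk) z).mul (hG k hk)

/-- Take the same convex combination of the functions `G`. -/
theorem ST.conv (D : Curve) (z : E) (s : Finset (Fin 4 → ℤ)) (ρ : (Fin 4 → ℤ) → E → ℝ) (m : (Fin 4 → ℤ) → E → ℂ)
    (hρ : ∀ k ∈ s, ContDiff ℝ ∞ (ρ k)) (h1 : ∀ᶠ w in 𝓝 z, ∑ k ∈ s, ρ k w = 1) (hm : ∀ k ∈ s, ST D z (m k)) :
    ST D z (fun w => ∑ k ∈ s, (ρ k w : ℂ) * m k w) := by
  have hc : ∀ᶠ w in 𝓝 z, ∑ k ∈ s, ((ρ k w : ℝ) : ℂ) = 1 := by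
    filter_upwards [h1] with w hw
    exact_mod_cast hw
  refine ⟨fun hz => Sx1_sum hρ fun k hk => (hm k hk).1 hz, fun f hf => ?_, fun j n hz => ?_,
    fun j n hz => ?_⟩
  · have hex : ∀ k, ∃ G : E → ℂ, k ∈ s → ContDiffAt ℝ ∞ G z ∧ ∀ᶠ w in 𝓝 z,
        (w ∉ D.C → m k w = G w / (w.2 - f w.1) ^ 5) ∧ (w ∈ D.C → G w = 1) := by
      intro k
      by_cases hk : k ∈ s
      · obtain ⟨G, hG⟩ := (hm k hk).2.1 f hf
        exact ⟨G, fun _ => hG⟩
      · exact ⟨fun _ => 0, fun h => absurd h hk⟩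
    choose G hG using hex
    refine ⟨fun w => ∑ k ∈ s, (ρ k w : ℂ) * G k w, Sx1_sum hρ fun k hk => (hG k hk).1, ?_⟩
    filter_upwards [(Filter.eventually_all_finset s).2 fun k hk => (hG k hk).2, hc] with w hw hcw
    refine ⟨fun h => ?_, fun h => ?_⟩
    · rw [Finset.sum_div]
      refine Finset.sum_congr rfl fun k hk => ?_
      rw [(hw k hk).1 h, mul_div_assoc]
    · rw [← hcw]
      refine Finset.sum_congr rfl fun k hk => ?_
      rw [(hw k hk).2 h, mul_one]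
  · have hex : ∀ k, ∃ G : E → ℂ, k ∈ s → ContDiffAt ℝ ∞ G z ∧ ∀ᶠ w in 𝓝 z,
        (w ∉ D.C → m k w = G w / brEqn z (D.A j) w ^ 5) ∧
        (w ∈ D.C → G w = 32 * (w.2 - z.2) ^ 5) := by
      intro k
      by_cases hk : k ∈ s
      · obtain ⟨G, hG⟩ := (hm k hk).2.2.1 j n hz
        exact ⟨G, fun _ => hG⟩
      · exact ⟨fun _ => 0, fun h => absurd h hk⟩
    choose G hG using hex
    refine ⟨fun w => ∑ k ∈ s, (ρ k w : ℂ) * G k w, Sx1_sum hρ fun k hk => (hG k hk).1, ?_⟩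
    filter_upwards [(Filter.eventually_all_finset s).2 fun k hk => (hG k hk).2, hc] with w hw hcw
    refine ⟨fun h => ?_, fun h => ?_⟩
    · rw [Finset.sum_div]
      refine Finset.sum_congr rfl fun k hk => ?_
      rw [(hw k hk).1 h, mul_div_assoc]
    · have e : ∀ k ∈ s, (ρ k w : ℂ) * G k w = (ρ k w : ℂ) * (32 * (w.2 - z.2) ^ 5) := by
        intro k hk
        rw [(hw k hk).2 h]
      rw [Finset.sum_congr rfl e, ← Finset.sum_mul, hcw, one_mul]
  · filter_upwards [(Filter.eventually_all_finset s).2 fun k hk => (hm k hk).2.2.2 j n hz, hc]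
      with w hw hcw h
    have e : ∀ k ∈ s, (ρ k w : ℂ) * m k w = (ρ k w : ℂ) *
        ∑ i, 1 / (w.2 - (D.c j + D.v n).2 - D.a j i * (w.1 - (D.c j + D.v n).1)) ^ 5 := by
      intro k hk
      rw [hw k hk h]
    rw [Finset.sum_congr rfl e, ← Finset.sum_mul, hcw, one_mul]

end Pool.Agent.Helper67.SY
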