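import Pool.Agent.Helper67.SY.Sx0
import Pool.Agent.Helper67.SY.Jx2
import Pool.Agent.Helper67.SY.EqA2

/-!
# Project SY (MP_872606_gt), block S: the section of `K ^ 6`
-/

open Complex Filter Topology
open scoped ContDiff

namespace Pool.Agent.Helper67.SY

/-! ### private lemmas -/

private theorem Sx2_div {f g : E → ℂ} {w : E} (hf : ContDiffAt ℝ ∞ f w) (hg : ContDiffAt ℝ ∞ g w) (h : g w ≠ 0) :
    ContDiffAt ℝ ∞ (fun x => f x / g x) w := by
  simp only [div_eq_mul_inv]
  exact hf.mul (hg.inv h)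

private theorem Sx2_lin (c : E) (a : ℂ) (w : E) :
    ContDiffAt ℝ ∞ (fun w' : E => (w'.2 - c.2 - a * (w'.1 - c.1)) ^ 5) w := by
  fun_prop

private theorem Sx2_snd (c : E) (w : E) : ContDiffAt ℝ ∞ (fun w' : E => 32 * (w'.2 - c.2) ^ 5) w := by
  fun_prop

private theorem Sx2_cl (D : Curve) {j : Fin 2} {n : Fin 4 → ℤ} {w : E} (h : ‖w - (D.c j + D.v n)‖ < 2 * D.r) :
    w ∈ D.C ↔ ∏ i, (w.2 - (D.c j + D.v n).2 - D.a j i * (w.1 - (D.c j + D.v n).1)) = 0 := by
  have h1 : (w - D.v n) - D.c j = w - (D.c j + D.v n) := by abel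
  have h2 := D.cl j (w - D.v n) (by rw [h1]; exact h)
  have h3 := D.periodic n (w - D.v n)
  have h4 : (w - D.v n) + vec D.p D.q D.M n = w := by
    unfold Curve.v
    abel
  rw [h4] at h3
  rw [h3, h2]
  unfold clEqn
  have h5 : ∀ i, (w - D.v n).2 - (D.c j).2 - D.a j i * ((w - D.v n).1 - (D.c j).1)
      = w.2 - (D.c j + D.v n).2 - D.a j i * (w.1 - (D.c j + D.v n).1) := by
    intro i
    simp only [Prod.fst_sub, Prod.snd_sub, Prod.fst_add, Prod.snd_add]
    ring
  simp only [h5]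

private theorem Sx2_br (D : Curve) {j : Fin 2} {n : Fin 4 → ℤ} {w : E} (h : ‖w - (D.b j + D.v n)‖ < 2 * D.r) :
    w ∈ D.C ↔ brEqn (D.b j + D.v n) (D.A j) w = 0 := by
  have h1 : (w - D.v n) - D.b j = w - (D.b j + D.v n) := by abel
  have h2 := D.br j (w - D.v n) (by rw [h1]; exact h)
  have h3 := D.periodic n (w - D.v n)
  have h4 : (w - D.v n) + vec D.p D.q D.M n = w := by
    unfold Curve.v
    abel
  rw [h4] at h3
  rw [h3, h2]
  unfold brEqn
  have h5 : (w - D.v n).2 - (D.b j).2 = w.2 - (D.b j + D.v n).2 := by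
    simp only [Prod.snd_sub, Prod.snd_add]
    ring
  have h6 : (w - D.v n).1 - (D.b j).1 = w.1 - (D.b j + D.v n).1 := by
    simp only [Prod.fst_sub, Prod.fst_add]
    ring
  rw [h5, h6]

private theorem Sx2_b_mem (D : Curve) (j : Fin 2) (n : Fin 4 → ℤ) : D.b j + D.v n ∈ D.C := by
  rw [Sx2_br D (j := j) (n := n) (by rw [sub_self, norm_zero]; linarith [D.hr])]
  simp [brEqn]

private theorem Sx2_sep_c (D : Curve) {z : E} (hz : ∀ j n, D.r < ‖z - (D.c j + D.v n)‖) :
    ∃ δ > 0, ∀ w ∈ Metric.ball z δ, ∀ j n, D.r ≤ ‖w - (D.c j + D.v n)‖ := by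
  by_cases h : ∃ j n, ‖z - (D.c j + D.v n)‖ < 2 * D.r
  · obtain ⟨j, n, hjn⟩ := h
    have hpos := hz j n
    refine ⟨min D.r (‖z - (D.c j + D.v n)‖ - D.r), lt_min D.hr (by linarith), fun w hw j' n' => ?_⟩
    rw [Metric.mem_ball, dist_eq_norm] at hw
    have h1 := lt_of_lt_of_le hw (min_le_left _ _)
    have h2 := lt_of_lt_of_le hw (min_le_right _ _)
    have h3 : z - (D.c j' + D.v n') = (w - (D.c j' + D.v n')) - (w - z) := by abel
    have h4 : ‖z - (D.c j' + D.v n')‖ ≤ ‖w - (D.c j' + D.v n')‖ + ‖w - z‖ := by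
      rw [h3]
      exact norm_sub_le _ _
    by_contra hlt
    push Not at hlt
    have h5 : ‖z - (D.c j' + D.v n')‖ < 2 * D.r := by linarith
    obtain ⟨e1, e2⟩ := D.special_unique_c hjn h5
    subst e1
    subst e2
    linarith
  · push Not at h
    refine ⟨D.r, D.hr, fun w hw j' n' => ?_⟩
    rw [Metric.mem_ball, dist_eq_norm] at hw
    have h3 : z - (D.c j' + D.v n') = (w - (D.c j' + D.v n')) - (w - z) := by abel
    have h4 : ‖z - (D.c j' + D.v n')‖ ≤ ‖w - (D.c j' + D.v n')‖ + ‖w - z‖ := by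
      rw [h3]
      exact norm_sub_le _ _
    have := h j' n'
    linarith

private theorem Sx2_sep_b (D : Curve) {z : E} (hz : ∀ j n, z ≠ D.b j + D.v n) :
    ∃ δ > 0, ∀ w ∈ Metric.ball z δ, ∀ j n, w ≠ D.b j + D.v n := by
  by_cases h : ∃ j n, ‖z - (D.b j + D.v n)‖ < 2 * D.r
  · obtain ⟨j, n, hjn⟩ := h
    have hpos : 0 < ‖z - (D.b j + D.v n)‖ := norm_pos_iff.mpr (sub_ne_zero.mpr (hz j n))
    refine ⟨min D.r ‖z - (D.b j + D.v n)‖, lt_min D.hr hpos, fun w hw j' n' heq => ?_⟩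
    rw [Metric.mem_ball, dist_eq_norm] at hw
    have h1 := lt_of_lt_of_le hw (min_le_left _ _)
    have h2 := lt_of_lt_of_le hw (min_le_right _ _)
    have h3 : ‖z - (D.b j' + D.v n')‖ = ‖w - z‖ := by
      rw [← heq]
      exact norm_sub_rev _ _
    have h5 : ‖z - (D.b j' + D.v n')‖ < 2 * D.r := by
      rw [h3]
      linarith [D.hr]
    obtain ⟨e1, e2⟩ := D.special_unique_b hjn h5
    subst e1
    subst e2
    linarith
  · push Not at h
    refine ⟨D.r, D.hr, fun w hw j' n' heq => ?_⟩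
    rw [Metric.mem_ball, dist_eq_norm] at hw
    have h3 : ‖z - (D.b j' + D.v n')‖ = ‖w - z‖ := by
      rw [← heq]
      exact norm_sub_rev _ _
    have := h j' n'
    linarith [D.hr]

private theorem Sx2_tendsto (D : Curve) {w : E} {f : ℂ → ℂ} (h : D.Gr w f) :
    Tendsto (fun x : ℂ => ((x, f x) : E)) (𝓝 w.1) (𝓝 w) := by
  have h1 : ContinuousAt (fun x : ℂ => ((x, f x) : E)) w.1 := continuousAt_id.prodMk h.smooth.continuousAt
  have h2 : ((w.1, f w.1) : E) = w := by rw [h.val]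
  have h3 := h1.tendsto
  rwa [h2] at h3

private theorem Sx2_eq (D : Curve) {w : E} {f f' : ℂ → ℂ} {U : Set E} (hU : IsOpen U) (hw : w ∈ U)
    (hg : ∀ w' ∈ U, (w' ∈ D.C ↔ w'.2 = f w'.1)) (h : D.Gr w f') : ∀ᶠ x in 𝓝 w.1, f' x = f x := by
  have h1 := Sx2_tendsto D h
  filter_upwards [h1.eventually h.graph, h1.eventually (hU.mem_nhds hw)] with x hx hx'
  exact (hg _ hx').mp (hx.mpr rfl)

private theorem Sx2_fst {w : E} {p : ℂ → Prop} (h : ∀ᶠ x in 𝓝 w.1, p x) : ∀ᶠ w' : E in 𝓝 w, p w'.1 :=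
  (continuous_fst.tendsto w).eventually h

private theorem Sx2_case1 (D : Curve) {j : Fin 2} {n : Fin 4 → ℤ} {w : E} (h : ‖w - (D.c j + D.v n)‖ < 2 * D.r) :
    ST D w (fun w => ∑ i, 1 / (w.2 - (D.c j + D.v n).2 - D.a j i * (w.1 - (D.c j + D.v n).1)) ^ 5) := by
  refine ⟨fun hC => ?_, fun f hf => ?_, fun j' n' hb => ?_, fun j' n' hc => ?_⟩
  · rw [Sx2_cl D h] at hC
    have hC' := Finset.prod_ne_zero_iff.mp hC
    refine ContDiffAt.sum fun i _ => ?_
    exact Sx2_div contDiffAt_const (Sx2_lin _ _ _) (pow_ne_zero 5 (hC' i (Finset.mem_univ i)))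
  · obtain ⟨i, h1, h2, h3⟩ := line_cl hf h
    refine ⟨fun w' => 1 + (w'.2 - (D.c j + D.v n).2 - D.a j i * (w'.1 - (D.c j + D.v n).1)) ^ 5 *
      ∑ k ∈ Finset.univ.erase i, 1 / (w'.2 - (D.c j + D.v n).2 - D.a j k * (w'.1 - (D.c j + D.v n).1)) ^ 5,
      ?_, ?_⟩
    · refine contDiffAt_const.add (ContDiffAt.mul (Sx2_lin _ _ _) (ContDiffAt.sum fun k hk => ?_))
      have hk' := h3 k (Finset.ne_of_mem_erase hk)
      exact Sx2_div contDiffAt_const (Sx2_lin _ _ _) (pow_ne_zero 5 (sub_ne_zero.mpr hk'))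
    · filter_upwards [Sx2_fst h1, hf.graph] with w' e1 e2
      have e3 : w'.2 - f w'.1 = w'.2 - (D.c j + D.v n).2 - D.a j i * (w'.1 - (D.c j + D.v n).1) := by
        rw [e1]
        ring
      constructor
      · intro hC
        have h4 : w'.2 - f w'.1 ≠ 0 := fun h5 => hC (e2.mpr (sub_eq_zero.mp h5))
        rw [e3] at h4 ⊢
        rw [← Finset.add_sum_erase _ _ (Finset.mem_univ i), add_div, mul_div_assoc]
        congr 1
        rw [mul_div_left_comm, div_self (pow_ne_zero 5 h4), mul_one]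
      · intro hC
        have h4 : w'.2 - f w'.1 = 0 := sub_eq_zero.mpr (e2.mp hC)
        rw [e3] at h4
        rw [h4]
        simp
  · exfalso
    refine D.special_disj (j' := j') (n' := n') h ?_
    rw [← hb, sub_self, norm_zero]
    linarith [D.hr]
  · obtain ⟨e1, e2⟩ := D.special_unique_c h (lt_trans hc (by linarith [D.hr]))
    subst e1
    subst e2
    exact Eventually.of_forall fun w' _ => rfl

private theorem Sx2_A_inj (D : Curve) (j : Fin 2) {ξ : ℂ} (h : D.A j ξ = 0) : ξ = 0 := by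
  have h1 : (D.A j).det ≠ 0 := (D.A_det j).ne'
  have h2 : Function.Injective (D.A j : ℂ →ₗ[ℝ] ℂ) := by
    have h3 : IsUnit (LinearMap.det (D.A j : ℂ →ₗ[ℝ] ℂ)) := isUnit_iff_ne_zero.mpr h1
    have h4 := (LinearMap.isUnit_iff_isUnit_det _).mpr h3
    exact ((LinearMap.isUnit_iff_ker_eq_bot _).mp h4 |> LinearMap.ker_eq_bot.mp)
  apply h2
  rw [map_zero]
  exact h

private theorem Sx2_case3 (D : Curve) {j : Fin 2} {n : Fin 4 → ℤ} {w : E} (h : ‖w - (D.b j + D.v n)‖ < D.r) :
    ST D w (fun w => 32 * (w.2 - (D.b j + D.v n).2) ^ 5 / brEqn (D.b j + D.v n) (D.A j) w ^ 5) := by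
  have h2r : ‖w - (D.b j + D.v n)‖ < 2 * D.r := lt_trans h (by linarith [D.hr])
  have hbr : ContDiffAt ℝ ∞ (brEqn (D.b j + D.v n) (D.A j)) w := by
    unfold brEqn
    refine ContDiffAt.sub (by fun_prop) ?_
    exact (D.A j).contDiff.contDiffAt.comp w (by fun_prop)
  refine ⟨fun hC => ?_, fun f hf => ?_, fun j' n' hb => ?_, fun j' n' hc => ?_⟩
  · rw [Sx2_br D h2r] at hC
    exact Sx2_div (Sx2_snd _ _) (hbr.pow 5) (pow_ne_zero 5 hC)
  · -- the branch
    have t1 := Sx2_tendsto D hf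
    have hopen : ∀ᶠ w' : E in 𝓝 w, ‖w' - (D.b j + D.v n)‖ < 2 * D.r := by
      have hc : Continuous (fun w' : E => ‖w' - (D.b j + D.v n)‖) := by fun_prop
      exact hc.continuousAt.eventually_lt continuousAt_const h2r
    have hsq : ∀ᶠ x in 𝓝 w.1, (f x - (D.b j + D.v n).2) ^ 2 = D.A j (x - (D.b j + D.v n).1) := by
      filter_upwards [t1.eventually hf.graph, t1.eventually hopen] with x e1 e2
      have e3 := (Sx2_br D e2).mp (e1.mpr rfl)
      exact sub_eq_zero.mp e3
    have hne : w.2 - (D.b j + D.v n).2 ≠ 0 := by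
      intro h0
      have e1 := hsq.self_of_nhds
      rw [hf.val, h0] at e1
      have e2 : D.A j (w.1 - (D.b j + D.v n).1) = 0 := by
        rw [← e1]
        simp
      have e3 := Sx2_A_inj D j e2
      exact hf.ne_b j n (Prod.ext (sub_eq_zero.mp e3) (sub_eq_zero.mp h0))
    have hne' : ∀ᶠ w' : E in 𝓝 w, w'.2 - (D.b j + D.v n).2 ≠ 0 := by
      have hc : Continuous (fun w' : E => w'.2 - (D.b j + D.v n).2) := by fun_prop
      exact hc.continuousAt.eventually_ne hne
    have hfs : ContDiffAt ℝ ∞ (fun w' : E => f w'.1) w := hf.smooth.comp w contDiffAt_fst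
    refine ⟨fun w' => 32 * (w'.2 - (D.b j + D.v n).2) ^ 5 /
      ((w'.2 - (D.b j + D.v n).2) + (f w'.1 - (D.b j + D.v n).2)) ^ 5, ?_, ?_⟩
    · have hd : ContDiffAt ℝ ∞ (fun w' : E => ((w'.2 - (D.b j + D.v n).2) + (f w'.1 - (D.b j + D.v n).2)) ^ 5) w :=
        ContDiffAt.pow (ContDiffAt.add (contDiffAt_snd.sub contDiffAt_const) (hfs.sub contDiffAt_const)) 5
      refine Sx2_div (Sx2_snd _ _) hd (pow_ne_zero 5 ?_)
      rw [hf.val, ← two_mul]
      exact mul_ne_zero two_ne_zero hne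
    · filter_upwards [Sx2_fst hsq, hf.graph, hne'] with w' e1 e2 e3
      constructor
      · intro _
        have e4 : brEqn (D.b j + D.v n) (D.A j) w' =
            ((w'.2 - (D.b j + D.v n).2) + (f w'.1 - (D.b j + D.v n).2)) * (w'.2 - f w'.1) := by
          unfold brEqn
          rw [← e1]
          ring
        rw [e4, mul_pow, div_div]
      · intro hC
        rw [← e2.mp hC, ← two_mul, mul_pow]
        rw [mul_comm, mul_comm ((2 : ℂ) ^ 5), mul_div_mul_left _ _ (pow_ne_zero 5 e3)]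
        norm_num
  · obtain ⟨e1, e2⟩ := D.special_unique_b h2r (j' := j') (n' := n') (by
      rw [← hb, sub_self, norm_zero]
      linarith [D.hr])
    subst e1
    subst e2
    rw [hb]
    refine ⟨fun w' => 32 * (w'.2 - (D.b j + D.v n).2) ^ 5, Sx2_snd _ _, ?_⟩
    exact Eventually.of_forall fun w' => ⟨fun _ => rfl, fun _ => rfl⟩
  · exfalso
    exact D.special_disj (lt_trans hc (by linarith [D.hr])) h2r

/-- Local solutions.

Proof. (1) There are `j`, `n` with `‖z - (c j + v n)‖ ≤ r`: `m w = ∑ i, 1 / u_i ^ 5`, `u_i = w.2 - (c j + v n).2 - a j i (w.1 -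
(c j + v n).1)`, on the ball of radius `r / 2` around `z`. For `w` in the ball with `Gr w f`, `f` is the line `i` near `w`
(`line_cl`), and `G = 1 + u_i ^ 5 * ∑ k ≠ i, 1 / u_k ^ 5`. No `b j' + v n'` is in the ball (`special_disj`), and other 6-fold
points are at distance `≥ r` from the ball (`special_unique_c`).
(2) `z ∉ C`, not (1): `m = 0` on a small ball off `C` and off the balls of radius `r` around the 6-fold points (there is at
most one 6-fold point at distance `< 2 r` from `z`).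
(3) `z = b j + v n`: `m w = 32 (w.2 - z.2) ^ 5 / brEqn z (A j) w ^ 5` on the ball of radius `r`. At a point `w` with `Gr w f`
one has `brEqn = (y' - g) (y' + g)`, `y' = w'.2 - z.2`, `g = f - z.2`, `g ^ 2 = A (w'.1 - z.1)` near `w`, and `y' + g ≠ 0` at
`w`, so `G = 32 y' ^ 5 / (y' + g) ^ 5`, which is `1` on `C` (`y' = g`). 6-fold points are at distance `≥ 2 r` (`sep_cb`).
(4) `z ∈ C` regular, `Gr z f`, not (1): `m w = 1 / (w.2 - f w.1) ^ 5` on a small ball where `C` is the graph of `f`, `f` is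
smooth, which contains no special points and is off the balls of radius `r` around the 6-fold points; for `w ∈ C` in the
ball with `Gr w f'` one has `f' = f` near `w.1`, `G = 1`. -/
theorem ST.loc (D : Curve) (z : E) : ∃ δ > 0, ∃ m : E → ℂ, ∀ w ∈ Metric.ball z δ, ST D w m := by
  by_cases h1 : ∃ j n, ‖z - (D.c j + D.v n)‖ ≤ D.r
  · obtain ⟨j, n, hjn⟩ := h1
    refine ⟨D.r / 2, by linarith [D.hr], _, fun w hw => Sx2_case1 D (j := j) (n := n) ?_⟩
    rw [Metric.mem_ball, dist_eq_norm] at hw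
    have h3 : w - (D.c j + D.v n) = (w - z) + (z - (D.c j + D.v n)) := by abel
    rw [h3]
    have h4 := norm_add_le (w - z) (z - (D.c j + D.v n))
    linarith [D.hr]
  push Not at h1
  obtain ⟨δc, hδc, hc⟩ := Sx2_sep_c D h1
  by_cases hz : z ∈ D.C
  · by_cases hb : ∃ j n, z = D.b j + D.v n
    · obtain ⟨j, n, hjn⟩ := hb
      refine ⟨D.r, D.hr, _, fun w hw => Sx2_case3 D (j := j) (n := n) ?_⟩
      rw [Metric.mem_ball, dist_eq_norm, hjn] at hw
      exact hw
    · push Not at hb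
      obtain ⟨δb, hδb, hsb⟩ := Sx2_sep_b D hb
      have hnc : ∀ j n, z ≠ D.c j + D.v n := by
        intro j n h
        have := h1 j n
        rw [h, sub_self, norm_zero] at this
        linarith [D.hr]
      obtain ⟨f, hf1, hf2, hf3⟩ := D.reg z hz hnc hb
      obtain ⟨δ1, hδ1, hg⟩ := Metric.eventually_nhds_iff_ball.mp hf3
      -- the big ball
      have hδ0 : 0 < min δ1 (min δb δc) := lt_min hδ1 (lt_min hδb hδc)
      set δ0 := min δ1 (min δb δc) with hδ0def
      have hg0 : ∀ w' ∈ Metric.ball z δ0, (w' ∈ D.C ↔ w'.2 = f w'.1) := fun w' hw' =>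
        hg w' (Metric.ball_subset_ball (min_le_left _ _) hw')
      have hb0 : ∀ w' ∈ Metric.ball z δ0, ∀ j n, w' ≠ D.b j + D.v n := fun w' hw' =>
        hsb w' (Metric.ball_subset_ball ((min_le_right _ _).trans (min_le_left _ _)) hw')
      have hc0 : ∀ w' ∈ Metric.ball z δ0, ∀ j n, D.r ≤ ‖w' - (D.c j + D.v n)‖ := fun w' hw' =>
        hc w' (Metric.ball_subset_ball ((min_le_right _ _).trans (min_le_right _ _)) hw')
      have hcont : ∀ᶠ x in 𝓝 z.1, ‖f x - z.2‖ < δ0 := by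
        have hc1 : ContinuousAt (fun x => ‖f x - z.2‖) z.1 :=
          (hf1.continuousAt.sub continuousAt_const).norm
        refine hc1.eventually_lt continuousAt_const ?_
        rw [hf2, sub_self, norm_zero]
        exact hδ0
      obtain ⟨δ2, hδ2, hf4⟩ := Metric.eventually_nhds_iff_ball.mp hcont
      -- smoothness of f at the nearby points
      have hsm : ∀ x ∈ Metric.ball z.1 (min δ0 δ2), ContDiffAt ℝ ∞ f x := by
        intro x hx
        have hx1 := Metric.ball_subset_ball (min_le_left _ _) hx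
        have hx2 := hf4 x (Metric.ball_subset_ball (min_le_right _ _) hx)
        have hP : ((x, f x) : E) ∈ Metric.ball z δ0 := by
          rw [Metric.mem_ball, dist_eq_norm, Prod.norm_def]
          rw [Metric.mem_ball, dist_eq_norm] at hx1
          exact max_lt hx1 hx2
        have hPC : ((x, f x) : E) ∈ D.C := (hg0 _ hP).mpr rfl
        have hPc : ∀ j n, ((x, f x) : E) ≠ D.c j + D.v n := by
          intro j n h
          have := hc0 _ hP j n
          rw [h, sub_self, norm_zero] at this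
          linarith [D.hr]
        obtain ⟨g, g1, g2, g3⟩ := D.reg _ hPC hPc (hb0 _ hP)
        have hGr : D.Gr ((x, f x) : E) g := ⟨hPC, hb0 _ hP, hPc, g1, g2, g3⟩
        have he := Sx2_eq D Metric.isOpen_ball hP hg0 hGr
        exact g1.congr_of_eventuallyEq (he.mono fun x hx => hx.symm)
      refine ⟨min δ0 δ2, lt_min hδ0 hδ2, fun w => 1 / (w.2 - f w.1) ^ 5, fun w hw => ?_⟩
      have hw0 : w ∈ Metric.ball z δ0 := Metric.ball_subset_ball (min_le_left _ _) hw
      have hw1 : w.1 ∈ Metric.ball z.1 (min δ0 δ2) := by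
        rw [Metric.mem_ball, dist_eq_norm] at hw ⊢
        exact lt_of_le_of_lt (norm_fst_le (w - z)) hw
      refine ⟨fun hC => ?_, fun f' hf' => ?_, fun j' n' hb' => ?_, fun j' n' hc' => ?_⟩
      · have hne : w.2 - f w.1 ≠ 0 := fun h => hC ((hg0 w hw0).mpr (sub_eq_zero.mp h))
        have hfs : ContDiffAt ℝ ∞ (fun w' : E => f w'.1) w := (hsm w.1 hw1).comp w contDiffAt_fst
        exact Sx2_div contDiffAt_const ((contDiffAt_snd.sub hfs).pow 5) (pow_ne_zero 5 hne)
      · have he := Sx2_eq D Metric.isOpen_ball hw0 hg0 hf'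
        refine ⟨fun _ => 1, contDiffAt_const, ?_⟩
        filter_upwards [Sx2_fst he] with w' e1
        refine ⟨fun _ => ?_, fun _ => rfl⟩
        rw [e1]
      · exact absurd hb' (hb0 w hw0 j' n')
      · exact absurd hc' (not_lt.mpr (hc0 w hw0 j' n'))
  · -- off the curve
    obtain ⟨δ1, hδ1, hball⟩ := Metric.isOpen_iff.mp D.closed.isOpen_compl z hz
    refine ⟨min δ1 δc, lt_min hδ1 hδc, fun _ => 0, fun w hw => ?_⟩
    have hw1 : w ∉ D.C := hball (Metric.ball_subset_ball (min_le_left _ _) hw)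
    have hw2 := hc w (Metric.ball_subset_ball (min_le_right _ _) hw)
    refine ⟨fun _ => contDiffAt_const, fun f hf => absurd hf.mem hw1, fun j' n' hb' => ?_, fun j' n' hc' => ?_⟩
    · rw [hb'] at hw1
      exact absurd (Sx2_b_mem D j' n') hw1
    · exact absurd hc' (not_lt.mpr (hw2 j' n'))

end Pool.Agent.Helper67.SY
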