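import Pool.Agent.Helper67.SY.Sx1
import Pool.Agent.Helper67.SY.Sx2
import Pool.Agent.Helper67.SY.PUb

/-!
# Project SY (MP_872606_gt), block S: the section of `K ^ 6`
-/

open Complex Filter Topology
open scoped ContDiff

namespace Pool.Agent.Helper67.SY

/-- `κ` and `t`: the slopes `a j i` are finitely many; `zs` is `κ` times a constant. -/
theorem exists_kt (D : Curve) : ∃ (κ : ℝ) (t : Fin 2 → ℂ), 0 < κ ∧ (∀ j, ‖t j‖ < 1 + ∑ i, ‖D.a j i‖) ∧
    (∀ j i, D.a j i ≠ t j) ∧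
    ∀ j i, ‖zs (D.a j) κ (t j) i‖ < D.r / 2 ∧ ‖D.a j i * zs (D.a j) κ (t j) i‖ < D.r / 2 := by
  have h1 : ∀ j : Fin 2, ∃ t : ℂ, ‖t‖ < 1 + ∑ i, ‖D.a j i‖ ∧ ∀ i, D.a j i ≠ t := by
    intro j
    have hpos : 0 < 1 + ∑ i, ‖D.a j i‖ := by
      have : 0 ≤ ∑ i, ‖D.a j i‖ := Finset.sum_nonneg fun i _ => norm_nonneg _
      linarith
    have hinf : (Metric.ball (0 : ℂ) (1 + ∑ i, ‖D.a j i‖)).Infinite :=
      infinite_of_mem_nhds 0 (Metric.ball_mem_nhds 0 hpos)
    obtain ⟨t, ht, ht'⟩ := hinf.exists_notMem_finset (Finset.univ.image (D.a j))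
    refine ⟨t, by simpa using ht, fun i h => ht' ?_⟩
    rw [← h]
    exact Finset.mem_image_of_mem _ (Finset.mem_univ i)
  choose t ht ht' using h1
  have hzc : ∀ j i, Continuous (fun κ : ℝ => zs (D.a j) κ (t j) i) := by
    intro j i
    unfold zs
    exact (((Complex.continuous_ofReal.mul continuous_const).div_const _)).neg
  have hz0 : ∀ j i, zs (D.a j) 0 (t j) i = 0 := by
    intro j i
    unfold zs
    simp
  have hr2 : 0 < D.r / 2 := by linarith [D.hr]
  have hev : ∀ᶠ κ in 𝓝 (0 : ℝ), ∀ j i, ‖zs (D.a j) κ (t j) i‖ < D.r / 2 ∧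
      ‖D.a j i * zs (D.a j) κ (t j) i‖ < D.r / 2 := by
    rw [Filter.eventually_all]
    intro j
    rw [Filter.eventually_all]
    intro i
    have c1 : ContinuousAt (fun κ : ℝ => ‖zs (D.a j) κ (t j) i‖) 0 := (hzc j i).norm.continuousAt
    have c2 : ContinuousAt (fun κ : ℝ => ‖D.a j i * zs (D.a j) κ (t j) i‖) 0 :=
      (continuous_const.mul (hzc j i)).norm.continuousAt
    refine (c1.eventually_lt continuousAt_const ?_).and (c2.eventually_lt continuousAt_const ?_)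
    · rw [hz0, norm_zero]
      exact hr2
    · rw [hz0, mul_zero, norm_zero]
      exact hr2
  have hev' : ∀ᶠ κ in 𝓝[>] (0 : ℝ), (∀ j i, ‖zs (D.a j) κ (t j) i‖ < D.r / 2 ∧
      ‖D.a j i * zs (D.a j) κ (t j) i‖ < D.r / 2) ∧ 0 < κ :=
    (hev.filter_mono nhdsWithin_le_nhds).and self_mem_nhdsWithin
  obtain ⟨κ, hκ1, hκ2⟩ := hev'.exists
  exact ⟨κ, t, hκ2, ht, ht', hκ1⟩

/-- The additional term near a 6-fold point. -/
private noncomputable def Sx3_F (D : Curve) (β : ℂ → ℝ) (t : Fin 2 → ℂ) (j : Fin 2) (p : E) : ℂ :=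
  (β p.1 : ℂ) * (β p.2 : ℂ) * (p.2 - t j * p.1) ^ 24 / (∏ i, (p.2 - D.a j i * p.1)) ^ 5

open Classical in
/-- The additional term. -/
private noncomputable def Sx3_S (D : Curve) (β : ℂ → ℝ) (t : Fin 2 → ℂ) (z : E) : ℂ :=
  if h : ∃ q : Fin 2 × (Fin 4 → ℤ), ‖z - (D.c q.1 + D.v q.2)‖ < D.r then
    Sx3_F D β t h.choose.1 (z - (D.c h.choose.1 + D.v h.choose.2)) else 0

private theorem Sx3_eq (D : Curve) (β : ℂ → ℝ) (t : Fin 2 → ℂ) {z : E} {j : Fin 2} {n : Fin 4 → ℤ}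
    (h : ‖z - (D.c j + D.v n)‖ < D.r) : Sx3_S D β t z = Sx3_F D β t j (z - (D.c j + D.v n)) := by
  have hex : ∃ q : Fin 2 × (Fin 4 → ℤ), ‖z - (D.c q.1 + D.v q.2)‖ < D.r := ⟨(j, n), h⟩
  unfold Sx3_S
  rw [dif_pos hex]
  have hs := hex.choose_spec
  obtain ⟨e1, e2⟩ := D.special_unique_c (lt_trans h (by linarith [D.hr])) (lt_trans hs (by linarith [D.hr]))
  rw [← e1, ← e2]

private theorem Sx3_zero (D : Curve) {β : ℂ → ℝ} (t : Fin 2 → ℂ) (hβ : ∀ x, 3 / 4 * D.r ≤ ‖x‖ → β x = 0) {z : E}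
    (h : ∀ j n, 3 / 4 * D.r ≤ ‖z - (D.c j + D.v n)‖) : Sx3_S D β t z = 0 := by
  by_cases hex : ∃ q : Fin 2 × (Fin 4 → ℤ), ‖z - (D.c q.1 + D.v q.2)‖ < D.r
  · obtain ⟨⟨j, n⟩, hq⟩ := hex
    rw [Sx3_eq D β t hq]
    have h1 := h j n
    rw [Prod.norm_def] at h1
    unfold Sx3_F
    rcases le_max_iff.mp h1 with h2 | h2
    · rw [hβ _ h2]
      simp
    · rw [hβ _ h2]
      simp
  · unfold Sx3_S
    rw [dif_neg hex]

private theorem Sx3_zero_near (D : Curve) {β : ℂ → ℝ} (t : Fin 2 → ℂ) (hβ : ∀ x, 3 / 4 * D.r ≤ ‖x‖ → β x = 0)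
    {z : E} (h : ∀ j n, D.r ≤ ‖z - (D.c j + D.v n)‖) : ∀ᶠ w in 𝓝 z, Sx3_S D β t w = 0 := by
  have hr := D.hr
  filter_upwards [Metric.ball_mem_nhds z (show 0 < D.r / 4 by linarith)] with w hw
  refine Sx3_zero D t hβ fun j n => ?_
  rw [Metric.mem_ball, dist_eq_norm] at hw
  have h3 : z - (D.c j + D.v n) = (w - (D.c j + D.v n)) - (w - z) := by abel
  have h4 : ‖z - (D.c j + D.v n)‖ ≤ ‖w - (D.c j + D.v n)‖ + ‖w - z‖ := by
    rw [h3]
    exact norm_sub_le _ _
  have := h j n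
  linarith

private theorem Sx3_eq_near (D : Curve) (β : ℂ → ℝ) (t : Fin 2 → ℂ) {z : E} {j : Fin 2} {n : Fin 4 → ℤ}
    (h : ‖z - (D.c j + D.v n)‖ < D.r) :
    ∀ᶠ w in 𝓝 z, Sx3_S D β t w = Sx3_F D β t j (w - (D.c j + D.v n)) := by
  have hc : ContinuousAt (fun w : E => ‖w - (D.c j + D.v n)‖) z := by fun_prop
  filter_upwards [hc.eventually_lt continuousAt_const h] with w hw
  exact Sx3_eq D β t hw

private theorem Sx3_v_sub (D : Curve) (n n' : Fin 4 → ℤ) : D.v (n' - n) = D.v n' - D.v n := by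
  have h : D.v (n' - n + n) = D.v (n' - n) + D.v n := vec_add _ _ _ _ _
  rw [sub_add_cancel] at h
  rw [h, add_sub_cancel_right]

private theorem Sx3_per (D : Curve) (β : ℂ → ℝ) (t : Fin 2 → ℂ) (n : Fin 4 → ℤ) (z : E) :
    Sx3_S D β t (z + D.v n) = Sx3_S D β t z := by
  by_cases hex : ∃ q : Fin 2 × (Fin 4 → ℤ), ‖z - (D.c q.1 + D.v q.2)‖ < D.r
  · obtain ⟨⟨j, m⟩, hq⟩ := hex
    have e : z + D.v n - (D.c j + D.v (m + n)) = z - (D.c j + D.v m) := by
      have e1 : D.v (m + n) = D.v m + D.v n := vec_add _ _ _ _ _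
      rw [e1]
      abel
    have hq' : ‖z + D.v n - (D.c j + D.v (m + n))‖ < D.r := by
      rw [e]
      exact hq
    rw [Sx3_eq D β t hq, Sx3_eq D β t hq', e]
  · have hex' : ¬ ∃ q : Fin 2 × (Fin 4 → ℤ), ‖z + D.v n - (D.c q.1 + D.v q.2)‖ < D.r := by
      rintro ⟨⟨j, m⟩, hq⟩
      refine hex ⟨(j, m - n), ?_⟩
      have e : z - (D.c j + D.v (m - n)) = z + D.v n - (D.c j + D.v m) := by
        rw [Sx3_v_sub]
        abel
      rw [e]
      exact hq
    unfold Sx3_S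
    rw [dif_neg hex, dif_neg hex']

private theorem Sx3_cl (D : Curve) {j : Fin 2} {n : Fin 4 → ℤ} {w : E} (h : ‖w - (D.c j + D.v n)‖ < 2 * D.r) :
    w ∈ D.C ↔ ∏ i, ((w - (D.c j + D.v n)).2 - D.a j i * (w - (D.c j + D.v n)).1) = 0 := by
  have h1 : (w - D.v n) - D.c j = w - (D.c j + D.v n) := by abel
  have h2 := D.cl j (w - D.v n) (by rw [h1]; exact h)
  have h3 := D.periodic n (w - D.v n)
  have h4 : (w - D.v n) + vec D.p D.q D.M n = w := by
    unfold Curve.v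
    abel
  rw [h4] at h3
  rw [h3, h2]
  unfold clEqn
  have h5 : ∀ i, (w - D.v n).2 - (D.c j).2 - D.a j i * ((w - D.v n).1 - (D.c j).1)
      = (w - (D.c j + D.v n)).2 - D.a j i * (w - (D.c j + D.v n)).1 := by
    intro i
    simp only [Prod.fst_sub, Prod.snd_sub, Prod.fst_add, Prod.snd_add]
    ring
  simp only [h5]

private theorem Sx3_β_smooth {β : ℂ → ℝ} (hβ : ContDiff ℝ ∞ β) (c z : E) :
    ContDiffAt ℝ ∞ (fun w : E => (β (w - c).1 : ℂ) * (β (w - c).2 : ℂ)) z := by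
  have h1 : ContDiffAt ℝ ∞ (fun w : E => (w - c).1) z := by fun_prop
  have h2 : ContDiffAt ℝ ∞ (fun w : E => (w - c).2) z := by fun_prop
  have hc : ContDiff ℝ ∞ (fun x : ℂ => (β x : ℂ)) := Complex.ofRealCLM.contDiff.comp hβ
  exact (hc.contDiffAt.comp z h1).mul (hc.contDiffAt.comp z h2)

private theorem Sx3_F_smooth (D : Curve) {β : ℂ → ℝ} (hβ : ContDiff ℝ ∞ β) (t : Fin 2 → ℂ) {j : Fin 2}
    {n : Fin 4 → ℤ} {z : E} (h : ‖z - (D.c j + D.v n)‖ < D.r) (hz : z ∉ D.C) :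
    ContDiffAt ℝ ∞ (fun w => Sx3_F D β t j (w - (D.c j + D.v n))) z := by
  have hne : ∏ i, ((z - (D.c j + D.v n)).2 - D.a j i * (z - (D.c j + D.v n)).1) ≠ 0 := fun h0 =>
    hz ((Sx3_cl D (lt_trans h (by linarith [D.hr]))).2 h0)
  unfold Sx3_F
  simp only [div_eq_mul_inv]
  have h1 : ContDiffAt ℝ ∞ (fun w : E => ((w - (D.c j + D.v n)).2 - t j * (w - (D.c j + D.v n)).1) ^ 24) z := by
    fun_prop
  have h2 : ContDiffAt ℝ ∞ (fun w : E => (∏ i, ((w - (D.c j + D.v n)).2 - D.a j i * (w - (D.c j + D.v n)).1)) ^ 5)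
      z := by
    fun_prop
  exact ((Sx3_β_smooth hβ _ _).mul h1).mul (h2.inv (pow_ne_zero 5 hne))

/-- `∑ 1 / u_i ^ 5 = (∑ ∏_{k ≠ i} u_k ^ 5) / (∏ u_k) ^ 5` -/
private theorem Sx3_frac (u : Fin 6 → ℂ) (hu : ∀ i, u i ≠ 0) :
    ∑ i, 1 / u i ^ 5 = (∑ i, ∏ k ∈ Finset.univ.erase i, u k ^ 5) / (∏ i, u i) ^ 5 := by
  rw [Finset.sum_div]
  refine Finset.sum_congr rfl fun i _ => ?_
  rw [← Finset.prod_pow, ← Finset.mul_prod_erase Finset.univ (fun k => u k ^ 5) (Finset.mem_univ i)]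
  have h1 : ∏ k ∈ Finset.univ.erase i, u k ^ 5 ≠ 0 :=
    Finset.prod_ne_zero_iff.mpr fun k _ => pow_ne_zero 5 (hu k)
  have h2 : u i ^ 5 ≠ 0 := pow_ne_zero 5 (hu i)
  field_simp

/-- Proof. Let `S₀` be a periodic solution of `ST` (`exists_periodic` with `ST.congr`, `ST.trans`, `ST.conv`, `ST.loc`),
`κ`, `t` as in `exists_kt`, and `β : ℂ → ℝ` smooth with values in `[0, 1]`, `β x = 1` for `‖x‖ ≤ r / 2` and `β x = 0` for
`‖x‖ ≥ 3 / 4 * r`. Put `S₁ z = β p.1 * β p.2 * (p.2 - t j p.1) ^ 24 / (∏ i, (p.2 - a j i p.1)) ^ 5` for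
`p = z - (c j + v n)` if there are `j`, `n` with `‖z - (c j + v n)‖ < r` (unique, `special_unique_c`), and `0` otherwise,
`S = S₀ + κ S₁`. `near_c`: `∑ 1 / u_i ^ 5 + κ (y - t x) ^ 24 / ∏ u_i ^ 5 = clNum / ∏ u_i ^ 5` for `u_i ≠ 0`. `near_b`: `S₁ = 0`
near `b j + v n`. `reg`: if `‖z - (c j + v n)‖ < r` then `f` is the line `i` near `z` (`line_cl`) and
`G = G₀ + κ β β (y - t x) ^ 24 / ∏ k ≠ i, u_k ^ 5`, which is at `z`, with `x = p.1`, `p.2 = a i x`, equal to
`1 - β β zs_i / x`; and `‖zs_i‖ < ‖x‖` because `max ‖x‖ ‖a i x‖ ≥ r / 2 > max ‖zs_i‖ ‖a i zs_i‖`. -/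
theorem exists_spre (D : Curve) : Nonempty (SPre D) := by
  obtain ⟨S₀, hper, hST⟩ := D.exists_periodic (ST D) (ST.congr D) (fun z m n h => ST.trans D z m n h)
    (fun z s ρ m h1 h2 h3 => ST.conv D z s ρ m h1 h2 h3) (ST.loc D)
  obtain ⟨κ, t, hκ, ht, ht', hzs⟩ := exists_kt D
  have hr := D.hr
  let b : ContDiffBump (0 : ℂ) := ⟨D.r / 2, 3 / 4 * D.r, by linarith, by linarith⟩
  have hb1 : ∀ x : ℂ, ‖x‖ ≤ D.r / 2 → b x = 1 := by
    intro x hx
    apply b.one_of_mem_closedBall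
    rw [Metric.mem_closedBall, dist_zero_right]
    exact hx
  have hb0 : ∀ x : ℂ, 3 / 4 * D.r ≤ ‖x‖ → b x = 0 := by
    intro x hx
    apply b.zero_of_le_dist
    rw [dist_zero_right]
    exact hx
  have hbs : ContDiff ℝ ∞ (b : ℂ → ℝ) := b.contDiff
  have hbn : ∀ x : ℂ, 0 ≤ b x := fun x => b.nonneg
  have hb1' : ∀ x : ℂ, b x ≤ 1 := fun x => b.le_one
  generalize (b : ℂ → ℝ) = β at hb1 hb0 hbs hbn hb1'
  refine ⟨⟨fun z => S₀ z + κ * Sx3_S D β t z, κ, t, hκ, ht, ht', fun n z => ?_, fun z hz => ?_,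
    fun j n p hp1 hp2 hC => ?_, fun j n => ?_, hzs, fun z f hf hfar => ?_⟩⟩
  · simp only [hper, Sx3_per]
  · -- off the curve
    refine ((hST z).1 hz).add (contDiffAt_const.mul ?_)
    by_cases hex : ∃ j n, ‖z - (D.c j + D.v n)‖ < D.r
    · obtain ⟨j, n, hjn⟩ := hex
      exact (Sx3_F_smooth D hbs t hjn hz).congr_of_eventuallyEq (Sx3_eq_near D β t hjn)
    · push Not at hex
      exact (contDiffAt_const (c := (0 : ℂ))).congr_of_eventuallyEq (Sx3_zero_near D t hb0 hex)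
  · -- near a 6-fold point
    have hp : ‖p‖ < D.r / 2 := by
      rw [Prod.norm_def]
      exact max_lt hp1 hp2
    have e : D.c j + D.v n + p - (D.c j + D.v n) = p := by abel
    have hz : ‖D.c j + D.v n + p - (D.c j + D.v n)‖ < D.r := by
      rw [e]
      linarith
    have h1 := ((hST (D.c j + D.v n + p)).2.2.2 j n hz).self_of_nhds hC
    have h2 := Sx3_eq D β t hz
    rw [h1, h2, e]
    have hne : ∏ i, (p.2 - D.a j i * p.1) ≠ 0 := by
      intro h0
      apply hC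
      rw [Sx3_cl D (lt_trans hz (by linarith)), e]
      exact h0
    have hne' : ∀ i, p.2 - D.a j i * p.1 ≠ 0 := fun i => Finset.prod_ne_zero_iff.mp hne i (Finset.mem_univ i)
    have e3 : ∀ i, (D.c j + D.v n + p).2 - (D.c j + D.v n).2 - D.a j i * ((D.c j + D.v n + p).1 - (D.c j + D.v n).1)
        = p.2 - D.a j i * p.1 := by
      intro i
      simp only [Prod.fst_add, Prod.snd_add]
      ring
    simp only [e3]
    rw [Sx3_frac _ hne']
    unfold Sx3_F clNum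
    rw [hb1 _ hp1.le, hb1 _ hp2.le]
    simp only [Complex.ofReal_one, one_mul]
    rw [add_div, mul_div_assoc]
  · -- near a branch point
    obtain ⟨G, hG, hG'⟩ := (hST (D.b j + D.v n)).2.2.1 j n rfl
    refine ⟨G, hG, ?_⟩
    have hfar : ∀ j' n', D.r ≤ ‖D.b j + D.v n - (D.c j' + D.v n')‖ := by
      intro j' n'
      by_contra hlt
      push Not at hlt
      refine D.special_disj (j' := j) (n' := n) (lt_trans hlt (by linarith)) ?_
      rw [sub_self, norm_zero]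
      linarith
    filter_upwards [hG', Sx3_zero_near D t hb0 hfar] with w h1 h2
    refine ⟨fun hw => ?_, h1.2⟩
    rw [h1.1 hw, h2, mul_zero, add_zero]
  · -- regular points
    obtain ⟨G, hG, hG'⟩ := (hST z).2.1 f hf
    have hGz : G z = 1 := hG'.self_of_nhds.2 hf.mem
    by_cases hex : ∃ j n, ‖z - (D.c j + D.v n)‖ < D.r
    · obtain ⟨j, n, hjn⟩ := hex
      obtain ⟨i, h1, h2, h3⟩ := line_cl hf (lt_trans hjn (show D.r < 2 * D.r by linarith))
      have hx : (z - (D.c j + D.v n)).1 ≠ 0 := sub_ne_zero.mpr h2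
      have hval : (z - (D.c j + D.v n)).2 = D.a j i * (z - (D.c j + D.v n)).1 := by
        have h4 := h1.self_of_nhds
        rw [hf.val] at h4
        simp only [Prod.fst_sub, Prod.snd_sub]
        linear_combination h4
      have h3' : ∀ k, k ≠ i → (z - (D.c j + D.v n)).2 - D.a j k * (z - (D.c j + D.v n)).1 ≠ 0 :=
        fun k hk => sub_ne_zero.mpr (h3 k hk)
      set H : E → ℂ := fun w => (β (w - (D.c j + D.v n)).1 : ℂ) * (β (w - (D.c j + D.v n)).2 : ℂ) *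
        ((w - (D.c j + D.v n)).2 - t j * (w - (D.c j + D.v n)).1) ^ 24 /
        ∏ k ∈ Finset.univ.erase i, ((w - (D.c j + D.v n)).2 - D.a j k * (w - (D.c j + D.v n)).1) ^ 5 with hH
      have hprod : ∏ k ∈ Finset.univ.erase i, ((z - (D.c j + D.v n)).2 - D.a j k * (z - (D.c j + D.v n)).1) ^ 5
          ≠ 0 := Finset.prod_ne_zero_iff.mpr fun k hk => pow_ne_zero 5 (h3' k (Finset.ne_of_mem_erase hk))
      refine ⟨fun w => G w + κ * H w, hG.add (contDiffAt_const.mul ?_), ?_, ?_⟩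
      · rw [hH]
        simp only [div_eq_mul_inv]
        have g1 : ContDiffAt ℝ ∞ (fun w : E => ((w - (D.c j + D.v n)).2 - t j * (w - (D.c j + D.v n)).1) ^ 24) z := by
          fun_prop
        have g2 : ContDiffAt ℝ ∞ (fun w : E => ∏ k ∈ Finset.univ.erase i,
            ((w - (D.c j + D.v n)).2 - D.a j k * (w - (D.c j + D.v n)).1) ^ 5) z := by
          fun_prop
        exact ((Sx3_β_smooth hbs _ _).mul g1).mul (g2.inv hprod)
      · -- the value is not zero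
        simp only [hGz, hH]
        have hfar' := hfar j n
        generalize hpdef : z - (D.c j + D.v n) = p at *
        intro h0
        have e1 : ∀ k, p.2 - D.a j k * p.1 = (D.a j i - D.a j k) * p.1 := by
          intro k
          rw [hval]
          ring
        have e2 : p.2 - t j * p.1 = (D.a j i - t j) * p.1 := by
          rw [hval]
          ring
        have e3 : ∏ k ∈ Finset.univ.erase i, (p.2 - D.a j k * p.1) ^ 5 =
            (∏ k ∈ Finset.univ.erase i, (D.a j i - D.a j k) ^ 5) * p.1 ^ 25 := by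
          simp only [e1, mul_pow]
          rw [Finset.prod_mul_distrib, Finset.prod_const, Finset.card_erase_of_mem (Finset.mem_univ i)]
          simp only [Finset.card_univ, Fintype.card_fin]
          rw [← pow_mul]
        have e4 : (∏ k ∈ Finset.univ.erase i, (D.a j i - D.a j k) ^ 5) ≠ 0 := by
          refine Finset.prod_ne_zero_iff.mpr fun k hk => pow_ne_zero 5 (sub_ne_zero.mpr fun h5 => ?_)
          exact Finset.ne_of_mem_erase hk (D.a_inj j h5).symm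
        rw [e3, e2] at h0
        have e5 : p.1 = (β p.1 : ℂ) * (β p.2 : ℂ) * zs (D.a j) κ (t j) i := by
          unfold zs
          generalize (∏ k ∈ Finset.univ.erase i, (D.a j i - D.a j k) ^ 5) = Q at *
          field_simp at h0 ⊢
          linear_combination h0
        have hzi := hzs j i
        have n0 : ‖(β p.1 : ℂ) * (β p.2 : ℂ)‖ ≤ 1 := by
          rw [norm_mul, Complex.norm_real, Complex.norm_real, Real.norm_of_nonneg (hbn _), Real.norm_of_nonneg (hbn _)]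
          exact mul_le_one₀ (hb1' _) (hbn _) (hb1' _)
        have n1 : ‖p.1‖ < D.r / 2 := by
          rw [e5, norm_mul]
          exact lt_of_le_of_lt (mul_le_of_le_one_left (norm_nonneg _) n0) hzi.1
        have n2 : ‖p.2‖ < D.r / 2 := by
          rw [hval, e5]
          rw [show D.a j i * ((β p.1 : ℂ) * (β p.2 : ℂ) * zs (D.a j) κ (t j) i) =
            (β p.1 : ℂ) * (β p.2 : ℂ) * (D.a j i * zs (D.a j) κ (t j) i) by ring, norm_mul]
          exact lt_of_le_of_lt (mul_le_of_le_one_left (norm_nonneg _) n0) hzi.2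
        have n3 : ‖p‖ < D.r / 2 := by
          rw [Prod.norm_def]
          exact max_lt n1 n2
        linarith
      · have hfst : ∀ᶠ w : E in 𝓝 z, f w.1 = (D.c j + D.v n).2 + D.a j i * (w.1 - (D.c j + D.v n).1) :=
          (continuous_fst.tendsto z).eventually h1
        filter_upwards [hG', Sx3_eq_near D β t hjn, hfst] with w w1 w2 w3 hw
        rw [w1.1 hw, w2, add_div]
        congr 1
        rw [mul_div_assoc]
        congr 1
        unfold Sx3_F
        rw [hH]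
        simp only
        have e6 : w.2 - f w.1 = (w - (D.c j + D.v n)).2 - D.a j i * (w - (D.c j + D.v n)).1 := by
          rw [w3]
          simp only [Prod.fst_sub, Prod.snd_sub]
          ring
        rw [e6, div_div, ← Finset.prod_pow,
          ← Finset.prod_erase_mul Finset.univ (fun k => ((w - (D.c j + D.v n)).2 -
            D.a j k * (w - (D.c j + D.v n)).1) ^ 5) (Finset.mem_univ i)]
    · push Not at hex
      refine ⟨G, hG, by rw [hGz]; exact one_ne_zero, ?_⟩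
      filter_upwards [hG', Sx3_zero_near D t hb0 hex] with w w1 w2 hw
      rw [w1.1 hw, w2, mul_zero, add_zero]

end Pool.Agent.Helper67.SY
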