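import Pool.Agent.Helper67.SY.Sx0
import Pool.Agent.Helper67.SY.EqB2

/-!
# Project SY (MP_872606_gt), block S: the section of `K ^ 6`
-/

open Complex Filter Topology
open scoped ContDiff

namespace Pool.Agent.Helper67.SY

private def Sx4_Loc {D : Curve} (P : SPre D) (H : Cov D) (z : E) (m : E → ℂ) : Prop :=
  ContinuousAt m z ∧ ∀ᶠ w in 𝓝 z, w ∉ D.C → m w = P.S w * H.σ w ^ 5

private theorem Sx4_uniq {D : Curve} {P : SPre D} {H : Cov D} {z : E} {m m' : E → ℂ}
    (h : Sx4_Loc P H z m) (h' : Sx4_Loc P H z m') : m z = m' z := by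
  have hne : (𝓝[(D.C)ᶜ] z).NeBot := mem_closure_iff_nhdsWithin_neBot.mp (D.dense_compl z)
  have h1 : Tendsto m (𝓝[(D.C)ᶜ] z) (𝓝 (m z)) := h.1.tendsto.mono_left nhdsWithin_le_nhds
  have h2 : Tendsto m' (𝓝[(D.C)ᶜ] z) (𝓝 (m' z)) := h'.1.tendsto.mono_left nhdsWithin_le_nhds
  refine tendsto_nhds_unique h1 (h2.congr' ?_)
  filter_upwards [nhdsWithin_le_nhds h.2, nhdsWithin_le_nhds h'.2, self_mem_nhdsWithin] with w a b c
  rw [a c, b c]

private noncomputable def Sx4_R {D : Curve} (P : SPre D) (H : Cov D) (z : E) : ℂ := by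
  classical
  exact if h : ∃ m, Sx4_Loc P H z m then h.choose z else 0

private theorem Sx4_R_eq {D : Curve} {P : SPre D} {H : Cov D} {z : E} {m : E → ℂ}
    (h : Sx4_Loc P H z m) : Sx4_R P H z = m z := by
  have hex : ∃ m, Sx4_Loc P H z m := ⟨m, h⟩
  unfold Sx4_R
  rw [dif_pos hex]
  exact Sx4_uniq hex.choose_spec h

private theorem Sx4_R_near {D : Curve} {P : SPre D} {H : Cov D} {z : E} {m : E → ℂ}
    (hm : ContDiffAt ℝ ∞ m z) (h : ∀ᶠ w in 𝓝 z, w ∉ D.C → m w = P.S w * H.σ w ^ 5) :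
    ∀ᶠ w in 𝓝 z, Sx4_R P H w = m w := by
  have h0 : ∀ᶠ w in 𝓝 z, ContDiffAt ℝ 1 m w := (hm.of_le (by exact_mod_cast le_top)).eventually (by simp)
  filter_upwards [h0, h.eventually_nhds] with w a b
  exact Sx4_R_eq ⟨a.continuousAt, b⟩

private theorem Sx4_ne {D : Curve} (H : Cov D) {w : E} (hw : w ∉ D.C) : H.σ w ≠ 0 := fun h =>
  hw ((H.eqn.zero_iff (Set.mem_univ w)).mp h)

private theorem Sx4_alg {s g e v : ℂ} (h0 : s * e ^ 5 = g) :
    g * v ^ 30 = s * (e * v ^ 6) ^ 5 := by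
  rw [← h0]; ring

private theorem Sx4_divalg {s g e : ℂ} (he : e ≠ 0) (h : s = g / e ^ 5) : s * e ^ 5 = g := by
  rw [h, div_mul_cancel₀ _ (pow_ne_zero 5 he)]

/-- The local function near the 6-fold points. -/
private theorem Sx4_near_c {D : Curve} (P : SPre D) (H : Cov D) (j : Fin 2) (n : Fin 4 → ℤ) (p : E)
    (h1 : ‖p.1‖ < D.r / 2) (h2 : ‖p.2‖ < D.r / 2) :
    ContDiffAt ℝ ∞ (fun w => clNum (D.a j) P.κ (P.t j) (w - (D.c j + D.v n)) * H.Vc j n w ^ 30)
      (D.c j + D.v n + p) ∧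
    ∀ᶠ w in 𝓝 (D.c j + D.v n + p), w ∉ D.C →
      clNum (D.a j) P.κ (P.t j) (w - (D.c j + D.v n)) * H.Vc j n w ^ 30 = P.S w * H.σ w ^ 5 := by
  have hr := D.hr
  have hp : ‖p‖ < D.r / 2 := by
    rw [Prod.norm_def]
    exact max_lt h1 h2
  have hball : D.c j + D.v n + p ∈ Metric.ball (D.c j + D.v n) (2 * D.r) := by
    rw [Metric.mem_ball, dist_eq_norm, add_sub_cancel_left]
    linarith
  refine ⟨?_, ?_⟩
  · have hV : ContDiffAt ℝ ∞ (H.Vc j n) (D.c j + D.v n + p) :=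
      (H.Vc_smooth j n).contDiffAt (Metric.isOpen_ball.mem_nhds hball)
    refine ContDiffAt.mul ?_ (hV.pow 30)
    have hs : ContDiff ℝ ∞ (fun w : E => clNum (D.a j) P.κ (P.t j) (w - (D.c j + D.v n))) := by
      unfold clNum
      fun_prop
    exact hs.contDiffAt
  · have ho1 : ∀ᶠ w in 𝓝 (D.c j + D.v n + p), ‖(w - (D.c j + D.v n)).1‖ < D.r / 2 := by
      have hc : Continuous (fun w : E => ‖(w - (D.c j + D.v n)).1‖) := by fun_prop
      have := hc.tendsto (D.c j + D.v n + p)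
      rw [add_sub_cancel_left] at this
      exact this.eventually (gt_mem_nhds h1)
    have ho2 : ∀ᶠ w in 𝓝 (D.c j + D.v n + p), ‖(w - (D.c j + D.v n)).2‖ < D.r / 2 := by
      have hc : Continuous (fun w : E => ‖(w - (D.c j + D.v n)).2‖) := by fun_prop
      have := hc.tendsto (D.c j + D.v n + p)
      rw [add_sub_cancel_left] at this
      exact this.eventually (gt_mem_nhds h2)
    filter_upwards [ho1, ho2, Metric.isOpen_ball.mem_nhds hball] with w a b c hw
    have e1 : D.c j + D.v n + (w - (D.c j + D.v n)) = w := by abel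
    have hS := P.near_c j n (w - (D.c j + D.v n)) a b (by rw [e1]; exact hw)
    rw [e1] at hS
    have hσ := H.Vc_eq j n w c
    have hcl : clEqn (D.c j + D.v n) (D.a j) w =
        ∏ i, ((w - (D.c j + D.v n)).2 - D.a j i * (w - (D.c j + D.v n)).1) := by
      unfold clEqn
      rfl
    have hne : clEqn (D.c j + D.v n) (D.a j) w ≠ 0 := by
      intro h0
      apply Sx4_ne H hw
      rw [hσ, h0, zero_mul]
    rw [hσ]
    rw [← hcl] at hS
    exact Sx4_alg (Sx4_divalg hne hS)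

private theorem Sx4_near_b {D : Curve} (P : SPre D) (H : Cov D) (j : Fin 2) (n : Fin 4 → ℤ) :
    ∃ G : E → ℂ, ContDiffAt ℝ ∞ (fun w => G w * H.Vb j n w ^ 30) (D.b j + D.v n) ∧
      (∀ᶠ w in 𝓝 (D.b j + D.v n), w ∉ D.C → G w * H.Vb j n w ^ 30 = P.S w * H.σ w ^ 5) ∧
      ∀ᶠ w in 𝓝 (D.b j + D.v n), w ∈ D.C → G w = 32 * (w.2 - (D.b j + D.v n).2) ^ 5 := by
  have hr := D.hr
  obtain ⟨G, hG, hGe⟩ := P.near_b j n
  have hball : D.b j + D.v n ∈ Metric.ball (D.b j + D.v n) (2 * D.r) := Metric.mem_ball_self (by linarith)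
  have hV : ContDiffAt ℝ ∞ (H.Vb j n) (D.b j + D.v n) :=
    (H.Vb_smooth j n).contDiffAt (Metric.isOpen_ball.mem_nhds hball)
  refine ⟨G, hG.mul (hV.pow 30), ?_, ?_⟩
  · filter_upwards [hGe, Metric.isOpen_ball.mem_nhds hball] with w a c hw
    have hσ := H.Vb_eq j n w c
    have hne : brEqn (D.b j + D.v n) (D.A j) w ≠ 0 := by
      intro h0
      apply Sx4_ne H hw
      rw [hσ, h0, zero_mul]
    rw [hσ]
    exact Sx4_alg (Sx4_divalg hne (a.1 hw))
  · filter_upwards [hGe] with w a hw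
    exact a.2 hw

private theorem Sx4_reg {D : Curve} (P : SPre D) (H : Cov D) (z : E) (f : ℂ → ℂ) (hf : D.Gr z f)
    (hfar : ∀ j n, D.r / 2 ≤ ‖z - (D.c j + D.v n)‖) :
    ∃ m : E → ℂ, ContDiffAt ℝ ∞ m z ∧ m z ≠ 0 ∧ ∀ᶠ w in 𝓝 z, w ∉ D.C → m w = P.S w * H.σ w ^ 5 := by
  obtain ⟨G, hG, hG0, hGe⟩ := P.reg z f hf hfar
  obtain ⟨u, hu, hu0, hue⟩ := H.eqn.2 z (Set.mem_univ z) (fun w => w.2 - f w.1) (Or.inr (Or.inl ⟨f, hf, rfl⟩))
  refine ⟨fun w => G w * u w ^ 5, hG.mul (hu.pow 5), mul_ne_zero hG0 (pow_ne_zero 5 hu0), ?_⟩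
  filter_upwards [hGe, hue] with w a b hw
  have hne : w.2 - f w.1 ≠ 0 := by
    intro h0
    apply Sx4_ne H hw
    rw [b, h0, zero_mul]
  have h1 := Sx4_divalg hne (a hw)
  rw [b, ← h1]
  ring

private theorem Sx4_loc {D : Curve} (P : SPre D) (H : Cov D) {z : E} (hz : z ∈ D.dm) :
    ∃ m : E → ℂ, ContDiffAt ℝ ∞ m z ∧ ∀ᶠ w in 𝓝 z, w ∉ D.C → m w = P.S w * H.σ w ^ 5 := by
  by_cases hC : z ∈ D.C
  · obtain ⟨e, he⟩ := D.exists_locEqn z
    rcases he with he | ⟨f, hf, -⟩ | ⟨j, n, hj, -⟩ | ⟨j, n, hj, -⟩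
    · exact absurd hC he.1
    · by_cases hfar : ∀ j n, D.r / 2 ≤ ‖z - (D.c j + D.v n)‖
      · obtain ⟨m, hm, -, hme⟩ := Sx4_reg P H z f hf hfar
        exact ⟨m, hm, hme⟩
      · push Not at hfar
        obtain ⟨j, n, hjn⟩ := hfar
        have h := Sx4_near_c P H j n (z - (D.c j + D.v n)) (lt_of_le_of_lt (norm_fst_le _) hjn)
          (lt_of_le_of_lt (norm_snd_le _) hjn)
        have e1 : D.c j + D.v n + (z - (D.c j + D.v n)) = z := by abel
        rw [e1] at h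
        exact ⟨_, h.1, h.2⟩
    · subst hj
      obtain ⟨G, h1, h2, -⟩ := Sx4_near_b P H j n
      exact ⟨_, h1, h2⟩
    · exact absurd hj (hz j n)
  · refine ⟨fun w => P.S w * H.σ w ^ 5, ?_, Filter.Eventually.of_forall fun w _ => rfl⟩
    exact (P.off z hC).mul ((H.eqn.1.contDiffAt Filter.univ_mem).pow 5)

/-- Proof. For `z ∈ dm` there is a function `R_z`, smooth at `z`, with `R_z w = S w * σ w ^ 5` for `w ∉ C` near `z`: for
`z ∉ C` it is `S σ ^ 5`; for `z` with `‖z - (c j + v n)‖ < r / 2` it is `clNum p * Vc ^ 30` (`Vc_eq`, `near_c`); for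
`z = b j + v n` it is `G * Vb ^ 30` (`Vb_eq`, `near_b`); for `Gr z f` far from the 6-fold points it is `G * u ^ 5`, where
`σ w = (w.2 - f w.1) * u w` near `z` (`H.eqn`, `LocEqn`). Put `R z = R_z z`. Since the complement of `C` is dense
(`dense_compl`) and `R_z`, `R_w` are continuous at `w` and agree off `C` near `w`, one has `R w = R_z w` for `w` near `z`.
`per`: off `C` it is `S (z + ..) σ (z + ..) ^ 5 = S z (ε ^ 6 σ z) ^ 5` (`H.pow`), and both sides are continuous on `dm`. -/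
theorem exists_sdat {D : Curve} (P : SPre D) (H : Cov D) : Nonempty (SDat D H) := by
  refine ⟨{
    R := Sx4_R P H
    κ := P.κ
    t := P.t
    hκ := P.hκ
    ht := P.ht
    ht' := P.ht'
    smooth := ?_
    per := ?_
    near_c := ?_
    near_b := ?_
    zs_lt := P.zs_lt
    reg := ?_ }⟩
  · intro z hz
    obtain ⟨m, hm, hme⟩ := Sx4_loc P H hz
    exact (hm.congr_of_eventuallyEq (Sx4_R_near hm hme)).contDiffWithinAt
  · intro n z hz
    obtain ⟨m, hm, hme⟩ := Sx4_loc P H hz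
    have h1 : Sx4_R P H z = m z := Sx4_R_eq ⟨hm.continuousAt, hme⟩
    have hloc : Sx4_Loc P H (z + D.v ((6 : ℤ) • n))
        (fun w => H.ε n (w - D.v ((6 : ℤ) • n)) ^ 30 * m (w - D.v ((6 : ℤ) • n))) := by
      have ht : Tendsto (fun w : E => w - D.v ((6 : ℤ) • n)) (𝓝 (z + D.v ((6 : ℤ) • n))) (𝓝 z) := by
        have hc : Continuous (fun w : E => w - D.v ((6 : ℤ) • n)) := by fun_prop
        have := hc.tendsto (z + D.v ((6 : ℤ) • n))
        rwa [add_sub_cancel_right] at this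
      refine ⟨?_, ?_⟩
      · have hε : ContinuousAt (fun w : E => H.ε n (w - D.v ((6 : ℤ) • n)) ^ 30) (z + D.v ((6 : ℤ) • n)) := by
          have hc : Continuous (fun w : E => H.ε n (w - D.v ((6 : ℤ) • n)) ^ 30) :=
            ((H.smooth n).continuous.comp (continuous_id.sub continuous_const)).pow 30
          exact hc.continuousAt
        refine hε.mul ?_
        have h2 : ContinuousAt m ((z + D.v ((6 : ℤ) • n)) - D.v ((6 : ℤ) • n)) := by
          rw [add_sub_cancel_right]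
          exact hm.continuousAt
        exact ContinuousAt.comp (f := fun w : E => w - D.v ((6 : ℤ) • n)) h2
          (continuous_id.sub continuous_const).continuousAt
      · filter_upwards [ht.eventually hme] with w a hw
        have e1 : w - D.v ((6 : ℤ) • n) + D.v ((6 : ℤ) • n) = w := by abel
        have hw' : w - D.v ((6 : ℤ) • n) ∉ D.C := by
          intro h
          apply hw
          have := (D.periodic ((6 : ℤ) • n) (w - D.v ((6 : ℤ) • n))).mpr h
          have e2 : w - D.v ((6 : ℤ) • n) + vec D.p D.q D.M ((6 : ℤ) • n) = w := e1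
          rwa [e2] at this
        have hS := P.per ((6 : ℤ) • n) (w - D.v ((6 : ℤ) • n))
        have hσ := H.pow n (w - D.v ((6 : ℤ) • n))
        rw [e1] at hS hσ
        rw [a hw', hS, hσ]
        ring
    rw [Sx4_R_eq hloc, h1, add_sub_cancel_right]
  · intro j n p _ h1 h2
    have h := Sx4_near_c P H j n p h1 h2
    rw [Sx4_R_eq ⟨h.1.continuousAt, h.2⟩, add_sub_cancel_left]
  · intro j n
    obtain ⟨G, h1, h2, h3⟩ := Sx4_near_b P H j n
    filter_upwards [Sx4_R_near h1 h2, h3] with w a b hw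
    rw [a, b hw]
  · intro z f hf hfar
    obtain ⟨m, hm, hm0, hme⟩ := Sx4_reg P H z f hf hfar
    rw [Sx4_R_eq ⟨hm.continuousAt, hme⟩]
    exact hm0

end Pool.Agent.Helper67.SY
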