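import Pool.Agent.Helper67.SY.Pb2

/-!
# Project SY (MP_872606_gt), block T: the quotient space
-/

open Complex Filter Topology
open scoped ContDiff

namespace Pool.Agent.Helper67.SY

theorem hv_ne (a : Pt) (m : E × ℂ) : hv a m ≠ 0 := by
  intro h
  cases a with
  | main => exact one_ne_zero (congrArg (fun p : ℂ × ℂ × ℂ => p.1) h)
  | u j κ => exact one_ne_zero (congrArg (fun p : ℂ × ℂ × ℂ => p.1) h)
  | w j κ => exact one_ne_zero (congrArg (fun p : ℂ × ℂ × ℂ => p.2.1) h)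

private theorem Tp1_refl (x : ℂ × ℂ × ℂ) : Prp x x := ⟨mul_comm _ _, mul_comm _ _, mul_comm _ _⟩

private theorem Tp1_symm {x y : ℂ × ℂ × ℂ} (h : Prp x y) : Prp y x := by
  obtain ⟨h1, h2, h3⟩ := h
  exact ⟨by linear_combination -h1, by linear_combination -h2, by linear_combination -h3⟩

theorem Prp.trans {x y z : ℂ × ℂ × ℂ} (hy : y ≠ 0) (h : Prp x y) (h' : Prp y z) : Prp x z := by
  obtain ⟨h1, h2, h3⟩ := h
  obtain ⟨g1, g2, g3⟩ := h'
  by_cases y1 : y.1 = 0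
  · by_cases y2 : y.2.1 = 0
    · have y3 : y.2.2 ≠ 0 := fun y3 => hy (Prod.ext y1 (Prod.ext y2 y3))
      refine ⟨?_, ?_, ?_⟩ <;> apply mul_left_cancel₀ y3
      · linear_combination z.2.1 * h2 - z.1 * h3 + x.2.2 * g1
      · linear_combination z.2.2 * h2 + x.2.2 * g2
      · linear_combination z.2.2 * h3 + x.2.2 * g3
    · refine ⟨?_, ?_, ?_⟩ <;> apply mul_left_cancel₀ y2
      · linear_combination z.2.1 * h1 + x.2.1 * g1
      · linear_combination z.2.2 * h1 + x.2.1 * g2 + z.1 * h3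
      · linear_combination x.2.1 * g3 + z.2.1 * h3
  · refine ⟨?_, ?_, ?_⟩ <;> apply mul_left_cancel₀ y1
    · linear_combination x.1 * g1 + z.1 * h1
    · linear_combination x.1 * g2 + z.1 * h2
    · linear_combination x.2.1 * g2 - x.2.2 * g1 + z.1 * h3

namespace Cov

variable {D : Curve} (H : Cov D)

/-- The relation is an equivalence relation (`ε_zero`, `H.add`, `D.v_add`, `Prp.trans`, `hv_ne`). -/
theorem Rl_equiv : Equivalence (fun P Q : H.Tot => H.Rl P.1 Q.1 P.2 Q.2) := by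
  refine ⟨?_, ?_, ?_⟩
  · rintro ⟨a, m⟩
    by_cases h : fac a m.1.1 = 0
    · exact Or.inr ⟨h, h, rfl, Tp1_refl _⟩
    · refine Or.inl ⟨h, h, 0, ?_, ?_⟩
      · simp only
        rw [smul_zero, D.v_zero, add_zero]
      · simp only
        rw [H.ε_zero, one_mul]
  · rintro ⟨a, m⟩ ⟨b, m'⟩ (⟨h1, h2, n, h3, h4⟩ | ⟨h1, h2, h3, h4⟩)
    · refine Or.inl ⟨h2, h1, -n, ?_, ?_⟩
      · simp only at h3 ⊢
        rw [h3, smul_neg, D.v_neg, add_neg_cancel_right]
      · simp only at h3 h4 ⊢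
        rw [h4, ← mul_assoc, h3, ← H.add (-n) n, neg_add_cancel, H.ε_zero, one_mul]
    · exact Or.inr ⟨h2, h1, h3.symm, Tp1_symm h4⟩
  · rintro ⟨a, m⟩ ⟨b, m'⟩ ⟨c, m''⟩ (⟨h1, h2, n, h3, h4⟩ | ⟨h1, h2, h3, h4⟩)
      (⟨g1, g2, n', g3, g4⟩ | ⟨g1, g2, g3, g4⟩)
    · refine Or.inl ⟨h1, g2, n' + n, ?_, ?_⟩
      · simp only at h3 g3 ⊢
        rw [g3, h3, smul_add, D.v_add, add_assoc, add_comm (D.v ((6 : ℤ) • n))]
      · simp only at h3 h4 g4 ⊢
        rw [g4, h4, H.add, ← h3, mul_assoc]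
    · exact absurd g1 h2
    · exact absurd h2 g1
    · exact Or.inr ⟨h1, g2, h3.trans g3, Prp.trans (hv_ne _ _) h4 g4⟩

/-- The equivalence relation on the disjoint union of the patches of the covering. -/
def st : Setoid H.Tot := ⟨fun P Q => H.Rl P.1 Q.1 P.2 Q.2, H.Rl_equiv⟩

/-- The closed 4-manifold. -/
def Y : Type := Quotient H.st

noncomputable instance : TopologicalSpace H.Y := instTopologicalSpaceQuotient

/-- The projection. -/
def pj (P : H.Tot) : H.Y := Quotient.mk H.st P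

theorem pj_eq (P Q : H.Tot) : H.pj P = H.pj Q ↔ H.Rl P.1 Q.1 P.2 Q.2 := Quotient.eq (r := H.st)

theorem pj_surj (y : H.Y) : ∃ P, H.pj P = y := Quotient.exists_rep y

theorem pj_cont : Continuous H.pj := continuous_quotient_mk'

end Cov

end Pool.Agent.Helper67.SY
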