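import Pool.Agent.Helper67.SY.Tp1

/-!
# Project SY (MP_872606_gt), block T: the quotient space
-/

open Complex Filter Topology
open scoped ContDiff

namespace Pool.Agent.Helper67.SY

/-- The inverse of the map to the base. -/
private noncomputable def Tp2_ib (D : Curve) : Pt → E → E
  | .main => fun z => z
  | .u j κ => fun z => ((z - D.cen j κ).1, (z - D.cen j κ).2 * ((z - D.cen j κ).1)⁻¹)
  | .w j κ => fun z => ((z - D.cen j κ).2, (z - D.cen j κ).1 * ((z - D.cen j κ).2)⁻¹)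

private theorem Tp2_bl_u (D : Curve) (j : Fin 2) (κ : Rep) (q : E) :
    D.bl (.u j κ) q - D.cen j κ = (q.1, q.1 * q.2) := add_sub_cancel_left _ _

private theorem Tp2_bl_w (D : Curve) (j : Fin 2) (κ : Rep) (q : E) :
    D.bl (.w j κ) q - D.cen j κ = (q.1 * q.2, q.1) := add_sub_cancel_left _ _

private theorem Tp2_ib_bl (D : Curve) {b : Pt} {q : E} (h : fac b q ≠ 0) : Tp2_ib D b (D.bl b q) = q := by
  cases b with
  | main => rfl
  | u j κ =>
    have h1 : q.1 ≠ 0 := h
    change ((D.bl (.u j κ) q - D.cen j κ).1, (D.bl (.u j κ) q - D.cen j κ).2 * ((D.bl (.u j κ) q - D.cen j κ).1)⁻¹) = q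
    rw [Tp2_bl_u]
    refine Prod.ext rfl ?_
    simp only
    field_simp
  | w j κ =>
    have h1 : q.1 ≠ 0 := h
    change ((D.bl (.w j κ) q - D.cen j κ).2, (D.bl (.w j κ) q - D.cen j κ).1 * ((D.bl (.w j κ) q - D.cen j κ).2)⁻¹) = q
    rw [Tp2_bl_w]
    refine Prod.ext rfl ?_
    simp only
    field_simp

private theorem Tp2_bl_ib (D : Curve) {b : Pt} {z : E} (h : fac b (Tp2_ib D b z) ≠ 0) :
    D.bl b (Tp2_ib D b z) = z := by
  cases b with
  | main => rfl
  | u j κ =>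
    have h1 : (z - D.cen j κ).1 ≠ 0 := h
    have h2 : D.bl (.u j κ) (Tp2_ib D (.u j κ) z) - D.cen j κ = z - D.cen j κ := by
      rw [Tp2_bl_u]
      refine Prod.ext rfl ?_
      change (z - D.cen j κ).1 * ((z - D.cen j κ).2 * ((z - D.cen j κ).1)⁻¹) = (z - D.cen j κ).2
      field_simp
    exact sub_left_injective h2
  | w j κ =>
    have h1 : (z - D.cen j κ).2 ≠ 0 := h
    have h2 : D.bl (.w j κ) (Tp2_ib D (.w j κ) z) - D.cen j κ = z - D.cen j κ := by
      rw [Tp2_bl_w]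
      refine Prod.ext ?_ rfl
      change (z - D.cen j κ).2 * ((z - D.cen j κ).1 * ((z - D.cen j κ).2)⁻¹) = (z - D.cen j κ).1
      field_simp
    exact sub_left_injective h2

private theorem Tp2_ib_smooth (D : Curve) {b : Pt} {q : E} (h : fac b q ≠ 0) :
    ContDiffAt ℝ ∞ (Tp2_ib D b) (D.bl b q) := by
  cases b with
  | main => exact contDiffAt_id
  | u j κ =>
    have h1 : q.1 ≠ 0 := h
    have h2 : (D.bl (.u j κ) q - D.cen j κ).1 ≠ 0 := by rw [Tp2_bl_u]; exact h1
    have s1 : ContDiffAt ℝ ∞ (fun z : E => (z - D.cen j κ).1) (D.bl (.u j κ) q) :=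
      contDiffAt_fst.comp _ (contDiffAt_id.sub contDiffAt_const)
    have s2 : ContDiffAt ℝ ∞ (fun z : E => (z - D.cen j κ).2) (D.bl (.u j κ) q) :=
      contDiffAt_snd.comp _ (contDiffAt_id.sub contDiffAt_const)
    exact s1.prodMk (s2.mul (s1.inv h2))
  | w j κ =>
    have h1 : q.1 ≠ 0 := h
    have h2 : (D.bl (.w j κ) q - D.cen j κ).2 ≠ 0 := by rw [Tp2_bl_w]; exact h1
    have s1 : ContDiffAt ℝ ∞ (fun z : E => (z - D.cen j κ).1) (D.bl (.w j κ) q) :=
      contDiffAt_fst.comp _ (contDiffAt_id.sub contDiffAt_const)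
    have s2 : ContDiffAt ℝ ∞ (fun z : E => (z - D.cen j κ).2) (D.bl (.w j κ) q) :=
      contDiffAt_snd.comp _ (contDiffAt_id.sub contDiffAt_const)
    exact s2.prodMk (s1.mul (s2.inv h2))

/-- The change between the two patches of a blow-up. -/
private noncomputable def Tp2_sw (q : E) : E := (q.1 * q.2, q.2⁻¹)

private theorem Tp2_sw_smooth {q : E} (h : q.2 ≠ 0) : ContDiffAt ℝ ∞ Tp2_sw q :=
  (contDiffAt_fst.mul contDiffAt_snd).prodMk (contDiffAt_snd.inv h)

private theorem Tp2_sw_uw (D : Curve) (j : Fin 2) (κ : Rep) {q : E} (h : q.2 ≠ 0) :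
    D.bl (.w j κ) (Tp2_sw q) = D.bl (.u j κ) q := by
  have h2 : D.bl (.w j κ) (Tp2_sw q) - D.cen j κ = D.bl (.u j κ) q - D.cen j κ := by
    rw [Tp2_bl_w, Tp2_bl_u]
    refine Prod.ext ?_ rfl
    change q.1 * q.2 * q.2⁻¹ = q.1
    field_simp
  exact sub_left_injective h2

private theorem Tp2_sw_wu (D : Curve) (j : Fin 2) (κ : Rep) {q : E} (h : q.2 ≠ 0) :
    D.bl (.u j κ) (Tp2_sw q) = D.bl (.w j κ) q := by
  have h2 : D.bl (.u j κ) (Tp2_sw q) - D.cen j κ = D.bl (.w j κ) q - D.cen j κ := by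
    rw [Tp2_bl_w, Tp2_bl_u]
    refine Prod.ext rfl ?_
    change q.1 * q.2 * q.2⁻¹ = q.1
    field_simp
  exact sub_left_injective h2

private theorem Tp2_prod_uw (a : Fin 6 → ℂ) {y : ℂ} (h : y ≠ 0) :
    (∏ i, (1 - a i * y⁻¹)) = y⁻¹ ^ 6 * ∏ i, (y - a i) := by
  have h3 : ∀ i, 1 - a i * y⁻¹ = y⁻¹ * (y - a i) := by
    intro i
    field_simp
  rw [Finset.prod_congr rfl (fun i _ => h3 i), Finset.prod_mul_distrib]
  simp

private theorem Tp2_prod_wu (a : Fin 6 → ℂ) {y : ℂ} (h : y ≠ 0) :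
    (∏ i, (y⁻¹ - a i)) = y⁻¹ ^ 6 * ∏ i, (1 - a i * y) := by
  have h3 : ∀ i, y⁻¹ - a i = y⁻¹ * (1 - a i * y) := by
    intro i
    field_simp
  rw [Finset.prod_congr rfl (fun i _ => h3 i), Finset.prod_mul_distrib]
  simp

namespace Cov

variable {D : Curve} (H : Cov D)

private theorem Tp2_sg_uw (j : Fin 2) (κ : Rep) {q : E} (h : q.2 ≠ 0) :
    H.sg (.w j κ) (Tp2_sw q) = q.2⁻¹ ^ 6 * H.sg (.u j κ) q := by
  change (∏ i, (1 - D.a j i * q.2⁻¹)) * H.Vc j (emb κ) (D.bl (.w j κ) (Tp2_sw q)) ^ 6 =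
    q.2⁻¹ ^ 6 * ((∏ i, (q.2 - D.a j i)) * H.Vc j (emb κ) (D.bl (.u j κ) q) ^ 6)
  rw [Tp2_sw_uw D j κ h, Tp2_prod_uw (D.a j) h, mul_assoc]

private theorem Tp2_sg_wu (j : Fin 2) (κ : Rep) {q : E} (h : q.2 ≠ 0) :
    H.sg (.u j κ) (Tp2_sw q) = q.2⁻¹ ^ 6 * H.sg (.w j κ) q := by
  change (∏ i, (q.2⁻¹ - D.a j i)) * H.Vc j (emb κ) (D.bl (.u j κ) (Tp2_sw q)) ^ 6 =
    q.2⁻¹ ^ 6 * ((∏ i, (1 - D.a j i * q.2)) * H.Vc j (emb κ) (D.bl (.w j κ) q) ^ 6)
  rw [Tp2_sw_wu D j κ h, Tp2_prod_wu (D.a j) h, mul_assoc]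

private theorem Tp2_refl {a : Pt} {m : E × ℂ} (hm : m ∈ H.MM a) : H.Rl a a m m :=
  H.Rl_equiv.refl (⟨a, ⟨m, hm⟩⟩ : H.Tot)

private theorem Tp2_id {a : Pt} {m : E × ℂ} (hm : m ∈ H.MM a) :
    ∃ (G : E → E) (g : E → ℂ), ContDiffAt ℝ ∞ G m.1 ∧ ContDiffAt ℝ ∞ g m.1 ∧ G m.1 = m.1 ∧ g m.1 * m.2 = m.2 ∧
      g m.1 ≠ 0 ∧ ∀ᶠ q in 𝓝 m.1, ∀ x : ℂ, x ^ 6 = H.sg a q →
        (G q, g q * x) ∈ H.MM a ∧ H.Rl a a (q, x) (G q, g q * x) := by
  refine ⟨fun q => q, fun _ => 1, contDiffAt_id, contDiffAt_const, rfl, one_mul _, one_ne_zero, ?_⟩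
  filter_upwards [(D.isOpen_dom a).mem_nhds hm.1] with q hq x hx
  rw [one_mul]
  have h1 : (q, x) ∈ H.MM a := ⟨hq, hx⟩
  exact ⟨h1, H.Tp2_refl h1⟩

/-- Related points have related neighbourhoods.

Proof. First case (`fac ≠ 0`, number `n`): near `m.1` let `z q = D.bl a q + D.v (6 n)` and let `G q` be `z q` if `b` is the
main patch, and with `p q = z q - D.cen j κ` the point `(p.1, p.2 / p.1)` if `b` is `u j κ`, `(p.2, p.1 / p.2)` if `b` is
`w j κ` (`p.1 ≠ 0`, resp. `p.2 ≠ 0`, as `fac b m'.1 ≠ 0`); `g q = H.ε n (D.bl a q) * fac a q / fac b (G q)`. It is in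
`MM b`: `fac b (G q) ^ 6 * sg b (G q) = σ (z q) = ε ^ 6 * σ (bl a q) = ε ^ 6 * fac a q ^ 6 * sg a q` (`sg_bl`, `H.pow`).
Second case: `a` and `b` are patches of the same exceptional curve. If they are equal then `m = m'` and `G = id`, `g = 1`.
Otherwise `m.1.2 ≠ 0` and `G q = (q.1 * q.2, 1 / q.2)`, `g q = 1 / q.2`; the points are related by the first case for
`q.1 ≠ 0` (with `n = 0`) and by the second case for `q.1 = 0`. -/
theorem exists_morph {a b : Pt} {m m' : E × ℂ} (hm : m ∈ H.MM a) (hm' : m' ∈ H.MM b) (h : H.Rl a b m m') :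
    ∃ (G : E → E) (g : E → ℂ), ContDiffAt ℝ ∞ G m.1 ∧ ContDiffAt ℝ ∞ g m.1 ∧ G m.1 = m'.1 ∧ g m.1 * m.2 = m'.2 ∧
      g m.1 ≠ 0 ∧ ∀ᶠ q in 𝓝 m.1, ∀ x : ℂ, x ^ 6 = H.sg a q →
        (G q, g q * x) ∈ H.MM b ∧ H.Rl a b (q, x) (G q, g q * x) := by
  rcases h with ⟨hfa, hfb, n, hbl, hw⟩ | ⟨hfa, hfb, hs, hp⟩
  · -- first case
    have hG0 : Tp2_ib D b (D.bl a m.1 + D.v ((6 : ℤ) • n)) = m'.1 := by
      rw [← hbl]
      exact Tp2_ib_bl D hfb
    have sG : ContDiffAt ℝ ∞ (fun q => Tp2_ib D b (D.bl a q + D.v ((6 : ℤ) • n))) m.1 := by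
      have h1 : ContDiffAt ℝ ∞ (fun q => D.bl a q + D.v ((6 : ℤ) • n)) m.1 :=
        (D.bl_smooth a).contDiffAt.add contDiffAt_const
      have h2 : ContDiffAt ℝ ∞ (Tp2_ib D b) (D.bl a m.1 + D.v ((6 : ℤ) • n)) := by
        rw [← hbl]
        exact Tp2_ib_smooth D hfb
      exact h2.comp m.1 h1
    have sf : ContDiffAt ℝ ∞ (fun q => fac b (Tp2_ib D b (D.bl a q + D.v ((6 : ℤ) • n)))) m.1 :=
      (Curve.fac_smooth b).contDiffAt.comp m.1 sG
    have hf0 : fac b (Tp2_ib D b (D.bl a m.1 + D.v ((6 : ℤ) • n))) ≠ 0 := by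
      rw [hG0]
      exact hfb
    have se : ContDiffAt ℝ ∞ (fun q => H.ε n (D.bl a q) * fac a q) m.1 :=
      ((H.smooth n).contDiffAt.comp m.1 (D.bl_smooth a).contDiffAt).mul (Curve.fac_smooth a).contDiffAt
    refine ⟨fun q => Tp2_ib D b (D.bl a q + D.v ((6 : ℤ) • n)),
      fun q => H.ε n (D.bl a q) * fac a q * (fac b (Tp2_ib D b (D.bl a q + D.v ((6 : ℤ) • n))))⁻¹,
      sG, se.mul (sf.inv hf0), hG0, ?_, ?_, ?_⟩
    · simp only
      rw [hG0]
      field_simp
      rw [hw, mul_assoc]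
    · simp only
      rw [hG0]
      exact mul_ne_zero (mul_ne_zero (H.ne n _) hfa) (inv_ne_zero hfb)
    · have e1 : ∀ᶠ q in 𝓝 m.1, q ∈ D.dom a := (D.isOpen_dom a).mem_nhds hm.1
      have e2 : ∀ᶠ q in 𝓝 m.1, Tp2_ib D b (D.bl a q + D.v ((6 : ℤ) • n)) ∈ D.dom b := by
        refine sG.continuousAt.eventually_mem ((D.isOpen_dom b).mem_nhds ?_)
        rw [hG0]
        exact hm'.1
      have e3 : ∀ᶠ q in 𝓝 m.1, fac a q ≠ 0 :=
        (Curve.fac_smooth a).continuous.continuousAt.eventually_ne hfa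
      have e4 : ∀ᶠ q in 𝓝 m.1, fac b (Tp2_ib D b (D.bl a q + D.v ((6 : ℤ) • n))) ≠ 0 :=
        sf.continuousAt.eventually_ne hf0
      filter_upwards [e1, e2, e3, e4] with q h1 h2 h3 h4 x hx
      have h5 : D.bl b (Tp2_ib D b (D.bl a q + D.v ((6 : ℤ) • n))) = D.bl a q + D.v ((6 : ℤ) • n) :=
        Tp2_bl_ib D h4
      have h6 : H.σ (D.bl a q + D.v ((6 : ℤ) • n)) =
          fac b (Tp2_ib D b (D.bl a q + D.v ((6 : ℤ) • n))) ^ 6 *
            H.sg b (Tp2_ib D b (D.bl a q + D.v ((6 : ℤ) • n))) := by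
        rw [← H.sg_bl h2, h5]
      rw [H.pow, H.sg_bl h1, ← hx] at h6
      constructor
      · refine ⟨h2, ?_⟩
        have h7 := pow_ne_zero 6 h4
        apply mul_left_cancel₀ h7
        rw [← h6]
        simp only
        field_simp
      · refine Or.inl ⟨h3, h4, n, h5, ?_⟩
        simp only
        field_simp
  · -- second case
    cases a with
    | main => exact absurd hfa one_ne_zero
    | u j κ =>
      have m1 : m.1.1 = 0 := hfa
      cases b with
      | main => exact absurd hfb one_ne_zero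
      | u j' κ' =>
        have hs' : (j, κ) = (j', κ') := Option.some.inj hs
        obtain ⟨rfl, rfl⟩ := Prod.mk.inj hs'
        have m2 : m'.1.1 = 0 := hfb
        obtain ⟨p1, p2, -⟩ := hp
        have p1' : 1 * m'.1.2 = m.1.2 * 1 := p1
        have p2' : 1 * m'.2 = m.2 * 1 := p2
        rw [one_mul, mul_one] at p1' p2'
        have hmm : m' = m := Prod.ext (Prod.ext (m2.trans m1.symm) p1') p2'
        rw [hmm]
        exact H.Tp2_id hm
      | w j' κ' =>
        have hs' : (j, κ) = (j', κ') := Option.some.inj hs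
        obtain ⟨rfl, rfl⟩ := Prod.mk.inj hs'
        have m2 : m'.1.1 = 0 := hfb
        obtain ⟨p1, p2, -⟩ := hp
        have p1' : 1 * 1 = m.1.2 * m'.1.2 := p1
        have p2' : 1 * m'.2 = m.2 * m'.1.2 := p2
        rw [one_mul] at p1' p2'
        have hy : m.1.2 ≠ 0 := fun h0 => by
          rw [h0, zero_mul] at p1'
          exact one_ne_zero p1'
        have hy' : m'.1.2 = m.1.2⁻¹ := eq_inv_of_mul_eq_one_right p1'.symm
        have hG0 : Tp2_sw m.1 = m'.1 := by
          refine Prod.ext ?_ hy'.symm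
          change m.1.1 * m.1.2 = m'.1.1
          rw [m1, m2, zero_mul]
        have sG := Tp2_sw_smooth hy
        refine ⟨Tp2_sw, fun q => q.2⁻¹, sG, contDiffAt_snd.inv hy, hG0, ?_, inv_ne_zero hy, ?_⟩
        · simp only
          rw [p2', hy', mul_comm]
        · have e2 : ∀ᶠ q in 𝓝 m.1, Tp2_sw q ∈ D.dom (.w j κ) := by
            refine sG.continuousAt.eventually_mem ((D.isOpen_dom _).mem_nhds ?_)
            rw [hG0]
            exact hm'.1
          have e3 : ∀ᶠ q : E in 𝓝 m.1, q.2 ≠ 0 := continuous_snd.continuousAt.eventually_ne hy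
          filter_upwards [e2, e3] with q h2 h3 x hx
          constructor
          · refine ⟨h2, ?_⟩
            simp only
            rw [H.Tp2_sg_uw j κ h3, ← hx, mul_pow]
          · by_cases h4 : q.1 = 0
            · refine Or.inr ⟨h4, ?_, rfl, ?_, ?_, ?_⟩
              · change q.1 * q.2 = 0
                rw [h4, zero_mul]
              · change 1 * 1 = q.2 * q.2⁻¹
                field_simp
              · change 1 * (q.2⁻¹ * x) = x * q.2⁻¹
                ring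
              · change q.2 * (q.2⁻¹ * x) = x * 1
                field_simp
            · refine Or.inl ⟨h4, mul_ne_zero h4 h3, 0, ?_, ?_⟩
              · simp only
                rw [smul_zero, D.v_zero, add_zero, Tp2_sw_uw D j κ h3]
              · simp only
                rw [H.ε_zero, one_mul]
                change q.1 * q.2 * (q.2⁻¹ * x) = q.1 * x
                field_simp
    | w j κ =>
      have m1 : m.1.1 = 0 := hfa
      cases b with
      | main => exact absurd hfb one_ne_zero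
      | w j' κ' =>
        have hs' : (j, κ) = (j', κ') := Option.some.inj hs
        obtain ⟨rfl, rfl⟩ := Prod.mk.inj hs'
        have m2 : m'.1.1 = 0 := hfb
        obtain ⟨p1, -, p3⟩ := hp
        have p1' : m.1.2 * 1 = 1 * m'.1.2 := p1
        have p3' : 1 * m'.2 = m.2 * 1 := p3
        rw [one_mul, mul_one] at p1' p3'
        have hmm : m' = m := Prod.ext (Prod.ext (m2.trans m1.symm) p1'.symm) p3'
        rw [hmm]
        exact H.Tp2_id hm
      | u j' κ' =>
        have hs' : (j, κ) = (j', κ') := Option.some.inj hs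
        obtain ⟨rfl, rfl⟩ := Prod.mk.inj hs'
        have m2 : m'.1.1 = 0 := hfb
        obtain ⟨p1, -, p3⟩ := hp
        have p1' : m.1.2 * m'.1.2 = 1 * 1 := p1
        have p3' : 1 * m'.2 = m.2 * m'.1.2 := p3
        rw [one_mul] at p1' p3'
        have hy : m.1.2 ≠ 0 := fun h0 => by
          rw [h0, zero_mul] at p1'
          exact one_ne_zero p1'.symm
        have hy' : m'.1.2 = m.1.2⁻¹ := eq_inv_of_mul_eq_one_right p1'
        have hG0 : Tp2_sw m.1 = m'.1 := by
          refine Prod.ext ?_ hy'.symm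
          change m.1.1 * m.1.2 = m'.1.1
          rw [m1, m2, zero_mul]
        have sG := Tp2_sw_smooth hy
        refine ⟨Tp2_sw, fun q => q.2⁻¹, sG, contDiffAt_snd.inv hy, hG0, ?_, inv_ne_zero hy, ?_⟩
        · simp only
          rw [p3', hy', mul_comm]
        · have e2 : ∀ᶠ q in 𝓝 m.1, Tp2_sw q ∈ D.dom (.u j κ) := by
            refine sG.continuousAt.eventually_mem ((D.isOpen_dom _).mem_nhds ?_)
            rw [hG0]
            exact hm'.1
          have e3 : ∀ᶠ q : E in 𝓝 m.1, q.2 ≠ 0 := continuous_snd.continuousAt.eventually_ne hy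
          filter_upwards [e2, e3] with q h2 h3 x hx
          constructor
          · refine ⟨h2, ?_⟩
            simp only
            rw [H.Tp2_sg_wu j κ h3, ← hx, mul_pow]
          · by_cases h4 : q.1 = 0
            · refine Or.inr ⟨h4, ?_, rfl, ?_, ?_, ?_⟩
              · change q.1 * q.2 = 0
                rw [h4, zero_mul]
              · change q.2 * q.2⁻¹ = 1 * 1
                field_simp
              · change q.2 * (q.2⁻¹ * x) = x * 1
                field_simp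
              · change 1 * (q.2⁻¹ * x) = x * q.2⁻¹
                ring
            · refine Or.inl ⟨h4, mul_ne_zero h4 h3, 0, ?_, ?_⟩
              · simp only
                rw [smul_zero, D.v_zero, add_zero, Tp2_sw_wu D j κ h3]
              · simp only
                rw [H.ε_zero, one_mul]
                change q.1 * q.2 * (q.2⁻¹ * x) = q.1 * x
                field_simp

/-- Points of one patch with near base points are related only if they are equal.

Proof. First case: `‖D.v (6 n)‖ < 1`, so `n = 0` (`v_small`), `bl_inj`, `ε_zero`. Second case: `q.1 = 0` for both points, and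
the proportional vectors `(1, q.2, x)` (resp. `(q.2, 1, x)`) are equal. -/
theorem Rl_inj {a : Pt} {m m' : E × ℂ} (h : H.Rl a a m m') (hd : ‖D.bl a m.1 - D.bl a m'.1‖ < 1) : m = m' := by
  rcases h with ⟨hfa, hfb, n, hbl, hw⟩ | ⟨hfa, hfb, -, hp⟩
  · have h1 : (6 : ℤ) • n = 0 := by
      apply D.v_small
      rw [hbl, ← norm_neg] at hd
      simpa using hd
    have h2 : n = 0 := by
      funext i
      have h3 := congrFun h1 i
      simp only [Pi.smul_apply, Pi.zero_apply, smul_eq_mul] at h3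
      simp only [Pi.zero_apply]
      omega
    rw [h1, D.v_zero, add_zero] at hbl
    have h3 : m'.1 = m.1 := D.bl_inj hfb hfa hbl
    rw [h3, h2, H.ε_zero, one_mul] at hw
    exact Prod.ext h3.symm (mul_left_cancel₀ hfa hw).symm
  · cases a with
    | main => exact absurd hfa one_ne_zero
    | u j κ =>
      have m1 : m.1.1 = 0 := hfa
      have m2 : m'.1.1 = 0 := hfb
      obtain ⟨p1, p2, -⟩ := hp
      have p1' : 1 * m'.1.2 = m.1.2 * 1 := p1
      have p2' : 1 * m'.2 = m.2 * 1 := p2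
      rw [one_mul, mul_one] at p1' p2'
      exact Prod.ext (Prod.ext (m1.trans m2.symm) p1'.symm) p2'.symm
    | w j κ =>
      have m1 : m.1.1 = 0 := hfa
      have m2 : m'.1.1 = 0 := hfb
      obtain ⟨p1, -, p3⟩ := hp
      have p1' : m.1.2 * 1 = 1 * m'.1.2 := p1
      have p3' : 1 * m'.2 = m.2 * 1 := p3
      rw [one_mul, mul_one] at p1' p3'
      exact Prod.ext (Prod.ext (m1.trans m2.symm) p1') p3'.symm

end Cov

end Pool.Agent.Helper67.SY
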