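import Pool.Agent.Helper67.SY.Tp2

/-!
# Project SY (MP_872606_gt), block T: the quotient space
-/

open Complex Filter Topology
open scoped ContDiff

namespace Pool.Agent.Helper67.SY

namespace Cov

variable {D : Curve} (H : Cov D)

/-- The projection is open: for an open set `V` of the disjoint union, and a point `Q` related to a point `P ∈ V`, the map
`(q, x) ↦ (G q, g q * x)` of `exists_morph` (for the pair `Q`, `P`) is continuous at `Q`, so it maps a neighbourhood of `Q`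
into `V`. -/
theorem pj_open : IsOpenMap H.pj := by
  intro V hV
  have hq : Topology.IsQuotientMap H.pj := isQuotientMap_quotient_mk'
  rw [← hq.isOpen_preimage, isOpen_sigma_iff]
  intro a
  rw [isOpen_iff_mem_nhds]
  rintro m ⟨⟨b, m'⟩, hPV, hPQ⟩
  have hR : H.Rl a b m.1 m'.1 := (H.pj_eq ⟨a, m⟩ ⟨b, m'⟩).1 hPQ.symm
  obtain ⟨G, g, hG, hg, hG1, hg1, -, hev⟩ := H.exists_morph m.2 m'.2 hR
  have hVb : IsOpen (Sigma.mk b ⁻¹' V) := isOpen_sigma_iff.1 hV b
  obtain ⟨U, hU, hUV⟩ := isOpen_induced_iff.1 hVb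
  have hm'U : m'.1 ∈ U := by
    have h1 : m' ∈ Subtype.val ⁻¹' U := by
      rw [hUV]
      exact hPV
    exact h1
  have hfst : ContinuousAt (fun x : ↥(H.MM a) => x.1.1) m :=
    (continuous_fst.comp continuous_subtype_val).continuousAt
  have hsnd : ContinuousAt (fun x : ↥(H.MM a) => x.1.2) m :=
    (continuous_snd.comp continuous_subtype_val).continuousAt
  have hGc : ContinuousAt (fun x : ↥(H.MM a) => G x.1.1) m :=
    ContinuousAt.comp (g := G) (f := fun x : ↥(H.MM a) => x.1.1) hG.continuousAt hfst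
  have hgc : ContinuousAt (fun x : ↥(H.MM a) => g x.1.1) m :=
    ContinuousAt.comp (g := g) (f := fun x : ↥(H.MM a) => x.1.1) hg.continuousAt hfst
  have hΦ : ContinuousAt (fun x : ↥(H.MM a) => (G x.1.1, g x.1.1 * x.1.2)) m :=
    hGc.prodMk (hgc.mul hsnd)
  have hΦm : (G m.1.1, g m.1.1 * m.1.2) = m'.1 := Prod.ext hG1 hg1
  have hev1 : ∀ᶠ x : ↥(H.MM a) in 𝓝 m, (G x.1.1, g x.1.1 * x.1.2) ∈ U := by
    apply hΦ.eventually
    have h2 : (fun x : ↥(H.MM a) => (G x.1.1, g x.1.1 * x.1.2)) m = m'.1 := hΦm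
    rw [h2]
    exact hU.mem_nhds hm'U
  have hev2 := hfst.eventually hev
  filter_upwards [hev1, hev2] with x hx1 hx2
  obtain ⟨hx3, hx4⟩ := hx2 x.1.2 x.2.2
  refine ⟨⟨b, ⟨(G x.1.1, g x.1.1 * x.1.2), hx3⟩⟩, ?_, ?_⟩
  · have h1 : (⟨(G x.1.1, g x.1.1 * x.1.2), hx3⟩ : ↥(H.MM b)) ∈ Subtype.val ⁻¹' U := hx1
    rw [hUV] at h1
    exact h1
  · exact ((H.pj_eq ⟨a, x⟩ ⟨b, ⟨(G x.1.1, g x.1.1 * x.1.2), hx3⟩⟩).2 hx4).symm

end Cov

end Pool.Agent.Helper67.SY
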