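import Pool.Agent.Helper67.SY.Tp3

/-!
# Project SY (MP_872606_gt), block T: the quotient space
-/

open Complex Filter Topology
open scoped ContDiff

namespace Pool.Agent.Helper67.SY

private theorem Tp4_hv_cont (a : Pt) : Continuous (hv a) := by
  cases a with
  | main =>
    change Continuous (fun m : E × ℂ => ((1 : ℂ), (0 : ℂ), m.2))
    fun_prop
  | u j κ =>
    change Continuous (fun m : E × ℂ => ((1 : ℂ), m.1.2, m.2))
    fun_prop
  | w j κ =>
    change Continuous (fun m : E × ℂ => (m.1.2, (1 : ℂ), m.2))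
    fun_prop

private theorem Tp4_prp_closed (a b : Pt) : IsClosed {p : (E × ℂ) × (E × ℂ) | Prp (hv a p.1) (hv b p.2)} := by
  have h1 : Continuous (fun p : (E × ℂ) × (E × ℂ) => hv a p.1) := (Tp4_hv_cont a).comp continuous_fst
  have h2 : Continuous (fun p : (E × ℂ) × (E × ℂ) => hv b p.2) := (Tp4_hv_cont b).comp continuous_snd
  have e : {p : (E × ℂ) × (E × ℂ) | Prp (hv a p.1) (hv b p.2)} =
      {p | (hv a p.1).1 * (hv b p.2).2.1 = (hv a p.1).2.1 * (hv b p.2).1} ∩
      ({p | (hv a p.1).1 * (hv b p.2).2.2 = (hv a p.1).2.2 * (hv b p.2).1} ∩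
      {p | (hv a p.1).2.1 * (hv b p.2).2.2 = (hv a p.1).2.2 * (hv b p.2).2.1}) := rfl
  rw [e]
  refine (isClosed_eq ?_ ?_).inter ((isClosed_eq ?_ ?_).inter (isClosed_eq ?_ ?_)) <;> fun_prop

private theorem Tp4_vec {D : Curve} {a : Pt} {j : Fin 2} {κ : Rep} (ha : a.site = some (j, κ)) (m : E × ℂ) :
    fac a m.1 * (hv a m).1 = (D.bl a m.1 - D.cen j κ).1 ∧
      fac a m.1 * (hv a m).2.1 = (D.bl a m.1 - D.cen j κ).2 ∧ (hv a m).2.2 = m.2 := by
  cases a with
  | main => exact absurd ha (by simp [Pt.site])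
  | u j' κ' =>
    simp only [Pt.site, Option.some.injEq, Prod.mk.injEq] at ha
    obtain ⟨rfl, rfl⟩ := ha
    have h1 : D.bl (.u j' κ') m.1 - D.cen j' κ' = (m.1.1, m.1.1 * m.1.2) := add_sub_cancel_left _ _
    rw [h1]
    exact ⟨mul_one _, rfl, rfl⟩
  | w j' κ' =>
    simp only [Pt.site, Option.some.injEq, Prod.mk.injEq] at ha
    obtain ⟨rfl, rfl⟩ := ha
    have h1 : D.bl (.w j' κ') m.1 - D.cen j' κ' = (m.1.1 * m.1.2, m.1.1) := add_sub_cancel_left _ _
    rw [h1]
    exact ⟨rfl, mul_one _, rfl⟩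

namespace Cov

variable {D : Curve} (H : Cov D)

/-- the first case of the relation -/
private def Tp4_F (a b : Pt) (n : Fin 4 → ℤ) (m m' : E × ℂ) : Prop :=
  fac a m.1 ≠ 0 ∧ fac b m'.1 ≠ 0 ∧ D.bl b m'.1 = D.bl a m.1 + D.v ((6 : ℤ) • n) ∧
    fac b m'.1 * m'.2 = H.ε n (D.bl a m.1) * (fac a m.1 * m.2)

private theorem Tp4_prp {a b : Pt} {j : Fin 2} {κ : Rep} (ha : a.site = some (j, κ)) (hb : b.site = some (j, κ))
    {m m' : E × ℂ} (h : H.Tp4_F a b 0 m m') : Prp (hv a m) (hv b m') := by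
  obtain ⟨h1, h2, h3, h4⟩ := h
  rw [smul_zero, D.v_zero, add_zero] at h3
  rw [H.ε_zero, one_mul] at h4
  obtain ⟨a1, a2, a3⟩ := Tp4_vec (D := D) ha m
  obtain ⟨b1, b2, b3⟩ := Tp4_vec (D := D) hb m'
  rw [h3] at b1 b2
  have e1 : fac b m'.1 * (hv b m').1 = fac a m.1 * (hv a m).1 := b1.trans a1.symm
  have e2 : fac b m'.1 * (hv b m').2.1 = fac a m.1 * (hv a m).2.1 := b2.trans a2.symm
  have e3 : fac b m'.1 * (hv b m').2.2 = fac a m.1 * (hv a m).2.2 := by rw [a3, b3]; exact h4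
  have hne : fac b m'.1 ≠ 0 := h2
  refine ⟨?_, ?_, ?_⟩ <;> apply mul_left_cancel₀ hne
  · linear_combination (hv a m).1 * e2 - (hv a m).2.1 * e1
  · linear_combination (hv a m).1 * e3 - (hv a m).2.2 * e1
  · linear_combination (hv a m).2.1 * e3 - (hv a m).2.2 * e2

private theorem Tp4_bl_cont (a : Pt) : Continuous (D.bl a) := (D.bl_smooth a).continuous

/-- the limit of the first case with a fixed number, if the limit point is on an exceptional curve -/
private theorem Tp4_exc {a b : Pt} {n : Fin 4 → ℤ} {m m' : E × ℂ} (hm' : m'.1 ∈ D.dom b)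
    (h : ∃ᶠ p in 𝓝 (m, m'), H.Tp4_F a b n p.1 p.2) (hbl : D.bl b m'.1 = D.bl a m.1 + D.v ((6 : ℤ) • n))
    (h0 : fac a m.1 = 0) : n = 0 ∧ fac b m'.1 = 0 ∧ a.site = b.site ∧ Prp (hv a m) (hv b m') := by
  obtain ⟨j, κ, ha, hc⟩ := D.bl_zero h0
  have h1 : D.bl b m'.1 = D.c j + D.v (emb κ + (6 : ℤ) • n) := by
    rw [hbl, hc, D.v_add, ← add_assoc]
    rfl
  have hb : ∃ j' κ', b.site = some (j', κ') := by
    cases b with
    | main => exact absurd h1 (hm' j _)
    | u j' κ' => exact ⟨j', κ', rfl⟩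
    | w j' κ' => exact ⟨j', κ', rfl⟩
  obtain ⟨j', κ', hb⟩ := hb
  have h2 := D.bl_near hb hm'
  have hr := D.hr
  have h3 : ‖D.bl b m'.1 - (D.c j' + D.v (emb κ'))‖ < 2 * D.r := by
    rw [Prod.norm_def]
    exact max_lt (by have := h2.1; unfold Curve.cen at this; linarith)
      (by have := h2.2; unfold Curve.cen at this; linarith)
  have h4 : ‖D.bl b m'.1 - (D.c j + D.v (emb κ + (6 : ℤ) • n))‖ < 2 * D.r := by
    rw [h1, sub_self, norm_zero]
    linarith
  obtain ⟨e1, e2⟩ := D.special_unique_c h3 h4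
  obtain ⟨e3, e4⟩ := emb_eq e2
  subst e1
  subst e3
  subst e4
  have h5 : fac b m'.1 = 0 := by
    by_contra h6
    refine D.bl_ne hb h6 ?_
    rw [hbl, hc, smul_zero, D.v_zero, add_zero]
  refine ⟨rfl, h5, ha.trans hb.symm, ?_⟩
  have h6 : ∃ᶠ p in 𝓝 (m, m'), p ∈ {p : (E × ℂ) × (E × ℂ) | Prp (hv a p.1) (hv b p.2)} :=
    h.mono fun p hp => H.Tp4_prp ha hb hp
  exact isClosed_iff_frequently.1 (Tp4_prp_closed a b) _ h6

private theorem Tp4_lim {a b : Pt} {m m' : E × ℂ} (hm : m ∈ H.MM a) (hm' : m' ∈ H.MM b)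
    (h : ∃ᶠ p in 𝓝 (m, m'), H.Rl a b p.1 p.2) : H.Rl a b m m' := by
  have h' : ∃ᶠ p in 𝓝 (m, m'), (∃ n, H.Tp4_F a b n p.1 p.2) ∨
      (fac a p.1.1 = 0 ∧ fac b p.2.1 = 0 ∧ a.site = b.site ∧ Prp (hv a p.1) (hv b p.2)) := by
    refine h.mono fun p hp => ?_
    rcases hp with ⟨h1, h2, n, h3, h4⟩ | hp
    · exact Or.inl ⟨n, h1, h2, h3, h4⟩
    · exact Or.inr hp
  have ca : Continuous (fun p : (E × ℂ) × (E × ℂ) => D.bl a p.1.1) :=
    (Tp4_bl_cont a).comp (continuous_fst.comp continuous_fst)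
  have cb : Continuous (fun p : (E × ℂ) × (E × ℂ) => D.bl b p.2.1) :=
    (Tp4_bl_cont b).comp (continuous_fst.comp continuous_snd)
  have fa : Continuous (fun p : (E × ℂ) × (E × ℂ) => fac a p.1.1) :=
    (Curve.fac_smooth a).continuous.comp (continuous_fst.comp continuous_fst)
  have fb : Continuous (fun p : (E × ℂ) × (E × ℂ) => fac b p.2.1) :=
    (Curve.fac_smooth b).continuous.comp (continuous_fst.comp continuous_snd)
  rcases Filter.frequently_or_distrib.1 h' with h1 | h1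
  · -- the number is constant near the point
    have hc : Continuous (fun p : (E × ℂ) × (E × ℂ) => D.bl b p.2.1 - D.bl a p.1.1) := cb.sub ca
    have hev : ∀ᶠ p in 𝓝 (m, m'), dist (D.bl b p.2.1 - D.bl a p.1.1) (D.bl b m'.1 - D.bl a m.1) < 1 / 2 :=
      (hc.tendsto (m, m')).eventually (Metric.ball_mem_nhds _ (by norm_num : (0 : ℝ) < 1 / 2))
    obtain ⟨p₀, ⟨n, hp₀⟩, hd₀⟩ := (h1.and_eventually hev).exists
    have h2 : ∃ᶠ p in 𝓝 (m, m'), H.Tp4_F a b n p.1 p.2 := by
      refine (h1.and_eventually hev).mono ?_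
      rintro p ⟨⟨n', hp⟩, hd⟩
      have e1 : D.bl b p.2.1 - D.bl a p.1.1 = D.v ((6 : ℤ) • n') := by rw [hp.2.2.1, add_sub_cancel_left]
      have e2 : D.bl b p₀.2.1 - D.bl a p₀.1.1 = D.v ((6 : ℤ) • n) := by rw [hp₀.2.2.1, add_sub_cancel_left]
      have h3 : dist (D.v ((6 : ℤ) • n')) (D.v ((6 : ℤ) • n)) < 1 := by
        rw [← e1, ← e2]
        have := dist_triangle_right (D.bl b p.2.1 - D.bl a p.1.1) (D.bl b p₀.2.1 - D.bl a p₀.1.1)
          (D.bl b m'.1 - D.bl a m.1)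
        linarith
      have h4 : (6 : ℤ) • n' + -((6 : ℤ) • n) = 0 := by
        apply D.v_small
        rw [D.v_add, D.v_neg, ← sub_eq_add_neg, ← dist_eq_norm]
        exact h3
      have h5 : n' = n := by
        funext i
        have := congrFun h4 i
        simp only [Pi.add_apply, Pi.neg_apply, Pi.smul_apply, smul_eq_mul, Pi.zero_apply] at this
        omega
      rw [← h5]
      exact hp
    have c1 : IsClosed {p : (E × ℂ) × (E × ℂ) | D.bl b p.2.1 = D.bl a p.1.1 + D.v ((6 : ℤ) • n)} :=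
      isClosed_eq cb (ca.add continuous_const)
    have c2 : IsClosed {p : (E × ℂ) × (E × ℂ) |
        fac b p.2.1 * p.2.2 = H.ε n (D.bl a p.1.1) * (fac a p.1.1 * p.1.2)} :=
      isClosed_eq (fb.mul (continuous_snd.comp continuous_snd))
        (((H.smooth n).continuous.comp ca).mul (fa.mul (continuous_snd.comp continuous_fst)))
    have hbl : D.bl b m'.1 = D.bl a m.1 + D.v ((6 : ℤ) • n) :=
      isClosed_iff_frequently.1 c1 (m, m') (h2.mono fun p hp => hp.2.2.1)
    have hfa : fac b m'.1 * m'.2 = H.ε n (D.bl a m.1) * (fac a m.1 * m.2) :=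
      isClosed_iff_frequently.1 c2 (m, m') (h2.mono fun p hp => hp.2.2.2)
    by_cases ha : fac a m.1 = 0
    · obtain ⟨-, h3, h4, h5⟩ := H.Tp4_exc hm'.1 h2 hbl ha
      exact Or.inr ⟨ha, h3, h4, h5⟩
    · by_cases hb : fac b m'.1 = 0
      · -- the reversed relation
        have h3 : ∃ᶠ p in 𝓝 (m', m), H.Tp4_F b a (-n) p.1 p.2 := by
          have ht : Filter.Tendsto (Prod.swap : (E × ℂ) × (E × ℂ) → (E × ℂ) × (E × ℂ)) (𝓝 (m, m'))
              (𝓝 (m', m)) := (continuous_swap.tendsto (m, m'))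
          refine ht.frequently (h2.mono ?_)
          rintro ⟨q, q'⟩ ⟨g1, g2, g3, g4⟩
          refine ⟨g2, g1, ?_, ?_⟩
          · simp only [Prod.swap] at g3 ⊢
            rw [g3, smul_neg, D.v_neg, add_neg_cancel_right]
          · simp only [Prod.swap] at g3 g4 ⊢
            rw [g4, ← mul_assoc, g3, ← H.add (-n) n, neg_add_cancel, H.ε_zero, one_mul]
        have hbl' : D.bl a m.1 = D.bl b m'.1 + D.v ((6 : ℤ) • (-n)) := by
          rw [hbl, smul_neg, D.v_neg, add_neg_cancel_right]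
        obtain ⟨-, h4, -, -⟩ := H.Tp4_exc hm.1 h3 hbl' hb
        exact absurd h4 ha
      · exact Or.inl ⟨ha, hb, n, hbl, hfa⟩
  · right
    have c1 : IsClosed {p : (E × ℂ) × (E × ℂ) |
        fac a p.1.1 = 0 ∧ fac b p.2.1 = 0 ∧ a.site = b.site ∧ Prp (hv a p.1) (hv b p.2)} := by
      refine (isClosed_eq fa continuous_const).inter ((isClosed_eq fb continuous_const).inter ?_)
      exact (isClosed_const (p := a.site = b.site)).inter (Tp4_prp_closed a b)
    exact isClosed_iff_frequently.1 c1 (m, m') h1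

/-- The relation is closed.

Proof. Let `m_k → m` in `MM a`, `m'_k → m'` in `MM b`, `m_k` related to `m'_k` (sequences, or filters; fixed `a`, `b`). If the
second case holds infinitely often, it holds for the limit. Otherwise the first case holds with numbers `n_k`,
`D.v (6 n_k) → bl b m'.1 - bl a m.1`, so `n_k = n` is constant for large `k` (`v_small`), and in the limit
`bl b m'.1 = bl a m.1 + v (6 n)` and `fac b m'.1 * m'.2 = ε n (bl a m.1) * (fac a m.1 * m.2)`. If both `fac` are not zero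
this is the first case. Let `fac a m.1 = 0` (the other case is similar), so `bl a m.1 = cen j κ`; then
`bl b m'.1 = cen j κ + v (6 n)` is a 6-fold point, hence `b` is not the main patch, `b.site = some (j', κ')`, and
(`bl_near`, `special_unique_c`) it is `cen j' κ'`; so `j = j'` and `κ = κ'`, `n = 0` (`emb_eq`), `fac b m'.1 = 0` (`bl_ne`).
The vectors satisfy `fac b m'_k * hv b m'_k = fac a m_k * hv a m_k` for large `k` (`n_k = 0`, `ε_zero`), they are
proportional, and `Prp` is a closed condition. -/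
theorem Rl_closed : IsClosed {x : H.Tot × H.Tot | H.Rl x.1.1 x.2.1 x.1.2 x.2.2} := by
  rw [isClosed_iff_frequently]
  rintro ⟨⟨a, m⟩, ⟨b, m'⟩⟩ h
  rw [nhds_prod_eq, Sigma.nhds_mk, Sigma.nhds_mk, Filter.prod_map_map_eq, Filter.frequently_map] at h
  have h2 : ∃ᶠ p in 𝓝 ((m : E × ℂ), (m' : E × ℂ)), H.Rl a b p.1 p.2 := by
    have ht : Filter.Tendsto (fun p : ↥(H.MM a) × ↥(H.MM b) => ((p.1 : E × ℂ), (p.2 : E × ℂ))) (𝓝 m ×ˢ 𝓝 m')
        (𝓝 ((m : E × ℂ), (m' : E × ℂ))) := by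
      rw [← nhds_prod_eq]
      exact ((continuous_subtype_val.comp continuous_fst).prodMk
        (continuous_subtype_val.comp continuous_snd)).tendsto (m, m')
    exact ht.frequently h
  exact H.Tp4_lim m.2 m'.2 h2

/-- Quotient by an open map with closed relation (`t2Space_iff_of_isOpenQuotientMap` or `t2_iff_isClosed_diagonal`). -/
theorem t2 : T2Space H.Y := by
  have hq : IsOpenQuotientMap H.pj := ⟨H.pj_surj, H.pj_cont, H.pj_open⟩
  rw [t2Space_iff_of_isOpenQuotientMap hq]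
  have e : {q : H.Tot × H.Tot | H.pj q.1 = H.pj q.2} = {x : H.Tot × H.Tot | H.Rl x.1.1 x.2.1 x.1.2 x.2.2} := by
    ext q
    exact H.pj_eq q.1 q.2
  rw [e]
  exact H.Rl_closed

end Cov

end Pool.Agent.Helper67.SY
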