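import Pool.Agent.Helper67.SY.Tp3
import Pool.Agent.Helper67.SY.EqB5

/-!
# Project SY (MP_872606_gt), block T: the quotient space
-/

open Complex Filter Topology
open scoped ContDiff

namespace Pool.Agent.Helper67.SY

/-- The sixth roots of a continuous function on a compact set form a compact set. -/
private theorem Tp5_roots {K : Set E} (hK : IsCompact K) {g : E → ℂ} (hg : ContinuousOn g K) :
    IsCompact {m : E × ℂ | m.1 ∈ K ∧ m.2 ^ 6 = g m.1} := by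
  obtain ⟨B, hB⟩ := hK.exists_bound_of_continuousOn hg
  have h1 : IsCompact (K ×ˢ Metric.closedBall (0 : ℂ) (max B 1)) := hK.prod (isCompact_closedBall _ _)
  have h2 : ContinuousOn (fun m : E × ℂ => m.2 ^ 6 - g m.1) (K ×ˢ Metric.closedBall (0 : ℂ) (max B 1)) := by
    refine (continuous_snd.pow 6).continuousOn.sub (hg.comp continuous_fst.continuousOn ?_)
    intro m hm
    exact hm.1
  have h3 : IsClosed ((K ×ˢ Metric.closedBall (0 : ℂ) (max B 1)) ∩ (fun m : E × ℂ => m.2 ^ 6 - g m.1) ⁻¹' {0}) :=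
    h2.preimage_isClosed_of_isClosed h1.isClosed isClosed_singleton
  have h4 : {m : E × ℂ | m.1 ∈ K ∧ m.2 ^ 6 = g m.1} =
      (K ×ˢ Metric.closedBall (0 : ℂ) (max B 1)) ∩ (fun m : E × ℂ => m.2 ^ 6 - g m.1) ⁻¹' {0} := by
    ext m
    constructor
    · rintro ⟨h5, h6⟩
      refine ⟨⟨h5, ?_⟩, ?_⟩
      · rw [mem_closedBall_zero_iff]
        by_contra h7
        rw [not_le] at h7
        have h8 : 1 < ‖m.2‖ := (le_max_right _ _).trans_lt h7
        have h9 : ‖m.2‖ ^ 6 ≤ B := by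
          rw [← norm_pow, h6]
          exact hB _ h5
        have h10 : ‖m.2‖ ≤ ‖m.2‖ ^ 6 := le_self_pow₀ h8.le (by norm_num)
        have h11 := (le_max_left B 1).trans_lt h7
        linarith
      · show m.2 ^ 6 - g m.1 = 0
        rw [h6, sub_self]
    · rintro ⟨⟨h5, _⟩, h6⟩
      exact ⟨h5, sub_eq_zero.1 h6⟩
  rw [h4]
  exact h1.of_isClosed_subset h3 Set.inter_subset_left

private theorem Tp5_box (D : Curve) (z : E) : ∃ n : Fin 4 → ℤ, z + D.v ((6 : ℤ) • n) ∈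
    (Set.Icc (0 : ℝ) (6 * D.p) ×ℂ Set.Icc (0 : ℝ) (6 * D.q)) ×ˢ
      (Set.Icc (0 : ℝ) (6 * D.M) ×ℂ Set.Icc (0 : ℝ) (6 * D.M)) := by
  obtain ⟨n, h0, h0', h1, h1', h2, h2', h3, h3'⟩ := D.exists_box ((1 / 6 : ℝ) • z)
  refine ⟨n, ?_⟩
  have hv : D.v ((6 : ℤ) • n) = (6 : ℝ) • D.v n := by
    unfold Curve.v
    rw [vec_smul]
    norm_num
  have h : z + D.v ((6 : ℤ) • n) = (6 : ℝ) • ((1 / 6 : ℝ) • z + D.v n) := by
    rw [smul_add, smul_smul, hv]
    norm_num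
  have e1 : (z + D.v ((6 : ℤ) • n)).1.re = 6 * ((1 / 6 : ℝ) • z + D.v n).1.re := by
    rw [h, Prod.smul_fst, smul_re, smul_eq_mul]
  have e2 : (z + D.v ((6 : ℤ) • n)).1.im = 6 * ((1 / 6 : ℝ) • z + D.v n).1.im := by
    rw [h, Prod.smul_fst, smul_im, smul_eq_mul]
  have e3 : (z + D.v ((6 : ℤ) • n)).2.re = 6 * ((1 / 6 : ℝ) • z + D.v n).2.re := by
    rw [h, Prod.smul_snd, smul_re, smul_eq_mul]
  have e4 : (z + D.v ((6 : ℤ) • n)).2.im = 6 * ((1 / 6 : ℝ) • z + D.v n).2.im := by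
    rw [h, Prod.smul_snd, smul_im, smul_eq_mul]
  refine ⟨⟨⟨?_, ?_⟩, ⟨?_, ?_⟩⟩, ⟨⟨?_, ?_⟩, ⟨?_, ?_⟩⟩⟩
  · rw [e1]; linarith
  · rw [e1]; linarith
  · rw [e2]; linarith
  · rw [e2]; linarith
  · rw [e3]; linarith
  · rw [e3]; linarith
  · rw [e4]; linarith
  · rw [e4]; linarith

private theorem Tp5_rad (D : Curve) (j : Fin 2) : 1 ≤ D.rad j := by
  unfold Curve.rad
  have : 0 ≤ ∑ i, ‖D.a j i‖ := Finset.sum_nonneg fun i _ => norm_nonneg _
  linarith

namespace Cov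

variable {D : Curve} (H : Cov D)

private theorem Tp5_mem {a b : Pt} {m m' : E × ℂ} (hm : m ∈ H.MM a) (n : Fin 4 → ℤ) (hd : m'.1 ∈ D.dom b)
    (hf' : fac b m'.1 ≠ 0) (h1 : D.bl b m'.1 = D.bl a m.1 + D.v ((6 : ℤ) • n))
    (h2 : fac b m'.1 * m'.2 = H.ε n (D.bl a m.1) * (fac a m.1 * m.2)) : m' ∈ H.MM b := by
  refine ⟨hd, ?_⟩
  have h3 : fac b m'.1 ^ 6 * m'.2 ^ 6 = fac b m'.1 ^ 6 * H.sg b m'.1 := by
    rw [← mul_pow, h2, ← H.sg_bl hd, h1, H.pow, mul_pow, mul_pow, hm.2, H.sg_bl hm.1]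
  exact mul_left_cancel₀ (pow_ne_zero 6 hf') h3

private theorem Tp5_sg (j : Fin 2) (κ : Rep) {t : ℂ} (ht : t ≠ 0) :
    H.sg (.u j κ) (0, t) = t ^ 6 * H.sg (.w j κ) (0, t⁻¹) := by
  have h1 : D.bl (.u j κ) (0, t) = D.bl (.w j κ) (0, t⁻¹) := by
    change D.cen j κ + ((0 : ℂ), (0 : ℂ) * t) = D.cen j κ + ((0 : ℂ) * t⁻¹, (0 : ℂ))
    rw [zero_mul, zero_mul]
  have h2 : ∏ i, (t - D.a j i) = t ^ 6 * ∏ i, (1 - D.a j i * t⁻¹) := by
    have h3 : ∀ i, t - D.a j i = t * (1 - D.a j i * t⁻¹) := by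
      intro i
      field_simp
    rw [Finset.prod_congr rfl (fun i _ => h3 i), Finset.prod_mul_distrib]
    simp
  change (∏ i, (t - D.a j i)) * H.Vc j (emb κ) (D.bl (.u j κ) (0, t)) ^ 6 =
    t ^ 6 * ((∏ i, (1 - D.a j i * t⁻¹)) * H.Vc j (emb κ) (D.bl (.w j κ) (0, t⁻¹)) ^ 6)
  rw [h1, h2, mul_assoc]

private theorem Tp5_img (a : Pt) {K : Set E} (hK : IsCompact K) (hd : K ⊆ D.dom a) :
    IsCompact (H.pj '' {P : H.Tot | P.1 = a ∧ (P.2 : E × ℂ).1 ∈ K}) := by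
  have hS : IsCompact {m : E × ℂ | m.1 ∈ K ∧ m.2 ^ 6 = H.sg a m.1} :=
    Tp5_roots hK ((H.sg_smooth a).continuousOn.mono hd)
  have := isCompact_iff_compactSpace.1 hS
  let f : {m : E × ℂ | m.1 ∈ K ∧ m.2 ^ 6 = H.sg a m.1} → H.Y :=
    fun m => H.pj ⟨a, ⟨m.1, ⟨hd m.2.1, m.2.2⟩⟩⟩
  have hf : Continuous f := by
    refine H.pj_cont.comp (continuous_sigmaMk.comp ?_)
    exact Continuous.subtype_mk continuous_subtype_val _
  have he : H.pj '' {P : H.Tot | P.1 = a ∧ (P.2 : E × ℂ).1 ∈ K} = Set.range f := by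
    ext y
    constructor
    · rintro ⟨⟨b, m⟩, ⟨h1, h2⟩, rfl⟩
      obtain rfl : b = a := h1
      exact ⟨⟨m.1, ⟨h2, m.2.2⟩⟩, rfl⟩
    · rintro ⟨m, rfl⟩
      exact ⟨⟨a, ⟨m.1, ⟨hd m.2.1, m.2.2⟩⟩⟩, ⟨rfl, m.2.1⟩, rfl⟩
  rw [he]
  exact isCompact_range hf

/-- `Y` is compact.

Proof. It is the union of the images of finitely many compact sets. Main patch: the `(z, x)` with `x ^ 6 = σ z` and `z` in the
box with sides `6 p`, `6 q`, `6 M`, `6 M`, at distance `≥ r / 4` from all 6-fold points. Patches `u j κ`: the `(q, x)` with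
`‖q.1‖ ≤ r / 4`, `‖q.1 * q.2‖ ≤ r / 4`, `‖q.2‖ ≤ 2 rad j`, `x ^ 6 = sg`. Patches `w j κ`: `‖q.1‖ ≤ r / 4`, `‖q.1 * q.2‖ ≤ r / 4`,
`2 * rad j * ‖q.2‖ ≤ 1`. (They are closed in `ℂ × ℂ × ℂ` and bounded; they are contained in the domains.) A point `(z, x)` of
the main patch is related to one with `z` in the box (`exists_box` for the lattice `6 Λ`: apply it to `z / 6`, or repeat its
proof); if `z` is at distance `< r / 4` from a 6-fold point `c j + v n`, `n = emb κ + 6 m` (`exists_emb`), with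
`p = z - (c j + v n)`, then it is related to the point with `q = (p.1, p.2 / p.1)` of the patch `u j κ` if
`‖p.2‖ ≤ 2 rad j ‖p.1‖`, and to the point with `q = (p.2, p.1 / p.2)` of the patch `w j κ` otherwise. A point of the patch `u`
or `w` with `fac ≠ 0` is related to one of the main patch; with `fac = 0`: it is in the compact set, or related by
`(0, t) ↦ (0, 1 / t)` to a point of the other patch in the compact set. -/
theorem compact : CompactSpace H.Y := by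
  have hr := D.hr
  obtain ⟨Km, hKm⟩ : ∃ Km : Set E, Km = ((Set.Icc (0 : ℝ) (6 * D.p) ×ℂ Set.Icc (0 : ℝ) (6 * D.q)) ×ˢ
      (Set.Icc (0 : ℝ) (6 * D.M) ×ℂ Set.Icc (0 : ℝ) (6 * D.M))) ∩
      {z | ∀ j n, D.r / 4 ≤ ‖z - (D.c j + D.v n)‖} := ⟨_, rfl⟩
  obtain ⟨Ku, hKu⟩ : ∃ Ku : Fin 2 → Set E, Ku = fun j => {q | ‖q.1‖ ≤ D.r / 4 ∧ ‖q.1 * q.2‖ ≤ D.r / 4 ∧
      ‖q.2‖ ≤ 2 * D.rad j} := ⟨_, rfl⟩
  obtain ⟨Kw, hKw⟩ : ∃ Kw : Fin 2 → Set E, Kw = fun j => {q | ‖q.1‖ ≤ D.r / 4 ∧ ‖q.1 * q.2‖ ≤ D.r / 4 ∧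
      2 * D.rad j * ‖q.2‖ ≤ 1} := ⟨_, rfl⟩
  have cKm : IsCompact Km := by
    rw [hKm]
    refine IsCompact.inter_right ?_ ?_
    · exact (isCompact_Icc.reProdIm isCompact_Icc).prod (isCompact_Icc.reProdIm isCompact_Icc)
    · simp only [Set.ofPred_forall]
      exact isClosed_iInter fun j => isClosed_iInter fun n =>
        isClosed_le continuous_const (continuous_id.sub continuous_const).norm
  have cKu : ∀ j, IsCompact (Ku j) := by
    intro j
    have h1 : IsCompact (Metric.closedBall (0 : ℂ) (D.r / 4) ×ˢ Metric.closedBall (0 : ℂ) (2 * D.rad j)) :=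
      (isCompact_closedBall _ _).prod (isCompact_closedBall _ _)
    refine h1.of_isClosed_subset ?_ ?_
    · rw [hKu]
      exact (isClosed_le continuous_fst.norm continuous_const).inter
        ((isClosed_le (continuous_fst.mul continuous_snd).norm continuous_const).inter
          (isClosed_le continuous_snd.norm continuous_const))
    · rw [hKu]
      rintro q ⟨h2, -, h3⟩
      exact ⟨mem_closedBall_zero_iff.2 h2, mem_closedBall_zero_iff.2 h3⟩
  have cKw : ∀ j, IsCompact (Kw j) := by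
    intro j
    have h1 : IsCompact (Metric.closedBall (0 : ℂ) (D.r / 4) ×ˢ Metric.closedBall (0 : ℂ) 1) :=
      (isCompact_closedBall _ _).prod (isCompact_closedBall _ _)
    refine h1.of_isClosed_subset ?_ ?_
    · rw [hKw]
      exact (isClosed_le continuous_fst.norm continuous_const).inter
        ((isClosed_le (continuous_fst.mul continuous_snd).norm continuous_const).inter
          (isClosed_le (continuous_const.mul continuous_snd.norm) continuous_const))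
    · rw [hKw]
      rintro q ⟨h2, -, h3⟩
      refine ⟨mem_closedBall_zero_iff.2 h2, mem_closedBall_zero_iff.2 ?_⟩
      have h4 := Tp5_rad D j
      have h5 := norm_nonneg q.2
      nlinarith
  have dKm : Km ⊆ D.dom .main := by
    rw [hKm]
    rintro z ⟨-, hz⟩ j n he
    have h1 := hz j n
    rw [he, sub_self, norm_zero] at h1
    linarith
  have dKu : ∀ j κ, Ku j ⊆ D.dom (.u j κ) := by
    intro j κ
    rw [hKu]
    rintro q ⟨h1, h2, -⟩
    exact ⟨by linarith, by linarith⟩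
  have dKw : ∀ j κ, Kw j ⊆ D.dom (.w j κ) := by
    intro j κ
    rw [hKw]
    rintro q ⟨h1, h2, h3⟩
    exact ⟨by linarith, by linarith, by linarith⟩
  have cU : IsCompact ((H.pj '' {P : H.Tot | P.1 = .main ∧ (P.2 : E × ℂ).1 ∈ Km}) ∪
      ((⋃ i : Fin 2 × Rep, H.pj '' {P : H.Tot | P.1 = .u i.1 i.2 ∧ (P.2 : E × ℂ).1 ∈ Ku i.1}) ∪
      (⋃ i : Fin 2 × Rep, H.pj '' {P : H.Tot | P.1 = .w i.1 i.2 ∧ (P.2 : E × ℂ).1 ∈ Kw i.1}))) := by
    refine (H.Tp5_img .main cKm dKm).union (IsCompact.union ?_ ?_)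
    · exact isCompact_iUnion fun i => H.Tp5_img (.u i.1 i.2) (cKu i.1) (dKu i.1 i.2)
    · exact isCompact_iUnion fun i => H.Tp5_img (.w i.1 i.2) (cKw i.1) (dKw i.1 i.2)
  refine ⟨cU.of_isClosed_subset isClosed_univ ?_⟩
  rintro y -
  obtain ⟨⟨a, m, hm⟩, rfl⟩ := H.pj_surj y
  by_cases hf : fac a m.1 = 0
  · cases a with
    | main => exact absurd hf one_ne_zero
    | u j κ =>
      have hq : m.1.1 = 0 := hf
      by_cases ht : ‖m.1.2‖ ≤ 2 * D.rad j
      · refine Or.inr (Or.inl (Set.mem_iUnion.2 ⟨(j, κ), ⟨.u j κ, ⟨m, hm⟩⟩, ⟨rfl, ?_⟩, rfl⟩))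
        show m.1 ∈ Ku j
        rw [hKu]
        refine ⟨?_, ?_, ht⟩
        · rw [hq, norm_zero]
          positivity
        · rw [hq, zero_mul, norm_zero]
          positivity
      · rw [not_le] at ht
        have hrad := Tp5_rad D j
        have ht0 : m.1.2 ≠ 0 := by
          intro h
          rw [h, norm_zero] at ht
          linarith
        have htn : 0 < ‖m.1.2‖ := norm_pos_iff.2 ht0
        have h3 : 2 * D.rad j * ‖(m.1.2)⁻¹‖ ≤ 1 := by
          rw [norm_inv, ← div_eq_mul_inv, div_le_one htn]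
          exact ht.le
        have hK : (((0 : ℂ), (m.1.2)⁻¹) : E) ∈ Kw j := by
          rw [hKw]
          refine ⟨?_, ?_, h3⟩
          · show ‖(0 : ℂ)‖ ≤ D.r / 4
            rw [norm_zero]
            positivity
          · show ‖(0 : ℂ) * (m.1.2)⁻¹‖ ≤ D.r / 4
            rw [zero_mul, norm_zero]
            positivity
        have hx : ((((0 : ℂ), (m.1.2)⁻¹), m.2 / m.1.2) : E × ℂ) ∈ H.MM (.w j κ) := by
          refine ⟨dKw j κ hK, ?_⟩
          have h4 := hm.2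
          have h5 : m.1 = (0, m.1.2) := Prod.ext hq rfl
          rw [h5, H.Tp5_sg j κ ht0] at h4
          show (m.2 / m.1.2) ^ 6 = H.sg (.w j κ) (0, (m.1.2)⁻¹)
          rw [div_pow, h4, mul_div_cancel_left₀ _ (pow_ne_zero 6 ht0)]
        refine Or.inr (Or.inr (Set.mem_iUnion.2 ⟨(j, κ), ⟨.w j κ, ⟨_, hx⟩⟩, ⟨rfl, hK⟩, ?_⟩))
        refine ((H.pj_eq ⟨.u j κ, ⟨m, hm⟩⟩ ⟨.w j κ, ⟨_, hx⟩⟩).2 (Or.inr ⟨hq, rfl, rfl, ?_, ?_, ?_⟩)).symm
        · show (1 : ℂ) * 1 = m.1.2 * (m.1.2)⁻¹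
          rw [mul_inv_cancel₀ ht0, one_mul]
        · show (1 : ℂ) * (m.2 / m.1.2) = m.2 * (m.1.2)⁻¹
          rw [one_mul, div_eq_mul_inv]
        · show m.1.2 * (m.2 / m.1.2) = m.2 * 1
          rw [mul_one, mul_div_cancel₀ _ ht0]
    | w j κ =>
      have hq : m.1.1 = 0 := hf
      by_cases ht : 2 * D.rad j * ‖m.1.2‖ ≤ 1
      · refine Or.inr (Or.inr (Set.mem_iUnion.2 ⟨(j, κ), ⟨.w j κ, ⟨m, hm⟩⟩, ⟨rfl, ?_⟩, rfl⟩))
        show m.1 ∈ Kw j
        rw [hKw]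
        refine ⟨?_, ?_, ht⟩
        · rw [hq, norm_zero]
          positivity
        · rw [hq, zero_mul, norm_zero]
          positivity
      · rw [not_le] at ht
        have hrad := Tp5_rad D j
        have ht0 : m.1.2 ≠ 0 := by
          intro h
          rw [h, norm_zero] at ht
          linarith
        have htn : 0 < ‖m.1.2‖ := norm_pos_iff.2 ht0
        have h3 : ‖(m.1.2)⁻¹‖ ≤ 2 * D.rad j := by
          rw [norm_inv, inv_le_iff_one_le_mul₀ htn]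
          exact ht.le
        have hK : (((0 : ℂ), (m.1.2)⁻¹) : E) ∈ Ku j := by
          rw [hKu]
          refine ⟨?_, ?_, h3⟩
          · show ‖(0 : ℂ)‖ ≤ D.r / 4
            rw [norm_zero]
            positivity
          · show ‖(0 : ℂ) * (m.1.2)⁻¹‖ ≤ D.r / 4
            rw [zero_mul, norm_zero]
            positivity
        have hx : ((((0 : ℂ), (m.1.2)⁻¹), m.2 / m.1.2) : E × ℂ) ∈ H.MM (.u j κ) := by
          refine ⟨dKu j κ hK, ?_⟩
          have h4 := hm.2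
          have h5 : m.1 = (0, m.1.2) := Prod.ext hq rfl
          have h6 := H.Tp5_sg j κ (inv_ne_zero ht0)
          rw [inv_inv, ← h5, ← h4] at h6
          show (m.2 / m.1.2) ^ 6 = H.sg (.u j κ) (0, (m.1.2)⁻¹)
          rw [h6, div_pow, inv_pow]
          field_simp
        refine Or.inr (Or.inl (Set.mem_iUnion.2 ⟨(j, κ), ⟨.u j κ, ⟨_, hx⟩⟩, ⟨rfl, hK⟩, ?_⟩))
        refine ((H.pj_eq ⟨.w j κ, ⟨m, hm⟩⟩ ⟨.u j κ, ⟨_, hx⟩⟩).2 (Or.inr ⟨hq, rfl, rfl, ?_, ?_, ?_⟩)).symm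
        · show m.1.2 * (m.1.2)⁻¹ = 1 * 1
          rw [mul_inv_cancel₀ ht0, one_mul]
        · show m.1.2 * (m.2 / m.1.2) = m.2 * 1
          rw [mul_one, mul_div_cancel₀ _ ht0]
        · show (1 : ℂ) * (m.2 / m.1.2) = m.2 * (m.1.2)⁻¹
          rw [one_mul, div_eq_mul_inv]
  · obtain ⟨n, hn⟩ := Tp5_box D (D.bl a m.1)
    have hdm := D.bl_dm hm.1 hf
    by_cases hc : ∀ j n', D.r / 4 ≤ ‖D.bl a m.1 + D.v ((6 : ℤ) • n) - (D.c j + D.v n')‖
    · have hK : D.bl a m.1 + D.v ((6 : ℤ) • n) ∈ Km := by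
        rw [hKm]
        exact ⟨hn, hc⟩
      have hx : ((D.bl a m.1 + D.v ((6 : ℤ) • n), H.ε n (D.bl a m.1) * (fac a m.1 * m.2)) : E × ℂ) ∈
          H.MM .main := H.Tp5_mem hm n (dKm hK) one_ne_zero rfl (one_mul _)
      refine Or.inl ⟨⟨.main, ⟨_, hx⟩⟩, ⟨rfl, hK⟩, ?_⟩
      exact ((H.pj_eq ⟨a, ⟨m, hm⟩⟩ ⟨.main, ⟨_, hx⟩⟩).2 (Or.inl ⟨hf, one_ne_zero, n, rfl, one_mul _⟩)).symm
    · push Not at hc
      obtain ⟨j, n', hc⟩ := hc
      obtain ⟨κ, k, rfl⟩ := exists_emb n'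
      obtain ⟨p, hp⟩ : ∃ p : E, D.bl a m.1 + D.v ((6 : ℤ) • (n - k)) = D.cen j κ + p :=
        ⟨_, (add_sub_cancel _ _).symm⟩
      have hp' : D.bl a m.1 + D.v ((6 : ℤ) • n) - (D.c j + D.v (emb κ + (6 : ℤ) • k)) = p := by
        have h1 : D.v ((6 : ℤ) • n) = D.v ((6 : ℤ) • (n - k)) + D.v ((6 : ℤ) • k) := by
          rw [← D.v_add, ← smul_add, sub_add_cancel]
        have h2 : p = D.bl a m.1 + D.v ((6 : ℤ) • (n - k)) - D.cen j κ := by
          rw [hp, add_sub_cancel_left]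
        rw [h1, h2, D.v_add]
        unfold Curve.cen
        abel
      rw [hp'] at hc
      have hp1 : ‖p.1‖ < D.r / 4 := (norm_fst_le p).trans_lt hc
      have hp2 : ‖p.2‖ < D.r / 4 := (norm_snd_le p).trans_lt hc
      have hp0 : p ≠ 0 := by
        intro h
        rw [h, add_zero] at hp
        refine hdm j (emb κ + -((6 : ℤ) • (n - k))) ?_
        rw [D.v_add, D.v_neg, ← add_assoc]
        have h3 : D.bl a m.1 = D.cen j κ - D.v ((6 : ℤ) • (n - k)) := by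
          rw [← hp, add_sub_cancel_right]
        rw [h3, sub_eq_add_neg]
        rfl
      by_cases h : ‖p.2‖ ≤ 2 * D.rad j * ‖p.1‖
      · have p1 : p.1 ≠ 0 := by
          intro h4
          rw [h4, norm_zero, mul_zero] at h
          exact hp0 (Prod.ext h4 (norm_le_zero_iff.1 h))
        have e : p.1 * (p.2 / p.1) = p.2 := mul_div_cancel₀ _ p1
        have hK : ((p.1, p.2 / p.1) : E) ∈ Ku j := by
          rw [hKu]
          refine ⟨hp1.le, ?_, ?_⟩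
          · show ‖p.1 * (p.2 / p.1)‖ ≤ D.r / 4
            rw [e]
            exact hp2.le
          · show ‖p.2 / p.1‖ ≤ 2 * D.rad j
            rw [norm_div, div_le_iff₀ (norm_pos_iff.2 p1)]
            exact h
        have hb : D.bl (.u j κ) (p.1, p.2 / p.1) = D.bl a m.1 + D.v ((6 : ℤ) • (n - k)) := by
          rw [hp]
          show D.cen j κ + (p.1, p.1 * (p.2 / p.1)) = D.cen j κ + p
          rw [e]
        have hm2 : fac (.u j κ) (p.1, p.2 / p.1) * (H.ε (n - k) (D.bl a m.1) * (fac a m.1 * m.2) / p.1) =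
            H.ε (n - k) (D.bl a m.1) * (fac a m.1 * m.2) := mul_div_cancel₀ _ p1
        have hx : (((p.1, p.2 / p.1), H.ε (n - k) (D.bl a m.1) * (fac a m.1 * m.2) / p.1) : E × ℂ) ∈
            H.MM (.u j κ) := H.Tp5_mem hm (n - k) (dKu j κ hK) p1 hb hm2
        refine Or.inr (Or.inl (Set.mem_iUnion.2 ⟨(j, κ), ⟨.u j κ, ⟨_, hx⟩⟩, ⟨rfl, hK⟩, ?_⟩))
        exact ((H.pj_eq ⟨a, ⟨m, hm⟩⟩ ⟨.u j κ, ⟨_, hx⟩⟩).2 (Or.inl ⟨hf, p1, n - k, hb, hm2⟩)).symm
      · rw [not_le] at h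
        have p2 : p.2 ≠ 0 := by
          intro h4
          rw [h4, norm_zero] at h
          have h5 := Tp5_rad D j
          have h6 := norm_nonneg p.1
          nlinarith
        have e : p.2 * (p.1 / p.2) = p.1 := mul_div_cancel₀ _ p2
        have hK : ((p.2, p.1 / p.2) : E) ∈ Kw j := by
          rw [hKw]
          refine ⟨hp2.le, ?_, ?_⟩
          · show ‖p.2 * (p.1 / p.2)‖ ≤ D.r / 4
            rw [e]
            exact hp1.le
          · show 2 * D.rad j * ‖p.1 / p.2‖ ≤ 1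
            rw [norm_div, ← mul_div_assoc, div_le_one (norm_pos_iff.2 p2)]
            exact h.le
        have hb : D.bl (.w j κ) (p.2, p.1 / p.2) = D.bl a m.1 + D.v ((6 : ℤ) • (n - k)) := by
          rw [hp]
          show D.cen j κ + (p.2 * (p.1 / p.2), p.2) = D.cen j κ + p
          rw [e]
        have hm2 : fac (.w j κ) (p.2, p.1 / p.2) * (H.ε (n - k) (D.bl a m.1) * (fac a m.1 * m.2) / p.2) =
            H.ε (n - k) (D.bl a m.1) * (fac a m.1 * m.2) := mul_div_cancel₀ _ p2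
        have hx : (((p.2, p.1 / p.2), H.ε (n - k) (D.bl a m.1) * (fac a m.1 * m.2) / p.2) : E × ℂ) ∈
            H.MM (.w j κ) := H.Tp5_mem hm (n - k) (dKw j κ hK) p2 hb hm2
        refine Or.inr (Or.inr (Set.mem_iUnion.2 ⟨(j, κ), ⟨.w j κ, ⟨_, hx⟩⟩, ⟨rfl, hK⟩, ?_⟩))
        exact ((H.pj_eq ⟨a, ⟨m, hm⟩⟩ ⟨.w j κ, ⟨_, hx⟩⟩).2 (Or.inl ⟨hf, p2, n - k, hb, hm2⟩)).symm

end Cov

end Pool.Agent.Helper67.SY
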